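import Mathlib

/-!
# Dis (size S-M): the conditional laws are invariant

`ρ := condDistrib id Λ μ`, `κ := μ.map Λ`; `κ ⊗ₘ ρ = μ.map (fun x => (Λ x, x))` (`compProd_map_condDistrib`). Show `κ ⊗ₘ (S ∘ₖ ρ) = κ ⊗ₘ ρ`: on a
measurable rectangle `B ×ˢ A` (`Measure.ext_prod`/`ext_of_generate_finite` with `isPiSystem_prod`; or `Measure.compProd_apply_prod`), the left side is
`∫⁻ v in B, ∫⁻ x, S x A ∂(ρ v) ∂κ = ∫⁻ p in B ×ˢ univ, S p.2 A ∂(κ ⊗ₘ ρ) = ∫⁻ x in Λ ⁻¹' B, S x A ∂μ = ((μ.restrict (Λ ⁻¹' B)).bind S) A`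
`= μ (A ∩ Λ ⁻¹' B)` by hypothesis, which is the right side. Then `S ∘ₖ ρ =ᵐ[κ] ρ`: uniqueness of disintegrations
(`condDistrib_ae_eq_of_measure_eq_compProd`, or `Kernel.ae_eq_of_compProd_eq`).
-/

set_option autoImplicit false

open MeasureTheory ProbabilityTheory Filter Topology
open scoped NNReal ENNReal

namespace Pool.MP4bb68cCl

theorem dis {X : Type} [MeasurableSpace X] [StandardBorelSpace X] [Nonempty X] {μ : Measure X}
    [IsProbabilityMeasure μ] {Λ : X → ℝ} (hΛ : Measurable Λ) (S : Kernel X X) [IsMarkovKernel S]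
    (h : ∀ B : Set ℝ, MeasurableSet B →
      (μ.restrict (Λ ⁻¹' B)).bind S = μ.restrict (Λ ⁻¹' B)) :
    ∀ᵐ v ∂(μ.map Λ), (condDistrib id Λ μ v).bind S = condDistrib id Λ μ v := by
  have : IsProbabilityMeasure (μ.map Λ) := Measure.isProbabilityMeasure_map hΛ.aemeasurable
  have hd : (μ.map Λ) ⊗ₘ condDistrib id Λ μ = μ.map (fun x => (Λ x, x)) := by
    exact compProd_map_condDistrib (X := Λ) (Y := id) (μ := μ) aemeasurable_id
  have hpair : Measurable fun x : X => (Λ x, x) := hΛ.prodMk measurable_id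
  have key : (μ.map Λ) ⊗ₘ (S ∘ₖ condDistrib id Λ μ) = (μ.map Λ) ⊗ₘ condDistrib id Λ μ := by
    refine Measure.ext_prod ?_
    intro B A hB hA
    have hSA : Measurable fun p : ℝ × X => S p.2 A := (S.measurable_coe hA).comp measurable_snd
    rw [Measure.compProd_apply_prod hB hA]
    have e1 : ∀ v, (S ∘ₖ condDistrib id Λ μ) v A = ∫⁻ x, S x A ∂(condDistrib id Λ μ v) := by
      intro v
      rw [Kernel.comp_apply' _ _ _ hA]
    simp only [e1]
    have e2 : ∫⁻ v in B, ∫⁻ x, S x A ∂(condDistrib id Λ μ v) ∂(μ.map Λ)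
        = ∫⁻ p in B ×ˢ Set.univ, S p.2 A ∂((μ.map Λ) ⊗ₘ condDistrib id Λ μ) := by
      rw [Measure.setLIntegral_compProd hSA hB MeasurableSet.univ]
      simp
    rw [e2, hd]
    have e3 : ∫⁻ p in B ×ˢ Set.univ, S p.2 A ∂(μ.map (fun x => (Λ x, x)))
        = ∫⁻ x in Λ ⁻¹' B, S x A ∂μ := by
      rw [setLIntegral_map (hB.prod MeasurableSet.univ) hSA hpair]
      have : (fun x : X => (Λ x, x)) ⁻¹' (B ×ˢ Set.univ) = Λ ⁻¹' B := by
        ext x; simp
      rw [this]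
    rw [e3, Measure.map_apply hpair (hB.prod hA)]
    have e4 : ∫⁻ x in Λ ⁻¹' B, S x A ∂μ = ((μ.restrict (Λ ⁻¹' B)).bind S) A := by
      rw [Measure.bind_apply hA S.measurable.aemeasurable]
    rw [e4, h B hB, Measure.restrict_apply hA]
    congr 1
    ext x
    simp [and_comm]
  have := Kernel.ae_eq_of_compProd_eq key
  filter_upwards [this] with v hv
  rw [← Kernel.comp_apply, hv]

end Pool.MP4bb68cCl
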