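import Pool.Agent.Work.MP_4bb68c_cl.Defs

/-!
# Fm: the set of slopes and the family of laws (FIXED)
-/

set_option autoImplicit false

open MeasureTheory ProbabilityTheory Filter Topology
open scoped NNReal ENNReal

namespace Pool.MP4bb68cCl

open Pool.MP4bb68c Pool.MP4bb68cOne

/-- The set of the slopes. -/
def JJ : Set ℝ := {v | ∃ μ : Measure (Height 1), InvLaw μ ∧ SlpAS μ v}

open Classical in
/-- The stationary law with slope `v` (for `v ∈ JJ`). -/
noncomputable def mu (v : ℝ) : Measure (Height 1) :=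
  if h : v ∈ JJ then h.choose else Measure.dirac 0

theorem mu_spec {v : ℝ} (hv : v ∈ JJ) : InvLaw (mu v) ∧ SlpAS (mu v) v := by
  unfold mu
  rw [dif_pos hv]
  exact hv.choose_spec

theorem mu_of_notMem {v : ℝ} (hv : v ∉ JJ) : mu v = Measure.dirac 0 := by
  unfold mu
  rw [dif_neg hv]

instance instProbMu (v : ℝ) : IsProbabilityMeasure (mu v) := by
  by_cases hv : v ∈ JJ
  · exact (mu_spec hv).1.prob
  · rw [mu_of_notMem hv]
    infer_instance

end Pool.MP4bb68cCl
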