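import Mathlib
import Pool.Agent.Work.MP_4bb68c_pr.Defs
import Pool.Agent.Work.MP_4bb68c_pr.Run
import Pool.Agent.Work.MP_4bb68c_pr.Chain
import Pool.Agent.Work.MP_4bb68c_pr.Avg
import Pool.Agent.Work.MP_4bb68c_pr.Approx
import Pool.Agent.Work.MP_4bb68c_pr.Stat
import Pool.Agent.Work.MP_4bb68c_pr.Slope
import Pool.Agent.Work.MP_4bb68c_pr.Family
import Pool.Agent.Work.MP_4bb68c_d1.Basic

/-!
# Stationary laws of ballistic deposition on `ℤ`: definitions (FIXED, do not edit)

Increments `η : ℤ → ℤ` (`η x` is the increment over the bond from `x` to `x + 1`), the synchronous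
evolution in the increments, pairs of evolutions with the same updates, the loss of total variation
of the difference, words of updates.
-/

set_option autoImplicit false

open MeasureTheory ProbabilityTheory Filter Topology
open scoped NNReal ENNReal

namespace Pool.MP4bb68cCl

open Pool.MP4bb68c Pool.MP4bb68cOne

/-- Increments of functions on `ℤ`. -/
abbrev Inc : Type := ℤ → ℤ

/-- The increments of a function on `ℤ`. -/
def gr (h : ℤ → ℤ) : Inc := fun x => h (x + 1) - h x

/-- The function which is zero at zero and has the increments `η`. -/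
def pr (η : Inc) : ℤ → ℤ := fun x =>
  if 0 ≤ x then ∑ i ∈ Finset.range x.toNat, η i else -∑ i ∈ Finset.range (-x).toNat, η (-1 - i)

/-- Simultaneous update of the sites `x` with `b x = true`. -/
def up (b : ℤ → Bool) (h : ℤ → ℤ) : ℤ → ℤ := fun x =>
  if b x = true then max (h x + 1) (max (h (x + 1)) (h (x - 1))) else h x

/-- The same for the increments. -/
def ng (b : ℤ → Bool) (η : Inc) : Inc := fun x =>
  (if b (x + 1) = true then max (η x + 1) (max (η x + η (x + 1)) 0) else η x) -
    (if b x = true then max 1 (max (η x) (-η (x - 1))) else 0)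

/-- The maximum of two families of increments. -/
def mx (η η' : Inc) : Inc := fun x => max (η x) (η' x)

/-- The loss of total variation of the difference at the bond from `x` to `x + 1`. -/
def loss (b : ℤ → Bool) (η η' : Inc) (x : ℤ) : ℤ :=
  2 * ng b (mx η η') x - ng b η x - ng b η' x - |ng b η' x - ng b η x|

/-- The slot variables on `ℤ`. -/
def zb (ξ : Site 1 → Bool) : ℤ → Bool := fun x => ξ (pt x)

/-- One slot for the increments. -/
def istep (ξ : Site 1 → Bool) (η : Inc) : Inc := ng (zb ξ) η

/-- The increments after `j` slots; the slot `0` is the FIRST one in time. -/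
def ifw (ξ : ℕ → Site 1 → Bool) (η : Inc) : ℕ → Inc
  | 0 => η
  | j + 1 => istep (ξ j) (ifw ξ η j)

/-- The heights after `j` slots; the slot `0` is the FIRST one in time. -/
def hfw (ξ : ℕ → Site 1 → Bool) (h : ℤ → ℤ) : ℕ → ℤ → ℤ
  | 0 => h
  | j + 1 => up (zb (ξ j)) (hfw ξ h j)

/-- The total loss during `k` slots at the bond from `x` to `x + 1`. -/
def BL (k : ℕ) (ξ : ℕ → Site 1 → Bool) (η η' : Inc) (x : ℤ) : ℤ :=
  ∑ j ∈ Finset.range k, loss (zb (ξ j)) (ifw ξ η j) (ifw ξ η' j) x

/-- The increments of a height function on the one-dimensional lattice. -/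
def incr (g : Height 1) : Inc := fun x => g (pt (x + 1)) - g (pt x)

/-- The law of a pair of families of increments after `j` slots of length `δ` (the same slot
variables for both). -/
noncomputable def PI (π : Measure (Inc × Inc)) (δ : ℝ≥0) (j : ℕ) : Measure (Inc × Inc) :=
  (π.prod (arrLaw 1 δ)).map (fun p => (ifw p.2 p.1.1 j, ifw p.2 p.1.2 j))

/-- The expected absolute difference of the two increments at zero. -/
noncomputable def DD (π : Measure (Inc × Inc)) : ℝ≥0∞ :=
  ∫⁻ p, ((p.2 0 - p.1 0).natAbs : ℝ≥0∞) ∂π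

/-- The shift of the increments. -/
def sh (η : Inc) : Inc := fun x => η (x + 1)

/-- The law of a pair is invariant under the shift. -/
def ShInv (π : Measure (Inc × Inc)) : Prop := π.map (fun p => (sh p.1, sh p.2)) = π

/-- The updates of the sites of `W` in the slots `0, ..., k - 1` are, one at a time, the letters
of the word `σ`. -/
def Sched (W : Finset ℤ) : ℕ → List ℤ → (ℕ → Site 1 → Bool) → Prop
  | 0, σ, _ => σ = []
  | k + 1, σ, ξ => ((∀ x ∈ W, ξ 0 (pt x) = false) ∧ Sched W k σ (fun j => ξ (j + 1))) ∨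
      ∃ s σ', σ = s :: σ' ∧ (∀ x ∈ W, (ξ 0 (pt x) = true ↔ x = s)) ∧
        Sched W k σ' (fun j => ξ (j + 1))

/-- The update of one site. -/
def up1 (s : ℤ) (h : ℤ → ℤ) : ℤ → ℤ := up (fun x => decide (x = s)) h

/-- The successive updates of the letters of a word. -/
def wd : List ℤ → (ℤ → ℤ) → ℤ → ℤ
  | [], h => h
  | s :: σ, h => wd σ (up1 s h)

/-- The word: `-1` (`K + 1` times), then `0, 1, ..., N - 1`. -/
def sig (K N : ℕ) : List ℤ :=
  List.replicate (K + 1) (-1) ++ (List.range N).map (fun i : ℕ => (i : ℤ))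

/-- The difference of the increments takes both signs on the bonds `0, ..., N - 1`. -/
def NM (N : ℕ) (η η' : Inc) : Prop :=
  (∃ x : ℤ, 0 ≤ x ∧ x < N ∧ η x < η' x) ∧ (∃ x : ℤ, 0 ≤ x ∧ x < N ∧ η' x < η x)

/-- The heights are bounded by `K` on `-2, ..., N`. -/
def Bdh (N K : ℕ) (η : Inc) : Prop := ∀ x : ℤ, -2 ≤ x → x ≤ N → |pr η x| ≤ K

/-- The pairs for which the word `sig (2 * K) N` reduces the total variation. -/
def GG (N K : ℕ) : Set (Inc × Inc) := {p | NM N p.1 p.2 ∧ Bdh N K p.1 ∧ Bdh N K p.2}

/-- `A` depends only on the increments over the bonds `-M, ..., M - 1`. -/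
def DepOn (M : ℕ) (A : Set Inc) : Prop :=
  ∀ η η' : Inc, (∀ x : ℤ, -M ≤ x → x < M → η x = η' x) → (η ∈ A ↔ η' ∈ A)

/-- Stationary probability measures with translation invariant increments and integrable
heights. -/
structure InvLaw (μ : Measure (Height 1)) : Prop where
  prob : IsProbabilityMeasure μ
  stat : IsStationary μ
  inv : ∀ y : Site 1, μ.map (recenter y) = μ
  int : ∀ x : Site 1, Integrable (fun g : Height 1 => (g x : ℝ)) μ

/-- The asymptotic slope is `v`, in probability. -/
def Slp (μ : Measure (Height 1)) (v : ℝ) : Prop :=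
  ∀ ε : ℝ, 0 < ε →
    Tendsto (fun n : ℕ => μ.real {g : Height 1 | ε * n < |(g (pt n) : ℝ) - v * n|}) atTop (𝓝 0)

/-- The asymptotic slope is `v`, almost surely. -/
def SlpAS (μ : Measure (Height 1)) (v : ℝ) : Prop :=
  ∀ᵐ g ∂μ, Tendsto (fun n : ℕ => ((g (pt n) : ℤ) : ℝ) / n) atTop (𝓝 v)

/-- The asymptotic slope of a height function. -/
noncomputable def lam (g : Height 1) : ℝ := limUnder atTop fun n : ℕ => ((g (pt n) : ℤ) : ℝ) / n

end Pool.MP4bb68cCl
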