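import Mathlib
import Pool.Agent.Work.MP_4bb68c_cl.Defs

/-!
# MODULE KerA0 (M): the law at time `t` is approximated by the synchronous updates

`DepB B A`: `A` depends only on the heights of the sites of `B`.

PROOF of `kerA0`. `Pool.MP4bb68c.approx hclk (q := 1) one_pos ht B hε` (file
`Work/MP_4bb68c_pr/Approx.lean`) gives `n₀` and for all `n ≥ n₀`, `f`, `H` a measurable `X` with
`P.map X = lawK d (replicate ..) f` and `P {ω | ∃ x ∈ B, H ω t x ≠ X ω x} ≤ ofReal ε`.
`{H ω t ∈ A}` and `{X ω ∈ A}` differ only on that event (`hA`), so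
`|P.real {ω | H ω t ∈ A} - P.real {ω | X ω ∈ A}| ≤ ε` (`measureReal_mono`,
`measureReal_union_le` as in `isStationary_of_tendsto`, file `Stat.lean`, `s1`, `s2`; these hold
without measurability), and `P.real {ω | X ω ∈ A} = (P.map X).real A`
(`map_measureReal_apply`).

PROOF of `kerA0_cont`. The function is the uniform limit of continuous functions:
`f ↦ (lawK d l f).real (cyl B c) = ∫ h, ind B c h ∂(lawK d l f)` (`integral_ind`) is continuous
(`continuous_integral_lawK (continuous_ind B c) (ind_abs_le B c) l`);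
`continuous_of_uniform_approx_of_continuous` as in `isStationary_of_tendsto`, `hcont`.
Use `kerA0` with `A = cyl B c` (`measurableSet_cyl`).
-/

set_option autoImplicit false

open MeasureTheory ProbabilityTheory Filter Topology
open scoped NNReal ENNReal

namespace Pool.MP4bb68cCl

open Pool.MP4bb68c

variable {d : ℕ}

/-- `A` depends only on the heights of the sites of `B`. -/
def DepB (B : Finset (Site d)) (A : Set (Height d)) : Prop :=
  ∀ h h' : Height d, (∀ x ∈ B, h x = h' x) → (h ∈ A ↔ h' ∈ A)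

/-- The law after `⌊t / δ⌋` slots of length `δ = 2⁻ⁿ`. -/
noncomputable def La (d : ℕ) (t : ℝ) (n : ℕ) (f : Height d) : Measure (Height d) :=
  lawK d (List.replicate ⌊t / (dl 1 n : ℝ)⌋₊ (dl 1 n)) f

theorem depB_cyl (B : Finset (Site d)) (c : Site d → ℤ) : DepB B (cyl B c) := by
  intro h h' e
  constructor
  · intro hh x hx
    rw [← e x hx]
    exact hh x hx
  · intro hh x hx
    rw [e x hx]
    exact hh x hx

theorem kerA0 {Ω : Type} [MeasurableSpace Ω] {P : Measure Ω} [IsProbabilityMeasure P]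
    {upd : Ω → Site d → Set ℝ} (hclk : IsPoissonClocks P upd) {t : ℝ} (ht : 0 < t)
    (B : Finset (Site d)) {ε : ℝ} (hε : 0 < ε) :
    ∃ n₀ : ℕ, ∀ n ≥ n₀, ∀ (f : Height d) (H : Ω → ℝ → Height d),
      (∀ᵐ ω ∂P, IsEvolution (upd ω) f (H ω)) → ∀ A : Set (Height d), MeasurableSet A →
      DepB B A → |P.real {ω | H ω t ∈ A} - (La d t n f).real A| ≤ ε := by
  classical
  obtain ⟨n₀, hn₀⟩ := approx hclk (q := 1) one_pos ht B hε
  refine ⟨n₀, fun n hn f H hH A hA hdep => ?_⟩
  obtain ⟨Y, hY, hmap, hP⟩ := hn₀ n hn f H hH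
  have e2 : (La d t n f).real A = P.real {ω | Y ω ∈ A} := by
    unfold La
    rw [← hmap, map_measureReal_apply hY hA]
    rfl
  rw [e2]
  set Bad : Set Ω := {ω | ∃ x ∈ B, H ω t x ≠ Y ω x} with hBad
  have hBadr : P.real Bad ≤ ε := by
    rw [measureReal_def]
    exact ENNReal.toReal_le_of_le_ofReal hε.le hP
  have hiff : ∀ ω, ω ∉ Bad → (H ω t ∈ A ↔ Y ω ∈ A) := by
    intro ω hω
    refine hdep _ _ fun x hx => ?_
    by_contra hne
    exact hω ⟨x, hx, hne⟩
  have s1 : P.real {ω | H ω t ∈ A} ≤ P.real {ω | Y ω ∈ A} + P.real Bad := by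
    refine (measureReal_mono ?_ (measure_ne_top _ _)).trans (measureReal_union_le _ _)
    intro ω hω
    by_cases hb : ω ∈ Bad
    · exact Or.inr hb
    · exact Or.inl ((hiff ω hb).1 hω)
  have s2 : P.real {ω | Y ω ∈ A} ≤ P.real {ω | H ω t ∈ A} + P.real Bad := by
    refine (measureReal_mono ?_ (measure_ne_top _ _)).trans (measureReal_union_le _ _)
    intro ω hω
    by_cases hb : ω ∈ Bad
    · exact Or.inr hb
    · exact Or.inl ((hiff ω hb).2 hω)
  rw [abs_le]
  constructor <;> linarith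

theorem kerA0_cont {Ω : Type} [MeasurableSpace Ω] {P : Measure Ω} [IsProbabilityMeasure P]
    {upd : Ω → Site d → Set ℝ} (hclk : IsPoissonClocks P upd) {t : ℝ} (ht : 0 < t)
    {H : Height d → Ω → ℝ → Height d} (hH : ∀ f, ∀ᵐ ω ∂P, IsEvolution (upd ω) f (H f ω))
    (B : Finset (Site d)) (c : Site d → ℤ) :
    Continuous fun f => P.real {ω | H f ω t ∈ cyl B c} := by
  refine continuous_of_uniform_approx_of_continuous fun u hu => ?_
  obtain ⟨ε, hε, hεu⟩ := Metric.mem_uniformity_dist.1 hu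
  obtain ⟨n₀, hn₀⟩ := kerA0 hclk ht B (half_pos hε)
  have hc : Continuous fun f => (La d t n₀ f).real (cyl B c) := by
    have h1 : (fun f => (La d t n₀ f).real (cyl B c)) = fun f =>
        ∫ h, ind B c h ∂(lawK d (List.replicate ⌊t / (dl 1 n₀ : ℝ)⌋₊ (dl 1 n₀)) f) := by
      funext f
      rw [integral_ind]
      rfl
    rw [h1]
    exact continuous_integral_lawK (continuous_ind B c) (C := 1) (ind_abs_le B c) _
  refine ⟨_, hc, fun f => hεu ?_⟩
  rw [Real.dist_eq]
  have h2 := hn₀ n₀ le_rfl f (H f) (hH f) (cyl B c) (measurableSet_cyl B c) (depB_cyl B c)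
  exact h2.trans_lt (by linarith)

end Pool.MP4bb68cCl
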