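import Mathlib
import Pool.Agent.Work.MP_4bb68c_pr.Clocks
import Pool.Agent.Work.MP_4bb68c_pr.Evol
import Pool.Agent.Work.MP_4bb68c_cl.KerA0

/-!
# MODULE KerA (M-L): the transition kernel of ballistic deposition (absolute heights)

PROOF. `exists_clocks d` (file `Work/MP_4bb68c_pr/Clocks.lean`) gives one probability space
`(Ω₀, P₀)` with clocks `upd₀`; by `ae_existsUnique_evolution` (file `Evol.lean`) a.s. every `f`
has an evolution, choose `H₀ f ω` (`if h : ∃ h, IsEvolution (upd₀ ω) f h then h.choose else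
fun _ => f`); so `∀ f, ∀ᵐ ω ∂P₀, IsEvolution (upd₀ ω) f (H₀ f ω)`. Put
`K₀ f = P₀.map (fun ω => H₀ f ω t)`; `aemeasurable_height` (file `Stat.lean`) gives
a.e. measurability, so `K₀ f` is a probability measure
(`Measure.isProbabilityMeasure_map`) and `(K₀ f).real A = P₀.real {ω | H₀ f ω t ∈ A}` for
measurable `A` (`Measure.map_apply_of_aemeasurable`).
Measurability of `K₀`: `Measurable.measure_of_isPiSystem_of_isProbabilityMeasure
(S := cyls d) generateFrom_cyls isPiSystem_cyls` and `kerA0_cont` (exactly as `hmeasK` in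
`isStationary_of_tendsto`, file `Stat.lean`). `K := ⟨K₀, hmeas⟩`, `IsMarkovKernel`.
(2) is `kerA0_cont`; (3) is `kerA0` for `(Ω₀, P₀, upd₀, H₀)`.
(1) for another space `(Ω, P, upd, H)`: `AEMeasurable` is `aemeasurable_height`; for a basic
cylinder `A = cyl B c` and `ε > 0` take `n` large for both spaces: `kerA0` for both gives
`|(P.map (H t)).real A - (K f).real A| ≤ 2 ε`; so they are equal for all `B, c`, and
`ext_of_generate_finite (cyls d) generateFrom_cyls isPiSystem_cyls` gives equality.
(Universes: `exists_clocks` and `IsStationary` use `Ω : Type`.)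
-/

set_option autoImplicit false

open MeasureTheory ProbabilityTheory Filter Topology
open scoped NNReal ENNReal

namespace Pool.MP4bb68cCl

open Pool.MP4bb68c

/-- The properties of the transition kernel at time `t`. -/
structure IsKer (d : ℕ) (t : ℝ) (K : Kernel (Height d) (Height d)) : Prop where
  markov : IsMarkovKernel K
  law : ∀ (Ω : Type) [MeasurableSpace Ω] (P : Measure Ω) [IsProbabilityMeasure P]
    (upd : Ω → Site d → Set ℝ), IsPoissonClocks P upd →
    ∀ (f : Height d) (H : Ω → ℝ → Height d), (∀ᵐ ω ∂P, IsEvolution (upd ω) f (H ω)) →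
    AEMeasurable (fun ω => H ω t) P ∧ P.map (fun ω => H ω t) = K f
  cont : ∀ (B : Finset (Site d)) (c : Site d → ℤ), Continuous fun f => (K f).real (cyl B c)
  appr : ∀ (B : Finset (Site d)) (ε : ℝ), 0 < ε → ∃ n₀ : ℕ, ∀ n ≥ n₀, ∀ (f : Height d)
    (A : Set (Height d)), MeasurableSet A → DepB B A → |(K f).real A - (La d t n f).real A| ≤ ε

theorem exists_kernel (d : ℕ) {t : ℝ} (ht : 0 < t) :
    ∃ K : Kernel (Height d) (Height d), IsKer d t K := by
  classical
  obtain ⟨Ω₀, _, P₀, upd₀, hP₀, hclk₀⟩ := exists_clocks d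
  obtain ⟨H₀, hH₀⟩ : ∃ H₀ : Height d → Ω₀ → ℝ → Height d,
      ∀ f, ∀ᵐ ω ∂P₀, IsEvolution (upd₀ ω) f (H₀ f ω) := by
    refine ⟨fun f ω => if h : ∃ h, IsEvolution (upd₀ ω) f h then h.choose else fun _ => f,
      fun f => ?_⟩
    filter_upwards [ae_existsUnique_evolution hclk₀] with ω hω
    obtain ⟨h, hh, _⟩ := hω f
    have hex : ∃ h, IsEvolution (upd₀ ω) f h := ⟨h, hh⟩
    rw [dif_pos hex]
    exact hex.choose_spec
  have haem : ∀ f, AEMeasurable (fun ω => H₀ f ω t) P₀ := fun f =>
    aemeasurable_height hclk₀ (hH₀ f) ht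
  obtain ⟨K₀, hK₀⟩ : ∃ K₀ : Height d → Measure (Height d),
      K₀ = fun f => P₀.map (fun ω => H₀ f ω t) := ⟨_, rfl⟩
  have hprob : ∀ f, IsProbabilityMeasure (K₀ f) := fun f => by
    rw [hK₀]
    exact Measure.isProbabilityMeasure_map (haem f)
  have hreal : ∀ f (A : Set (Height d)), MeasurableSet A →
      (K₀ f).real A = P₀.real {ω | H₀ f ω t ∈ A} := fun f A hA => by
    rw [hK₀, measureReal_def, measureReal_def, Measure.map_apply_of_aemeasurable (haem f) hA]
    rfl
  have hcont : ∀ (B : Finset (Site d)) (c : Site d → ℤ),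
      Continuous fun f => (K₀ f).real (cyl B c) := fun B c => by
    have h1 := kerA0_cont hclk₀ ht hH₀ B c
    have e : (fun f => (K₀ f).real (cyl B c)) = fun f => P₀.real {ω | H₀ f ω t ∈ cyl B c} :=
      funext fun f => hreal f _ (measurableSet_cyl B c)
    rw [e]
    exact h1
  have hmeas : Measurable K₀ := by
    refine Measurable.measure_of_isPiSystem_of_isProbabilityMeasure (S := cyls d)
      generateFrom_cyls isPiSystem_cyls ?_
    rintro _ ⟨B, c, rfl⟩
    have : (fun g => K₀ g (cyl B c)) = fun g => ENNReal.ofReal ((K₀ g).real (cyl B c)) := by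
      ext g
      rw [measureReal_def, ENNReal.ofReal_toReal (measure_ne_top _ _)]
    rw [this]
    exact (hcont B c).measurable.ennreal_ofReal
  refine ⟨⟨K₀, hmeas⟩, ⟨⟨hprob⟩, ?_, hcont, ?_⟩⟩
  · intro Ω _ P _ upd hclk f H hH
    have haem' : AEMeasurable (fun ω => H ω t) P := aemeasurable_height hclk hH ht
    refine ⟨haem', ?_⟩
    have hp' : IsProbabilityMeasure (P.map (fun ω => H ω t)) :=
      Measure.isProbabilityMeasure_map haem'
    have hpf := hprob f
    change P.map (fun ω => H ω t) = K₀ f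
    refine ext_of_generate_finite (cyls d) generateFrom_cyls isPiSystem_cyls ?_ (by simp)
    rintro _ ⟨B, c, rfl⟩
    have hr : (P.map (fun ω => H ω t)).real (cyl B c) = (K₀ f).real (cyl B c) := by
      have e1 : (P.map (fun ω => H ω t)).real (cyl B c) = P.real {ω | H ω t ∈ cyl B c} := by
        rw [measureReal_def, measureReal_def,
          Measure.map_apply_of_aemeasurable haem' (measurableSet_cyl B c)]
        rfl
      rw [e1, hreal f _ (measurableSet_cyl B c)]
      refine eq_of_abs_sub_le_all fun ε hε => ?_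
      obtain ⟨n₁, h₁⟩ := kerA0 hclk ht B (ε := ε / 2) (by positivity)
      obtain ⟨n₂, h₂⟩ := kerA0 hclk₀ ht B (ε := ε / 2) (by positivity)
      have a1 := h₁ (max n₁ n₂) (le_max_left _ _) f H hH _ (measurableSet_cyl B c)
        (depB_cyl B c)
      have a2 := h₂ (max n₁ n₂) (le_max_right _ _) f (H₀ f) (hH₀ f) _ (measurableSet_cyl B c)
        (depB_cyl B c)
      rw [abs_le] at a1 a2 ⊢
      constructor <;> linarith [a1.1, a1.2, a2.1, a2.2]
    rw [measureReal_def, measureReal_def] at hr
    exact (ENNReal.toReal_eq_toReal_iff' (measure_ne_top _ _) (measure_ne_top _ _)).1 hr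
  · intro B ε hε
    obtain ⟨n₀, hn₀⟩ := kerA0 hclk₀ ht B hε
    refine ⟨n₀, fun n hn f A hA hB => ?_⟩
    change |(K₀ f).real A - (La d t n f).real A| ≤ ε
    rw [hreal f A hA]
    exact hn₀ n hn f (H₀ f) (hH₀ f) A hA hB

end Pool.MP4bb68cCl
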