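import Mathlib
import Pool.Agent.Work.MP_4bb68c_cl.KerA

/-!
# The transition kernels: definition and basic properties (FIXED, complete)
-/

set_option autoImplicit false

open MeasureTheory ProbabilityTheory Filter Topology
open scoped NNReal ENNReal

namespace Pool.MP4bb68cCl

open Pool.MP4bb68c

variable {d : ℕ}

open Classical in
/-- The transition kernel of ballistic deposition (absolute heights) at time `t`. -/
noncomputable def Ka (d : ℕ) (t : ℝ) : Kernel (Height d) (Height d) :=
  if ht : 0 < t then (exists_kernel d ht).choose else Kernel.id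

theorem isKer_Ka {t : ℝ} (ht : 0 < t) : IsKer d t (Ka d t) := by
  unfold Ka
  rw [dif_pos ht]
  exact (exists_kernel d ht).choose_spec

instance instMarkovKa (d : ℕ) (t : ℝ) : IsMarkovKernel (Ka d t) := by
  by_cases ht : 0 < t
  · exact (isKer_Ka ht).markov
  · unfold Ka
    rw [dif_neg ht]
    infer_instance

/-- The law at time `t` of an evolution from `f`. -/
theorem Ka_law {Ω : Type} [MeasurableSpace Ω] {P : Measure Ω} [IsProbabilityMeasure P]
    {upd : Ω → Site d → Set ℝ} (hclk : IsPoissonClocks P upd) {f : Height d}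
    {H : Ω → ℝ → Height d} (hH : ∀ᵐ ω ∂P, IsEvolution (upd ω) f (H ω)) {t : ℝ} (ht : 0 < t) :
    AEMeasurable (fun ω => H ω t) P ∧ P.map (fun ω => H ω t) = Ka d t f :=
  (isKer_Ka ht).law Ω P upd hclk f H hH

/-- The probability of an event at time `t` for an evolution from `f`. -/
theorem Ka_real {Ω : Type} [MeasurableSpace Ω] {P : Measure Ω} [IsProbabilityMeasure P]
    {upd : Ω → Site d → Set ℝ} (hclk : IsPoissonClocks P upd) {f : Height d}
    {H : Ω → ℝ → Height d} (hH : ∀ᵐ ω ∂P, IsEvolution (upd ω) f (H ω)) {t : ℝ} (ht : 0 < t)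
    {A : Set (Height d)} (hA : MeasurableSet A) :
    P {ω | H ω t ∈ A} = Ka d t f A ∧ P.real {ω | H ω t ∈ A} = (Ka d t f).real A := by
  obtain ⟨h1, h2⟩ := Ka_law hclk hH ht
  have h3 : P {ω | H ω t ∈ A} = Ka d t f A := by
    rw [← h2, Measure.map_apply_of_aemeasurable h1 hA]
    rfl
  refine ⟨h3, ?_⟩
  rw [measureReal_def, h3, measureReal_def]

theorem Ka_cont {t : ℝ} (ht : 0 < t) (B : Finset (Site d)) (c : Site d → ℤ) :
    Continuous fun f => (Ka d t f).real (cyl B c) := (isKer_Ka ht).cont B c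

theorem Ka_appr {t : ℝ} (ht : 0 < t) (B : Finset (Site d)) {ε : ℝ} (hε : 0 < ε) :
    ∃ n₀ : ℕ, ∀ n ≥ n₀, ∀ (f : Height d) (A : Set (Height d)), MeasurableSet A → DepB B A →
      |(Ka d t f).real A - (La d t n f).real A| ≤ ε := (isKer_Ka ht).appr B ε hε

/-- There are a probability space with clocks and evolutions for all initial functions. -/
theorem exists_space (d : ℕ) : ∃ (Ω : Type) (_ : MeasurableSpace Ω) (P : Measure Ω)
    (_ : IsProbabilityMeasure P) (upd : Ω → Site d → Set ℝ) (H : Height d → Ω → ℝ → Height d),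
    IsPoissonClocks P upd ∧ ∀ f, ∀ᵐ ω ∂P, IsEvolution (upd ω) f (H f ω) := by
  classical
  obtain ⟨Ω, m, P, upd, hP, hclk⟩ := exists_clocks d
  refine ⟨Ω, m, P, hP, upd, fun f ω => if h : ∃ h, IsEvolution (upd ω) f h then h.choose
    else fun _ => f, hclk, fun f => ?_⟩
  filter_upwards [ae_existsUnique_evolution hclk] with ω hω
  obtain ⟨h, h1, -⟩ := hω f
  have h2 : ∃ h, IsEvolution (upd ω) f h := ⟨h, h1⟩
  simp only [dif_pos h2]
  exact h2.choose_spec

/-- Two measures which agree on the basic cylinders are equal. -/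
theorem ext_cyl {μ ν : Measure (Height d)} [IsProbabilityMeasure μ] [IsProbabilityMeasure ν]
    (h : ∀ (B : Finset (Site d)) (c : Site d → ℤ), μ.real (cyl B c) = ν.real (cyl B c)) :
    μ = ν := by
  refine ext_of_generate_finite (cyls d) generateFrom_cyls isPiSystem_cyls ?_ (by simp)
  rintro _ ⟨B, c, rfl⟩
  have := h B c
  rw [measureReal_def, measureReal_def] at this
  exact (ENNReal.toReal_eq_toReal_iff' (measure_ne_top _ _) (measure_ne_top _ _)).1 this

end Pool.MP4bb68cCl
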