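import Mathlib
import Pool.Agent.Work.MP_4bb68c_cl.Ker

/-!
# MODULE KerB (M): stationarity in terms of the kernel

PROOF. (→) Take the space of `exists_space d`. For measurable `A`, `IsStationary μ` gives
`∫⁻ f, P {ω | seen (H f ω t) ∈ A} ∂μ = μ A`, and `P {ω | seen (H f ω t) ∈ A} =
Ka d t f (seen ⁻¹' A)` by `Ka_real` (`measurable_seen`). Finally
`(μ.bind (Ka d t)).map seen A = μ.bind (Ka d t) (seen ⁻¹' A) = ∫⁻ f, Ka d t f (seen ⁻¹' A) ∂μ`
(`Measure.map_apply`, `Measure.bind_apply`, `Kernel.aemeasurable`).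
(←) The same computation for an arbitrary space.
`kerB_real` : the real version for an event `A` (`integral_toReal`/`measureReal_def`,
or `Measure.bind_apply` and `lintegral`; the integrand is `≤ 1` and measurable:
`Kernel.measurable_coe`).
-/

set_option autoImplicit false

open MeasureTheory ProbabilityTheory Filter Topology
open scoped NNReal ENNReal

namespace Pool.MP4bb68cCl

open Pool.MP4bb68c

variable {d : ℕ}

private theorem kerB_bind {μ : Measure (Height d)} (t : ℝ) {A : Set (Height d)}
    (hA : MeasurableSet A) :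
    (μ.bind (Ka d t)).map seen A = ∫⁻ f, Ka d t f (seen ⁻¹' A) ∂μ := by
  rw [Measure.map_apply measurable_seen hA,
    Measure.bind_apply (measurable_seen hA) (Kernel.aemeasurable _)]

private theorem kerB_lint {μ : Measure (Height d)} {Ω : Type} [MeasurableSpace Ω]
    {P : Measure Ω} [IsProbabilityMeasure P] {upd : Ω → Site d → Set ℝ}
    (hclk : IsPoissonClocks P upd) {H : Height d → Ω → ℝ → Height d}
    (hH : ∀ f, ∀ᵐ ω ∂P, IsEvolution (upd ω) f (H f ω)) {t : ℝ} (ht : 0 < t)
    {A : Set (Height d)} (hA : MeasurableSet A) :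
    ∫⁻ f, P {ω | seen (H f ω t) ∈ A} ∂μ = (μ.bind (Ka d t)).map seen A := by
  rw [kerB_bind t hA]
  refine lintegral_congr fun f => ?_
  exact (Ka_real hclk (hH f) ht (measurable_seen hA)).1

theorem kerB {μ : Measure (Height d)} [IsProbabilityMeasure μ] :
    IsStationary μ ↔ ∀ t : ℝ, 0 < t → (μ.bind (Ka d t)).map seen = μ := by
  constructor
  · intro h t ht
    obtain ⟨Ω, m, P, hP, upd, H, hclk, hH⟩ := exists_space d
    ext A hA
    rw [← kerB_lint hclk hH ht hA]
    exact h Ω P upd hclk H hH t ht A hA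
  · intro h Ω _ P _ upd hclk H hH t ht A hA
    rw [kerB_lint hclk hH ht hA, h t ht]

theorem kerB_real {μ : Measure (Height d)} [IsProbabilityMeasure μ] (t : ℝ)
    {A : Set (Height d)} (hA : MeasurableSet A) :
    ((μ.bind (Ka d t)).map seen).real A = ∫ f, (Ka d t f).real (seen ⁻¹' A) ∂μ := by
  rw [measureReal_def, kerB_bind t hA, ← integral_toReal]
  · rfl
  · exact (Kernel.measurable_coe _ (measurable_seen hA)).aemeasurable
  · exact Filter.Eventually.of_forall fun f => measure_lt_top _ _

end Pool.MP4bb68cCl
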