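import Mathlib
import Pool.Agent.Work.MP_4bb68c_cl.Ker
import Pool.Agent.Work.MP_4bb68c_cl.KerB

/-!
# MODULE KerC (M): the kernel is Lipschitz in the time; rational times are enough

PROOF of `kerC`. Take the space of `exists_space d` and `H f ω`. By `Ka_real` the two numbers
are `P.real {ω | H f ω t ∈ A}` and `P.real {ω | H f ω s ∈ A}`. If `count (upd ω) x s t = 0` for
all `x ∈ B` and `H f ω` is an evolution, then `H f ω t x = H f ω s x` for `x ∈ B`
(`inter_eq_empty_of_count hclk.finite`, `IsEvolution.const`), so the events differ only on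
`⋃ x ∈ B, {ω | 0 < count (upd ω) x s t}` up to a null set, whose probability is at most
`B.card * (t - s)` (`prob_pos_le`, `measureReal_biUnion_finset_le`).

PROOF of `kerC_stat`. By `kerB` we need `(μ.bind (Ka d t)).map seen = μ` for every real
`t > 0`. By `ext_cyl` compare on `A = cyl B c`: by `kerB_real` the left side is
`g t = ∫ f, (Ka d t f).real (seen ⁻¹' A) ∂μ` and `seen ⁻¹' A` depends on `insert 0 B`, so
`|g t - g s| ≤ (insert 0 B).card * (t - s)` for `0 < s ≤ t` by `kerC`
(`norm_integral_le_of_norm_le_const`, integrands measurable by `Kernel.measurable_coe` and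
bounded by `1`). For rational `s > 0`, `g s = μ.real A`. Choose rational `s < t` with `t - s`
arbitrarily small: `g t = μ.real A`.
-/

set_option autoImplicit false

open MeasureTheory ProbabilityTheory Filter Topology
open scoped NNReal ENNReal

namespace Pool.MP4bb68cCl

open Pool.MP4bb68c

variable {d : ℕ}

theorem kerC {s t : ℝ} (hs : 0 < s) (hst : s ≤ t) (f : Height d) (B : Finset (Site d))
    {A : Set (Height d)} (hA : MeasurableSet A) (hB : DepB B A) :
    |(Ka d t f).real A - (Ka d s f).real A| ≤ B.card * (t - s) := by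
  classical
  obtain ⟨Ω, m, P, hP, upd, H, hclk, hH⟩ := exists_space d
  have ht : 0 < t := lt_of_lt_of_le hs hst
  have e1 := (Ka_real hclk (hH f) ht hA).2
  have e2 := (Ka_real hclk (hH f) hs hA).2
  set N : Set Ω := ⋃ x ∈ B, {ω | 0 < count (upd ω) x s t} with hN
  have hNle : P.real N ≤ B.card * (t - s) := by
    calc P.real N ≤ ∑ x ∈ B, P.real {ω | 0 < count (upd ω) x s t} :=
          measureReal_biUnion_finset_le B _
      _ ≤ ∑ _x ∈ B, (t - s) := Finset.sum_le_sum fun x _ => prob_pos_le hclk x hs.le hst
      _ = B.card * (t - s) := by rw [Finset.sum_const, nsmul_eq_mul]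
  have hiff : ∀ᵐ ω ∂P, ω ∉ N → (H f ω t ∈ A ↔ H f ω s ∈ A) := by
    filter_upwards [hH f] with ω hω hωN
    apply hB
    intro x hx
    have h1 : count (upd ω) x s t = 0 := by
      by_contra h2
      exact hωN (Set.mem_biUnion hx (Nat.pos_of_ne_zero h2))
    exact hω.const x s t hs.le hst (inter_eq_empty_of_count (hclk.finite ω) h1)
  have key : ∀ E E' : Set Ω, (∀ᵐ ω ∂P, ω ∉ N → ω ∈ E → ω ∈ E') →
      P.real E ≤ P.real E' + P.real N := by
    intro E E' h
    have h1 : P E ≤ P (E' ∪ N) := by
      apply measure_mono_ae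
      filter_upwards [h] with ω hω
      intro hE
      by_cases hn : ω ∈ N
      · exact Or.inr hn
      · exact Or.inl (hω hn hE)
    have h2 : P.real E ≤ P.real (E' ∪ N) := ENNReal.toReal_mono (measure_ne_top _ _) h1
    exact h2.trans (measureReal_union_le _ _)
  have k1 := key {ω | H f ω t ∈ A} {ω | H f ω s ∈ A} (by
    filter_upwards [hiff] with ω hω h1 h2 using (hω h1).1 h2)
  have k2 := key {ω | H f ω s ∈ A} {ω | H f ω t ∈ A} (by
    filter_upwards [hiff] with ω hω h1 h2 using (hω h1).2 h2)
  rw [← e1, ← e2, abs_le]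
  constructor <;> linarith

theorem kerC_stat {μ : Measure (Height d)} [IsProbabilityMeasure μ]
    (h : ∀ q : ℚ, 0 < q → (μ.bind (Ka d (q : ℝ))).map seen = μ) : IsStationary μ := by
  classical
  rw [kerB]
  intro t ht
  haveI : IsProbabilityMeasure ((μ.bind (Ka d t)).map seen) :=
    Measure.isProbabilityMeasure_map measurable_seen.aemeasurable
  apply ext_cyl
  intro B c
  have hA := measurableSet_cyl B c
  have hS : MeasurableSet (seen ⁻¹' cyl B c : Set (Height d)) := measurable_seen hA
  have hdep : DepB (insert 0 B) (seen ⁻¹' cyl B c : Set (Height d)) := by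
    intro h1 h2 h12
    have hseen : ∀ x ∈ B, seen h1 x = seen h2 x := by
      intro x hx
      unfold seen
      rw [h12 x (Finset.mem_insert_of_mem hx), h12 0 (Finset.mem_insert_self 0 B)]
    exact depB_cyl B c _ _ hseen
  have hint : ∀ r : ℝ, Integrable (fun f => (Ka d r f).real (seen ⁻¹' cyl B c)) μ := by
    intro r
    refine Integrable.of_bound
      (Kernel.measurable_coe (Ka d r) hS).ennreal_toReal.aestronglyMeasurable 1 ?_
    filter_upwards with f
    rw [Real.norm_eq_abs, abs_of_nonneg measureReal_nonneg]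
    exact measureReal_le_one
  have hlip : ∀ s : ℝ, 0 < s → s ≤ t →
      |((μ.bind (Ka d t)).map seen).real (cyl B c) -
        ((μ.bind (Ka d s)).map seen).real (cyl B c)| ≤ (insert 0 B).card * (t - s) := by
    intro s hs hst
    rw [kerB_real t hA, kerB_real s hA, ← integral_sub (hint t) (hint s)]
    have h1 := norm_integral_le_of_norm_le_const (μ := μ)
      (f := fun f => (Ka d t f).real (seen ⁻¹' cyl B c) - (Ka d s f).real (seen ⁻¹' cyl B c))
      (C := (insert 0 B).card * (t - s)) (by
        filter_upwards with f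
        rw [Real.norm_eq_abs]
        exact kerC hs hst f (insert 0 B) hS hdep)
    rw [probReal_univ, mul_one, Real.norm_eq_abs] at h1
    exact h1
  set C : ℝ := (((insert 0 B).card : ℕ) : ℝ) with hC
  have hC0 : 0 ≤ C := Nat.cast_nonneg _
  have hfin : ∀ ε : ℝ, 0 < ε →
      |((μ.bind (Ka d t)).map seen).real (cyl B c) - μ.real (cyl B c)| ≤ ε := by
    intro ε hε
    have h1 : max 0 (t - ε / (C + 1)) < t := by
      rw [max_lt_iff]
      exact ⟨ht, by have : 0 < ε / (C + 1) := by positivity
                    linarith⟩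
    obtain ⟨q, hq1, hq2⟩ := exists_rat_btwn h1
    have hq0 : (0 : ℝ) < q := lt_of_le_of_lt (le_max_left _ _) hq1
    have hq3 : t - ε / (C + 1) < q := lt_of_le_of_lt (le_max_right _ _) hq1
    have h2 := hlip q hq0 hq2.le
    rw [h q (by exact_mod_cast hq0)] at h2
    refine h2.trans ?_
    have h3 : t - q ≤ ε / (C + 1) := by linarith
    calc C * (t - q) ≤ C * (ε / (C + 1)) := mul_le_mul_of_nonneg_left h3 hC0
      _ ≤ (C + 1) * (ε / (C + 1)) := by
          apply mul_le_mul_of_nonneg_right (by linarith) (by positivity)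
      _ = ε := by field_simp
  by_contra hne
  have h1 : 0 < |((μ.bind (Ka d t)).map seen).real (cyl B c) - μ.real (cyl B c)| :=
    abs_pos.2 (sub_ne_zero.2 hne)
  have h2 := hfin _ (half_pos h1)
  linarith

end Pool.MP4bb68cCl
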