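import Pool.Agent.Work.MP_4bb68c_cl.ConsL
import Pool.Agent.Work.MP_4bb68c_cl.Dis
import Pool.Agent.Work.MP_4bb68c_cl.KerC
import Pool.Agent.Work.MP_4bb68c_cl.Fm

/-!
# MixA (size M): disintegration with respect to the slope

Let `ρ := condDistrib id lam μ`, `κ := μ.map lam`. `mix_bind`: `κ.bind ρ = μ` (`condDistrib_comp_map`, or `Measure.snd_compProd` and
`compProd_map_condDistrib`; `h.prob`).
`mix_ae`: for `κ`-almost every `v`, `ρ v` is (`ρ` is a Markov kernel, so it is a probability measure):
* invariant under `recenter y` for all `y : Site 1` (countably many): `dis` with `S := Kernel.deterministic (recenter y)` (`Measure.bind`/`comp` with a deterministic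
  kernel is `map`: `Measure.deterministic_comp_eq_map`) and `restrict_inv`;
* `((ρ v).bind (Ka 1 q)).map seen = ρ v` for all rational `q > 0`: `dis` with `S := (Ka 1 q).map seen` (`Kernel.map`; `Measure.map_comp`) and `restrict_stat`; then
  `kerC_stat` gives `IsStationary (ρ v)`;
* `Integrable (fun g => (g x : ℝ)) (ρ v)` for all `x`: `h.int x` and `κ.bind ρ = μ` (`Measure.integrable_compProd_iff`, `Integrable.condDistrib_ae`; or
  `∫⁻ v, (∫⁻ g, ‖g x‖ ∂(ρ v)) ∂κ = ∫⁻ g, ‖g x‖ ∂μ < ∞`, `ae_lt_top`);
* `SlpAS (ρ v) v`: the set `{(v, g) | g (pt n) / n → v}` is measurable (`measurableSet_tendsto`-like; or use `lam`: for `μ`-almost every `g`, `g (pt n) / n → lam g`,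
  so for `κ`-almost every `v`, for `ρ v`-almost every `g` this holds (`Measure.ae_ae_of_ae_bind`-like, `ae_comp_iff`), and `lam g = v` for `ρ v`-almost every `g`, because
  `κ ⊗ₘ ρ = μ.map (fun g => (lam g, g))` gives full measure to the measurable set `{(v, g) | lam g = v}`).
`mix_mem`: immediate from `mix_ae`.
-/

set_option autoImplicit false

open MeasureTheory ProbabilityTheory Filter Topology
open scoped NNReal ENNReal

namespace Pool.MP4bb68cCl

open Pool.MP4bb68c Pool.MP4bb68cOne

set_option linter.style.haveILetI false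

theorem mix_bind {μ : Measure (Height 1)} (h : InvLaw μ) :
    haveI := h.prob
    (μ.map lam).bind (condDistrib id lam μ) = μ := by
  haveI := h.prob
  have h1 := condDistrib_comp_map (μ := μ) (X := lam) (Y := id) measurable_lam.aemeasurable
    measurable_id.aemeasurable
  rw [Measure.map_id] at h1
  exact h1

theorem mix_ae {μ : Measure (Height 1)} (h : InvLaw μ) :
    haveI := h.prob
    ∀ᵐ v ∂(μ.map lam), InvLaw (condDistrib id lam μ v) ∧ SlpAS (condDistrib id lam μ v) v := by
  haveI := h.prob
  haveI : IsProbabilityMeasure (μ.map lam) :=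
    Measure.isProbabilityMeasure_map measurable_lam.aemeasurable
  -- invariance
  have h1 : ∀ᵐ v ∂(μ.map lam), ∀ y : Site 1,
      (condDistrib id lam μ v).map (recenter y) = condDistrib id lam μ v := by
    refine ae_all_iff.2 fun y => ?_
    have hm : Measurable (recenter y : Height 1 → Height 1) := (continuous_recenter y).measurable
    have h2 := dis (μ := μ) measurable_lam (Kernel.deterministic (recenter y) hm) (fun B hB => by
      rw [Measure.deterministic_comp_eq_map]
      exact restrict_inv h y hB)
    filter_upwards [h2] with v hv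
    rw [Measure.deterministic_comp_eq_map] at hv
    exact hv
  -- stationarity
  have h2 : ∀ᵐ v ∂(μ.map lam), ∀ q : ℚ, 0 < q →
      ((condDistrib id lam μ v).bind (Ka 1 (q : ℝ))).map seen = condDistrib id lam μ v := by
    refine ae_all_iff.2 fun q => ?_
    by_cases hq : 0 < q
    swap
    · exact Eventually.of_forall fun v hv => absurd hv hq
    haveI : IsMarkovKernel ((Ka 1 (q : ℝ)).map (seen : Height 1 → Height 1)) :=
      Kernel.IsMarkovKernel.map _ measurable_seen
    have h3 := dis (μ := μ) measurable_lam ((Ka 1 (q : ℝ)).map seen) (fun B hB => by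
      rw [← Measure.map_comp _ _ measurable_seen]
      exact restrict_stat h (by exact_mod_cast hq) hB)
    filter_upwards [h3] with v hv _
    rw [← Measure.map_comp _ _ measurable_seen] at hv
    exact hv
  -- integrability
  have h3 : ∀ᵐ v ∂(μ.map lam), ∀ x : Site 1,
      Integrable (fun g : Height 1 => (g x : ℝ)) (condDistrib id lam μ v) := by
    refine ae_all_iff.2 fun x => ?_
    refine Measure.ae_integrable_of_integrable_comp ?_
    have h4 := h.int x
    rw [← mix_bind h] at h4
    exact h4
  -- slope
  have h4 : ∀ᵐ v ∂(μ.map lam), SlpAS (condDistrib id lam μ v) v := by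
    have h5 : (μ.map lam) ⊗ₘ condDistrib id lam μ = μ.map fun g => (lam g, id g) :=
      compProd_map_condDistrib measurable_id.aemeasurable
    have hm : Measurable fun g : Height 1 => (lam g, id g) := measurable_lam.prodMk measurable_id
    have hS : MeasurableSet {p : ℝ × Height 1 |
        Tendsto (fun n : ℕ => ((p.2 (pt n) : ℤ) : ℝ) / n - p.1) atTop (𝓝 0)} := by
      refine measurableSet_tendsto _ fun n => ?_
      have h6 : Measurable fun p : ℝ × Height 1 => ((p.2 (pt n) : ℤ) : ℝ) :=
        (Measurable.of_discrete (f := fun m : ℤ => (m : ℝ))).comp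
          ((measurable_pi_apply (X := fun _ : Site 1 => ℤ) _).comp measurable_snd)
      exact (h6.div_const _).sub measurable_fst
    have h6 : ∀ᵐ p ∂((μ.map lam) ⊗ₘ (condDistrib id lam μ)),
        Tendsto (fun n : ℕ => ((p.2 (pt n) : ℤ) : ℝ) / n - p.1) atTop (𝓝 0) := by
      rw [h5, ae_map_iff hm.aemeasurable hS]
      filter_upwards [(lam_ae h).1] with g hg
      have h7 := hg.sub_const (lam g)
      rw [sub_self] at h7
      exact h7
    filter_upwards [Measure.ae_ae_of_ae_compProd h6] with v hv
    unfold SlpAS
    filter_upwards [hv] with g hg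
    have h7 := hg.add_const v
    simp only [sub_add_cancel, zero_add] at h7
    exact h7
  filter_upwards [h1, h2, h3, h4] with v a1 a2 a3 a4
  exact ⟨⟨inferInstance, kerC_stat a2, a1, a3⟩, a4⟩

theorem mix_mem {μ : Measure (Height 1)} (h : InvLaw μ) : ∀ᵐ v ∂(μ.map lam), v ∈ JJ := by
  haveI := h.prob
  filter_upwards [mix_ae h] with v hv
  exact ⟨_, hv⟩

end Pool.MP4bb68cCl
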