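import Pool.Agent.Work.MP_4bb68c_cl.Cou

/-!
# ConsA (size M): Lipschitz dependence on the slope and uniqueness

`lip` (first `v ≤ v'`, the other case by symmetry): for `ε > 0` take `π` from `coupling` with `M`. If `p.1 x = p.2 x` for
`-M ≤ x < M`, then `p.1 ∈ A ↔ p.2 ∈ A`. So
`|μ A - μ' A| ≤ 2 ε + π.real {p | ∃ x, -M ≤ x ∧ x < M ∧ p.1 x ≠ p.2 x} ≤ 2 ε + ∑ x, ∫ min |p.2 x - p.1 x| 1 ≤ 2 ε + 2 M (v' - v + 2 ε)`
(`L = 1`). Let `ε → 0`.
`ext_incr`: the measurable sets with `DepOn M` for some `M` contain the `π`-system of the cylinders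
`{η | ∀ x ∈ B, η x = c x}` (`B : Finset ℤ`), which generates the `σ`-algebra of `ℤ → ℤ` (compare `generateFrom_cyls`,
`isPiSystem_cyls` in pr/Stat; or `MeasurableSpace.pi` and `ext_of_generate_finite` with measurable rectangles over finite sets).
`law_eq`: `μ = (μ.map incr).map (fun η z => pr η (z 0))`, because `g z = pr (incr g) (z 0)` for almost every `g`
(`pr_incr`, `ae_zero`, `eq_pt z : z = pt (z 0)`).
-/

set_option autoImplicit false

open MeasureTheory ProbabilityTheory Filter Topology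
open scoped NNReal ENNReal

namespace Pool.MP4bb68cCl

open Pool.MP4bb68c Pool.MP4bb68cOne

private theorem ne_le {π : Measure (Inc × Inc)} [IsProbabilityMeasure π] {x : ℤ} {r : ℝ}
    (hr : 0 ≤ r) (H : ∫⁻ p, ((min (p.2 x - p.1 x).natAbs 1 : ℕ) : ℝ≥0∞) ∂π ≤ ENNReal.ofReal r) :
    π.real {p | p.1 x ≠ p.2 x} ≤ r := by
  have h1 : Measurable fun p : Inc × Inc => p.1 x := (measurable_pi_apply x).comp measurable_fst
  have h2 : Measurable fun p : Inc × Inc => p.2 x := (measurable_pi_apply x).comp measurable_snd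
  have hm : MeasurableSet {p : Inc × Inc | p.1 x ≠ p.2 x} := (measurableSet_eq_fun h1 h2).compl
  have h3 : π {p : Inc × Inc | p.1 x ≠ p.2 x} ≤ ENNReal.ofReal r := by
    rw [← lintegral_indicator_one hm]
    refine (lintegral_mono fun p => ?_).trans H
    by_cases hp : p ∈ {p : Inc × Inc | p.1 x ≠ p.2 x}
    · rw [Set.indicator_of_mem hp]
      have hp' : p.1 x ≠ p.2 x := hp
      have h4 : min (p.2 x - p.1 x).natAbs 1 = 1 := by omega
      show (1 : ℝ≥0∞) ≤ ((min (p.2 x - p.1 x).natAbs 1 : ℕ) : ℝ≥0∞)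
      rw [h4, Nat.cast_one]
    · rw [Set.indicator_of_notMem hp]
      exact zero_le
  exact ENNReal.toReal_le_of_le_ofReal hr h3

private theorem lip_aux {μ μ' : Measure (Height 1)} {v v' : ℝ} (h : InvLaw μ) (h' : InvLaw μ')
    (hv : Slp μ v) (hv' : Slp μ' v') (hle : v ≤ v') (M : ℕ) {A : Set Inc} (hA : MeasurableSet A)
    (hM : DepOn M A) : |(μ.map incr).real A - (μ'.map incr).real A| ≤ 2 * M * (v' - v) := by
  refine le_of_forall_pos_le_add fun ε' hε' => ?_
  have hMp : (0 : ℝ) < 2 + 4 * M := by positivity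
  set ε : ℝ := ε' / (2 + 4 * M) with hεd
  have hε : 0 < ε := div_pos hε' hMp
  have hεM : ε * (2 + 4 * M) = ε' := div_mul_cancel₀ _ hMp.ne'
  obtain ⟨π, hπ, hsh, hp1, hp2, -, hp4⟩ := coupling h h' hv hv' hle M hε
  have e1 := hp1 A hA hM
  have e2 := hp2 A hA hM
  have hr : 0 ≤ v' - v + ε * (1 + (1 : ℕ)) := by
    have := sub_nonneg.2 hle
    positivity
  have e3 : ∀ x : ℤ, π.real {p | p.1 x ≠ p.2 x} ≤ v' - v + ε * (1 + (1 : ℕ)) := fun x =>
    ne_le hr (hp4 x 1)
  have m1 : (π.map Prod.fst).real A = π.real (Prod.fst ⁻¹' A) := by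
    rw [Measure.real, Measure.map_apply measurable_fst hA]
    rfl
  have m2 : (π.map Prod.snd).real A = π.real (Prod.snd ⁻¹' A) := by
    rw [Measure.real, Measure.map_apply measurable_snd hA]
    rfl
  set D : Set (Inc × Inc) := ⋃ x ∈ Finset.Ico (-(M : ℤ)) M, {p | p.1 x ≠ p.2 x} with hD
  have hDle : π.real D ≤ 2 * M * (v' - v + ε * (1 + (1 : ℕ))) := by
    refine (measureReal_biUnion_finset_le _ _).trans ?_
    refine (Finset.sum_le_sum fun x _ => e3 x).trans ?_
    rw [Finset.sum_const, Int.card_Ico, nsmul_eq_mul]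
    have h5 : ((M : ℤ) - -(M : ℤ)).toNat = 2 * M := by omega
    rw [h5]
    push_cast
    exact le_rfl
  have hag : ∀ p : Inc × Inc, p ∉ D → (p.1 ∈ A ↔ p.2 ∈ A) := by
    intro p hp
    refine hM _ _ fun x hx1 hx2 => ?_
    by_contra hne
    apply hp
    rw [hD]
    simp only [Set.mem_iUnion]
    exact ⟨x, Finset.mem_Ico.2 ⟨hx1, hx2⟩, hne⟩
  have s1 : π.real (Prod.fst ⁻¹' A) ≤ π.real (Prod.snd ⁻¹' A) + π.real D := by
    refine (measureReal_mono ?_ (measure_ne_top _ _)).trans (measureReal_union_le _ _)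
    intro p hp
    by_cases hpD : p ∈ D
    · exact Or.inr hpD
    · exact Or.inl ((hag p hpD).1 hp)
  have s2 : π.real (Prod.snd ⁻¹' A) ≤ π.real (Prod.fst ⁻¹' A) + π.real D := by
    refine (measureReal_mono ?_ (measure_ne_top _ _)).trans (measureReal_union_le _ _)
    intro p hp
    by_cases hpD : p ∈ D
    · exact Or.inr hpD
    · exact Or.inl ((hag p hpD).2 hp)
  rw [m1] at e1
  rw [m2] at e2
  rw [abs_le] at e1 e2 ⊢
  push_cast at hDle
  have h6 : 2 * (M : ℝ) * (v' - v + ε * (1 + 1)) + 2 * ε = 2 * M * (v' - v) + ε' := by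
    rw [← hεM]
    ring
  constructor
  · linarith
  · linarith

theorem lip {μ μ' : Measure (Height 1)} {v v' : ℝ} (h : InvLaw μ) (h' : InvLaw μ')
    (hv : Slp μ v) (hv' : Slp μ' v') (M : ℕ) {A : Set Inc} (hA : MeasurableSet A)
    (hM : DepOn M A) : |(μ.map incr).real A - (μ'.map incr).real A| ≤ 2 * M * |v - v'| := by
  rcases le_total v v' with hle | hle
  · rw [abs_of_nonpos (sub_nonpos.2 hle), neg_sub]
    exact lip_aux h h' hv hv' hle M hA hM
  · rw [abs_of_nonneg (sub_nonneg.2 hle), abs_sub_comm]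
    exact lip_aux h' h hv' hv hle M hA hM

theorem ext_incr {ν ν' : Measure Inc} [IsProbabilityMeasure ν] [IsProbabilityMeasure ν']
    (H : ∀ (M : ℕ) (A : Set Inc), MeasurableSet A → DepOn M A → ν A = ν' A) : ν = ν' := by
  refine ext_of_generate_finite (measurableCylinders fun _ : ℤ => ℤ)
    generateFrom_measurableCylinders.symm isPiSystem_measurableCylinders ?_
    (by rw [measure_univ, measure_univ])
  intro t ht
  obtain ⟨s, S, hS, rfl⟩ := (mem_measurableCylinders t).1 ht
  refine H (s.sup Int.natAbs + 1) _ (hS.cylinder s) ?_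
  intro η η' hηη
  rw [mem_cylinder, mem_cylinder]
  have h1 : s.restrict η = s.restrict η' := by
    funext x
    have hx : (x : ℤ).natAbs ≤ s.sup Int.natAbs := Finset.le_sup (f := Int.natAbs) x.2
    exact hηη x (by push_cast; omega) (by push_cast; omega)
  rw [h1]

theorem law_eq {μ : Measure (Height 1)} (h : InvLaw μ) :
    (μ.map incr).map (fun η (z : Site 1) => pr η (z 0)) = μ := by
  have hm : Measurable fun (η : Inc) (z : Site 1) => pr η (z 0) :=
    measurable_pi_iff.2 fun z => measurable_pr (z 0)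
  rw [Measure.map_map hm measurable_incr]
  conv_rhs => rw [← Measure.map_id (μ := μ)]
  refine Measure.map_congr ?_
  filter_upwards [ae_zero h] with g hg
  funext z
  show pr (incr g) (z 0) = g z
  rw [pr_incr, hg, sub_zero, ← eq_pt]

theorem eq_of_slp {μ μ' : Measure (Height 1)} {v : ℝ} (h : InvLaw μ) (h' : InvLaw μ')
    (hv : Slp μ v) (hv' : Slp μ' v) : μ = μ' := by
  haveI := h.prob
  haveI := h'.prob
  haveI : IsProbabilityMeasure (μ.map incr) :=
    Measure.isProbabilityMeasure_map measurable_incr.aemeasurable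
  haveI : IsProbabilityMeasure (μ'.map incr) :=
    Measure.isProbabilityMeasure_map measurable_incr.aemeasurable
  have h1 : μ.map incr = μ'.map incr := by
    refine ext_incr fun M A hA hM => ?_
    have h2 := lip h h' hv hv' M hA hM
    rw [sub_self v, abs_zero, mul_zero] at h2
    have h3 := sub_eq_zero.1 (abs_eq_zero.1 (le_antisymm h2 (abs_nonneg _)))
    exact (ENNReal.toReal_eq_toReal_iff' (measure_ne_top _ _) (measure_ne_top _ _)).1 h3
  rw [← law_eq h, ← law_eq h', h1]

end Pool.MP4bb68cCl
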