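import Pool.Agent.Work.MP_4bb68c_cl.Meas

/-!
# Init (size S-M): the initial coupling

`pr_incr`: for `x ≥ 0` and `x < 0` by induction (`pr_succ` in DetA: both sides satisfy the same recursion and vanish at `0`;
`Int.induction_on`). `ae_zero`: `μ = μ.map (recenter 0)` and `recenter 0 g 0 = 0`. `incr_sh`: `incr (recenter (pt 1) g) = sh (incr g)`
(`pt x + pt 1 = pt (x + 1)`) and `h.inv (pt 1)`. `init_shInv`: `Measure.map_prod_map` and `incr_sh`. `init_DD`:
`|η' 0 - η 0| ≤ |η 0| + |η' 0|` and `η 0 = g (pt 1) - g (pt 0)` is integrable by `h.int` (convert `natAbs` in `ℝ≥0∞` to the norm of the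
real number). `Bdh_tail`: the sets `{η | ¬ Bdh N K η}` decrease to the empty set as `K → ∞` (finitely many `x`); continuity
from above of a finite measure. `measurable_Bdh`: finite intersection of `{η | |pr η x| ≤ K}`.
`depOn_*`: `pr η x` for `-2 ≤ x ≤ N` depends only on the `η y` with `-2 ≤ y < N` (induction from `pr_succ`).
-/

set_option autoImplicit false

open MeasureTheory ProbabilityTheory
open scoped NNReal ENNReal

namespace Pool.MP4bb68cCl

open Pool.MP4bb68c Pool.MP4bb68cOne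

theorem pr_incr (g : Height 1) (x : ℤ) : pr (incr g) x = g (pt x) - g (pt 0) := by
  induction x using Int.induction_on with
  | zero => rw [pr_zero, sub_self]
  | succ i ih =>
    rw [pr_succ, ih]
    unfold incr
    ring
  | pred i ih =>
    have h := pr_succ (incr g) (-(i : ℤ) - 1)
    have e : -(i : ℤ) - 1 + 1 = -(i : ℤ) := by ring
    rw [e, ih] at h
    have h2 : incr g (-(i : ℤ) - 1) = g (pt (-(i : ℤ))) - g (pt (-(i : ℤ) - 1)) := by
      unfold incr
      rw [e]
    rw [h2] at h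
    linarith

theorem ae_zero {μ : Measure (Height 1)} (h : InvLaw μ) : ∀ᵐ g ∂μ, g (pt 0) = 0 := by
  have hms : MeasurableSet {g : Height 1 | g (pt 0) = 0} :=
    measurableSet_eq_fun (measurable_pi_apply (pt 0)) measurable_const
  rw [← h.inv 0]
  refine (ae_map_iff (measurable_recenter 0).aemeasurable hms).2 ?_
  refine ae_of_all _ fun g => ?_
  show g (pt 0 + 0) - g 0 = 0
  rw [add_zero, zero_eq_pt, sub_self]

theorem incr_sh {μ : Measure (Height 1)} (h : InvLaw μ) :
    (μ.map incr).map sh = μ.map incr := by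
  rw [Measure.map_map measurable_sh measurable_incr]
  conv_rhs => rw [← h.inv (pt 1)]
  rw [Measure.map_map measurable_incr (measurable_recenter (pt 1))]
  congr 1
  funext g x
  show g (pt (x + 1 + 1)) - g (pt (x + 1)) =
    (g (pt (x + 1) + pt 1) - g (pt 1)) - (g (pt x + pt 1) - g (pt 1))
  have e1 : pt (x + 1) + pt 1 = pt (x + 1 + 1) := rfl
  have e2 : pt x + pt 1 = pt (x + 1) := rfl
  rw [e1, e2]
  ring

theorem init_prob {μ μ' : Measure (Height 1)} (h : InvLaw μ) (h' : InvLaw μ') :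
    IsProbabilityMeasure ((μ.map incr).prod (μ'.map incr)) := by
  have := h.prob
  have := h'.prob
  have h1 : IsProbabilityMeasure (μ.map incr) :=
    Measure.isProbabilityMeasure_map measurable_incr.aemeasurable
  have h2 : IsProbabilityMeasure (μ'.map incr) :=
    Measure.isProbabilityMeasure_map measurable_incr.aemeasurable
  infer_instance

theorem init_shInv {μ μ' : Measure (Height 1)} (h : InvLaw μ) (h' : InvLaw μ') :
    ShInv ((μ.map incr).prod (μ'.map incr)) := by
  have := h.prob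
  have := h'.prob
  have h1 : IsProbabilityMeasure (μ.map incr) :=
    Measure.isProbabilityMeasure_map measurable_incr.aemeasurable
  have h2 : IsProbabilityMeasure (μ'.map incr) :=
    Measure.isProbabilityMeasure_map measurable_incr.aemeasurable
  have h3 := Measure.map_prod_map (μ.map incr) (μ'.map incr) measurable_sh measurable_sh
  rw [incr_sh h, incr_sh h'] at h3
  exact h3.symm

theorem init_DD {μ μ' : Measure (Height 1)} (h : InvLaw μ) (h' : InvLaw μ') :
    DD ((μ.map incr).prod (μ'.map incr)) ≠ ∞ := by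
  have := h.prob
  have := h'.prob
  have h1 : IsProbabilityMeasure (μ.map incr) :=
    Measure.isProbabilityMeasure_map measurable_incr.aemeasurable
  have h2 : IsProbabilityMeasure (μ'.map incr) :=
    Measure.isProbabilityMeasure_map measurable_incr.aemeasurable
  have hm0 : Measurable (fun η : Inc => ((η 0).natAbs : ℝ≥0∞)) := by
    have h3 : Measurable (fun q : ℤ => (q.natAbs : ℝ≥0∞)) := Measurable.of_discrete
    exact h3.comp (measurable_pi_apply 0)
  have hfin : ∀ ν : Measure (Height 1), InvLaw ν →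
      ∫⁻ η, ((η 0).natAbs : ℝ≥0∞) ∂(ν.map incr) ≠ ∞ := by
    intro ν hν
    rw [lintegral_map hm0 measurable_incr]
    have hint : Integrable (fun g : Height 1 => ((g (pt 1) : ℝ) - (g (pt 0) : ℝ))) ν :=
      (hν.int (pt 1)).sub (hν.int (pt 0))
    have h3 := hint.2
    rw [hasFiniteIntegral_iff_enorm] at h3
    refine ne_of_lt (lt_of_eq_of_lt ?_ h3)
    congr 1
    funext g
    have e : ((incr g 0).natAbs : ℝ) = |(g (pt 1) : ℝ) - (g (pt 0) : ℝ)| := by
      rw [Nat.cast_natAbs]
      unfold incr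
      push_cast
      rfl
    rw [Real.enorm_eq_ofReal_abs, ← e, ENNReal.ofReal_natCast]
  have hle : DD ((μ.map incr).prod (μ'.map incr)) ≤
      ∫⁻ p : Inc × Inc, (((p.2 0).natAbs : ℝ≥0∞) + ((p.1 0).natAbs : ℝ≥0∞))
        ∂((μ.map incr).prod (μ'.map incr)) := by
    unfold DD
    refine lintegral_mono fun p => ?_
    have h3 : (p.2 0 - p.1 0).natAbs ≤ (p.2 0).natAbs + (p.1 0).natAbs := Int.natAbs_sub_le _ _
    calc (((p.2 0 - p.1 0).natAbs : ℕ) : ℝ≥0∞) ≤ (((p.2 0).natAbs + (p.1 0).natAbs : ℕ) : ℝ≥0∞) :=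
          Nat.cast_le.2 h3
      _ = _ := by push_cast; rfl
  refine ne_top_of_le_ne_top ?_ hle
  have hm2 : Measurable (fun p : Inc × Inc => ((p.2 0).natAbs : ℝ≥0∞)) := hm0.comp measurable_snd
  rw [lintegral_add_left hm2]
  have e1 : ∫⁻ p : Inc × Inc, ((p.2 0).natAbs : ℝ≥0∞) ∂((μ.map incr).prod (μ'.map incr)) =
      ∫⁻ η, ((η 0).natAbs : ℝ≥0∞) ∂(μ'.map incr) :=
    (measurePreserving_snd (μ := μ.map incr) (ν := μ'.map incr)).lintegral_comp hm0
  have e2 : ∫⁻ p : Inc × Inc, ((p.1 0).natAbs : ℝ≥0∞) ∂((μ.map incr).prod (μ'.map incr)) =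
      ∫⁻ η, ((η 0).natAbs : ℝ≥0∞) ∂(μ.map incr) :=
    (measurePreserving_fst (μ := μ.map incr) (ν := μ'.map incr)).lintegral_comp hm0
  rw [e1, e2]
  exact ENNReal.add_ne_top.2 ⟨hfin μ' h', hfin μ h⟩

theorem measurable_Bdh (N K : ℕ) : MeasurableSet {η : Inc | ¬ Bdh N K η} := by
  have e : {η : Inc | ¬ Bdh N K η} =
      (⋂ x : ℤ, {η : Inc | -2 ≤ x → x ≤ N → |pr η x| ≤ K})ᶜ := by
    ext η
    simp only [Set.mem_ofPred_eq, Set.mem_compl_iff, Set.mem_iInter]
    rfl
  rw [e]
  refine (MeasurableSet.iInter fun x => ?_).compl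
  by_cases hx : -2 ≤ x ∧ x ≤ N
  · have e2 : {η : Inc | -2 ≤ x → x ≤ N → |pr η x| ≤ K} =
        (fun η : Inc => pr η x) ⁻¹' {z : ℤ | |z| ≤ K} := by
      ext η
      simp only [Set.mem_ofPred_eq, Set.mem_preimage]
      exact ⟨fun h => h hx.1 hx.2, fun h _ _ => h⟩
    rw [e2]
    exact measurable_pr x (MeasurableSet.of_discrete)
  · have e2 : {η : Inc | -2 ≤ x → x ≤ N → |pr η x| ≤ K} = Set.univ := by
      ext η
      simp only [Set.mem_ofPred_eq, Set.mem_univ, iff_true]
      exact fun h1 h2 => absurd ⟨h1, h2⟩ hx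
    rw [e2]
    exact MeasurableSet.univ

private theorem pr_congr (M : ℕ) {η η' : Inc} (h : ∀ x : ℤ, -M ≤ x → x < M → η x = η' x) (x : ℤ) :
    -M ≤ x → x ≤ M → pr η x = pr η' x := by
  induction x using Int.induction_on with
  | zero => intro _ _; rw [pr_zero, pr_zero]
  | succ i ih =>
    intro h1 h2
    rw [pr_succ, pr_succ, ih (by omega) (by omega), h i (by omega) (by omega)]
  | pred i ih =>
    intro h1 h2
    have e : -(i : ℤ) - 1 + 1 = -(i : ℤ) := by ring
    have h3 := pr_succ η (-(i : ℤ) - 1)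
    have h4 := pr_succ η' (-(i : ℤ) - 1)
    rw [e] at h3 h4
    have h5 := ih (by omega) (by omega)
    have h6 := h (-(i : ℤ) - 1) h1 (by omega)
    linarith

theorem depOn_Bdh (N K : ℕ) : DepOn (max N 2) {η : Inc | ¬ Bdh N K η} := by
  intro η η' h
  have hM : (2 : ℤ) ≤ ((max N 2 : ℕ) : ℤ) := by exact_mod_cast le_max_right N 2
  have hM' : (N : ℤ) ≤ ((max N 2 : ℕ) : ℤ) := by exact_mod_cast le_max_left N 2
  have h1 := pr_congr (max N 2) h
  simp only [Set.mem_ofPred_eq, not_iff_not]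
  constructor
  · intro hB x hx hx'
    rw [← h1 x (by omega) (by omega)]
    exact hB x hx hx'
  · intro hB x hx hx'
    rw [h1 x (by omega) (by omega)]
    exact hB x hx hx'

theorem depOn_pr (N : ℕ) (p : ℤ → Prop) : DepOn (max N 2) {η : Inc | p (pr η N)} := by
  intro η η' h
  have hM' : (N : ℤ) ≤ ((max N 2 : ℕ) : ℤ) := by exact_mod_cast le_max_left N 2
  have h1 := pr_congr (max N 2) h N (by omega) hM'
  simp only [Set.mem_ofPred_eq]
  rw [h1]

theorem Bdh_tail {μ : Measure (Height 1)} (h : InvLaw μ) (N : ℕ) {ε : ℝ} (hε : 0 < ε) :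
    ∃ K₀ : ℕ, ∀ K ≥ K₀, (μ.map incr).real {η : Inc | ¬ Bdh N K η} ≤ ε := by
  have := h.prob
  have h1 : IsProbabilityMeasure (μ.map incr) :=
    Measure.isProbabilityMeasure_map measurable_incr.aemeasurable
  have hanti : Antitone (fun K : ℕ => {η : Inc | ¬ Bdh N K η}) := by
    intro K K' hKK η hη hB
    apply hη
    intro x hx hx'
    have h2 : (K : ℤ) ≤ K' := by exact_mod_cast hKK
    exact (hB x hx hx').trans h2
  have hempty : ⋂ K : ℕ, {η : Inc | ¬ Bdh N K η} = ∅ := by
    ext η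
    simp only [Set.mem_iInter, Set.mem_ofPred_eq, Set.mem_empty_iff_false, iff_false, not_forall,
      not_not]
    refine ⟨∑ x ∈ Finset.Icc (-2 : ℤ) N, (pr η x).natAbs, fun x hx hx' => ?_⟩
    have h2 : (pr η x).natAbs ≤ ∑ x ∈ Finset.Icc (-2 : ℤ) N, (pr η x).natAbs :=
      Finset.single_le_sum (f := fun x => (pr η x).natAbs) (fun _ _ => Nat.zero_le _)
        (Finset.mem_Icc.2 ⟨hx, hx'⟩)
    rw [Int.abs_eq_natAbs]
    exact_mod_cast h2
  have hlim := tendsto_measure_iInter_atTop (μ := μ.map incr)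
    (s := fun K : ℕ => {η : Inc | ¬ Bdh N K η})
    (fun K => (measurable_Bdh N K).nullMeasurableSet) hanti ⟨0, measure_ne_top _ _⟩
  rw [hempty, measure_empty] at hlim
  have hev := hlim.eventually (gt_mem_nhds (ENNReal.ofReal_pos.2 hε))
  obtain ⟨K₀, hK₀⟩ := Filter.eventually_atTop.1 hev
  refine ⟨K₀, fun K hK => ?_⟩
  have h2 : (μ.map incr) {η : Inc | ¬ Bdh N K η} < ENNReal.ofReal ε := hK₀ K hK
  rw [Measure.real]
  exact ENNReal.toReal_le_of_le_ofReal hε.le h2.le

/-- The slope in terms of the increments. -/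
theorem slp_incr {μ : Measure (Height 1)} (h : InvLaw μ) (v ε : ℝ) (N : ℕ) :
    (μ.map incr).real {η : Inc | ε * N < |((pr η N : ℤ) : ℝ) - v * N|} =
      μ.real {g : Height 1 | ε * N < |((g (pt N) : ℤ) : ℝ) - v * N|} := by
  have hms : MeasurableSet {η : Inc | ε * N < |((pr η N : ℤ) : ℝ) - v * N|} := by
    have e : {η : Inc | ε * N < |((pr η N : ℤ) : ℝ) - v * N|} =
        (fun η : Inc => pr η N) ⁻¹' {z : ℤ | ε * N < |(z : ℝ) - v * N|} := rfl
    rw [e]
    exact measurable_pr N (MeasurableSet.of_discrete)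
  rw [map_measureReal_apply measurable_incr hms]
  refine measureReal_congr ?_
  filter_upwards [ae_zero h] with g hg
  have e : pr (incr g) N = g (pt N) := by rw [pr_incr, hg, sub_zero]
  apply propext
  show ε * N < |((pr (incr g) N : ℤ) : ℝ) - v * N| ↔ ε * N < |((g (pt N) : ℤ) : ℝ) - v * N|
  rw [e]

end Pool.MP4bb68cCl
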