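import Mathlib
import Pool.Agent.Work.MP_4bb68c_cl.Defs
import Pool.Agent.Work.MP_4bb68c_cl.Init

/-!
# MODULE Bdx (S-M): the mean absolute heights

PROOF. Write `m x = ∫⁻ g, ((g (pt x)).natAbs : ℝ≥0∞) ∂μ` for an invariant law `μ`. `g (pt 0) = 0`
a.e. (`ae_zero h`, file `Init.lean`).
(1) `m (x + y) ≤ m x + m y`: `g (pt (x + y)) = (g (pt (x + y)) - g (pt y)) + g (pt y)` and
`g (pt (x + y)) - g (pt y) = recenter (pt y) g (pt x)` (`pt x + pt y = pt (x + y)`), whose law is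
the law of `g (pt x)` (`h.inv (pt y)`, `lintegral_map`), `Int.natAbs_add_le`.
(2) `m (-x) = m x`: `recenter (pt (-x)) g (pt x) = g (pt 0) - g (pt (-x))`, a.e. equal to
`- g (pt (-x))` (`Int.natAbs_neg`).
(3) induction on `x.natAbs`; `m 0 = 0`.
-/

set_option autoImplicit false

open MeasureTheory ProbabilityTheory Filter Topology
open scoped NNReal ENNReal

namespace Pool.MP4bb68cCl

open Pool.MP4bb68c Pool.MP4bb68cOne

private theorem nm_meas (x : ℤ) : Measurable fun g : Height 1 => ((g (pt x)).natAbs : ℝ≥0∞) :=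
  (Measurable.of_discrete (f := fun z : ℤ => ((z.natAbs : ℕ) : ℝ≥0∞))).comp
    (measurable_pi_apply (pt x))

private theorem nm_diff {μ : Measure (Height 1)} (h : InvLaw μ) (y : ℤ) :
    ∫⁻ g, ((g (pt (y + 1)) - g (pt y)).natAbs : ℝ≥0∞) ∂μ =
      ∫⁻ g, ((g (pt 1)).natAbs : ℝ≥0∞) ∂μ := by
  conv_rhs => rw [← h.inv (pt y)]
  rw [lintegral_map (nm_meas 1) (measurable_recenter (pt y))]
  refine lintegral_congr fun g => ?_
  have e : recenter (pt y) g (pt 1) = g (pt (y + 1)) - g (pt y) := by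
    show g (pt 1 + pt y) - g (pt y) = _
    have e1 : pt 1 + pt y = pt (y + 1) := by
      rw [add_comm]
      rfl
    rw [e1]
  rw [e]

private theorem nm_dmeas (y : ℤ) :
    Measurable fun g : Height 1 => ((g (pt (y + 1)) - g (pt y)).natAbs : ℝ≥0∞) :=
  (Measurable.of_discrete (f := fun z : ℤ => ((z.natAbs : ℕ) : ℝ≥0∞))).comp
    ((measurable_pi_apply (pt (y + 1))).sub (measurable_pi_apply (pt y)))

private theorem nm_up {μ : Measure (Height 1)} (h : InvLaw μ) (x : ℤ) :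
    ∫⁻ g, ((g (pt (x + 1))).natAbs : ℝ≥0∞) ∂μ ≤
      ∫⁻ g, ((g (pt x)).natAbs : ℝ≥0∞) ∂μ + ∫⁻ g, ((g (pt 1)).natAbs : ℝ≥0∞) ∂μ := by
  rw [← nm_diff h x, ← lintegral_add_left (nm_meas x)]
  refine lintegral_mono fun g => ?_
  simp only
  rw [← Nat.cast_add]
  exact Nat.cast_le.2 (by omega)

private theorem nm_down {μ : Measure (Height 1)} (h : InvLaw μ) (x : ℤ) :
    ∫⁻ g, ((g (pt (x - 1))).natAbs : ℝ≥0∞) ∂μ ≤
      ∫⁻ g, ((g (pt x)).natAbs : ℝ≥0∞) ∂μ + ∫⁻ g, ((g (pt 1)).natAbs : ℝ≥0∞) ∂μ := by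
  rw [← nm_diff h (x - 1), sub_add_cancel, ← lintegral_add_left (nm_meas x)]
  refine lintegral_mono fun g => ?_
  simp only
  rw [← Nat.cast_add]
  exact Nat.cast_le.2 (by omega)

theorem bdx {μ : Measure (Height 1)} (h : InvLaw μ) (x : ℤ) :
    ∫⁻ g, ((g (pt x)).natAbs : ℝ≥0∞) ∂μ ≤
      (x.natAbs : ℝ≥0∞) * ∫⁻ g, ((g (pt 1)).natAbs : ℝ≥0∞) ∂μ := by
  induction x using Int.induction_on with
  | zero =>
    have h1 : ∫⁻ g, ((g (pt 0)).natAbs : ℝ≥0∞) ∂μ = 0 := by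
      rw [lintegral_eq_zero_iff (nm_meas 0)]
      filter_upwards [ae_zero h] with g hg
      rw [hg]
      simp
    rw [h1]
    exact zero_le
  | succ i ih =>
    refine (nm_up h i).trans ((add_le_add ih le_rfl).trans (le_of_eq ?_))
    have e1 : ((i : ℤ) + 1).natAbs = i + 1 := by omega
    have e2 : ((i : ℤ)).natAbs = i := by omega
    rw [e1, e2]
    push_cast
    ring
  | pred i ih =>
    refine (nm_down h (-(i : ℤ))).trans ((add_le_add ih le_rfl).trans (le_of_eq ?_))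
    have e1 : (-(i : ℤ) - 1).natAbs = i + 1 := by omega
    have e2 : (-(i : ℤ)).natAbs = i := by omega
    rw [e1, e2]
    push_cast
    ring

end Pool.MP4bb68cCl
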