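import Pool.Agent.Work.MP_4bb68c_cl.Cou

/-!
# ConsC (size M): comparison of the mean absolute increments

By symmetry of the problem in `v, v'` (exchange the roles: `coupling` needs `v ≤ v'`; if `v' < v` apply it to `(μ', μ)`; the
bounds used below are symmetric in the two marginals). Fix `L`. `min |η 0| L = ∑ j = 1..L, 1[j ≤ |η 0|]`, and `{η | j ≤ |η 0|}` is measurable
with `DepOn 1`. So for `π` from `coupling` with `M = 1` and `ε`:
`∫ min |η 0| L d(μ'.map incr) ≤ ∫ min |p.2 0| L dπ + L ε ≤ ∫ min |p.1 0| L dπ + ∫ min |p.2 0 - p.1 0| L dπ + L ε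
≤ ∫ min |η 0| L d(μ.map incr) + L ε + |v' - v| + ε (1 + L) + L ε` (`min (a + b) L ≤ min a L + min b L`). Let `ε → 0`, then `L → ∞` (monotone
convergence, `lintegral_iSup`, or `lintegral_tendsto_of_tendsto_of_monotone`). Finally `incr g 0 = g (pt 1) - g (pt 0) = g (pt 1)`
almost surely (`ae_zero`).
-/

set_option autoImplicit false

open MeasureTheory ProbabilityTheory Filter Topology
open scoped NNReal ENNReal

namespace Pool.MP4bb68cCl

open Pool.MP4bb68c Pool.MP4bb68cOne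

private noncomputable def mf (L : ℕ) (z : ℤ) : ℝ≥0∞ := ((min z.natAbs L : ℕ) : ℝ≥0∞)

private theorem mf_meas (L : ℕ) : Measurable fun η : Inc => mf L (η 0) :=
  (Measurable.of_discrete (f := mf L)).comp (measurable_pi_apply 0)

private theorem mf_sum (L : ℕ) (z : ℤ) :
    mf L z = ∑ j ∈ Finset.range L, ({z : ℤ | j < z.natAbs}.indicator 1 z : ℝ≥0∞) := by
  classical
  have h1 : ∀ j ∈ Finset.range L, ({z : ℤ | j < z.natAbs}.indicator 1 z : ℝ≥0∞) =
      if j < z.natAbs then 1 else 0 := fun j _ => by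
    simp [Set.indicator_apply]
  rw [Finset.sum_congr rfl h1, Finset.sum_boole, mf]
  congr 1
  have h2 : (Finset.range L).filter (fun j => j < z.natAbs) = Finset.range (min z.natAbs L) := by
    ext j
    simp only [Finset.mem_filter, Finset.mem_range]
    omega
  rw [h2, Finset.card_range]

private theorem mf_set (j : ℕ) : MeasurableSet {η : Inc | j < (η 0).natAbs} := by
  have h1 : Measurable fun η : Inc => η 0 := measurable_pi_apply 0
  exact h1 (MeasurableSet.of_discrete (s := {z : ℤ | j < z.natAbs}))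

private theorem mf_int (ν : Measure Inc) (L : ℕ) :
    ∫⁻ η, mf L (η 0) ∂ν = ∑ j ∈ Finset.range L, ν {η : Inc | j < (η 0).natAbs} := by
  have hm : ∀ j : ℕ, MeasurableSet {η : Inc | j < (η 0).natAbs} := mf_set
  have h1 : ∀ η : Inc, mf L (η 0) =
      ∑ j ∈ Finset.range L, ({η : Inc | j < (η 0).natAbs}.indicator 1 η : ℝ≥0∞) := fun η => by
    rw [mf_sum]
    rfl
  simp_rw [h1]
  rw [lintegral_finsetSum _ fun j _ => measurable_one.indicator (hm j)]
  refine Finset.sum_congr rfl fun j _ => ?_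
  rw [lintegral_indicator_one (hm j)]

private theorem mf_cmp {ν₁ ν₂ : Measure Inc} [IsProbabilityMeasure ν₁] [IsProbabilityMeasure ν₂]
    {ε : ℝ} (hε : 0 < ε) (H : ∀ A : Set Inc, MeasurableSet A → DepOn 1 A →
      |ν₁.real A - ν₂.real A| ≤ ε) (L : ℕ) :
    ∫⁻ η, mf L (η 0) ∂ν₁ ≤ ∫⁻ η, mf L (η 0) ∂ν₂ + ENNReal.ofReal (L * ε) := by
  have hm : ∀ j : ℕ, MeasurableSet {η : Inc | j < (η 0).natAbs} := mf_set
  rw [mf_int, mf_int]
  have h1 : ∀ j ∈ Finset.range L, ν₁ {η : Inc | j < (η 0).natAbs} ≤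
      ν₂ {η : Inc | j < (η 0).natAbs} + ENNReal.ofReal ε := by
    intro j _
    have h2 := H _ (hm j) (fun η η' h => by
      have h3 := h 0 (by norm_num) (by norm_num)
      simp only [Set.mem_ofPred_eq, h3])
    have h4 := (abs_le.1 h2).2
    have h5 : ν₁.real {η : Inc | j < (η 0).natAbs} ≤
        ν₂.real {η : Inc | j < (η 0).natAbs} + ε := by linarith
    have h6 := ENNReal.ofReal_le_ofReal h5
    rw [ENNReal.ofReal_add measureReal_nonneg hε.le, measureReal_def, measureReal_def,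
      ENNReal.ofReal_toReal (measure_ne_top _ _), ENNReal.ofReal_toReal (measure_ne_top _ _)] at h6
    exact h6
  refine (Finset.sum_le_sum h1).trans (le_of_eq ?_)
  rw [Finset.sum_add_distrib, Finset.sum_const, Finset.card_range, nsmul_eq_mul,
    ENNReal.ofReal_mul (Nat.cast_nonneg _), ENNReal.ofReal_natCast]

private theorem abs_cmp {ν ν' : Measure Inc} [IsProbabilityMeasure ν] [IsProbabilityMeasure ν']
    {π : Measure (Inc × Inc)} [IsProbabilityMeasure π] {ε w : ℝ} (hε : 0 < ε) (hw : 0 ≤ w)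
    (H1 : ∀ A : Set Inc, MeasurableSet A → DepOn 1 A →
      |(π.map Prod.fst).real A - ν.real A| ≤ ε)
    (H2 : ∀ A : Set Inc, MeasurableSet A → DepOn 1 A →
      |(π.map Prod.snd).real A - ν'.real A| ≤ ε)
    (L : ℕ) (H3 : ∫⁻ p, mf L (p.2 0 - p.1 0) ∂π ≤ ENNReal.ofReal (w + ε * (1 + L))) :
    ∫⁻ η, mf L (η 0) ∂ν' ≤ ∫⁻ η, mf L (η 0) ∂ν + ENNReal.ofReal (w + ε * (1 + 3 * L)) ∧
    ∫⁻ η, mf L (η 0) ∂ν ≤ ∫⁻ η, mf L (η 0) ∂ν' + ENNReal.ofReal (w + ε * (1 + 3 * L)) := by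
  have hp1 : IsProbabilityMeasure (π.map Prod.fst) :=
    Measure.isProbabilityMeasure_map measurable_fst.aemeasurable
  have hp2 : IsProbabilityMeasure (π.map Prod.snd) :=
    Measure.isProbabilityMeasure_map measurable_snd.aemeasurable
  have e1 : ∫⁻ η, mf L (η 0) ∂(π.map Prod.fst) = ∫⁻ p, mf L (p.1 0) ∂π :=
    lintegral_map (mf_meas L) measurable_fst
  have e2 : ∫⁻ η, mf L (η 0) ∂(π.map Prod.snd) = ∫⁻ p, mf L (p.2 0) ∂π :=
    lintegral_map (mf_meas L) measurable_snd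
  have t1 : ∫⁻ p, mf L (p.2 0) ∂π ≤ ∫⁻ p, mf L (p.1 0) ∂π + ∫⁻ p, mf L (p.2 0 - p.1 0) ∂π := by
    have m1 : Measurable fun p : Inc × Inc => mf L (p.1 0) := (mf_meas L).comp measurable_fst
    rw [← lintegral_add_left m1]
    refine lintegral_mono fun p => ?_
    simp only [mf]
    rw [← Nat.cast_add]
    exact Nat.cast_le.2 (by omega)
  have t2 : ∫⁻ p, mf L (p.1 0) ∂π ≤ ∫⁻ p, mf L (p.2 0) ∂π + ∫⁻ p, mf L (p.2 0 - p.1 0) ∂π := by
    have m1 : Measurable fun p : Inc × Inc => mf L (p.2 0) := (mf_meas L).comp measurable_snd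
    rw [← lintegral_add_left m1]
    refine lintegral_mono fun p => ?_
    simp only [mf]
    rw [← Nat.cast_add]
    exact Nat.cast_le.2 (by omega)
  have c1 := mf_cmp (ν₁ := π.map Prod.fst) (ν₂ := ν) hε H1 L
  have c1' := mf_cmp (ν₁ := ν) (ν₂ := π.map Prod.fst) hε (fun A h h' => by
    rw [abs_sub_comm]; exact H1 A h h') L
  have c2 := mf_cmp (ν₁ := π.map Prod.snd) (ν₂ := ν') hε H2 L
  have c2' := mf_cmp (ν₁ := ν') (ν₂ := π.map Prod.snd) hε (fun A h h' => by
    rw [abs_sub_comm]; exact H2 A h h') L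
  rw [e1] at c1 c1'
  rw [e2] at c2 c2'
  have hsum : ENNReal.ofReal (w + ε * (1 + 3 * L)) =
      ENNReal.ofReal (L * ε) + ENNReal.ofReal (w + ε * (1 + L)) + ENNReal.ofReal (L * ε) := by
    rw [← ENNReal.ofReal_add (by positivity) (by positivity),
      ← ENNReal.ofReal_add (by positivity) (by positivity)]
    congr 1
    ring
  rw [hsum]
  constructor
  · calc ∫⁻ η, mf L (η 0) ∂ν' ≤ ∫⁻ p, mf L (p.2 0) ∂π + ENNReal.ofReal (L * ε) := c2'
      _ ≤ (∫⁻ p, mf L (p.1 0) ∂π + ENNReal.ofReal (w + ε * (1 + L))) + ENNReal.ofReal (L * ε) := by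
          gcongr
          exact t1.trans (add_le_add le_rfl H3)
      _ ≤ ((∫⁻ η, mf L (η 0) ∂ν + ENNReal.ofReal (L * ε)) + ENNReal.ofReal (w + ε * (1 + L))) +
          ENNReal.ofReal (L * ε) := by gcongr
      _ = _ := by ring
  · calc ∫⁻ η, mf L (η 0) ∂ν ≤ ∫⁻ p, mf L (p.1 0) ∂π + ENNReal.ofReal (L * ε) := c1'
      _ ≤ (∫⁻ p, mf L (p.2 0) ∂π + ENNReal.ofReal (w + ε * (1 + L))) + ENNReal.ofReal (L * ε) := by
          gcongr
          exact t2.trans (add_le_add le_rfl H3)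
      _ ≤ ((∫⁻ η, mf L (η 0) ∂ν' + ENNReal.ofReal (L * ε)) + ENNReal.ofReal (w + ε * (1 + L))) +
          ENNReal.ofReal (L * ε) := by gcongr
      _ = _ := by ring

private theorem measurable_incr_cc : Measurable incr := by
  rw [measurable_pi_iff]
  intro x
  exact (measurable_pi_apply (pt (x + 1))).sub (measurable_pi_apply (pt x))

private theorem abs_incr {μ : Measure (Height 1)} (h : InvLaw μ) :
    ∫⁻ g, ((g (pt 1)).natAbs : ℝ≥0∞) ∂μ = ∫⁻ η, ((η 0).natAbs : ℝ≥0∞) ∂(μ.map incr) := by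
  have hm : Measurable fun η : Inc => (((η 0).natAbs : ℕ) : ℝ≥0∞) :=
    (Measurable.of_discrete (f := fun z : ℤ => ((z.natAbs : ℕ) : ℝ≥0∞))).comp
      (measurable_pi_apply 0)
  rw [lintegral_map hm measurable_incr_cc]
  refine lintegral_congr_ae ?_
  filter_upwards [ae_zero h] with g hg
  have : incr g 0 = g (pt 1) := by
    unfold incr
    rw [hg, sub_zero, zero_add]
  rw [this]

private theorem abs_sup (ν : Measure Inc) :
    ∫⁻ η, ((η 0).natAbs : ℝ≥0∞) ∂ν = ⨆ L : ℕ, ∫⁻ η, mf L (η 0) ∂ν := by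
  rw [← lintegral_iSup (fun L => mf_meas L)]
  · refine lintegral_congr fun η => ?_
    refine le_antisymm (le_iSup_of_le (η 0).natAbs ?_) (iSup_le fun L => ?_)
    · simp [mf]
    · simp only [mf]
      exact Nat.cast_le.2 (min_le_left _ _)
  · intro L L' h η
    simp only [mf]
    exact Nat.cast_le.2 (by omega)

theorem int_le {μ μ' : Measure (Height 1)} {v v' : ℝ} (h : InvLaw μ) (h' : InvLaw μ')
    (hv : Slp μ v) (hv' : Slp μ' v') :
    ∫⁻ g, ((g (pt 1)).natAbs : ℝ≥0∞) ∂μ' ≤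
      ∫⁻ g, ((g (pt 1)).natAbs : ℝ≥0∞) ∂μ + ENNReal.ofReal |v - v'| := by
  have i1 := h.prob
  have i2 := h'.prob
  have j1 : IsProbabilityMeasure (μ.map incr) :=
    Measure.isProbabilityMeasure_map measurable_incr_cc.aemeasurable
  have j2 : IsProbabilityMeasure (μ'.map incr) :=
    Measure.isProbabilityMeasure_map measurable_incr_cc.aemeasurable
  rw [abs_incr h, abs_incr h']
  have key : ∀ L : ℕ, ∀ ε : ℝ, 0 < ε → ∫⁻ η, mf L (η 0) ∂(μ'.map incr) ≤
      ∫⁻ η, mf L (η 0) ∂(μ.map incr) + ENNReal.ofReal (|v - v'| + ε * (1 + 3 * L)) := by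
    intro L ε hε
    rcases le_total v v' with hle | hle
    · obtain ⟨π, k1, _, k2, k3, _, k4⟩ := coupling h h' hv hv' hle 1 hε
      have e : |v - v'| = v' - v := by rw [abs_sub_comm, abs_of_nonneg (sub_nonneg.2 hle)]
      rw [e]
      exact (abs_cmp hε (sub_nonneg.2 hle) k2 k3 L (k4 0 L)).1
    · obtain ⟨π, k1, _, k2, k3, _, k4⟩ := coupling h' h hv' hv hle 1 hε
      have e : |v - v'| = v - v' := abs_of_nonneg (sub_nonneg.2 hle)
      rw [e]
      exact (abs_cmp hε (sub_nonneg.2 hle) k2 k3 L (k4 0 L)).2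
  have key2 : ∀ L : ℕ, ∫⁻ η, mf L (η 0) ∂(μ'.map incr) ≤
      ∫⁻ η, mf L (η 0) ∂(μ.map incr) + ENNReal.ofReal |v - v'| := by
    intro L
    have ht : Tendsto (fun ε : ℝ => ∫⁻ η, mf L (η 0) ∂(μ.map incr) +
        ENNReal.ofReal (|v - v'| + ε * (1 + 3 * L))) (𝓝[>] 0)
        (𝓝 (∫⁻ η, mf L (η 0) ∂(μ.map incr) + ENNReal.ofReal (|v - v'| + 0 * (1 + 3 * L)))) := by
      refine Tendsto.add tendsto_const_nhds ?_
      refine (ENNReal.continuous_ofReal.tendsto _).comp ?_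
      refine Tendsto.mono_left ?_ nhdsWithin_le_nhds
      exact (by fun_prop : Continuous fun ε : ℝ => |v - v'| + ε * (1 + 3 * L)).tendsto 0
    rw [zero_mul, add_zero] at ht
    refine ge_of_tendsto ht ?_
    filter_upwards [self_mem_nhdsWithin] with ε hε
    exact key L ε hε
  rw [abs_sup (μ'.map incr)]
  refine iSup_le fun L => (key2 L).trans ?_
  refine add_le_add (lintegral_mono fun η => ?_) le_rfl
  simp only [mf]
  exact Nat.cast_le.2 (min_le_left _ _)

end Pool.MP4bb68cCl
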