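import Mathlib
import Pool.Agent.Work.MP_c9c104_nt.Birkhoff

/-!
# MODULE BirA (S-M): the maximal inequality for integrable functions

PROOF. Put `S_n f w = ∑ i ∈ range n, f (T^[i] w)`.
(1) `birA_meas`: `{w | ∃ n, 0 < n ∧ ε * n < S_n f w}` is a countable union of the measurable sets
`{ε * n < S_n f w}` (`hT.measurable.iterate`).
(2) `birA`: put `g = f - ε`. `Work/MP_c9c104_nt/Birkhoff.lean` has `bkM T g n` (the maximal
function of the Birkhoff sums of `g`: `bkM T g 0 = 0`, `bkM T g (n + 1) w = max 0 (g w +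
bkM T g n (T w))`), `bkM_nonneg`, `bkM_mono`, `bkM_measurable`, `sum_le_bkM`, and for BOUNDED `g`
the maximal inequality `maximal_ineq`: `0 ≤ ∫ w in {0 < bkM T g n w}, g w`. The proof of
`maximal_ineq` (35 lines) uses the bound only for the integrability of `bkM T g n`, which for
integrable `g` follows by induction on `n` (`Integrable.sup`/`integrable_zero`,
`hT.integrable_comp_of_integrable`). So copy that proof for integrable `g`.
(3) The sets `E_n = {0 < bkM T g n}` increase to `E = ⋃ E_n`, so `0 ≤ ∫ w in E, g w`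
(`tendsto_setIntegral_of_monotone`, `ge_of_tendsto'`, as in `integral_nonneg_of_sum_pos`), i.e.
`ε * μ.real E ≤ ∫ w in E, f w ≤ ∫ w, f w` as `0 ≤ f` (`setIntegral_le_integral`).
(4) `{w | ∃ n, 0 < n ∧ ε * n < S_n f w} ⊆ E`: if `ε * n < S_n f w`, then
`0 < S_n f w - n * ε = birkhoffSum T g n w ≤ bkM T g n w`. Use `measureReal_mono`.
-/

set_option autoImplicit false

open MeasureTheory Filter Topology

namespace Pool.MP4bb68cCl

theorem birA_meas {Om : Type} [MeasurableSpace Om] {T : Om → Om} (hT : Measurable T)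
    {f : Om → ℝ} (hf : Measurable f) (ε : ℝ) :
    MeasurableSet {w | ∃ n : ℕ, 0 < n ∧ ε * n < ∑ i ∈ Finset.range n, f (T^[i] w)} := by
  have h : {w | ∃ n : ℕ, 0 < n ∧ ε * n < ∑ i ∈ Finset.range n, f (T^[i] w)} =
      ⋃ n : ℕ, ⋃ _ : 0 < n, {w | ε * n < ∑ i ∈ Finset.range n, f (T^[i] w)} := by
    ext w
    simp only [Set.mem_ofPred_eq, Set.mem_iUnion, exists_prop]
  rw [h]
  refine MeasurableSet.iUnion fun n => MeasurableSet.iUnion fun _ => ?_
  exact measurableSet_lt measurable_const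
    (Finset.measurable_fun_sum _ fun i _ => hf.comp (hT.iterate i))

open Pool.Agent.Work.MP_c9c104_nt in
private theorem bi_int {Om : Type} [MeasurableSpace Om] {μ : Measure Om} [IsProbabilityMeasure μ]
    {T : Om → Om} (hT : MeasurePreserving T μ μ) {g : Om → ℝ}
    (hg : Integrable g μ) (n : ℕ) : Integrable (bkM T g n) μ := by
  induction n with
  | zero => exact integrable_zero _ _ _
  | succ n ih =>
    have h1 : Integrable (fun x => g x + bkM T g n (T x)) μ :=
      hg.add (hT.integrable_comp_of_integrable ih)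
    exact (integrable_zero _ _ _).sup h1

open Pool.Agent.Work.MP_c9c104_nt in
private theorem mx_ineq {Ω : Type} [MeasurableSpace Ω] {μ : Measure Ω} [IsProbabilityMeasure μ]
    {T : Ω → Ω} (hT : MeasurePreserving T μ μ) {g : Ω → ℝ} (hg : Measurable g)
    (hgi : Integrable g μ) (n : ℕ) : 0 ≤ ∫ x in {x | 0 < bkM T g n x}, g x ∂μ := by
  have hm := bkM_measurable T hT.measurable g hg n
  have hE : MeasurableSet {x | 0 < bkM T g n x} := measurableSet_lt measurable_const hm
  have hi := bi_int hT hgi n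
  have hiT : Integrable (fun x => bkM T g n (T x)) μ := hT.integrable_comp_of_integrable hi
  have h1 : ∫ x in {x | 0 < bkM T g n x}, (bkM T g n x - bkM T g n (T x)) ∂μ ≤
      ∫ x in {x | 0 < bkM T g n x}, g x ∂μ := by
    refine setIntegral_mono_on (hi.sub hiT).integrableOn hgi.integrableOn hE ?_
    intro x hx
    rcases n with _ | n
    · exact absurd hx (by simp [bkM])
    · have hx' : 0 < max 0 (g x + bkM T g n (T x)) := hx
      have h2 : bkM T g (n + 1) x = g x + bkM T g n (T x) := by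
        show max 0 (g x + bkM T g n (T x)) = _
        rcases lt_max_iff.1 hx' with h | h
        · exact absurd h (lt_irrefl _)
        · exact max_eq_right h.le
      have := bkM_mono_succ T g n (T x)
      linarith
  refine le_trans ?_ h1
  rw [integral_sub hi.integrableOn hiT.integrableOn]
  have h3 : ∫ x in {x | 0 < bkM T g n x}, bkM T g n x ∂μ = ∫ x, bkM T g n x ∂μ := by
    refine setIntegral_eq_integral_of_forall_compl_eq_zero fun x hx => ?_
    exact le_antisymm (not_lt.1 hx) (bkM_nonneg T g n x)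
  have h4 : ∫ x in {x | 0 < bkM T g n x}, bkM T g n (T x) ∂μ ≤ ∫ x, bkM T g n (T x) ∂μ :=
    setIntegral_le_integral hiT (Eventually.of_forall fun x => bkM_nonneg T g n (T x))
  have h5 : ∫ x, bkM T g n (T x) ∂μ = ∫ x, bkM T g n x ∂μ := by
    have := integral_map (μ := μ) (φ := T) hT.measurable.aemeasurable
      (f := bkM T g n) (by rw [hT.map_eq]; exact hm.aestronglyMeasurable)
    rw [hT.map_eq] at this
    exact this.symm
  linarith

open Pool.Agent.Work.MP_c9c104_nt in
theorem birA {Om : Type} [MeasurableSpace Om] {μ : Measure Om} [IsProbabilityMeasure μ]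
    {T : Om → Om} (hT : MeasurePreserving T μ μ) {f : Om → ℝ} (hf : Measurable f)
    (hi : Integrable f μ) (h0 : ∀ w, 0 ≤ f w) {ε : ℝ} (hε : 0 < ε) :
    μ.real {w | ∃ n : ℕ, 0 < n ∧ ε * n < ∑ i ∈ Finset.range n, f (T^[i] w)} ≤
      (∫ w, f w ∂μ) / ε := by
  have hgm : Measurable (fun w => f w - ε) := hf.sub_const ε
  have hgi : Integrable (fun w => f w - ε) μ := hi.sub (integrable_const ε)
  set g : Om → ℝ := fun w => f w - ε with hg
  have hEm : ∀ n, MeasurableSet {x | 0 < bkM T g n x} := fun n =>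
    measurableSet_lt measurable_const (bkM_measurable T hT.measurable g hgm n)
  have h1 : Tendsto (fun n => ∫ x in {x | 0 < bkM T g n x}, g x ∂μ) atTop
      (𝓝 (∫ x in ⋃ n, {x | 0 < bkM T g n x}, g x ∂μ)) := by
    refine tendsto_setIntegral_of_monotone hEm ?_ hgi.integrableOn
    intro m n hmn x hx
    exact lt_of_lt_of_le hx (bkM_mono T g x hmn)
  have h2 : 0 ≤ ∫ x in ⋃ n, {x | 0 < bkM T g n x}, g x ∂μ :=
    ge_of_tendsto' h1 fun n => mx_ineq hT hgm hgi n
  have hE : MeasurableSet (⋃ n, {x | 0 < bkM T g n x}) := MeasurableSet.iUnion hEm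
  have h3 : ∫ x in ⋃ n, {x | 0 < bkM T g n x}, g x ∂μ =
      (∫ x in ⋃ n, {x | 0 < bkM T g n x}, f x ∂μ) - ε * μ.real (⋃ n, {x | 0 < bkM T g n x}) := by
    rw [hg, integral_sub hi.integrableOn (integrable_const ε).integrableOn, setIntegral_const,
      smul_eq_mul, mul_comm ε]
  have h4 : ∫ x in ⋃ n, {x | 0 < bkM T g n x}, f x ∂μ ≤ ∫ x, f x ∂μ :=
    setIntegral_le_integral hi (Eventually.of_forall h0)
  have h5 : {w | ∃ n : ℕ, 0 < n ∧ ε * n < ∑ i ∈ Finset.range n, f (T^[i] w)} ⊆
      ⋃ n, {x | 0 < bkM T g n x} := by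
    rintro w ⟨n, -, hn⟩
    refine Set.mem_iUnion.2 ⟨n, ?_⟩
    refine lt_of_lt_of_le ?_ (sum_le_bkM T g n w)
    have h6 : birkhoffSum T g n w = (∑ i ∈ Finset.range n, f (T^[i] w)) - n * ε := by
      rw [birkhoffSum, hg]
      simp only [Finset.sum_sub_distrib, Finset.sum_const, Finset.card_range, nsmul_eq_mul]
    rw [h6]
    linarith [mul_comm ε (n : ℝ)]
  have h6 : μ.real {w | ∃ n : ℕ, 0 < n ∧ ε * n < ∑ i ∈ Finset.range n, f (T^[i] w)} ≤
      μ.real (⋃ n, {x | 0 < bkM T g n x}) := measureReal_mono h5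
  rw [le_div_iff₀ hε]
  rw [h3] at h2
  nlinarith [mul_le_mul_of_nonneg_left h6 hε.le]

end Pool.MP4bb68cCl
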