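import Mathlib
import Pool.Agent.Work.MP_c9c104_nt.Birkhoff
import Pool.Agent.Work.MP_4bb68c_cl.BirA

/-!
# MODULE BirB (M): almost everywhere convergence of the averages of an integrable function

PROOF. Put `S_n f w = ∑ i ∈ range n, f (T^[i] w)`.
(1) For `M : ℕ` let `f_M w = max (-M) (min M (f w))` (bounded by `M`, measurable) and
`g_M = |f - f_M|`; `0 ≤ g_M ≤ |f|`, `g_M w → 0` (it is `0` for `|f w| ≤ M`), so
`∫ g_M → 0` by dominated convergence.
(2) By `Pool.Agent.Work.MP_c9c104_nt.birkhoff` (bounded case; `birkhoffAverage ℝ T f n w =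
(n : ℝ)⁻¹ • birkhoffSum T f n w`, `birkhoffSum T f n w = ∑ k ∈ range n, f (T^[k] w)` by `rfl`)
for a.e. `w` and ALL `M : ℕ` the sequence `S_n f_M w / n` converges (`ae_all_iff`).
(3) For `ε > 0` let `B_ε = {w | ∃ᶠ p : ℕ × ℕ in atTop, 3 * ε < |S_{p.1} f w / p.1 -
S_{p.2} f w / p.2|}`, or, simpler, work with the following: for every rational (or `1 / (k + 1)`)
`ε > 0`, for a.e. `w` there is `M` with `w ∉ {∃ n, 0 < n ∧ ε * n < S_n g_M w}`: the set of the `w`
for which this fails for every `M` has measure `≤ (∫ g_M) / ε` for every `M` (`birA`), hence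
measure zero (`ge_of_tendsto'`/`le_antisymm`).
(4) So for a.e. `w`, for every `ε = 1 / (k + 1)` there is `M` with `S_n g_M w ≤ ε n` for all
`n > 0`, hence `|S_n f w / n - S_n f_M w / n| ≤ ε` for all `n > 0`, and `S_n f_M w / n` is Cauchy.
So `S_n f w / n` is Cauchy (`Metric.cauchySeq_iff`, `3 ε`), hence converges
(`cauchySeq_tendsto_of_complete`).
-/

set_option autoImplicit false

open MeasureTheory Filter Topology

namespace Pool.MP4bb68cCl

private theorem tr_bd (M : ℕ) (x : ℝ) : |max (-(M : ℝ)) (min (M : ℝ) x)| ≤ M := by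
  have h0 : (0 : ℝ) ≤ M := Nat.cast_nonneg M
  rw [abs_le]
  exact ⟨le_max_left _ _, max_le (by linarith) (min_le_left _ _)⟩

private theorem tr_eq {M : ℕ} {x : ℝ} (h : |x| ≤ M) : max (-(M : ℝ)) (min (M : ℝ) x) = x := by
  rw [abs_le] at h
  rw [min_eq_right h.2, max_eq_right h.1]

private theorem tr_sub (M : ℕ) (x : ℝ) : |x - max (-(M : ℝ)) (min (M : ℝ) x)| ≤ |x| := by
  have h0 : (0 : ℝ) ≤ M := Nat.cast_nonneg M
  rcases le_total (|x|) M with h | h
  · rw [tr_eq h, sub_self, abs_zero]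
    exact abs_nonneg x
  · rcases le_total 0 x with hx | hx
    · rw [abs_of_nonneg hx] at h
      rw [min_eq_left h, max_eq_right (by linarith), abs_of_nonneg hx, abs_of_nonneg (by linarith)]
      linarith
    · rw [abs_of_nonpos hx] at h
      rw [min_eq_right (by linarith), max_eq_left (by linarith), abs_of_nonpos hx,
        abs_of_nonpos (by linarith)]
      linarith

private theorem g_int {Om : Type} [MeasurableSpace Om] {μ : Measure Om} [IsProbabilityMeasure μ]
    {f : Om → ℝ} (hf : Measurable f) (hi : Integrable f μ) :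
    Tendsto (fun M : ℕ => ∫ w, |f w - max (-(M : ℝ)) (min (M : ℝ) (f w))| ∂μ) atTop (𝓝 0) := by
  have h := tendsto_integral_of_dominated_convergence (μ := μ)
    (F := fun (M : ℕ) w => |f w - max (-(M : ℝ)) (min (M : ℝ) (f w))|) (f := fun _ => (0 : ℝ))
    (fun w => |f w|) (fun M => ?_) hi.abs (fun M => ?_) ?_
  · simpa using h
  · exact ((hf.sub (measurable_const.max (measurable_const.min hf))).abs).aestronglyMeasurable
  · refine Eventually.of_forall fun w => ?_
    rw [Real.norm_eq_abs, abs_abs]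
    exact tr_sub M (f w)
  · refine Eventually.of_forall fun w => ?_
    obtain ⟨N, hN⟩ := exists_nat_ge (|f w|)
    refine tendsto_const_nhds.congr' ?_
    filter_upwards [eventually_ge_atTop N] with M hM
    rw [tr_eq (hN.trans (by exact_mod_cast hM)), sub_self, abs_zero]

theorem birB {Om : Type} [MeasurableSpace Om] {μ : Measure Om} [IsProbabilityMeasure μ]
    {T : Om → Om} (hT : MeasurePreserving T μ μ) {f : Om → ℝ} (hf : Measurable f)
    (hi : Integrable f μ) :
    ∀ᵐ w ∂μ, ∃ l : ℝ, Tendsto (fun n : ℕ => (∑ i ∈ Finset.range n, f (T^[i] w)) / n) atTop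
      (𝓝 l) := by
  -- the truncations converge
  have h1 : ∀ᵐ w ∂μ, ∀ M : ℕ, ∃ l : ℝ, Tendsto (fun n : ℕ =>
      (∑ i ∈ Finset.range n, max (-(M : ℝ)) (min (M : ℝ) (f (T^[i] w)))) / n) atTop (𝓝 l) := by
    refine ae_all_iff.2 fun M => ?_
    have h2 := Pool.Agent.Work.MP_c9c104_nt.birkhoff μ T hT
      (fun w => max (-(M : ℝ)) (min (M : ℝ) (f w)))
      (measurable_const.max (measurable_const.min hf)) ⟨M, fun z => tr_bd M (f z)⟩
    filter_upwards [h2] with w hw
    obtain ⟨l, hl⟩ := hw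
    refine ⟨l, hl.congr fun n => ?_⟩
    rw [birkhoffAverage, birkhoffSum, smul_eq_mul, inv_mul_eq_div]
  -- the maximal inequality
  have h3 : ∀ᵐ w ∂μ, ∀ k : ℕ, ∃ M : ℕ, ¬ ∃ n : ℕ, 0 < n ∧ (1 / ((k : ℝ) + 1)) * n <
      ∑ i ∈ Finset.range n, |f (T^[i] w) - max (-(M : ℝ)) (min (M : ℝ) (f (T^[i] w)))| := by
    refine ae_all_iff.2 fun k => ?_
    have hk : 0 < 1 / ((k : ℝ) + 1) := by positivity
    have hle : ∀ M : ℕ, μ.real {w | ∀ M : ℕ, ∃ n : ℕ, 0 < n ∧ (1 / ((k : ℝ) + 1)) * n <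
        ∑ i ∈ Finset.range n, |f (T^[i] w) - max (-(M : ℝ)) (min (M : ℝ) (f (T^[i] w)))|} ≤
        (∫ w, |f w - max (-(M : ℝ)) (min (M : ℝ) (f w))| ∂μ) / (1 / ((k : ℝ) + 1)) := by
      intro M
      have hg : Measurable fun w => |f w - max (-(M : ℝ)) (min (M : ℝ) (f w))| :=
        (hf.sub (measurable_const.max (measurable_const.min hf))).abs
      have hgi : Integrable (fun w => |f w - max (-(M : ℝ)) (min (M : ℝ) (f w))|) μ := by
        refine hi.abs.mono' hg.aestronglyMeasurable (Eventually.of_forall fun w => ?_)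
        rw [Real.norm_eq_abs, abs_abs]
        exact tr_sub M (f w)
      refine le_trans (measureReal_mono fun w hw => hw M) ?_
      exact birA hT hg hgi (fun w => abs_nonneg _) hk
    have h4 : μ.real {w | ∀ M : ℕ, ∃ n : ℕ, 0 < n ∧ (1 / ((k : ℝ) + 1)) * n <
        ∑ i ∈ Finset.range n, |f (T^[i] w) - max (-(M : ℝ)) (min (M : ℝ) (f (T^[i] w)))|} ≤ 0 := by
      have h5 := (g_int hf hi).div_const (1 / ((k : ℝ) + 1))
      rw [zero_div] at h5
      exact ge_of_tendsto' h5 hle
    have h6 := le_antisymm h4 measureReal_nonneg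
    rw [measureReal_eq_zero_iff] at h6
    filter_upwards [measure_eq_zero_iff_ae_notMem.1 h6] with w hw
    by_contra h7
    push Not at h7
    exact hw h7
  filter_upwards [h1, h3] with w hw1 hw3
  refine cauchySeq_tendsto_of_complete ?_
  rw [Metric.cauchySeq_iff]
  intro ε hε
  obtain ⟨k, hk⟩ := exists_nat_one_div_lt (show 0 < ε / 3 by positivity)
  obtain ⟨M, hM⟩ := hw3 k
  obtain ⟨l, hl⟩ := hw1 M
  obtain ⟨N, hN⟩ := (Metric.cauchySeq_iff.1 hl.cauchySeq) (ε / 3) (by positivity)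
  have key : ∀ n : ℕ, |(∑ i ∈ Finset.range n, f (T^[i] w)) / n -
      (∑ i ∈ Finset.range n, max (-(M : ℝ)) (min (M : ℝ) (f (T^[i] w)))) / n| ≤
      1 / ((k : ℝ) + 1) := by
    intro n
    rcases Nat.eq_zero_or_pos n with rfl | hn
    · simp only [Finset.range_zero, Finset.sum_empty, zero_div, sub_self, abs_zero]
      positivity
    · have hn0 : (0 : ℝ) < n := by exact_mod_cast hn
      rw [← sub_div, ← Finset.sum_sub_distrib, abs_div, abs_of_pos hn0, div_le_iff₀ hn0]
      refine (Finset.abs_sum_le_sum_abs _ _).trans ?_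
      by_contra h8
      exact hM ⟨n, hn, not_le.1 h8⟩
  refine ⟨N, fun m hm n hn => ?_⟩
  have h9 := hN m hm n hn
  rw [Real.dist_eq] at h9 ⊢
  have h10 := key m
  have h11 := key n
  rw [abs_lt] at h9 ⊢
  rw [abs_le] at h10 h11
  constructor <;> linarith [h9.1, h9.2, h10.1, h10.2, h11.1, h11.2]

end Pool.MP4bb68cCl
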