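import Mathlib
import Pool.Agent.Work.MP_4bb68c_cl.BirB

/-!
# MODULE BirC (M): the limit of the averages is integrable and has the same integral

Write `A_n f w = (∑ i ∈ range n, f (T^[i] w)) / n` and `‖.‖` for the `L¹` norm (as an
extended real: `∫⁻ w, ENNReal.ofReal |f w| ∂μ` or `∫⁻ ‖f w‖ₑ`).
(1) `birC_norm`: `∫⁻ ‖A_n f‖ₑ ≤ ∫⁻ ‖f‖ₑ`: triangle inequality and `hT.iterate i` preserves `μ`
(`MeasurePreserving.lintegral_comp`); for `n = 0` the left side is `0`.
(2) `birC_int`: Fatou (`lintegral_liminf_le'`, or Mathlib's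
`MeasureTheory.integrable_of_tendsto`, file `L1Space/Integrable.lean`): if `A_n f w → L w` a.e.
then `∫⁻ ‖L‖ₑ ≤ ∫⁻ ‖f‖ₑ`; so `L` is integrable.
(3) `birC`: `∫ L = ∫ f`. For `M : ℕ` let `f_M w = max (-M) (min M (f w))`. By `birB` and
`exists_stronglyMeasurable_limit_of_tendsto_ae` there is `L_M` measurable with
`A_n f_M → L_M` a.e., and `∫ L_M = lim ∫ A_n f_M = ∫ f_M` by dominated convergence
(`|A_n f_M| ≤ M`; `∫ A_n f_M = ∫ f_M` for `n > 0`, as `T^[i]` preserves `μ`:
`MeasurePreserving.integral_comp'` needs an embedding, so use `integral_map`, as in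
`Work/MP_c9c104_nt/Birkhoff.lean`, `maximal_ineq`, `h5`). By (2) applied to `f - f_M`
(`A_n (f - f_M) → L - L_M` a.e.): `∫ |L - L_M| ≤ ∫ |f - f_M|`. So
`|∫ L - ∫ f| ≤ |∫ L - ∫ L_M| + |∫ f_M - ∫ f| ≤ 2 ∫ |f - f_M| → 0` (dominated convergence:
`|f - f_M| ≤ |f|`, and `f w = f_M w` for `M ≥ |f w|`).
-/

set_option autoImplicit false

open MeasureTheory Filter Topology

namespace Pool.MP4bb68cCl

private theorem bc_meas {Om : Type} [MeasurableSpace Om] {μ : Measure Om}
    {T : Om → Om} (hT : MeasurePreserving T μ μ) {f : Om → ℝ} (hf : Measurable f) (n : ℕ) :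
    Measurable fun w => (∑ i ∈ Finset.range n, f (T^[i] w)) / (n : ℝ) :=
  (Finset.measurable_sum _ fun i _ => hf.comp (hT.measurable.iterate i)).div_const _

theorem birC_norm {Om : Type} [MeasurableSpace Om] {μ : Measure Om} [IsProbabilityMeasure μ]
    {T : Om → Om} (hT : MeasurePreserving T μ μ) {f : Om → ℝ} (hf : Measurable f) (n : ℕ) :
    ∫⁻ w, ‖(∑ i ∈ Finset.range n, f (T^[i] w)) / n‖ₑ ∂μ ≤ ∫⁻ w, ‖f w‖ₑ ∂μ := by
  rcases Nat.eq_zero_or_pos n with rfl | hn
  · simp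
  have h1 : ∀ i : ℕ, ∫⁻ w, ‖f (T^[i] w)‖ₑ ∂μ = ∫⁻ w, ‖f w‖ₑ ∂μ := fun i =>
    (hT.iterate i).lintegral_comp (f := fun w => ‖f w‖ₑ) hf.enorm
  have h2 : ‖((n : ℝ))⁻¹‖ₑ * (n : ENNReal) = 1 := by
    have hn' : (0 : ℝ) < n := by exact_mod_cast hn
    rw [Real.enorm_of_nonneg (inv_nonneg.2 hn'.le), ENNReal.ofReal_inv_of_pos hn',
      ENNReal.ofReal_natCast]
    exact ENNReal.inv_mul_cancel (by exact_mod_cast hn.ne') (ENNReal.natCast_ne_top n)
  calc ∫⁻ w, ‖(∑ i ∈ Finset.range n, f (T^[i] w)) / n‖ₑ ∂μ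
      ≤ ∫⁻ w, ‖((n : ℝ))⁻¹‖ₑ * ∑ i ∈ Finset.range n, ‖f (T^[i] w)‖ₑ ∂μ := by
        refine lintegral_mono fun w => ?_
        rw [div_eq_inv_mul, enorm_mul]
        exact mul_le_mul_right (enorm_sum_le _ _) _
    _ = ‖((n : ℝ))⁻¹‖ₑ * ∑ i ∈ Finset.range n, ∫⁻ w, ‖f (T^[i] w)‖ₑ ∂μ := by
        rw [lintegral_const_mul', lintegral_finsetSum]
        · intro i _
          exact (hf.comp (hT.measurable.iterate i)).enorm
        · exact enorm_ne_top
    _ = ∫⁻ w, ‖f w‖ₑ ∂μ := by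
        simp only [h1, Finset.sum_const, Finset.card_range, nsmul_eq_mul]
        rw [← mul_assoc, h2, one_mul]

theorem birC_int {Om : Type} [MeasurableSpace Om] {μ : Measure Om} [IsProbabilityMeasure μ]
    {T : Om → Om} (hT : MeasurePreserving T μ μ) {f : Om → ℝ} (hf : Measurable f)
    (hi : Integrable f μ) {L : Om → ℝ} (hL : Measurable L)
    (hlim : ∀ᵐ w ∂μ, Tendsto (fun n : ℕ => (∑ i ∈ Finset.range n, f (T^[i] w)) / n) atTop
      (𝓝 (L w))) :
    ∫⁻ w, ‖L w‖ₑ ∂μ ≤ ∫⁻ w, ‖f w‖ₑ ∂μ ∧ Integrable L μ := by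
  have h1 : ∫⁻ w, ‖L w‖ₑ ∂μ ≤ ∫⁻ w, ‖f w‖ₑ ∂μ := by
    have h2 : ∫⁻ w, ‖L w‖ₑ ∂μ = ∫⁻ w, liminf
        (fun n : ℕ => ‖(∑ i ∈ Finset.range n, f (T^[i] w)) / (n : ℝ)‖ₑ) atTop ∂μ := by
      refine lintegral_congr_ae ?_
      filter_upwards [hlim] with w hw
      exact (hw.enorm.liminf_eq).symm
    rw [h2]
    refine (lintegral_liminf_le fun n => (bc_meas hT hf n).enorm).trans ?_
    refine liminf_le_of_frequently_le' (Frequently.of_forall fun n => birC_norm hT hf n)
  refine ⟨h1, hL.aestronglyMeasurable, ?_⟩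
  exact lt_of_le_of_lt h1 hi.2

private theorem bc_int {Om : Type} [MeasurableSpace Om] {μ : Measure Om} [IsProbabilityMeasure μ]
    {T : Om → Om} (hT : MeasurePreserving T μ μ) {f : Om → ℝ} (hf : Measurable f)
    (hi : Integrable f μ) {n : ℕ} (hn : 0 < n) :
    ∫ w, (∑ i ∈ Finset.range n, f (T^[i] w)) / (n : ℝ) ∂μ = ∫ w, f w ∂μ := by
  have h1 : ∀ i : ℕ, Integrable (fun w => f (T^[i] w)) μ := fun i =>
    (hT.iterate i).integrable_comp_of_integrable hi
  have h2 : ∀ i : ℕ, ∫ w, f (T^[i] w) ∂μ = ∫ w, f w ∂μ := by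
    intro i
    have h3 := integral_map (μ := μ) (φ := T^[i]) (f := f) (hT.iterate i).measurable.aemeasurable
      hf.aestronglyMeasurable
    rw [(hT.iterate i).map_eq] at h3
    exact h3.symm
  rw [integral_div, integral_finsetSum _ fun i _ => h1 i]
  simp only [h2, Finset.sum_const, Finset.card_range, nsmul_eq_mul]
  have hn' : (n : ℝ) ≠ 0 := by exact_mod_cast hn.ne'
  field_simp

private theorem bc_bdd {Om : Type} [MeasurableSpace Om] {μ : Measure Om} [IsProbabilityMeasure μ]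
    {T : Om → Om} (hT : MeasurePreserving T μ μ) {f : Om → ℝ} (hf : Measurable f) (C : ℝ)
    (hb : ∀ w, |f w| ≤ C) {L : Om → ℝ}
    (hlim : ∀ᵐ w ∂μ, Tendsto (fun n : ℕ => (∑ i ∈ Finset.range n, f (T^[i] w)) / n) atTop
      (𝓝 (L w))) :
    ∫ w, L w ∂μ = ∫ w, f w ∂μ := by
  have hC : 0 ≤ C := by
    obtain ⟨w⟩ : Nonempty Om := by
      by_contra hcon
      rw [not_nonempty_iff] at hcon
      have h1 := measure_univ (μ := μ)
      rw [Set.eq_empty_of_isEmpty (Set.univ : Set Om), measure_empty] at h1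
      exact zero_ne_one h1
    exact (abs_nonneg _).trans (hb w)
  have hi : Integrable f μ := Integrable.of_bound hf.aestronglyMeasurable C
    (Eventually.of_forall fun w => by rw [Real.norm_eq_abs]; exact hb w)
  have h1 : Tendsto (fun n : ℕ => ∫ w, (∑ i ∈ Finset.range n, f (T^[i] w)) / (n : ℝ) ∂μ) atTop
      (𝓝 (∫ w, L w ∂μ)) := by
    refine tendsto_integral_of_dominated_convergence (fun _ => C)
      (fun n => (bc_meas hT hf n).aestronglyMeasurable) (integrable_const C) (fun n => ?_) hlim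
    refine Eventually.of_forall fun w => ?_
    rcases Nat.eq_zero_or_pos n with rfl | hn
    · simpa using hC
    have hn' : (0 : ℝ) < n := by exact_mod_cast hn
    rw [Real.norm_eq_abs, abs_div, Nat.abs_cast, div_le_iff₀ hn']
    calc |∑ i ∈ Finset.range n, f (T^[i] w)| ≤ ∑ i ∈ Finset.range n, |f (T^[i] w)| :=
          Finset.abs_sum_le_sum_abs _ _
      _ ≤ ∑ _i ∈ Finset.range n, C := Finset.sum_le_sum fun i _ => hb _
      _ = C * n := by rw [Finset.sum_const, Finset.card_range, nsmul_eq_mul, mul_comm]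
  have h2 : Tendsto (fun n : ℕ => ∫ w, (∑ i ∈ Finset.range n, f (T^[i] w)) / (n : ℝ) ∂μ) atTop
      (𝓝 (∫ w, f w ∂μ)) := by
    refine tendsto_const_nhds.congr' ?_
    filter_upwards [eventually_gt_atTop 0] with n hn
    exact (bc_int hT hf hi hn).symm
  exact tendsto_nhds_unique h1 h2

private theorem bc_l1 {Om : Type} [MeasurableSpace Om] {μ : Measure Om} {g : Om → ℝ}
    {h : Om → ℝ} (hle : ∫⁻ w, ‖g w‖ₑ ∂μ ≤ ∫⁻ w, ‖h w‖ₑ ∂μ) (hh : Integrable h μ)
    (hg : Integrable g μ) : |∫ w, g w ∂μ| ≤ ∫ w, |h w| ∂μ := by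
  have h1 : ∫ w, |g w| ∂μ ≤ ∫ w, |h w| ∂μ := by
    have h2 := integral_norm_eq_lintegral_enorm hg.aestronglyMeasurable
    have h3 := integral_norm_eq_lintegral_enorm hh.aestronglyMeasurable
    simp only [Real.norm_eq_abs] at h2 h3
    rw [h2, h3]
    exact ENNReal.toReal_mono hh.2.ne hle
  have h2 := norm_integral_le_integral_norm (μ := μ) g
  simp only [Real.norm_eq_abs] at h2
  exact h2.trans h1

theorem birC {Om : Type} [MeasurableSpace Om] {μ : Measure Om} [IsProbabilityMeasure μ]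
    {T : Om → Om} (hT : MeasurePreserving T μ μ) {f : Om → ℝ} (hf : Measurable f)
    (hi : Integrable f μ) {L : Om → ℝ} (hL : Measurable L)
    (hlim : ∀ᵐ w ∂μ, Tendsto (fun n : ℕ => (∑ i ∈ Finset.range n, f (T^[i] w)) / n) atTop
      (𝓝 (L w))) :
    ∫ w, L w ∂μ = ∫ w, f w ∂μ := by
  have hLi := (birC_int hT hf hi hL hlim).2
  -- the truncations
  let F : ℕ → Om → ℝ := fun M w => max (-(M : ℝ)) (min (M : ℝ) (f w))
  have hFm : ∀ M, Measurable (F M) := fun M => measurable_const.max (measurable_const.min hf)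
  have hFb : ∀ M w, |F M w| ≤ M := by
    intro M w
    have hM : (0 : ℝ) ≤ M := Nat.cast_nonneg M
    rw [abs_le]
    refine ⟨le_max_left _ _, max_le (by linarith) (min_le_left _ _)⟩
  have hFi : ∀ M, Integrable (F M) μ := fun M =>
    Integrable.of_bound (hFm M).aestronglyMeasurable M
      (Eventually.of_forall fun w => by rw [Real.norm_eq_abs]; exact hFb M w)
  have hd : ∀ M w, |f w - F M w| ≤ |f w| := by
    intro M w
    have hM : (0 : ℝ) ≤ M := Nat.cast_nonneg M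
    show |f w - max (-(M : ℝ)) (min (M : ℝ) (f w))| ≤ |f w|
    rcases le_total (f w) M with h | h
    · rw [min_eq_right h]
      rcases le_total (-(M : ℝ)) (f w) with h' | h'
      · rw [max_eq_right h', sub_self, abs_zero]
        exact abs_nonneg _
      · rw [max_eq_left h', abs_of_nonpos (by linarith), abs_of_nonpos (by linarith)]
        linarith
    · rw [min_eq_left h, max_eq_right (by linarith), abs_of_nonneg (by linarith),
        abs_of_nonneg (by linarith)]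
      linarith
  have hz : ∀ w, Tendsto (fun M : ℕ => |f w - F M w|) atTop (𝓝 0) := by
    intro w
    obtain ⟨M₀, hM₀⟩ := exists_nat_ge |f w|
    refine tendsto_const_nhds.congr' ?_
    filter_upwards [eventually_ge_atTop M₀] with M hM
    have h1 : |f w| ≤ (M : ℝ) := hM₀.trans (by exact_mod_cast hM)
    rw [abs_le] at h1
    show 0 = |f w - max (-(M : ℝ)) (min (M : ℝ) (f w))|
    rw [min_eq_right h1.2, max_eq_right h1.1, sub_self, abs_zero]
  have hlimz : Tendsto (fun M : ℕ => ∫ w, |f w - F M w| ∂μ) atTop (𝓝 0) := by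
    have h1 := tendsto_integral_of_dominated_convergence (μ := μ) (F := fun (M : ℕ) w => |f w - F M w|)
      (f := fun _ => 0) (fun w => |f w|)
      (fun M => ((hf.sub (hFm M)).abs).aestronglyMeasurable) hi.abs
      (fun M => Eventually.of_forall fun w => by
        rw [Real.norm_eq_abs, abs_abs]
        exact hd M w) (Eventually.of_forall hz)
    simpa using h1
  -- the limits of the averages of the truncations
  have key : ∀ M : ℕ, |∫ w, L w ∂μ - ∫ w, f w ∂μ| ≤ 2 * ∫ w, |f w - F M w| ∂μ := by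
    intro M
    obtain ⟨LM, hLMm, hLM⟩ := exists_stronglyMeasurable_limit_of_tendsto_ae
      (fun n => (bc_meas hT (hFm M) n).aestronglyMeasurable) (birB hT (hFm M) (hFi M))
    have hLMI := (birC_int hT (hFm M) (hFi M) hLMm.measurable hLM).2
    have h1 : ∫ w, LM w ∂μ = ∫ w, F M w ∂μ := bc_bdd hT (hFm M) M (hFb M) hLM
    have hlim2 : ∀ᵐ w ∂μ, Tendsto
        (fun n : ℕ => (∑ i ∈ Finset.range n, (f (T^[i] w) - F M (T^[i] w))) / n) atTop
        (𝓝 (L w - LM w)) := by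
      filter_upwards [hlim, hLM] with w h1 h2
      refine (h1.sub h2).congr fun n => ?_
      rw [Finset.sum_sub_distrib, sub_div]
    have h2 := birC_int hT (f := fun w => f w - F M w) (hf.sub (hFm M)) (hi.sub (hFi M))
      (L := fun w => L w - LM w) (hL.sub hLMm.measurable) hlim2
    have h3 := bc_l1 h2.1 (hi.sub (hFi M)) h2.2
    rw [integral_sub hLi hLMI] at h3
    have h4 : |∫ w, f w ∂μ - ∫ w, F M w ∂μ| ≤ ∫ w, |f w - F M w| ∂μ := by
      rw [← integral_sub hi (hFi M)]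
      have h5 := norm_integral_le_integral_norm (μ := μ) (fun w => f w - F M w)
      simpa only [Real.norm_eq_abs] using h5
    rw [h1] at h3
    have h6 : |∫ w, L w ∂μ - ∫ w, f w ∂μ| ≤ |∫ w, L w ∂μ - ∫ w, F M w ∂μ| +
        |∫ w, f w ∂μ - ∫ w, F M w ∂μ| := by
      rw [abs_sub_comm (∫ w, f w ∂μ) (∫ w, F M w ∂μ)]
      refine (le_of_eq ?_).trans (abs_add_le _ _)
      congr 1
      ring
    linarith
  have h0 : |∫ w, L w ∂μ - ∫ w, f w ∂μ| ≤ 0 := by
    refine ge_of_tendsto' (by simpa using hlimz.const_mul 2) key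
  rw [← sub_eq_zero]
  exact abs_nonpos_iff.1 h0

end Pool.MP4bb68cCl
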