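import Mathlib
import Pool.Agent.Work.MP_4bb68c_cl.BirB
import Pool.Agent.Work.MP_4bb68c_cl.BirC

/-!
# The pointwise ergodic theorem for integrable functions
-/

set_option autoImplicit false

open MeasureTheory Filter Topology

namespace Pool.MP4bb68cCl

theorem birk {Om : Type} [MeasurableSpace Om] {μ : Measure Om} [IsProbabilityMeasure μ]
    {T : Om → Om} (hT : MeasurePreserving T μ μ) {f : Om → ℝ} (hf : Measurable f)
    (hi : Integrable f μ) :
    ∃ L : Om → ℝ, Measurable L ∧ Integrable L μ ∧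
      (∀ᵐ w ∂μ, Tendsto (fun n : ℕ => (∑ i ∈ Finset.range n, f (T^[i] w)) / n) atTop
        (𝓝 (L w))) ∧
      ∫ w, L w ∂μ = ∫ w, f w ∂μ ∧ ∀ᵐ w ∂μ, L (T w) = L w := by
  have hm : ∀ n : ℕ, Measurable (fun w => (∑ i ∈ Finset.range n, f (T^[i] w)) / (n : ℝ)) :=
    fun n => (Finset.measurable_sum _ fun i _ => hf.comp (hT.measurable.iterate i)).div_const _
  obtain ⟨L, hL, hlim⟩ := exists_stronglyMeasurable_limit_of_tendsto_ae (μ := μ)
    (f := fun (n : ℕ) w => (∑ i ∈ Finset.range n, f (T^[i] w)) / (n : ℝ))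
    (fun n => (hm n).aestronglyMeasurable) (birB hT hf hi)
  refine ⟨L, hL.measurable, (birC_int hT hf hi hL.measurable hlim).2, hlim,
    birC hT hf hi hL.measurable hlim, ?_⟩
  filter_upwards [hlim, hT.quasiMeasurePreserving.ae hlim] with w h1 h2
  have h3 : Tendsto (fun n : ℕ => (∑ i ∈ Finset.range n, f (T^[i] (T w))) / (n : ℝ)) atTop
      (𝓝 (L w)) := by
    have e1 : Tendsto (fun n : ℕ => (∑ i ∈ Finset.range (n + 1), f (T^[i] w)) /
        ((n + 1 : ℕ) : ℝ)) atTop (𝓝 (L w)) := (tendsto_add_atTop_iff_nat 1).2 h1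
    have e2 : Tendsto (fun n : ℕ => ((n + 1 : ℕ) : ℝ) / (n : ℝ)) atTop (𝓝 1) := by
      have : Tendsto (fun n : ℕ => 1 + 1 / (n : ℝ)) atTop (𝓝 (1 + 0)) :=
        tendsto_const_nhds.add tendsto_one_div_atTop_nhds_zero_nat
      rw [add_zero] at this
      refine this.congr' ?_
      filter_upwards [eventually_gt_atTop 0] with n hn
      have hn0 : (n : ℝ) ≠ 0 := by positivity
      push_cast
      field_simp
    have e3 : Tendsto (fun n : ℕ => f w / (n : ℝ)) atTop (𝓝 0) :=
      tendsto_const_div_atTop_nhds_zero_nat (f w)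
    have e4 := (e1.mul e2).sub e3
    rw [mul_one, sub_zero] at e4
    refine e4.congr' ?_
    filter_upwards [eventually_gt_atTop 0] with n hn
    have hn0 : (n : ℝ) ≠ 0 := by positivity
    have hn1 : ((n + 1 : ℕ) : ℝ) ≠ 0 := by positivity
    rw [Finset.sum_range_succ']
    simp only [Function.iterate_succ_apply, Function.iterate_zero, id_eq]
    field_simp
    ring
  exact tendsto_nhds_unique h2 h3

end Pool.MP4bb68cCl
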