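import Pool.Agent.Work.MP_4bb68c_cl.Init
import Pool.Agent.Work.MP_4bb68c_cl.Birk

/-!
# Lam (size M): the asymptotic slope

`measurable_lam`: limits of real measurable functions, `StronglyMeasurable.limUnder` (or `measurable_limUnder`).
`lam_of_tendsto`: `Tendsto.limUnder_eq`.
`lam_ae`: `T := recenter (pt 1)` preserves `μ` (`h.inv`), `f g := (g (pt 1) : ℝ)`; by induction `T^[i] g (pt 1) = g (pt (i + 1)) - g (pt i)`
(`T^[i] g z = g (z + pt i) - g (pt i)`), so `∑ i < n, f (T^[i] g) = g (pt n) - g (pt 0)`, and `g (pt 0) = 0` almost surely (`ae_zero`). So `birk`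
gives `L` with `g (pt n) / n → L g` almost surely; `lam g = L g` (`lam_of_tendsto`).
`tendsto_recenter`: `y = pt m`, `m = y 0 : ℤ` (`eq_pt`); `recenter y g (pt n) = g (pt (n + m)) - g (pt m)`. If `g (pt n) / n → v` along the natural numbers
then `g (pt (n + m)) / n → v` along `n` (for `n ≥ |m|`, `n + m = (n + m).toNat`, `Tendsto` composed with `n ↦ (n + m).toNat → ∞`, and
`(n + m) / n → 1`).
`slpAS_slp`: almost sure convergence implies convergence in probability (`tendstoInMeasure_of_tendsto_ae`; `g (pt n) / n → v`; the event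
`ε n < |g (pt n) - v n|` for `n ≥ 1` is `ε < |g (pt n) / n - v|`; for `n = 0` irrelevant).
`slp_slpAS`: `g (pt n) / n` converges in probability to `v` and almost surely to `lam g` (`lam_ae`), so `lam g = v` almost surely (`tendstoInMeasure_ae_unique`, or:
`μ {ε < |lam g - v|} ≤ μ {ε / 2 < |lam g - g (pt n) / n|} + μ {ε / 2 < |g (pt n) / n - v|} → 0`).
-/

set_option autoImplicit false

open MeasureTheory ProbabilityTheory Filter Topology
open scoped NNReal ENNReal

namespace Pool.MP4bb68cCl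

open Pool.MP4bb68c Pool.MP4bb68cOne

private theorem lam_ms (n : ℕ) : Measurable fun g : Height 1 => ((g (pt n) : ℤ) : ℝ) / (n : ℝ) := by
  have h3 : Measurable (fun q : ℤ => (q : ℝ) / (n : ℝ)) := Measurable.of_discrete
  exact h3.comp (measurable_pi_apply (pt n))

theorem measurable_lam : Measurable lam := by
  have h : StronglyMeasurable fun g : Height 1 =>
      limUnder atTop fun n : ℕ => ((g (pt n) : ℤ) : ℝ) / n :=
    StronglyMeasurable.limUnder fun n => (lam_ms n).stronglyMeasurable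
  exact h.measurable

theorem lam_of_tendsto {g : Height 1} {v : ℝ}
    (h : Tendsto (fun n : ℕ => ((g (pt n) : ℤ) : ℝ) / n) atTop (𝓝 v)) : lam g = v := by
  exact h.limUnder_eq

private theorem lam_it (i : ℕ) (g : Height 1) (z : Site 1) :
    (recenter (pt 1))^[i] g z = g (z + pt i) - g (pt i) + (if i = 0 then g (pt 0) else 0) := by
  induction i generalizing z with
  | zero =>
    rw [Function.iterate_zero, id, if_pos rfl, Nat.cast_zero, ← zero_eq_pt, add_zero]
    ring
  | succ i ih =>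
    rw [Function.iterate_succ_apply', if_neg (Nat.succ_ne_zero i)]
    show (recenter (pt 1))^[i] g (z + pt 1) - (recenter (pt 1))^[i] g (pt 1) = _
    rw [ih, ih]
    have e1 : z + pt 1 + pt (i : ℤ) = z + pt ((i + 1 : ℕ) : ℤ) := by
      rw [add_assoc]
      congr 1
      rw [Nat.cast_add, Nat.cast_one, add_comm (i : ℤ) 1]
      rfl
    have e2 : pt 1 + pt (i : ℤ) = pt ((i + 1 : ℕ) : ℤ) := by
      rw [Nat.cast_add, Nat.cast_one, add_comm (i : ℤ) 1]
      rfl
    rw [e1, e2]
    ring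

theorem lam_ae {μ : Measure (Height 1)} (h : InvLaw μ) :
    (∀ᵐ g ∂μ, Tendsto (fun n : ℕ => ((g (pt n) : ℤ) : ℝ) / n) atTop (𝓝 (lam g))) ∧
      Integrable lam μ ∧ ∫ g, lam g ∂μ = ∫ g, ((g (pt 1) : ℤ) : ℝ) ∂μ := by
  have := h.prob
  have hT : MeasurePreserving (recenter (pt 1)) μ μ := ⟨measurable_recenter _, h.inv _⟩
  have hf : Measurable fun g : Height 1 => ((g (pt 1) : ℤ) : ℝ) := by
    have h3 : Measurable (fun q : ℤ => (q : ℝ)) := Measurable.of_discrete
    exact h3.comp (measurable_pi_apply (pt 1))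
  obtain ⟨L, hL, hLi, hlim, hint, -⟩ := birk hT hf (h.int (pt 1))
  have hae : ∀ᵐ g ∂μ, Tendsto (fun n : ℕ => ((g (pt n) : ℤ) : ℝ) / n) atTop (𝓝 (L g)) := by
    filter_upwards [hlim, ae_zero h] with g h1 h2
    refine h1.congr fun n => ?_
    congr 1
    have e : ∀ i : ℕ, (((recenter (pt 1))^[i] g (pt 1) : ℤ) : ℝ) =
        ((g (pt ((i + 1 : ℕ) : ℤ)) : ℤ) : ℝ) - ((g (pt (i : ℤ)) : ℤ) : ℝ) := fun i => by
      rw [lam_it]
      have e2 : pt 1 + pt (i : ℤ) = pt ((i + 1 : ℕ) : ℤ) := by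
        rw [Nat.cast_add, Nat.cast_one, add_comm (i : ℤ) 1]
        rfl
      rw [e2, h2, ite_self, add_zero, Int.cast_sub]
    rw [Finset.sum_congr rfl fun i _ => e i, Finset.sum_range_sub
      (fun i : ℕ => ((g (pt (i : ℤ)) : ℤ) : ℝ))]
    rw [Nat.cast_zero, h2, Int.cast_zero, sub_zero]
  have hlL : lam =ᵐ[μ] L := by
    filter_upwards [hae] with g hg
    exact lam_of_tendsto hg
  refine ⟨?_, hLi.congr hlL.symm, (integral_congr_ae hlL).trans hint⟩
  filter_upwards [hae, hlL] with g h1 h2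
  rw [h2]
  exact h1

theorem tendsto_recenter {g : Height 1} {v : ℝ} (y : Site 1)
    (h : Tendsto (fun n : ℕ => ((g (pt n) : ℤ) : ℝ) / n) atTop (𝓝 v)) :
    Tendsto (fun n : ℕ => ((recenter y g (pt n) : ℤ) : ℝ) / n) atTop (𝓝 v) := by
  obtain ⟨m, rfl⟩ : ∃ m : ℤ, y = pt m := ⟨y 0, eq_pt y⟩
  have h1 : Tendsto (fun n : ℕ => ((n : ℤ) + m).toNat) atTop atTop := by
    rw [tendsto_atTop_atTop]
    intro b
    exact ⟨b + m.natAbs, fun a ha => by omega⟩
  have h2 := h.comp h1
  have h3 : Tendsto (fun n : ℕ => 1 + (m : ℝ) / (n : ℝ)) atTop (𝓝 (1 + 0)) :=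
    tendsto_const_nhds.add (tendsto_const_div_atTop_nhds_zero_nat (m : ℝ))
  have h4 : Tendsto (fun n : ℕ => ((g (pt m) : ℤ) : ℝ) / (n : ℝ)) atTop (𝓝 0) :=
    tendsto_const_div_atTop_nhds_zero_nat _
  have h5 := (h2.mul h3).sub h4
  rw [add_zero, mul_one, sub_zero] at h5
  refine h5.congr' ?_
  filter_upwards [eventually_gt_atTop m.natAbs] with n hn
  have hk : (((((n : ℤ) + m).toNat : ℕ) : ℤ)) = (n : ℤ) + m := Int.toNat_of_nonneg (by omega)
  have hkr : (((((n : ℤ) + m).toNat : ℕ) : ℝ)) = (n : ℝ) + m := by exact_mod_cast hk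
  have hn0 : (n : ℝ) ≠ 0 := by
    have : 0 < n := by omega
    exact_mod_cast this.ne'
  have hnm : (n : ℝ) + m ≠ 0 := by
    have h6 : (0 : ℤ) < (n : ℤ) + m := by omega
    have h7 : (0 : ℝ) < (n : ℝ) + m := by exact_mod_cast h6
    exact h7.ne'
  simp only [Function.comp]
  rw [hk, hkr]
  have e : recenter (pt m) g (pt n) = g (pt ((n : ℤ) + m)) - g (pt m) := rfl
  rw [e]
  push_cast
  field_simp

theorem slpAS_slp {μ : Measure (Height 1)} [IsProbabilityMeasure μ] {v : ℝ} (h : SlpAS μ v) :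
    Slp μ v := by
  intro ε hε
  have h1 := tendstoInMeasure_of_tendsto_ae (μ := μ)
    (f := fun (n : ℕ) (g : Height 1) => ((g (pt n) : ℤ) : ℝ) / n) (g := fun _ => v)
    (fun n => (lam_ms n).aestronglyMeasurable) h
  rw [tendstoInMeasure_iff_measureReal_dist] at h1
  refine squeeze_zero' (Eventually.of_forall fun n => measureReal_nonneg) ?_ (h1 ε hε)
  filter_upwards [eventually_gt_atTop 0] with n hn
  refine measureReal_mono ?_ (measure_ne_top _ _)
  intro g hg
  have hn0 : (0 : ℝ) < n := by exact_mod_cast hn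
  simp only [Set.mem_ofPred_eq] at hg ⊢
  rw [Real.dist_eq]
  have e : ((g (pt n) : ℤ) : ℝ) / n - v = (((g (pt n) : ℤ) : ℝ) - v * n) / n := by
    field_simp
  rw [e, abs_div, abs_of_pos hn0, le_div_iff₀ hn0]
  exact hg.le

theorem slp_slpAS {μ : Measure (Height 1)} {v : ℝ} (h : InvLaw μ) (hv : Slp μ v) :
    SlpAS μ v := by
  have := h.prob
  obtain ⟨h1, -, -⟩ := lam_ae h
  have h2 := tendstoInMeasure_of_tendsto_ae (μ := μ)
    (f := fun (n : ℕ) (g : Height 1) => ((g (pt n) : ℤ) : ℝ) / n) (g := lam)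
    (fun n => (lam_ms n).aestronglyMeasurable) h1
  have h3 : TendstoInMeasure μ (fun (n : ℕ) (g : Height 1) => ((g (pt n) : ℤ) : ℝ) / n) atTop
      (fun _ => v) := by
    rw [tendstoInMeasure_iff_measureReal_dist]
    intro ε hε
    refine squeeze_zero' (Eventually.of_forall fun n => measureReal_nonneg) ?_
      (hv (ε / 2) (by positivity))
    filter_upwards [eventually_gt_atTop 0] with n hn
    refine measureReal_mono ?_ (measure_ne_top _ _)
    intro g hg
    have hn0 : (0 : ℝ) < n := by exact_mod_cast hn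
    simp only [Set.mem_ofPred_eq] at hg ⊢
    rw [Real.dist_eq] at hg
    have e : ((g (pt n) : ℤ) : ℝ) / n - v = (((g (pt n) : ℤ) : ℝ) - v * n) / n := by
      field_simp
    rw [e, abs_div, abs_of_pos hn0, le_div_iff₀ hn0] at hg
    refine lt_of_lt_of_le ?_ hg
    nlinarith [mul_pos hε hn0]
  have h4 := tendstoInMeasure_ae_unique h2 h3
  show ∀ᵐ g ∂μ, _
  filter_upwards [h1, h4] with g h5 h6
  rw [← h6]
  exact h5

end Pool.MP4bb68cCl
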