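import Mathlib
import Pool.Agent.Work.MP_4bb68c_cl.Ker

/-!
# Limits of laws: definition and first facts (FIXED, complete)
-/

set_option autoImplicit false

open MeasureTheory ProbabilityTheory Filter Topology
open scoped NNReal ENNReal

namespace Pool.MP4bb68cCl

open Pool.MP4bb68c

variable {d : ℕ}

/-- `μ` is the limit of the `ν k` along the hyperfilter. -/
def IsLm (ν : ℕ → Measure (Height d)) (μ : Measure (Height d)) : Prop :=
  ∀ Φ : Height d → ℝ, Continuous Φ → ∀ C : ℝ, (∀ g, |Φ g| ≤ C) →
    Tendsto (fun k => ∫ g, Φ g ∂(ν k)) (hyperfilter ℕ) (𝓝 (∫ g, Φ g ∂μ))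

open Classical in
/-- The indicator of an event which depends on finitely many sites is continuous. -/
theorem continuous_indicator_dep {B : Finset (Site d)} {A : Set (Height d)} (hB : DepB B A) :
    Continuous (fun h : Height d => if h ∈ A then (1 : ℝ) else 0) := by
  refine continuous_of_local B ?_
  intro g g' h
  by_cases hg : g ∈ A
  · rw [if_pos hg, if_pos ((hB g g' h).1 hg)]
  · rw [if_neg hg, if_neg (fun h2 => hg ((hB g g' h).2 h2))]

open Classical in
theorem integral_indicator_dep (μ : Measure (Height d)) {A : Set (Height d)}
    (hA : MeasurableSet A) : ∫ h, (if h ∈ A then (1 : ℝ) else 0) ∂μ = μ.real A := by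
  have : (fun h : Height d => if h ∈ A then (1 : ℝ) else 0) = A.indicator 1 := by
    ext h
    simp [Set.indicator]
  rw [this, integral_indicator_one hA]

open Classical in
theorem measurableSet_dep {B : Finset (Site d)} {A : Set (Height d)} (hB : DepB B A) :
    MeasurableSet A := by
  have h1 := (continuous_indicator_dep hB).measurable (measurableSet_singleton (1 : ℝ))
  have h2 : (fun h : Height d => if h ∈ A then (1 : ℝ) else 0) ⁻¹' {1} = A := by
    ext h
    simp
  rwa [h2] at h1

/-- Convergence of the probabilities of the events which depend on finitely many sites. -/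
theorem IsLm.real {ν : ℕ → Measure (Height d)} {μ : Measure (Height d)} (h : IsLm ν μ)
    {B : Finset (Site d)} {A : Set (Height d)} (hB : DepB B A) :
    Tendsto (fun k => (ν k).real A) (hyperfilter ℕ) (𝓝 (μ.real A)) := by
  classical
  have hA := measurableSet_dep hB
  have h1 := h _ (continuous_indicator_dep hB) 1 (fun g => by split_ifs <;> simp)
  rw [integral_indicator_dep μ hA] at h1
  refine h1.congr fun k => ?_
  exact integral_indicator_dep (ν k) hA

/-- Two events: the heights of finitely many sites decide a condition on them. -/
theorem depB_site (x : Site d) (p : ℤ → Prop) : DepB {x} {h : Height d | p (h x)} := by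
  intro h h' e
  have := e x (Finset.mem_singleton_self x)
  show p (h x) ↔ p (h' x)
  rw [this]

end Pool.MP4bb68cCl
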