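import Mathlib
import Pool.Agent.Work.MP_4bb68c_pr.Tight
import Pool.Agent.Work.MP_4bb68c_cl.LimD

/-!
# MODULE LimA (M): compactness

PROOF. Adapt `isTight_avg` and `exists_limit` of `Work/MP_4bb68c_pr/Tight.lean` (75 lines):
`ENNReal.exists_pos_sum_of_countable'` gives `ε' z > 0` with `∑' z, ε' z < ε`; choose `R z : ℕ`
with `C z ≤ ε' z * (R z + 1)` (`ENNReal.exists_nat_mul_gt`); the product of the finite intervals
`Icc (-R z) (R z)` is compact and its complement has measure at most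
`∑' z, ν k {g | R z + 1 ≤ (g z).natAbs} ≤ ∑' z, ε' z` by Markov (`mul_meas_ge_le_lintegral₀`).
So the family is tight; then verbatim as in `exists_limit` (`isCompact_closure_of_isTightMeasureSet`,
`ProbabilityMeasure.tendsto_iff_forall_integral_tendsto`).
-/

set_option autoImplicit false

open MeasureTheory ProbabilityTheory Filter Topology
open scoped NNReal ENNReal

namespace Pool.MP4bb68cCl

open Pool.MP4bb68c

variable {d : ℕ}

private theorem limA_meas (z : Site d) :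
    Measurable (fun g : Height d => ((g z).natAbs : ℝ≥0∞)) :=
  (Measurable.of_discrete (f := fun n : ℤ => ((n.natAbs : ℕ) : ℝ≥0∞))).comp
    (measurable_pi_apply (X := fun _ : Site d => ℤ) z)

private theorem limA_tight (ν : ℕ → Measure (Height d))
    (hb : ∀ z : Site d, ∃ C : ℝ≥0∞, C ≠ ∞ ∧ ∀ k, ∫⁻ g, ((g z).natAbs : ℝ≥0∞) ∂(ν k) ≤ C) :
    IsTightMeasureSet (Set.range ν) := by
  rw [isTightMeasureSet_iff_exists_isCompact_measure_compl_le]
  intro ε hε
  choose C hC hb using hb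
  obtain ⟨ε', hε'0, hε'⟩ := ENNReal.exists_pos_sum_of_countable' hε.ne' (Site d)
  have hR : ∀ z, ∃ R : ℕ, C z ≤ ε' z * (R + 1) := by
    intro z
    by_cases htop : ε' z = ∞
    · refine ⟨0, ?_⟩
      rw [htop]
      simp
    · obtain ⟨R, hR⟩ := ENNReal.exists_nat_mul_gt (hε'0 z).ne' (hC z)
      refine ⟨R, hR.le.trans ?_⟩
      rw [mul_comm]
      gcongr
      exact le_self_add
  choose R hR using hR
  refine ⟨Set.pi Set.univ (fun z => Set.Icc (-(R z : ℤ)) (R z)),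
    isCompact_univ_pi fun z => (Set.finite_Icc _ _).isCompact, ?_⟩
  rintro μ ⟨n, rfl⟩
  have hsub : (Set.pi Set.univ (fun z => Set.Icc (-(R z : ℤ)) (R z)))ᶜ ⊆
      ⋃ z : Site d, {g : Height d | ((R z : ℝ≥0∞) + 1) ≤ ((g z).natAbs : ℝ≥0∞)} := by
    intro g hg
    rw [Set.mem_compl_iff, Set.mem_univ_pi, not_forall] at hg
    obtain ⟨z, hz⟩ := hg
    rw [Set.mem_iUnion]
    refine ⟨z, ?_⟩
    rw [Set.mem_Icc] at hz
    have h1 : R z + 1 ≤ (g z).natAbs := by omega
    change (R z : ℝ≥0∞) + 1 ≤ ((g z).natAbs : ℝ≥0∞)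
    exact_mod_cast h1
  calc (ν n) (Set.pi Set.univ (fun z => Set.Icc (-(R z : ℤ)) (R z)))ᶜ
      ≤ (ν n) (⋃ z : Site d,
        {g : Height d | ((R z : ℝ≥0∞) + 1) ≤ ((g z).natAbs : ℝ≥0∞)}) := measure_mono hsub
    _ ≤ ∑' z : Site d, (ν n)
        {g : Height d | ((R z : ℝ≥0∞) + 1) ≤ ((g z).natAbs : ℝ≥0∞)} := measure_iUnion_le _
    _ ≤ ∑' z : Site d, ε' z := by
        refine ENNReal.tsum_le_tsum fun z => ?_
        have h1 := mul_meas_ge_le_lintegral₀ (μ := ν n)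
          (f := fun g : Height d => ((g z).natAbs : ℝ≥0∞))
          (limA_meas z).aemeasurable ((R z : ℝ≥0∞) + 1)
        have h2 := h1.trans ((hb z n).trans (hR z))
        have h3 : ((R z : ℝ≥0∞) + 1) ≠ 0 := by simp
        have h4 : ((R z : ℝ≥0∞) + 1) ≠ ∞ := by simp
        rw [mul_comm (ε' z)] at h2
        exact (ENNReal.mul_le_mul_iff_right h3 h4).1 h2
    _ ≤ ε := hε'.le

theorem limA (ν : ℕ → Measure (Height d)) (hν : ∀ k, IsProbabilityMeasure (ν k))
    (hb : ∀ z : Site d, ∃ C : ℝ≥0∞, C ≠ ∞ ∧ ∀ k, ∫⁻ g, ((g z).natAbs : ℝ≥0∞) ∂(ν k) ≤ C) :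
    ∃ μ : Measure (Height d), IsProbabilityMeasure μ ∧ IsLm ν μ := by
  let ν' : ℕ → ProbabilityMeasure (Height d) := fun n => ⟨ν n, hν n⟩
  have ht : IsTightMeasureSet {((μ : ProbabilityMeasure (Height d)) : Measure (Height d)) |
      μ ∈ Set.range ν'} := by
    refine (limA_tight ν hb).subset ?_
    rintro μ ⟨ν'', ⟨n, rfl⟩, rfl⟩
    exact ⟨n, rfl⟩
  have hc := isCompact_closure_of_isTightMeasureSet ht
  have hU : (((hyperfilter ℕ).map ν' : Ultrafilter _) : Filter (ProbabilityMeasure (Height d))) ≤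
      𝓟 (closure (Set.range ν')) := by
    rw [le_principal_iff]
    exact mem_map.2 (Filter.Eventually.of_forall fun n => subset_closure ⟨n, rfl⟩)
  obtain ⟨μ, -, hμ⟩ := hc.ultrafilter_le_nhds _ hU
  refine ⟨μ, inferInstance, fun Φ hΦ C hb => ?_⟩
  have h1 : Tendsto ν' (hyperfilter ℕ) (𝓝 μ) := hμ
  rw [ProbabilityMeasure.tendsto_iff_forall_integral_tendsto] at h1
  exact h1 (BoundedContinuousFunction.ofNormedAddCommGroup Φ hΦ C
    (fun g => by rw [Real.norm_eq_abs]; exact hb g))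

end Pool.MP4bb68cCl
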