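import Mathlib
import Pool.Agent.Work.MP_4bb68c_pr.Limit
import Pool.Agent.Work.MP_4bb68c_pr.Slope
import Pool.Agent.Work.MP_4bb68c_cl.LimD

/-!
# MODULE LimI (M): invariance and integrability pass to the limit

PROOF of `limI_map`: as `IsLim.map_eq` (`Work/MP_4bb68c_pr/Slope.lean`, 20 lines):
`ext_of_ind`, for a cylinder: `∫ ind B c (T g) ∂(ν k) = ∫ ind B c g ∂(ν k)`, both sides converge.
PROOF of `limI_int`: for `R : ℕ` the function `g ↦ min |(g x : ℝ)| R` is continuous (it depends on
one site: `continuous_of_local {x}`) and bounded by `R`, so its integral under `μ` is the limit of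
the integrals under `ν k`, which are at most `C.toReal` (`|(g x : ℝ)| = (g x).natAbs`,
`ofReal_integral_eq_lintegral_ofReal` or `integral_eq_lintegral_of_nonneg_ae`). So
`∫⁻ g, (min (g x).natAbs R : ℕ) ∂μ ≤ C` for all `R`; monotone convergence
(`lintegral_iSup` or Fatou `lintegral_liminf_le`) gives `∫⁻ g, (g x).natAbs ∂μ ≤ C < ∞`.
The file `Work/MP_4bb68c_pr/Limit.lean` has `trunc` and a similar argument
(`integrable_height_limit`).
-/

set_option autoImplicit false

open MeasureTheory ProbabilityTheory Filter Topology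
open scoped NNReal ENNReal

namespace Pool.MP4bb68cCl

open Pool.MP4bb68c

variable {d : ℕ}

private theorem natAbs_ofReal (n : ℤ) : ((n.natAbs : ℕ) : ℝ≥0∞) = ENNReal.ofReal |(n : ℝ)| := by
  rw [← ENNReal.ofReal_natCast, Nat.cast_natAbs, Int.cast_abs]

theorem limI_map {ν : ℕ → Measure (Height d)} {μ : Measure (Height d)}
    (hν : ∀ k, IsProbabilityMeasure (ν k)) (hμ : IsProbabilityMeasure μ) (hlim : IsLm ν μ)
    {T : Height d → Height d} (hT : Continuous T) (hinv : ∀ k, (ν k).map T = ν k) :
    μ.map T = μ := by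
  have : IsProbabilityMeasure (μ.map T) := Measure.isProbabilityMeasure_map hT.aemeasurable
  refine ext_of_ind fun B c => ?_
  have hm : Measurable (ind B c) := (continuous_ind B c).measurable
  rw [integral_map hT.aemeasurable hm.aestronglyMeasurable]
  have h1 := hlim (fun g => ind B c (T g)) ((continuous_ind B c).comp hT) 1
    (fun g => ind_abs_le B c _)
  have h2 := hlim (ind B c) (continuous_ind B c) 1 (ind_abs_le B c)
  refine tendsto_nhds_unique h1 (h2.congr fun n => ?_)
  conv_lhs => rw [← hinv n]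
  rw [integral_map hT.aemeasurable hm.aestronglyMeasurable]

theorem limI_int {ν : ℕ → Measure (Height d)} {μ : Measure (Height d)}
    (hν : ∀ k, IsProbabilityMeasure (ν k)) (hμ : IsProbabilityMeasure μ) (hlim : IsLm ν μ)
    (x : Site d) {C : ℝ≥0∞} (hC : C ≠ ∞)
    (hb : ∀ k, ∫⁻ g, ((g x).natAbs : ℝ≥0∞) ∂(ν k) ≤ C) :
    ∫⁻ g, ((g x).natAbs : ℝ≥0∞) ∂μ ≤ C ∧ Integrable (fun g : Height d => (g x : ℝ)) μ := by
  have hC' : ENNReal.ofReal C.toReal = C := ENNReal.ofReal_toReal hC
  simp_rw [natAbs_ofReal] at hb ⊢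
  have h1 : ∀ R : ℕ, ∫ g, |trunc R (g x : ℝ)| ∂μ ≤ C.toReal := by
    intro R
    have h2 := hlim (fun g => |trunc R (g x : ℝ)|) (continuous_abs_trunc_height R x) R
      (fun g => by rw [abs_abs]; exact trunc_abs_le R _)
    refine le_of_tendsto h2 (Filter.Eventually.of_forall fun n => ?_)
    have h3 : ∫⁻ g, ENNReal.ofReal |trunc R (g x : ℝ)| ∂(ν n) ≤ ENNReal.ofReal C.toReal := by
      rw [hC']
      exact (lintegral_mono fun g => ENNReal.ofReal_le_ofReal (trunc_abs_le_abs R _)).trans (hb n)
    rw [← ofReal_integral_eq_lintegral_ofReal (integrable_of_bdd_cont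
      (continuous_abs_trunc_height R x) (C := R) (fun g => by
        rw [abs_abs]; exact trunc_abs_le R _))
      (Filter.Eventually.of_forall fun g => abs_nonneg _)] at h3
    exact (ENNReal.ofReal_le_ofReal_iff ENNReal.toReal_nonneg).1 h3
  have h7 : ∫⁻ g, ENNReal.ofReal |(g x : ℝ)| ∂μ ≤ C := by
    have h4 : ∫⁻ g, ENNReal.ofReal |(g x : ℝ)| ∂μ ≤
        liminf (fun R : ℕ => ∫⁻ g, ENNReal.ofReal |trunc R (g x : ℝ)| ∂μ) atTop := by
      have h5 : ∀ g : Height d, ENNReal.ofReal |(g x : ℝ)| =
          liminf (fun R : ℕ => ENNReal.ofReal |trunc R (g x : ℝ)|) atTop := by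
        intro g
        have h6 : Tendsto (fun R : ℕ => ENNReal.ofReal |trunc R (g x : ℝ)|) atTop
            (𝓝 (ENNReal.ofReal |(g x : ℝ)|)) :=
          ENNReal.tendsto_ofReal (tendsto_trunc (g x : ℝ)).abs
        rw [h6.liminf_eq]
      simp_rw [h5]
      exact lintegral_liminf_le fun R =>
        (continuous_abs_trunc_height R x).measurable.ennreal_ofReal
    refine h4.trans ?_
    refine liminf_le_of_frequently_le' (Filter.Frequently.of_forall fun R => ?_)
    rw [← ofReal_integral_eq_lintegral_ofReal (integrable_of_bdd_cont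
      (continuous_abs_trunc_height R x) (C := R) (fun g => by
        rw [abs_abs]; exact trunc_abs_le R _))
      (Filter.Eventually.of_forall fun g => abs_nonneg _), ← hC']
    exact ENNReal.ofReal_le_ofReal (h1 R)
  refine ⟨h7, (measurable_height_real x).aestronglyMeasurable, ?_⟩
  rw [hasFiniteIntegral_iff_norm]
  simp_rw [Real.norm_eq_abs]
  exact h7.trans_lt (lt_top_iff_ne_top.2 hC)

end Pool.MP4bb68cCl
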