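import Mathlib
import Pool.Agent.Work.MP_4bb68c_cl.LimD
import Pool.Agent.Work.MP_4bb68c_cl.KerB

/-!
# MODULE LimS (M): stationarity passes to the limit

PROOF of `ker_cont_dep`. The function is a uniform limit of continuous functions: by `Ka_appr`
for every `ε > 0` there is `n` with `|(Ka d t f).real A - (La d t n f).real A| ≤ ε` for all `f`
(`A` is measurable by `measurableSet_dep`), and `f ↦ (La d t n f).real A =
∫ h, (if h ∈ A then 1 else 0) ∂(lawK d _ f)` (`integral_indicator_dep`, `unfold La`) is
continuous by `continuous_integral_lawK (continuous_indicator_dep hB) (C := 1)`. Use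
`continuous_of_uniform_approx_of_continuous` as in `isStationary_of_tendsto` (`Stat.lean`, `hcont`).

PROOF of `limS`. By `kerB` let `t > 0`; by `ext_cyl` compare on `A = cyl B c`; by `kerB_real` the
left side is `∫ f, (Ka d t f).real (seen ⁻¹' A) ∂μ`, and `seen ⁻¹' A` depends on `insert 0 B`
(`seen h x = h x - h 0`). The integrand is continuous (`ker_cont_dep`) and between `0` and `1`, so the
integral is the limit of the same integrals for `ν k`, which are `(ν k).real A` (`kerB`,
`kerB_real` for `ν k`), and these converge to `μ.real A` (`IsLm.real` with `depB_cyl`).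
`tendsto_nhds_unique` (the hyperfilter is `NeBot`).
-/

set_option autoImplicit false

open MeasureTheory ProbabilityTheory Filter Topology
open scoped NNReal ENNReal

namespace Pool.MP4bb68cCl

open Pool.MP4bb68c

variable {d : ℕ}

theorem ker_cont_dep {t : ℝ} (ht : 0 < t) {B : Finset (Site d)} {A : Set (Height d)}
    (hB : DepB B A) : Continuous fun f => (Ka d t f).real A := by
  classical
  refine continuous_of_uniform_approx_of_continuous fun u hu => ?_
  obtain ⟨ε, hε, hεu⟩ := Metric.mem_uniformity_dist.1 hu
  obtain ⟨n₀, hn₀⟩ := Ka_appr ht B (half_pos hε)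
  refine ⟨fun f => (La d t n₀ f).real A, ?_, fun g => hεu ?_⟩
  · have e : (fun f => (La d t n₀ f).real A) = fun f => ∫ h, (if h ∈ A then (1 : ℝ) else 0)
        ∂(lawK d (List.replicate ⌊t / (dl 1 n₀ : ℝ)⌋₊ (dl 1 n₀)) f) := by
      funext f
      exact (integral_indicator_dep _ (measurableSet_dep hB)).symm
    rw [e]
    exact continuous_integral_lawK (continuous_indicator_dep hB) (C := 1)
      (fun h => by split_ifs <;> simp) _
  · rw [Real.dist_eq]
    exact (hn₀ n₀ le_rfl g A (measurableSet_dep hB) hB).trans_lt (by linarith)

theorem limS {ν : ℕ → Measure (Height d)} {μ : Measure (Height d)}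
    (hν : ∀ k, IsProbabilityMeasure (ν k)) (hμ : IsProbabilityMeasure μ) (hlim : IsLm ν μ)
    (hs : ∀ k, IsStationary (ν k)) : IsStationary μ := by
  classical
  refine kerB.2 fun t ht => ?_
  have hp : IsProbabilityMeasure (μ.bind (Ka d t)) := by
    constructor
    rw [Measure.bind_apply MeasurableSet.univ (Kernel.aemeasurable _)]
    simp
  have : IsProbabilityMeasure ((μ.bind (Ka d t)).map seen) :=
    Measure.isProbabilityMeasure_map measurable_seen.aemeasurable
  refine ext_cyl fun B c => ?_
  rw [kerB_real t (measurableSet_cyl B c)]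
  have hdep : DepB (insert 0 B) (seen ⁻¹' cyl B c) := by
    intro h h' e
    have h0 := e 0 (Finset.mem_insert_self _ _)
    have key : ∀ x ∈ B, seen h x = seen h' x := fun x hx => by
      unfold seen
      rw [e x (Finset.mem_insert_of_mem hx), h0]
    exact depB_cyl B c (seen h) (seen h') key
  have l1 := hlim _ (ker_cont_dep ht hdep) 1 (fun g => by
    rw [abs_of_nonneg measureReal_nonneg]
    exact measureReal_le_one)
  have l2 := hlim.real (depB_cyl B c)
  refine tendsto_nhds_unique l1 (l2.congr fun k => ?_)
  have := hν k
  rw [← kerB_real t (measurableSet_cyl B c), (kerB.1 (hs k)) t ht]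

end Pool.MP4bb68cCl
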