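import Pool.Agent.Work.MP_4bb68c_cl.Cou

/-!
# ConsD (size M): comparison of the tails of the slopes

`n = 0`: both sets are `{g | 0 < |g (pt 0)|}`, of measure zero (`ae_zero`). Let `n ≥ 1`, and `v ≤ v'` or `v' ≤ v` (in the second case
`coupling` for `(μ', μ)`). For `δ > 0`, `L ≥ 1` let `π` be from `coupling` with `M = n` (so that events on the bonds
`0, ..., n - 1` are covered) and `δ`. Let `d x = p.2 x - p.1 x`. Since `pr p.2 n - pr p.1 n = ∑ x < n, d x` and `|v - v'| n ≤ ε n`: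
`3 ε n < |pr p.2 n - v' n|` implies `ε n < |pr p.1 n - v n|` or `ε n < ∑ x < n, |d x|`. The second event is contained in
`{ε n < ∑ x < n, min |d x| L} ∪ ⋃ x < n, {L ≤ |d x|}`; Markov: the probabilities are at most
`(ε n)⁻¹ n (|v - v'| + δ (1 + L))` and, for each `x`, `L⁻¹ (|v - v'| + δ (1 + L))`. So
`μ' (..) ≤ μ (..) + 2 δ + (|v - v'| + δ (1 + L)) / ε + n (|v - v'| + δ (1 + L)) / L` (`slp_incr`, closeness of the marginals: the events depend only
on `pr η n`, a function of the bonds `0, ..., n - 1`; they are `DepOn n`). Let `δ → 0`, then `L → ∞`.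
-/

set_option autoImplicit false

open MeasureTheory ProbabilityTheory Filter Topology
open scoped NNReal ENNReal

namespace Pool.MP4bb68cCl

open Pool.MP4bb68c Pool.MP4bb68cOne

private theorem cd_sum (η η' : Inc) (n : ℕ) :
    pr η' n - pr η n = ∑ x ∈ Finset.range n, (η' x - η x) := by
  induction n with
  | zero => simp [pr_zero]
  | succ n ih =>
    rw [Finset.sum_range_succ, ← ih]
    push_cast
    rw [pr_succ, pr_succ]
    ring

private theorem cd_event (η η' : Inc) (n L : ℕ) (v v' ε : ℝ) (hvv : |v - v'| ≤ ε)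
    (h : 3 * ε * n < |((pr η' n : ℤ) : ℝ) - v' * n|) :
    (ε * n < |((pr η n : ℤ) : ℝ) - v * n| ∨
      ε * n < ∑ x ∈ Finset.range n, ((min (η' x - η x).natAbs L : ℕ) : ℝ)) ∨
      ∃ x ∈ Finset.range n, L ≤ (η' x - η x).natAbs := by
  by_contra hc
  rw [not_or, not_or] at hc
  obtain ⟨⟨h1, h2⟩, h3⟩ := hc
  rw [not_lt] at h1 h2
  have h4 : ∀ x ∈ Finset.range n, (η' x - η x).natAbs < L := by
    intro x hx
    by_contra h5
    exact h3 ⟨x, hx, not_lt.1 h5⟩
  have h5 : |((pr η' n : ℤ) : ℝ) - ((pr η n : ℤ) : ℝ)| ≤ ε * n := by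
    refine le_trans ?_ h2
    rw [← Int.cast_sub, cd_sum, Int.cast_sum]
    refine (Finset.abs_sum_le_sum_abs _ _).trans (Finset.sum_le_sum fun x hx => ?_)
    rw [min_eq_left (h4 x hx).le, Nat.cast_natAbs, Int.cast_abs]
  have h6 : |v - v'| * n ≤ ε * n := mul_le_mul_of_nonneg_right hvv (Nat.cast_nonneg n)
  have h7 : ((pr η' n : ℤ) : ℝ) - v' * n = (((pr η n : ℤ) : ℝ) - v * n) +
      (((pr η' n : ℤ) : ℝ) - ((pr η n : ℤ) : ℝ)) + (v - v') * n := by ring
  rw [h7] at h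
  have h8 := abs_add_three (((pr η n : ℤ) : ℝ) - v * n)
    (((pr η' n : ℤ) : ℝ) - ((pr η n : ℤ) : ℝ)) ((v - v') * n)
  have h9 : |(v - v') * (n : ℝ)| = |v - v'| * n := by
    rw [abs_mul, Nat.abs_cast]
  rw [h9] at h8
  linarith

private theorem cd_core {Ω : Type*} [MeasurableSpace Ω] (P : Measure Ω) [IsProbabilityMeasure P]
    (X Y : Ω → Inc) (hX : Measurable X) (hY : Measurable Y) (n L : ℕ) (hn : 0 < n) (hL : 0 < L)
    (v v' ε c : ℝ) (hε : 0 < ε) (hc : 0 ≤ c) (hvv : |v - v'| ≤ ε)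
    (hI : ∀ x : ℤ, ∫⁻ ω, ((min (Y ω x - X ω x).natAbs L : ℕ) : ℝ≥0∞) ∂P ≤ ENNReal.ofReal c) :
    P.real {ω | 3 * ε * n < |((pr (Y ω) n : ℤ) : ℝ) - v' * n|} ≤
      P.real {ω | ε * n < |((pr (X ω) n : ℤ) : ℝ) - v * n|} + c / ε + n * (c / L) := by
  have hmd : ∀ x : ℤ, Measurable fun ω => ((min (Y ω x - X ω x).natAbs L : ℕ) : ℝ≥0∞) := by
    intro x
    have h1 : Measurable fun ω => Y ω x - X ω x :=
      ((measurable_pi_apply x).comp hY).sub ((measurable_pi_apply x).comp hX)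
    exact (Measurable.of_discrete (f := fun z : ℤ => ((min z.natAbs L : ℕ) : ℝ≥0∞))).comp h1
  set E2 : Set Ω := {ω | ε * n < ∑ x ∈ Finset.range n,
    ((min (Y ω x - X ω x).natAbs L : ℕ) : ℝ)} with hE2
  set E3 : ℕ → Set Ω := fun x => {ω | L ≤ (Y ω x - X ω x).natAbs} with hE3
  have hsub : {ω | 3 * ε * n < |((pr (Y ω) n : ℤ) : ℝ) - v' * n|} ⊆
      ({ω | ε * n < |((pr (X ω) n : ℤ) : ℝ) - v * n|} ∪ E2) ∪ ⋃ x ∈ Finset.range n, E3 x := by
    intro ω hω
    rcases cd_event (X ω) (Y ω) n L v v' ε hvv hω with (h1 | h1) | ⟨x, hx, h1⟩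
    · exact Or.inl (Or.inl h1)
    · exact Or.inl (Or.inr h1)
    · exact Or.inr (Set.mem_biUnion hx h1)
  have hP2 : P.real E2 ≤ c / ε := by
    have h1 : ∫⁻ ω, ∑ x ∈ Finset.range n, ((min (Y ω x - X ω x).natAbs L : ℕ) : ℝ≥0∞) ∂P ≤
        ENNReal.ofReal (n * c) := by
      rw [lintegral_finsetSum (Finset.range n) fun (x : ℕ) _ => hmd (x : ℤ)]
      refine (Finset.sum_le_sum fun (x : ℕ) _ => hI x).trans ?_
      rw [Finset.sum_const, Finset.card_range, nsmul_eq_mul,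
        ENNReal.ofReal_mul (Nat.cast_nonneg n), ENNReal.ofReal_natCast]
    have h2 : E2 ⊆ {ω | ENNReal.ofReal (ε * n) ≤
        ∑ x ∈ Finset.range n, ((min (Y ω x - X ω x).natAbs L : ℕ) : ℝ≥0∞)} := by
      intro ω hω
      have h3 : (∑ x ∈ Finset.range n, ((min (Y ω x - X ω x).natAbs L : ℕ) : ℝ≥0∞)) =
          ENNReal.ofReal (∑ x ∈ Finset.range n, ((min (Y ω x - X ω x).natAbs L : ℕ) : ℝ)) := by
        rw [ENNReal.ofReal_sum_of_nonneg fun _ _ => Nat.cast_nonneg _]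
        exact Finset.sum_congr rfl fun x _ => (ENNReal.ofReal_natCast _).symm
      have h4 := ENNReal.ofReal_le_ofReal (le_of_lt hω)
      rw [← h3] at h4
      exact h4
    have h3 : ENNReal.ofReal (ε * n) * P E2 ≤ ENNReal.ofReal (n * c) := by
      refine le_trans ?_ h1
      refine le_trans (mul_le_mul_right (measure_mono h2) _) ?_
      exact mul_meas_ge_le_lintegral₀
        (Finset.measurable_fun_sum (Finset.range n) fun (x : ℕ) _ => hmd (x : ℤ)).aemeasurable _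
    have h4 := ENNReal.toReal_mono ENNReal.ofReal_ne_top h3
    have hn' : (0 : ℝ) < n := by exact_mod_cast hn
    rw [ENNReal.toReal_mul, ENNReal.toReal_ofReal (by positivity),
      ENNReal.toReal_ofReal (by positivity)] at h4
    change ε * n * P.real E2 ≤ n * c at h4
    rw [le_div_iff₀ hε]
    have h5 : n * (P.real E2 * ε) ≤ n * c := by linarith
    exact le_of_mul_le_mul_left h5 hn'
  have hP3 : ∀ x : ℕ, P.real (E3 x) ≤ c / L := by
    intro x
    have h2 : E3 x ⊆ {ω | (L : ℝ≥0∞) ≤ ((min (Y ω x - X ω x).natAbs L : ℕ) : ℝ≥0∞)} := by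
      intro ω hω
      have h3 : min (Y ω x - X ω x).natAbs L = L := min_eq_right hω
      show (L : ℝ≥0∞) ≤ ((min (Y ω x - X ω x).natAbs L : ℕ) : ℝ≥0∞)
      rw [h3]
    have h3 : (L : ℝ≥0∞) * P (E3 x) ≤ ENNReal.ofReal c := by
      refine le_trans ?_ (hI x)
      refine le_trans (mul_le_mul_right (measure_mono h2) _) ?_
      exact mul_meas_ge_le_lintegral₀ (hmd x).aemeasurable _
    have h4 := ENNReal.toReal_mono ENNReal.ofReal_ne_top h3
    have hL' : (0 : ℝ) < L := by exact_mod_cast hL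
    rw [ENNReal.toReal_mul, ENNReal.toReal_natCast, ENNReal.toReal_ofReal hc] at h4
    rw [le_div_iff₀ hL', mul_comm]
    exact h4
  calc P.real {ω | 3 * ε * n < |((pr (Y ω) n : ℤ) : ℝ) - v' * n|}
      ≤ P.real (({ω | ε * n < |((pr (X ω) n : ℤ) : ℝ) - v * n|} ∪ E2) ∪
          ⋃ x ∈ Finset.range n, E3 x) := measureReal_mono hsub
    _ ≤ P.real ({ω | ε * n < |((pr (X ω) n : ℤ) : ℝ) - v * n|} ∪ E2) +
          P.real (⋃ x ∈ Finset.range n, E3 x) := measureReal_union_le _ _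
    _ ≤ (P.real {ω | ε * n < |((pr (X ω) n : ℤ) : ℝ) - v * n|} + P.real E2) +
          ∑ x ∈ Finset.range n, P.real (E3 x) :=
        add_le_add (measureReal_union_le _ _) (measureReal_biUnion_finset_le _ _)
    _ ≤ (P.real {ω | ε * n < |((pr (X ω) n : ℤ) : ℝ) - v * n|} + c / ε) +
          ∑ _x ∈ Finset.range n, c / L :=
        add_le_add (by gcongr) (Finset.sum_le_sum fun x _ => hP3 x)
    _ = _ := by rw [Finset.sum_const, Finset.card_range, nsmul_eq_mul]

private theorem cd_limit (a b D ε : ℝ) (n : ℕ) (hε : 0 < ε)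
    (h : ∀ δ : ℝ, 0 < δ → ∀ L : ℕ, 0 < L →
      a ≤ b + 2 * δ + (D + δ * (1 + L)) / ε + n * ((D + δ * (1 + L)) / L)) : a ≤ b + D / ε := by
  refine le_of_forall_pos_le_add fun η hη => ?_
  obtain ⟨L, hL⟩ := exists_nat_gt (2 * n * D / η)
  set L' : ℕ := L + 1 with hL'
  have hL0 : (0 : ℝ) < L' := by exact_mod_cast Nat.succ_pos L
  have hLL : (L : ℝ) < L' := by
    rw [hL']
    push_cast
    linarith
  set S : ℝ := 2 + (1 + L') / ε + n * ((1 + L') / L') with hS
  have hS0 : 0 < S := by positivity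
  have h1 := h (η / (2 * S)) (by positivity) L' (Nat.succ_pos L)
  have h2 : n * (D / L') ≤ η / 2 := by
    have h3 : 2 * n * D / η < L' := hL.trans hLL
    rw [div_lt_iff₀ hη] at h3
    rw [mul_div_assoc', div_le_iff₀ hL0]
    linarith
  have h3 : 2 * (η / (2 * S)) + (D + η / (2 * S) * (1 + L')) / ε +
      n * ((D + η / (2 * S) * (1 + L')) / L') = D / ε + n * (D / L') + η / (2 * S) * S := by
    rw [hS]
    ring
  have h4 : η / (2 * S) * S = η / 2 := by field_simp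
  linarith

theorem tail_le {μ μ' : Measure (Height 1)} {v v' : ℝ} (h : InvLaw μ) (h' : InvLaw μ')
    (hv : Slp μ v) (hv' : Slp μ' v') (n : ℕ) {ε : ℝ} (hε : 0 < ε) (hvv : |v - v'| ≤ ε) :
    μ'.real {g : Height 1 | 3 * ε * n < |((g (pt n) : ℤ) : ℝ) - v' * n|} ≤
      μ.real {g : Height 1 | ε * n < |((g (pt n) : ℤ) : ℝ) - v * n|} + |v - v'| / ε := by
  haveI := h.prob
  haveI := h'.prob
  rcases Nat.eq_zero_or_pos n with rfl | hn
  · have h0 : μ' {g : Height 1 | 3 * ε * ((0 : ℕ) : ℝ) <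
        |((g (pt ((0 : ℕ) : ℤ)) : ℤ) : ℝ) - v' * ((0 : ℕ) : ℝ)|} = 0 := by
      rw [measure_eq_zero_iff_ae_notMem]
      filter_upwards [ae_zero h'] with g hg hg'
      have h1 : g (pt ((0 : ℕ) : ℤ)) = 0 := hg
      have h2 : 3 * ε * ((0 : ℕ) : ℝ) < |((g (pt ((0 : ℕ) : ℤ)) : ℤ) : ℝ) -
        v' * ((0 : ℕ) : ℝ)| := hg'
      rw [h1] at h2
      simp at h2
    rw [Measure.real, h0]
    simp only [ENNReal.toReal_zero]
    positivity
  refine cd_limit _ _ _ ε n hε fun δ hδ L hL => ?_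
  have e1 := slp_incr h v ε n
  have e2 := slp_incr h' v' (3 * ε) n
  have m1 : MeasurableSet {η : Inc | ε * n < |((pr η n : ℤ) : ℝ) - v * n|} :=
    measurableSet_lt measurable_const
      ((Measurable.of_discrete (f := fun z : ℤ => |(z : ℝ) - v * n|)).comp (measurable_pr n))
  have m2 : MeasurableSet {η : Inc | 3 * ε * n < |((pr η n : ℤ) : ℝ) - v' * n|} :=
    measurableSet_lt measurable_const
      ((Measurable.of_discrete (f := fun z : ℤ => |(z : ℝ) - v' * n|)).comp (measurable_pr n))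
  have d1 : DepOn (max n 2) {η : Inc | ε * n < |((pr η n : ℤ) : ℝ) - v * n|} :=
    depOn_pr n fun z => ε * n < |(z : ℝ) - v * n|
  have d2 : DepOn (max n 2) {η : Inc | 3 * ε * n < |((pr η n : ℤ) : ℝ) - v' * n|} :=
    depOn_pr n fun z => 3 * ε * n < |(z : ℝ) - v' * n|
  have hc : 0 ≤ |v - v'| + δ * (1 + L) := by positivity
  rcases le_total v v' with hle | hle
  · obtain ⟨π, hπ, -, hA, hB, -, hI⟩ := coupling h h' hv hv' hle (max n 2) hδ
    haveI := hπ
    have hvd : v' - v = |v - v'| := by rw [abs_sub_comm, abs_of_nonneg (sub_nonneg.2 hle)]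
    have h1 := cd_core π Prod.fst Prod.snd measurable_fst measurable_snd n L hn hL v v' ε
      (|v - v'| + δ * (1 + L)) hε hc hvv (fun x => by
        have := hI x L
        rwa [hvd] at this)
    have h2 := abs_le.1 (hA _ m1 d1)
    have h3 := abs_le.1 (hB _ m2 d2)
    rw [e1, map_measureReal_apply measurable_fst m1] at h2
    rw [e2, map_measureReal_apply measurable_snd m2] at h3
    have h4 : π.real (Prod.fst ⁻¹' {η : Inc | ε * n < |((pr η n : ℤ) : ℝ) - v * n|}) =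
      π.real {ω | ε * n < |((pr ω.1 n : ℤ) : ℝ) - v * n|} := rfl
    have h5 : π.real (Prod.snd ⁻¹' {η : Inc | 3 * ε * n < |((pr η n : ℤ) : ℝ) - v' * n|}) =
      π.real {ω | 3 * ε * n < |((pr ω.2 n : ℤ) : ℝ) - v' * n|} := rfl
    rw [h4] at h2
    rw [h5] at h3
    linarith [h2.2, h3.1]
  · obtain ⟨π, hπ, -, hA, hB, -, hI⟩ := coupling h' h hv' hv hle (max n 2) hδ
    haveI := hπ
    have hvd : v - v' = |v - v'| := by rw [abs_of_nonneg (sub_nonneg.2 hle)]
    have h1 := cd_core π Prod.snd Prod.fst measurable_snd measurable_fst n L hn hL v v' ε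
      (|v - v'| + δ * (1 + L)) hε hc hvv (fun x => by
        have h6 := hI x L
        rw [hvd] at h6
        refine le_trans (le_of_eq ?_) h6
        congr 1
        funext p
        rw [← Int.natAbs_neg, neg_sub])
    have h2 := abs_le.1 (hB _ m1 d1)
    have h3 := abs_le.1 (hA _ m2 d2)
    rw [e1, map_measureReal_apply measurable_snd m1] at h2
    rw [e2, map_measureReal_apply measurable_fst m2] at h3
    have h4 : π.real (Prod.snd ⁻¹' {η : Inc | ε * n < |((pr η n : ℤ) : ℝ) - v * n|}) =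
      π.real {ω | ε * n < |((pr ω.2 n : ℤ) : ℝ) - v * n|} := rfl
    have h5 : π.real (Prod.fst ⁻¹' {η : Inc | 3 * ε * n < |((pr η n : ℤ) : ℝ) - v' * n|}) =
      π.real {ω | 3 * ε * n < |((pr ω.1 n : ℤ) : ℝ) - v' * n|} := rfl
    rw [h4] at h2
    rw [h5] at h3
    linarith [h2.2, h3.1]

end Pool.MP4bb68cCl
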