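import Mathlib
import Pool.Agent.Work.MP_4bb68c_cl.LimD
import Pool.Agent.Work.MP_4bb68c_cl.ConsD

/-!
# MODULE TailL (M): the slope of a limit

PROOF. Let `ε > 0`; it is enough to show that for every `δ > 0` eventually (in `n`)
`μ.real {g | 4 ε n < |g (pt n) - v n|} ≤ 2 δ` (then replace `ε` by `ε / 4`). Choose (as `u k → v`
along the hyperfilter) an index `j` with `|u j - v| < ε / 2` and `|u j - v| / ε < δ / 2`, such that
moreover for a.e. `k` w.r.t. the hyperfilter `|u j - u k| ≤ ε`, `|u j - u k| / ε ≤ δ`,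
`|u k - v| ≤ ε`. For such `k` and every `n`:
`(ν k).real {4 ε n < |g (pt n) - v n|} ≤ (ν k).real {3 ε n < |g (pt n) - u k n|} ≤
(ν j).real {ε n < |g (pt n) - u j n|} + δ` by `tail_le` (file `ConsD.lean`, with `μ := ν j`,
`v := u j`, `μ' := ν k`, `v' := u k`). The event `{4 ε n < |g (pt n) - v n|}` depends on the site
`pt n` (`depB_site`), so by `IsLm.real` and `le_of_tendsto` the same bound holds for `μ.real`.
Finally `(ν j).real {ε n < |g (pt n) - u j n|} ≤ δ` for large `n` (`Slp (ν j) (u j)`).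
-/

set_option autoImplicit false

open MeasureTheory ProbabilityTheory Filter Topology
open scoped NNReal ENNReal

namespace Pool.MP4bb68cCl

open Pool.MP4bb68c Pool.MP4bb68cOne

theorem tailL {ν : ℕ → Measure (Height 1)} {μ : Measure (Height 1)} (hν : ∀ k, InvLaw (ν k))
    (hμ : IsProbabilityMeasure μ) (hlim : IsLm ν μ) {u : ℕ → ℝ} {v : ℝ}
    (hs : ∀ k, Slp (ν k) (u k)) (hu : Tendsto u (hyperfilter ℕ) (𝓝 v)) : Slp μ v := by
  intro ε hε
  set e : ℝ := ε / 4 with he
  have he0 : 0 < e := by positivity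
  have hεe : ε = 4 * e := by rw [he]; ring
  rw [hεe, Metric.tendsto_atTop]
  intro a ha
  set δ : ℝ := a / 3 with hδ
  have hδ0 : 0 < δ := by positivity
  set η : ℝ := min (e / 2) (e * δ / 2) with hη
  have hη0 : 0 < η := lt_min (by positivity) (by positivity)
  have hη1 : η ≤ e / 2 := min_le_left _ _
  have hη2 : η ≤ e * δ / 2 := min_le_right _ _
  have hev : ∀ᶠ k in (hyperfilter ℕ : Filter ℕ), |u k - v| < η := by
    have h := hu.eventually (Metric.ball_mem_nhds v hη0)
    filter_upwards [h] with k hk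
    exact hk
  obtain ⟨j, hj⟩ := hev.exists
  have hbd : ∀ n : ℕ, μ.real {g : Height 1 | 4 * e * n < |((g (pt n) : ℤ) : ℝ) - v * n|} ≤
      (ν j).real {g : Height 1 | e * n < |((g (pt n) : ℤ) : ℝ) - u j * n|} + δ := by
    intro n
    have hB := depB_site (pt n) (fun z : ℤ => 4 * e * n < |(z : ℝ) - v * n|)
    refine le_of_tendsto (hlim.real hB) ?_
    filter_upwards [hev] with k hk
    have hp := (hν k).prob
    have h1 : |u j - u k| ≤ 2 * η := by
      have h2 : u j - u k = (u j - v) - (u k - v) := by ring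
      rw [h2]
      have h3 := abs_sub (u j - v) (u k - v)
      linarith
    have h2 : |u j - u k| ≤ e := by linarith
    have h3 : |u j - u k| / e ≤ δ := by
      rw [div_le_iff₀ he0]
      linarith
    have h4 := tail_le (hν j) (hν k) (hs j) (hs k) n he0 h2
    have h5 : (ν k).real {h : Height 1 | 4 * e * n < |((h (pt n) : ℤ) : ℝ) - v * n|} ≤
        (ν k).real {g : Height 1 | 3 * e * n < |((g (pt n) : ℤ) : ℝ) - u k * n|} := by
      refine measureReal_mono ?_ (measure_ne_top _ _)
      intro g hg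
      have hg' : 4 * e * n < |((g (pt n) : ℤ) : ℝ) - v * n| := hg
      show 3 * e * n < |((g (pt n) : ℤ) : ℝ) - u k * n|
      have h6 : ((g (pt n) : ℤ) : ℝ) - v * n =
          (((g (pt n) : ℤ) : ℝ) - u k * n) + (u k - v) * n := by ring
      rw [h6] at hg'
      have h7 := abs_add_le (((g (pt n) : ℤ) : ℝ) - u k * n) ((u k - v) * n)
      have h8 : |(u k - v) * (n : ℝ)| ≤ e * n := by
        rw [abs_mul, Nat.abs_cast]
        refine mul_le_mul_of_nonneg_right ?_ (Nat.cast_nonneg n)
        linarith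
      linarith
    linarith
  obtain ⟨N, hN⟩ := Metric.tendsto_atTop.1 (hs j e he0) δ hδ0
  refine ⟨N, fun n hn => ?_⟩
  have h1 := hN n hn
  rw [Real.dist_eq, sub_zero, abs_of_nonneg measureReal_nonneg] at h1 ⊢
  have h2 := hbd n
  linarith

end Pool.MP4bb68cCl
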