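import Mathlib
import Pool.Agent.Work.MP_4bb68c_cl.Fm
import Pool.Agent.Work.MP_4bb68c_cl.Lam
import Pool.Agent.Work.MP_4bb68c_cl.ConsC
import Pool.Agent.Work.MP_4bb68c_cl.LimA
import Pool.Agent.Work.MP_4bb68c_cl.LimS
import Pool.Agent.Work.MP_4bb68c_cl.LimI
import Pool.Agent.Work.MP_4bb68c_cl.Bdx
import Pool.Agent.Work.MP_4bb68c_cl.TailL

/-!
# JCl: the set of the slopes is closed
-/

set_option autoImplicit false

open MeasureTheory ProbabilityTheory Filter Topology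
open scoped NNReal ENNReal

namespace Pool.MP4bb68cCl

open Pool.MP4bb68c Pool.MP4bb68cOne

theorem mu_slp {v : ℝ} (hv : v ∈ JJ) : Slp (mu v) v :=
  slpAS_slp (mu_spec hv).2

/-- The mean absolute height at `pt x` is finite. -/
theorem lintegral_natAbs_ne_top {μ : Measure (Height 1)} (h : InvLaw μ) (x : Site 1) :
    ∫⁻ g, ((g x).natAbs : ℝ≥0∞) ∂μ ≠ ∞ := by
  have h1 := (h.int x).2
  rw [HasFiniteIntegral] at h1
  refine ne_of_lt (lt_of_le_of_lt (le_of_eq (lintegral_congr fun g => ?_)) h1)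
  rw [← ofReal_norm, Real.norm_eq_abs]
  have h2 : |((g x : ℤ) : ℝ)| = (((g x).natAbs : ℕ) : ℝ) := by
    rw [← Int.cast_abs, Int.abs_eq_natAbs, Int.cast_natCast]
  rw [h2, ENNReal.ofReal_natCast]

/-- Limits of stationary laws with converging slopes. -/
theorem limit_law {u : ℕ → ℝ} {v : ℝ} (hu : ∀ k, u k ∈ JJ) (hlim : Tendsto u atTop (𝓝 v)) :
    ∃ μ : Measure (Height 1), InvLaw μ ∧ Slp μ v ∧ IsLm (fun k => mu (u k)) μ := by
  have hI : ∀ k, InvLaw (mu (u k)) := fun k => (mu_spec (hu k)).1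
  have hP : ∀ k, IsProbabilityMeasure (mu (u k)) := fun k => (hI k).prob
  have hS : ∀ k, Slp (mu (u k)) (u k) := fun k => mu_slp (hu k)
  obtain ⟨M, hM⟩ : ∃ M : ℝ, ∀ k, |u 0 - u k| ≤ M := by
    obtain ⟨M, hM⟩ := (Metric.isBounded_range_of_tendsto u hlim).exists_norm_le
    refine ⟨|u 0| + M, fun k => (abs_sub _ _).trans ?_⟩
    have := hM (u k) ⟨k, rfl⟩
    rw [Real.norm_eq_abs] at this
    linarith
  set C : ℝ≥0∞ := ∫⁻ g, ((g (pt 1)).natAbs : ℝ≥0∞) ∂(mu (u 0)) + ENNReal.ofReal M with hCd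
  have hC : C ≠ ∞ := ENNReal.add_ne_top.2 ⟨lintegral_natAbs_ne_top (hI 0) _, ENNReal.ofReal_ne_top⟩
  have hCk : ∀ k, ∫⁻ g, ((g (pt 1)).natAbs : ℝ≥0∞) ∂(mu (u k)) ≤ C := fun k =>
    (int_le (hI 0) (hI k) (hS 0) (hS k)).trans
      (add_le_add le_rfl (ENNReal.ofReal_le_ofReal (hM k)))
  have hb : ∀ (z : Site 1) (k : ℕ),
      ∫⁻ g, ((g z).natAbs : ℝ≥0∞) ∂(mu (u k)) ≤ ((z 0).natAbs : ℝ≥0∞) * C := by
    intro z k
    have h1 := bdx (hI k) (z 0)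
    rw [← eq_pt z] at h1
    exact h1.trans (mul_le_mul_right (hCk k) _)
  have hbC : ∀ z : Site 1, ((z 0).natAbs : ℝ≥0∞) * C ≠ ∞ := fun z =>
    ENNReal.mul_ne_top (ENNReal.natCast_ne_top _) hC
  obtain ⟨μ, hμ, hL⟩ := limA (fun k => mu (u k)) hP fun z => ⟨_, hbC z, hb z⟩
  have hInv : InvLaw μ :=
    ⟨hμ, limS hP hμ hL fun k => (hI k).stat,
      fun y => limI_map hP hμ hL (continuous_recenter y) fun k => (hI k).inv y,
      fun x => (limI_int hP hμ hL x (hbC x) (hb x)).2⟩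
  exact ⟨μ, hInv, tailL hI hμ hL hS (hlim.mono_left Nat.hyperfilter_le_atTop), hL⟩

theorem isClosed_JJ : IsClosed JJ := by
  refine IsSeqClosed.isClosed fun u v hu hlim => ?_
  obtain ⟨μ, hμ, hs, -⟩ := limit_law hu hlim
  exact ⟨μ, hμ, slp_slpAS hμ hs⟩

end Pool.MP4bb68cCl
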