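import Mathlib
import Pool.Agent.Work.MP_4bb68c_cl.Ker

/-!
# MODULE KerD (M): covariance of the kernel

PROOF. (0) `kerD_of`: if the measurable map `T` satisfies `(lawK d l f).map T = lawK d l (T f)`
for all lists `l`, and the preimage `T ⁻¹' A` of every basic cylinder `A = cyl B c` depends on
finitely many sites, then `(Ka d t f).map T = Ka d t (T f)`: by `ext_cyl` it is enough to compare
`((Ka d t f).map T).real A = (Ka d t f).real (T ⁻¹' A)` (`map_measureReal_apply`) and
`(Ka d t (T f)).real A`. Given `ε > 0`, by `Ka_appr` (for the finite set of `T ⁻¹' A` and for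
`B`, `depB_cyl`) for large `n` they are `ε`-close to `(La d t n f).real (T ⁻¹' A) =
((La d t n f).map T).real A = (La d t n (T f)).real A`. So they differ by at most `2 ε`.
For `t ≤ 0`: `Ka d t = Kernel.id` (`unfold Ka; rw [dif_neg ht]`) and
`(Measure.dirac f).map T = Measure.dirac (T f)`.
(1) `kerD_shift`: `T h = fun x => h (x + y) + c`; for the translation use
`lawK_map_sym (isSym_translate y)` (`Equiv.addRight y x = x + y`), for the constant
`lawK_map_add_const`; `T ⁻¹' cyl B c' = {h | ∀ x ∈ B, h (x + y) + c = c' x}` depends on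
`B.image (· + y)`. (2) `kerD_reflect`: `lawK_map_reflectH` (file `Family.lean`); the preimage
of `cyl B c'` depends on `B.image (-·)`.
-/

set_option autoImplicit false

open MeasureTheory ProbabilityTheory Filter Topology
open scoped NNReal ENNReal

namespace Pool.MP4bb68cCl

open Pool.MP4bb68c

variable {d : ℕ}

private theorem eq_of_abs_sub_le_all (x y : ℝ) (h : ∀ ε > 0, |x - y| ≤ ε) : x = y := by
  by_contra hne
  have h1 : 0 < |x - y| := abs_pos.2 (sub_ne_zero.2 hne)
  have h2 := h (|x - y| / 2) (half_pos h1)
  linarith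

theorem kerD_of {T : Height d → Height d} (hT : Measurable T)
    (hlaw : ∀ (l : List ℝ≥0) (f : Height d), (lawK d l f).map T = lawK d l (T f))
    (hdep : ∀ (B : Finset (Site d)) (c : Site d → ℤ), ∃ B' : Finset (Site d),
      DepB B' (T ⁻¹' (cyl B c))) (t : ℝ) (f : Height d) :
    (Ka d t f).map T = Ka d t (T f) := by
  by_cases ht : 0 < t
  swap
  · have h1 : Ka d t = Kernel.id := by
      unfold Ka
      rw [dif_neg ht]
    rw [h1, Kernel.id_apply, Kernel.id_apply]
    exact Measure.map_dirac' hT f
  haveI : IsProbabilityMeasure ((Ka d t f).map T) :=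
    Measure.isProbabilityMeasure_map hT.aemeasurable
  refine ext_cyl fun B c => ?_
  obtain ⟨B', hB'⟩ := hdep B c
  have hA : MeasurableSet (cyl B c) := measurableSet_cyl B c
  rw [map_measureReal_apply hT hA]
  refine eq_of_abs_sub_le_all _ _ fun ε hε => ?_
  obtain ⟨n₁, h1⟩ := Ka_appr ht B' (half_pos hε)
  obtain ⟨n₂, h2⟩ := Ka_appr ht B (half_pos hε)
  have h3 := h1 (max n₁ n₂) (le_max_left _ _) f (T ⁻¹' cyl B c) (hT hA) hB'
  have h4 := h2 (max n₁ n₂) (le_max_right _ _) (T f) (cyl B c) hA (depB_cyl B c)
  have h5 : (La d t (max n₁ n₂) f).real (T ⁻¹' cyl B c) =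
      (La d t (max n₁ n₂) (T f)).real (cyl B c) := by
    unfold La
    rw [← hlaw, map_measureReal_apply hT hA]
  rw [h5] at h3
  rw [abs_le] at h3 h4 ⊢
  constructor <;> linarith [h3.1, h3.2, h4.1, h4.2]

theorem kerD_shift (t : ℝ) (y : Site d) (c : ℤ) (f : Height d) :
    (Ka d t f).map (fun h x => h (x + y) + c) = Ka d t (fun x => f (x + y) + c) := by
  classical
  have h1 : Measurable fun (h : Height d) (x : Site d) => h (Equiv.addRight y x) := by
    rw [measurable_pi_iff]
    intro x
    exact measurable_pi_apply (X := fun _ : Site d => ℤ) _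
  have h2 : Measurable fun (h : Height d) (x : Site d) => h x + c := by
    rw [measurable_pi_iff]
    intro x
    exact (Measurable.of_discrete (f := fun n : ℤ => n + c)).comp
      (measurable_pi_apply (X := fun _ : Site d => ℤ) x)
  have e : (fun (h : Height d) (x : Site d) => h (x + y) + c) =
      (fun (h : Height d) (x : Site d) => h x + c) ∘
        fun (h : Height d) (x : Site d) => h (Equiv.addRight y x) := by
    ext h x
    simp
  refine kerD_of (T := fun (h : Height d) (x : Site d) => h (x + y) + c) ?_ ?_ ?_ t f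
  · rw [e]
    exact h2.comp h1
  · intro l g
    rw [e, ← Measure.map_map h2 h1, lawK_map_sym (isSym_translate y), lawK_map_add_const]
    rfl
  · intro B c'
    refine ⟨B.image (· + y), fun h h' hh => ?_⟩
    have h3 : ∀ x ∈ B, h (x + y) = h' (x + y) := fun x hx =>
      hh _ (Finset.mem_image_of_mem _ hx)
    constructor
    · intro h4 x hx
      have h5 : h (x + y) + c = c' x := h4 x hx
      show h' (x + y) + c = c' x
      rw [← h3 x hx]
      exact h5
    · intro h4 x hx
      have h5 : h' (x + y) + c = c' x := h4 x hx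
      show h (x + y) + c = c' x
      rw [h3 x hx]
      exact h5

theorem kerD_reflect (t : ℝ) (f : Height d) :
    (Ka d t f).map reflectH = Ka d t (reflectH f) := by
  classical
  refine kerD_of continuous_reflectH.measurable (fun l g => lawK_map_reflectH l g) ?_ t f
  intro B c'
  refine ⟨B.image (- ·), fun h h' hh => ?_⟩
  have h3 : ∀ x ∈ B, h (-x) = h' (-x) := fun x hx => hh _ (Finset.mem_image_of_mem _ hx)
  constructor
  · intro h4 x hx
    have h5 : h (-x) = c' x := h4 x hx
    show h' (-x) = c' x
    rw [← h3 x hx]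
    exact h5
  · intro h4 x hx
    have h5 : h' (-x) = c' x := h4 x hx
    show h (-x) = c' x
    rw [h3 x hx]
    exact h5

end Pool.MP4bb68cCl
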