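import Mathlib
import Pool.Agent.Work.MP_4bb68c_cl.KerB
import Pool.Agent.Work.MP_4bb68c_cl.KerD
import Pool.Agent.Work.MP_4bb68c_cl.Init

/-!
# MODULE RefA (M): the reflected law

`reflectH g = fun x => g (-x)` (file `Work/MP_4bb68c_pr/Family.lean`, `continuous_reflectH`).
PROOF of `refA`. prob: `Measure.isProbabilityMeasure_map`. stat: by `kerB`; for `t > 0`:
`(μ.map reflectH).bind (Ka 1 t) = (μ.bind (Ka 1 t)).map reflectH` (`kerD_reflect`:
`(Ka d t f).map reflectH = Ka d t (reflectH f)`; `Measure.bind_apply`, `lintegral_map`,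
`Measure.map_apply` on a measurable set), and `seen (reflectH g) = reflectH (seen g)`, so
`((μ.map reflectH).bind Ka).map seen = ((μ.bind Ka).map seen).map reflectH = μ.map reflectH`.
inv: `recenter y (reflectH g) = reflectH (recenter (-y) g)` (`g (-(x + y)) - g (-y)`).
int: `(reflectH g) x = g (-x)` (`Integrable.comp`, `integrable_map_measure`).

PROOF of `refA_slp`. Let `A = {g | ε n < |g (pt n) - v n|}`. `(μ.map reflectH).real
{g | ε n < |g (pt n) - (-v) n|} = μ.real {g | ε n < |g (pt (-n)) + v n|}` (`-(pt n) = pt (-n)`),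
and `recenter (pt (-n)) g (pt n) = g (pt 0) - g (pt (-n))`, `g (pt 0) = 0` a.e. (`ae_zero`), so
this event is a.e. equal to `{g | recenter (pt (-n)) g ∈ A}` (`|-(a) - v n| = |a + v n|`), which
has the probability `μ.real A` by `h.inv (pt (-n))`.
-/

set_option autoImplicit false

open MeasureTheory ProbabilityTheory Filter Topology
open scoped NNReal ENNReal

namespace Pool.MP4bb68cCl

open Pool.MP4bb68c Pool.MP4bb68cOne

private theorem meas_refl : Measurable (reflectH : Height 1 → Height 1) :=
  continuous_reflectH.measurable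

private theorem bind_refl (μ : Measure (Height 1)) (t : ℝ) :
    (μ.map reflectH).bind (Ka 1 t) = (μ.bind (Ka 1 t)).map reflectH := by
  ext A hA
  rw [Measure.bind_apply hA (Kernel.aemeasurable _),
    lintegral_map (Kernel.measurable_coe _ hA) meas_refl, Measure.map_apply meas_refl hA,
    Measure.bind_apply (meas_refl hA) (Kernel.aemeasurable _)]
  refine lintegral_congr fun f => ?_
  rw [← kerD_reflect, Measure.map_apply meas_refl hA]

theorem refA {μ : Measure (Height 1)} (h : InvLaw μ) : InvLaw (μ.map reflectH) := by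
  haveI := h.prob
  haveI hp : IsProbabilityMeasure (μ.map reflectH) :=
    Measure.isProbabilityMeasure_map meas_refl.aemeasurable
  refine ⟨hp, ?_, fun y => ?_, fun x => ?_⟩
  · rw [kerB]
    intro t ht
    have h1 := kerB.1 h.stat t ht
    rw [bind_refl, Measure.map_map measurable_seen meas_refl]
    have e : (seen ∘ reflectH : Height 1 → Height 1) = reflectH ∘ seen := by
      funext g x
      show g (-x) - g (-0) = g (-x) - g 0
      rw [neg_zero]
    rw [e, ← Measure.map_map meas_refl measurable_seen, h1]
  · rw [Measure.map_map (measurable_recenter y) meas_refl]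
    have e : (recenter y ∘ reflectH : Height 1 → Height 1) = reflectH ∘ recenter (-y) := by
      funext g x
      show g (-(x + y)) - g (-y) = g (-x + -y) - g (-y)
      rw [neg_add]
    rw [e, ← Measure.map_map meas_refl (measurable_recenter (-y)), h.inv]
  · have hm : Measurable fun g : Height 1 => (g x : ℝ) :=
      (Measurable.of_discrete (f := fun n : ℤ => (n : ℝ))).comp (measurable_pi_apply x)
    rw [integrable_map_measure hm.aestronglyMeasurable meas_refl.aemeasurable]
    exact h.int (-x)

theorem refA_slp {μ : Measure (Height 1)} (h : InvLaw μ) {v : ℝ} (hv : Slp μ v) :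
    Slp (μ.map reflectH) (-v) := by
  haveI := h.prob
  intro ε hε
  refine (hv ε hε).congr fun n => ?_
  have hm : ∀ (x : Site 1) (w : ℝ), MeasurableSet {g : Height 1 | ε * n < |(g x : ℝ) - w * n|} := by
    intro x w
    have e : {g : Height 1 | ε * n < |(g x : ℝ) - w * n|} =
        (fun g : Height 1 => g x) ⁻¹' {z : ℤ | ε * n < |(z : ℝ) - w * n|} := rfl
    rw [e]
    exact (measurable_pi_apply x) MeasurableSet.of_discrete
  rw [map_measureReal_apply meas_refl (hm _ _)]
  conv_lhs => rw [← h.inv (-(pt n))]
  rw [map_measureReal_apply (measurable_recenter _) (hm _ _)]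
  refine measureReal_congr ?_
  filter_upwards [ae_zero h] with g hg
  apply propext
  show ε * n < |(((g (pt n + -(pt n)) - g (-(pt n)) : ℤ)) : ℝ) - v * n| ↔
    ε * n < |((g (-(pt n)) : ℤ) : ℝ) - -v * n|
  have e1 : pt (n : ℤ) + -(pt n) = pt 0 := add_neg_cancel _
  rw [e1, hg]
  have e2 : (((0 - g (-(pt n)) : ℤ)) : ℝ) - v * n = -(((g (-(pt n)) : ℤ) : ℝ) - -v * n) := by
    push_cast
    ring
  rw [e2, abs_neg]

end Pool.MP4bb68cCl
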