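import Mathlib
import Pool.Agent.Work.MP_4bb68c_cl.JCl
import Pool.Agent.Work.MP_4bb68c_cl.RefA
import Pool.Agent.Work.MP_4bb68c_cl.ConsA

/-!
# Refl: the reflection
-/

set_option autoImplicit false

open MeasureTheory ProbabilityTheory Filter Topology
open scoped NNReal ENNReal

namespace Pool.MP4bb68cCl

open Pool.MP4bb68c Pool.MP4bb68cOne

theorem neg_mem_JJ {v : ℝ} (hv : v ∈ JJ) : -v ∈ JJ :=
  ⟨(mu v).map reflectH, refA (mu_spec hv).1,
    slp_slpAS (refA (mu_spec hv).1) (refA_slp (mu_spec hv).1 (mu_slp hv))⟩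

theorem neg_mem_JJ_iff {v : ℝ} : -v ∈ JJ ↔ v ∈ JJ :=
  ⟨fun h => by simpa using neg_mem_JJ h, neg_mem_JJ⟩

/-- An invariant law with the slope `v` is `mu v`. -/
theorem eq_mu {μ : Measure (Height 1)} {v : ℝ} (h : InvLaw μ) (hv : Slp μ v) :
    v ∈ JJ ∧ μ = mu v := by
  have h1 : v ∈ JJ := ⟨μ, h, slp_slpAS h hv⟩
  exact ⟨h1, eq_of_slp h (mu_spec h1).1 hv (mu_slp h1)⟩

theorem mu_neg {v : ℝ} (hv : v ∈ JJ) : mu (-v) = (mu v).map reflectH :=
  (eq_mu (refA (mu_spec hv).1) (refA_slp (mu_spec hv).1 (mu_slp hv))).2.symm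

end Pool.MP4bb68cCl
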