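import Mathlib
import Pool.Agent.Work.MP_4bb68c_cl.MixA
import Pool.Agent.Work.MP_4bb68c_cl.Refl
import Pool.Agent.Work.MP_4bb68c_d1.Slopes

/-!
# Big: there is a slope at least 1 / 100
-/

set_option autoImplicit false

open MeasureTheory ProbabilityTheory Filter Topology
open scoped NNReal ENNReal

namespace Pool.MP4bb68cCl

open Pool.MP4bb68c Pool.MP4bb68cOne

theorem exists_slope_ge {μ : Measure (Height 1)} (h : InvLaw μ) :
    ∃ v ∈ JJ, ∫ g, ((g (pt 1) : ℤ) : ℝ) ∂μ ≤ v := by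
  have := h.prob
  obtain ⟨-, h2, h3⟩ := lam_ae h
  have h4 : ∀ᵐ g ∂μ, lam g ∈ JJ := ae_of_ae_map measurable_lam.aemeasurable (mix_mem h)
  obtain ⟨g, hg, hg2⟩ := exists_notMem_null_integral_le h2 h4
  refine ⟨lam g, ?_, h3 ▸ hg2⟩
  by_contra hc
  exact hg hc

theorem invLaw_of_hasSlope {μ : Measure (Height 1)} {v : Fin 1 → ℝ} (h : HasSlope μ v) :
    InvLaw μ := ⟨h.prob, h.stat, h.inv, h.int⟩

theorem exists_big : ∃ v ∈ JJ, 1 / 100 ≤ v := by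
  obtain ⟨r, hr, ⟨μ, hμ⟩, -⟩ := exists_big_slope
  obtain ⟨v, hv, hv2⟩ := exists_slope_ge (invLaw_of_hasSlope hμ)
  refine ⟨v, hv, hr.trans (le_trans (le_of_eq ?_) hv2)⟩
  rw [hμ.mean (pt 1)]
  simp

end Pool.MP4bb68cCl
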