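import Pool.Agent.Work.MP_4bb68c_cl.Cou

/-!
# ConsB (size S-M): the law with the larger slope dominates

For `ε > 0` take `π` from `coupling` with `M`. If `p.1 ∈ A` and `p.1 x ≤ p.2 x` for `-M ≤ x < M`, then `p.2 ∈ A`: the function
`η'' x = p.2 x` for `-M ≤ x < M`, `max (p.1 x) (p.2 x)` otherwise is in `A` by `hup`, and it agrees with `p.2` on the window.
So `μ A ≤ π (p.1 ∈ A) + ε ≤ π (p.2 ∈ A) + ∑ x, π (p.2 x < p.1 x) + ε ≤ μ' A + 2 ε + 2 M ε`. Let `ε → 0`.
-/

set_option autoImplicit false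

open MeasureTheory ProbabilityTheory Filter Topology
open scoped NNReal ENNReal

namespace Pool.MP4bb68cCl

open Pool.MP4bb68c Pool.MP4bb68cOne

theorem mono_law {μ μ' : Measure (Height 1)} {v v' : ℝ} (h : InvLaw μ) (h' : InvLaw μ')
    (hv : Slp μ v) (hv' : Slp μ' v') (hle : v ≤ v') (M : ℕ) {A : Set Inc}
    (hA : MeasurableSet A) (hM : DepOn M A)
    (hup : ∀ η η' : Inc, (∀ x, η x ≤ η' x) → η ∈ A → η' ∈ A) :
    (μ.map incr).real A ≤ (μ'.map incr).real A := by
  refine le_of_forall_pos_le_add fun δ hδ => ?_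
  have hM0 : (0 : ℝ) ≤ M := Nat.cast_nonneg M
  have hε : 0 < δ / (2 * M + 2) := by positivity
  obtain ⟨π, hπ, -, h1, h2, h3, -⟩ := coupling h h' hv hv' hle M hε
  set ε := δ / (2 * M + 2) with hεdef
  have e1 := (abs_le.1 (h1 A hA hM)).1
  have e2 := (abs_le.1 (h2 A hA hM)).2
  rw [map_measureReal_apply measurable_fst hA] at e1
  rw [map_measureReal_apply measurable_snd hA] at e2
  set B : Set (Inc × Inc) := ⋃ x ∈ Finset.Ico (-(M : ℤ)) M, {p | p.2 x < p.1 x} with hB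
  have e3 : π.real B ≤ 2 * M * ε := by
    refine (measureReal_biUnion_finset_le _ _).trans ?_
    refine (Finset.sum_le_sum fun x _ => h3 x).trans (le_of_eq ?_)
    rw [Finset.sum_const, Int.card_Ico, nsmul_eq_mul]
    congr 1
    have h4 : ((M : ℤ) - -(M : ℤ)).toNat = 2 * M := by omega
    rw [h4]
    push_cast
    ring
  have hsub : Prod.fst ⁻¹' A ⊆ (Prod.snd ⁻¹' A : Set (Inc × Inc)) ∪ B := by
    intro p hp
    by_cases hpB : p ∈ B
    · exact Or.inr hpB
    left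
    have hw : ∀ x : ℤ, -(M : ℤ) ≤ x → x < M → p.1 x ≤ p.2 x := by
      intro x hx1 hx2
      by_contra hlt
      apply hpB
      rw [hB]
      simp only [Set.mem_iUnion]
      exact ⟨x, Finset.mem_Ico.2 ⟨hx1, hx2⟩, not_le.1 hlt⟩
    have h4 : (fun x : ℤ => if -(M : ℤ) ≤ x ∧ x < M then p.2 x else max (p.1 x) (p.2 x)) ∈ A := by
      refine hup p.1 _ (fun x => ?_) hp
      show p.1 x ≤ if -(M : ℤ) ≤ x ∧ x < M then p.2 x else max (p.1 x) (p.2 x)
      split_ifs with hx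
      · exact hw x hx.1 hx.2
      · exact le_max_left _ _
    refine (hM _ p.2 fun x hx1 hx2 => ?_).1 h4
    show (if -(M : ℤ) ≤ x ∧ x < M then p.2 x else max (p.1 x) (p.2 x)) = p.2 x
    rw [if_pos ⟨hx1, hx2⟩]
  have e4 : π.real (Prod.fst ⁻¹' A) ≤ π.real (Prod.snd ⁻¹' A) + π.real B :=
    (measureReal_mono hsub).trans (measureReal_union_le _ _)
  have e5 : (2 * M + 2) * ε = δ := by
    rw [hεdef]
    field_simp
  linarith

end Pool.MP4bb68cCl
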