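import Pool.Agent.Work.MP_4bb68c_cl.FamA
import Pool.Agent.Work.MP_4bb68c_cl.MixA

/-!
# FamC (size S-M): every law is a mixture, in a unique way

`decomp`: the first claim is `mix_mem`; the second one `lam_ae` (`integrable_map_measure`, `measurable_lam`). `ν = (ν.map lam).bind mu`: `mix_bind`, `mix_ae` and `mu_eq`:
`condDistrib id lam ν v = mu v` for almost every `v`, and `Measure.bind` depends only on the almost everywhere class (`Measure.bind_congr_right`, or `Measure.bind`
unfolded and `Measure.map_congr`).
`decomp_unique`: for `v ∈ JJ`, `lam g = v` for `mu v`-almost every `g` (`mu_spec`, `lam_of_tendsto`), so `(mu v).map lam = dirac v`; for measurable `A`: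
`((κ.bind mu).map lam) A = ∫⁻ v, mu v (lam ⁻¹' A) ∂κ = ∫⁻ v, indicator A 1 v ∂κ = κ A` (`Measure.bind_apply` with `measurable_mu hJ`).
-/

set_option autoImplicit false

open MeasureTheory ProbabilityTheory Filter Topology
open scoped NNReal ENNReal

namespace Pool.MP4bb68cCl

open Pool.MP4bb68c Pool.MP4bb68cOne

theorem decomp {ν : Measure (Height 1)} (h : InvLaw ν) :
    (ν.map lam) JJᶜ = 0 ∧ Integrable (fun v : ℝ => v) (ν.map lam) ∧
      ν = (ν.map lam).bind mu := by
  have h1 := mix_mem h
  refine ⟨ae_iff.1 h1, ?_, ?_⟩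
  · exact (integrable_map_measure measurable_id.aestronglyMeasurable
      measurable_lam.aemeasurable).2 (lam_ae h).2.1
  · have := h.prob
    have h2 : (condDistrib id lam ν : ℝ → Measure (Height 1)) =ᵐ[ν.map lam] mu := by
      filter_upwards [mix_ae h] with v hv
      exact mu_eq hv.1 hv.2
    have h3 := mix_bind h
    rw [← Measure.bind_congr_right h2]
    exact h3.symm

theorem decomp_unique (hJ : MeasurableSet JJ) {κ : Measure ℝ} [IsProbabilityMeasure κ]
    (hκ : κ JJᶜ = 0) : (κ.bind mu).map lam = κ := by
  have hae : ∀ᵐ v ∂κ, v ∈ JJ := ae_iff.2 hκ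
  refine Measure.ext fun A hA => ?_
  rw [Measure.map_apply measurable_lam hA,
    Measure.bind_apply (measurable_lam hA) (measurable_mu hJ).aemeasurable,
    ← lintegral_indicator_one hA]
  refine lintegral_congr_ae ?_
  filter_upwards [hae] with v hv
  have h1 : lam =ᵐ[mu v] fun _ => v := by
    have h2 : SlpAS (mu v) v := (mu_spec hv).2
    unfold SlpAS at h2
    filter_upwards [h2] with g hg
    exact lam_of_tendsto hg
  rw [measure_congr (h1.preimage A)]
  by_cases hvA : v ∈ A
  · rw [Set.preimage_const_of_mem hvA, Set.indicator_of_mem hvA]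
    exact measure_univ
  · rw [Set.preimage_const_of_notMem hvA, Set.indicator_of_notMem hvA]
    exact measure_empty

end Pool.MP4bb68cCl
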