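import Pool.Agent.Work.MP_4bb68c_cl.FamB
import Pool.Agent.Work.MP_4bb68c_cl.FamC
import Pool.Agent.Work.MP_4bb68c_cl.ConsB
import Pool.Agent.Work.MP_4bb68c_cl.Refl
import Pool.Agent.Work.MP_4bb68c_cl.Big

/-!
# Fin: assembly
-/

set_option autoImplicit false

open MeasureTheory ProbabilityTheory Filter Topology
open scoped NNReal ENNReal

namespace Pool.MP4bb68cCl

open Pool.MP4bb68c Pool.MP4bb68cOne

/-- Events of increments and events of heights. -/
theorem real_incr (v : ℝ) {A : Set Inc} (hA : MeasurableSet A) :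
    (mu v).real {g : Height 1 | incr g ∈ A} = ((mu v).map incr).real A := by
  rw [map_measureReal_apply measurable_incr hA]
  rfl

theorem fin_lip (M : ℕ) {A : Set Inc} (hA : MeasurableSet A) (hM : DepOn M A) {v w : ℝ}
    (hv : v ∈ JJ) (hw : w ∈ JJ) :
    |(mu v).real {g : Height 1 | incr g ∈ A} - (mu w).real {g : Height 1 | incr g ∈ A}| ≤
      2 * M * |v - w| := by
  rw [real_incr v hA, real_incr w hA]
  exact lip (mu_spec hv).1 (mu_spec hw).1 (mu_slp hv) (mu_slp hw) M hA hM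

theorem fin_mono (M : ℕ) {A : Set Inc} (hA : MeasurableSet A) (hM : DepOn M A)
    (hup : ∀ η η' : Inc, (∀ x, η x ≤ η' x) → η ∈ A → η' ∈ A) {v w : ℝ}
    (hv : v ∈ JJ) (hw : w ∈ JJ) (hvw : v ≤ w) :
    (mu v).real {g : Height 1 | incr g ∈ A} ≤ (mu w).real {g : Height 1 | incr g ∈ A} := by
  rw [real_incr v hA, real_incr w hA]
  exact mono_law (mu_spec hv).1 (mu_spec hw).1 (mu_slp hv) (mu_slp hw) hvw M hA hM hup

/-- Every law is a mixture, in a unique way. -/
theorem fin_decomp {ν : Measure (Height 1)} (h : InvLaw ν) :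
    ∃! κ : Measure ℝ, IsProbabilityMeasure κ ∧ κ JJᶜ = 0 ∧ Integrable (fun v : ℝ => v) κ ∧
      ν = κ.bind mu := by
  have := h.prob
  have hp : IsProbabilityMeasure (ν.map lam) :=
    Measure.isProbabilityMeasure_map measurable_lam.aemeasurable
  obtain ⟨h1, h2, h3⟩ := decomp h
  refine ⟨ν.map lam, ⟨hp, h1, h2, h3⟩, ?_⟩
  rintro κ ⟨k1, k2, -, k4⟩
  have := decomp_unique isClosed_JJ.measurableSet (κ := κ) k2
  rw [← k4] at this
  exact this.symm

/-- The mean heights. -/
theorem fin_mean {v : ℝ} (hv : v ∈ JJ) (x : Site 1) : ∫ g, (g x : ℝ) ∂(mu v) = v * x 0 := by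
  have hI := (mu_spec hv).1
  have hp := hI.prob
  have h1 := mean_eq_sum hI.inv hI.int x
  have h2 : ∫ g, ((g (pt 1) : ℤ) : ℝ) ∂(mu v) = v := by
    rw [← (lam_ae hI).2.2]
    have h3 : ∀ᵐ g ∂(mu v), lam g = v := by
      filter_upwards [(mu_spec hv).2] with g hg
      exact lam_of_tendsto hg
    rw [integral_congr_ae h3, integral_const, probReal_univ, one_smul]
  have h4 : mean (mu v) (Pi.single (0 : Fin 1) 1) = v := by
    have e : (Pi.single (0 : Fin 1) (1 : ℤ) : Site 1) = pt 1 := by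
      ext i
      rw [Fin.eq_zero i]
      simp
    unfold mean
    rw [e]
    exact h2
  rw [Fin.sum_univ_one, h4] at h1
  exact h1

end Pool.MP4bb68cCl
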