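import Pool.Agent.Work.MP_4bb68c_cl.Meas

/-!
# Marg (size M): the marginals of the law of the pair

`fwd_law`: for one height function `f` and `J ξ f j` = the forward synchronous evolution (slot `0` first),
`(arrLaw 1 δ).map (fun ξ => J ξ f j) = lawK 1 (List.replicate j δ) f`: induction on `j`, generalizing `f`: with
`J (consArr (b, ζ)) f (j + 1) = J ζ (slotStep b f) j` and `map_consArr`, the law for `j + 1` is
`(siteLaw.map (slotStep · f)).bind (law of j) = (stepK 1 δ f).bind (lawK 1 (List.replicate j δ))`, which is
`lawK 1 (List.replicate j δ ++ [δ]) f` (`lawK_append`, `Kernel.comp_apply`, `lawK_cons`, `lawK_nil`), and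
`List.replicate j δ ++ [δ] = List.replicate (j + 1) δ`.
`incr (J ξ f j) = ifw ξ (incr f) j` by `incr_slotStep`.
So if `π.map Prod.fst = μ.map incr`: the first marginal of `PI π δ j` is the image of `(π.map Prod.fst).prod (arrLaw 1 δ)` under
`(η, ξ) ↦ ifw ξ η j`, i.e. of `μ.prod (arrLaw 1 δ)` under `(f, ξ) ↦ ifw ξ (incr f) j = incr (J ξ f j)`, which is
`(μ.bind (fun f => (arrLaw 1 δ).map (J · f j))).map incr` (check on measurable sets: `Measure.prod_apply`,
`Measure.bind_apply`, `Measure.map_apply`).
-/

set_option autoImplicit false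

open MeasureTheory ProbabilityTheory
open scoped NNReal ENNReal

namespace Pool.MP4bb68cCl

open Pool.MP4bb68c Pool.MP4bb68cOne

private def J (ξ : ℕ → Site 1 → Bool) (f : Height 1) : ℕ → Height 1
  | 0 => f
  | j + 1 => slotStep (ξ j) (J ξ f j)

private theorem J_cons (b : Site 1 → Bool) (ζ : ℕ → Site 1 → Bool) (f : Height 1) (j : ℕ) :
    J (consArr (b, ζ)) f (j + 1) = J ζ (slotStep b f) j := by
  induction j with
  | zero => rfl
  | succ j ih =>
    change slotStep (ζ j) (J (consArr (b, ζ)) f (j + 1)) = slotStep (ζ j) (J ζ (slotStep b f) j)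
    rw [ih]

private theorem measurable_J (j : ℕ) :
    Measurable (fun p : Height 1 × (ℕ → Site 1 → Bool) => J p.2 p.1 j) := by
  induction j with
  | zero => exact measurable_fst
  | succ j ih =>
    have h1 : Measurable (fun p : Height 1 × (ℕ → Site 1 → Bool) => p.2 j) :=
      (measurable_pi_apply j).comp measurable_snd
    exact measurable_slotStep_uncurry.comp (ih.prodMk h1)

private theorem measurable_J_left (f : Height 1) (j : ℕ) :
    Measurable (fun ξ : ℕ → Site 1 → Bool => J ξ f j) :=
  (measurable_J j).comp (measurable_const.prodMk measurable_id)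

private theorem incr_J (ξ : ℕ → Site 1 → Bool) (f : Height 1) (j : ℕ) :
    incr (J ξ f j) = ifw ξ (incr f) j := by
  induction j with
  | zero => rfl
  | succ j ih =>
    change incr (slotStep (ξ j) (J ξ f j)) = istep (ξ j) (ifw ξ (incr f) j)
    rw [incr_slotStep, ih]

private theorem fwd_law (δ : ℝ≥0) (j : ℕ) (f : Height 1) :
    (arrLaw 1 δ).map (fun ξ => J ξ f j) = lawK 1 (List.replicate j δ) f := by
  induction j generalizing f with
  | zero =>
    rw [List.replicate_zero, lawK_nil]
    have : (fun ξ : ℕ → Site 1 → Bool => J ξ f 0) = fun _ => f := rfl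
    rw [this, Measure.map_const, measure_univ, one_smul]
  | succ j ih =>
    have e : List.replicate (j + 1) δ = List.replicate j δ ++ [δ] := List.replicate_succ'
    rw [e, lawK_append, Kernel.comp_apply, lawK_cons, lawK_nil,
      Measure.dirac_bind (Kernel.measurable _)]
    have hm : Measurable (fun p : (Site 1 → Bool) × (ℕ → Site 1 → Bool) =>
        J p.2 (slotStep p.1 f) j) :=
      (measurable_J j).comp
        (((measurable_slotStep_left f).comp measurable_fst).prodMk measurable_snd)
    ext s hs
    conv_lhs => rw [← map_consArr δ]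
    rw [Measure.map_map (measurable_J_left f (j + 1)) measurable_consArr,
      Measure.map_apply ((measurable_J_left f (j + 1)).comp measurable_consArr) hs,
      Measure.bind_apply hs (Kernel.aemeasurable _)]
    have e1 : ((fun ξ => J ξ f (j + 1)) ∘ consArr) ⁻¹' s =
        (fun p : (Site 1 → Bool) × (ℕ → Site 1 → Bool) => J p.2 (slotStep p.1 f) j) ⁻¹' s := by
      ext p
      obtain ⟨b, ζ⟩ := p
      simp only [Set.mem_preimage, Function.comp_apply]
      rw [J_cons]
    rw [e1, Measure.prod_apply (hm hs), stepK_apply,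
      lintegral_map ((lawK 1 (List.replicate j δ)).measurable_coe hs) (measurable_slotStep_left f)]
    refine lintegral_congr fun b => ?_
    rw [← ih, Measure.map_apply (measurable_J_left _ j) hs]
    rfl

private theorem fwd_incr {μ : Measure (Height 1)} [IsProbabilityMeasure μ] (δ : ℝ≥0) (j : ℕ) :
    ((μ.map incr).prod (arrLaw 1 δ)).map (fun q => ifw q.2 q.1 j) =
      (μ.bind (lawK 1 (List.replicate j δ))).map incr := by
  have : IsProbabilityMeasure (μ.map incr) :=
    Measure.isProbabilityMeasure_map measurable_incr.aemeasurable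
  ext s hs
  have hq : MeasurableSet ((fun q : Inc × (ℕ → Site 1 → Bool) => ifw q.2 q.1 j) ⁻¹' s) :=
    measurable_ifw j hs
  rw [Measure.map_apply (measurable_ifw j) hs, Measure.prod_apply hq,
    lintegral_map (measurable_measure_prodMk_left hq) measurable_incr,
    Measure.map_apply measurable_incr hs,
    Measure.bind_apply (measurable_incr hs) (Kernel.aemeasurable _)]
  refine lintegral_congr fun f => ?_
  rw [← fwd_law, Measure.map_apply (measurable_J_left f j) (measurable_incr hs)]
  congr 1
  ext ξ
  simp only [Set.mem_preimage]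
  rw [incr_J]

theorem PI_fst {π : Measure (Inc × Inc)} [IsProbabilityMeasure π] {μ : Measure (Height 1)}
    [IsProbabilityMeasure μ] (h : π.map Prod.fst = μ.map incr) (δ : ℝ≥0) (j : ℕ) :
    (PI π δ j).map Prod.fst = (μ.bind (lawK 1 (List.replicate j δ))).map incr := by
  rw [← fwd_incr, ← h]
  unfold PI
  rw [Measure.map_map measurable_fst (measurable_pair j)]
  have h1 : (π.map Prod.fst).prod (arrLaw 1 δ) =
      (π.prod (arrLaw 1 δ)).map (Prod.map Prod.fst id) := by
    rw [← Measure.map_prod_map _ _ measurable_fst measurable_id, Measure.map_id]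
  rw [h1, Measure.map_map (measurable_ifw j) (measurable_fst.prodMap measurable_id)]
  rfl

theorem PI_snd {π : Measure (Inc × Inc)} [IsProbabilityMeasure π] {μ : Measure (Height 1)}
    [IsProbabilityMeasure μ] (h : π.map Prod.snd = μ.map incr) (δ : ℝ≥0) (j : ℕ) :
    (PI π δ j).map Prod.snd = (μ.bind (lawK 1 (List.replicate j δ))).map incr := by
  rw [← fwd_incr, ← h]
  unfold PI
  rw [Measure.map_map measurable_snd (measurable_pair j)]
  have h1 : (π.map Prod.snd).prod (arrLaw 1 δ) =
      (π.prod (arrLaw 1 δ)).map (Prod.map Prod.snd id) := by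
    rw [← Measure.map_prod_map _ _ measurable_snd measurable_id, Measure.map_id]
  rw [h1, Measure.map_map (measurable_ifw j) (measurable_snd.prodMap measurable_id)]
  rfl

end Pool.MP4bb68cCl
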