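import Pool.Agent.Work.MP_4bb68c_cl.DetB

/-!
# Meas (size M): measurability and the semigroup property of the law of the pair

`Inc = ℤ → ℤ` has the product `σ`-algebra. `measurable_istep`: `measurable_pi_iff`; for every `x` the value depends measurably
on `η x, η (x + 1), η (x - 1)` and on the two booleans (`Measurable.ite`, `measurable_pi_apply`, `Measurable.max`,
`Measurable.add`, `.sub`, `.neg`; `fun_prop` for the coordinates). `measurable_ifw`: induction on `j`.
`PI_zero`: `ifw _ η 0 = η`, the map is `Prod.fst` (`Measure.map_fst_prod`, `measure_univ`).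
`ifw_cons`: `ifw (consArr (b, ζ)) η (j + 1) = ifw ζ (istep b η) j` (induction on `j`; `consArr` is in pr/Chain).
`PI_one`: the law of the pair after one slot.
`PI_add`: induction on `i`. `i = 0`: `PI_zero`. Step: first `PI π δ (j + 1) = PI (PI π δ 1) δ j` for all `π`: by `map_consArr` (pr/Chain)
`arrLaw 1 δ = ((siteLaw 1 δ).prod (arrLaw 1 δ)).map consArr`, so `PI π δ (j + 1)` is the image of
`π.prod ((siteLaw 1 δ).prod (arrLaw 1 δ))` under `(p, b, ζ) ↦ (ifw ζ (istep b p.1) j, ifw ζ (istep b p.2) j)`, which is the image of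
`((π.prod (siteLaw 1 δ)).map (step)).prod (arrLaw 1 δ)` (`Measure.prod_map`/`Measure.map_prod_map`, associativity of products:
`MeasurableEquiv.prodAssoc`, `Measure.prodAssoc_prod`; or check on rectangles/with `lintegral`: for measurable `F ≥ 0`,
`∫⁻ F d(PI ..) = ∫⁻ p, ∫⁻ b, ∫⁻ ζ, F (..)` by `lintegral_prod`). Then
`PI π δ (i + 1 + j) = PI (PI π δ 1) δ (i + j) = PI (PI (PI π δ 1) δ i) δ j = PI (PI π δ (i + 1)) δ j`.
-/

set_option autoImplicit false

open MeasureTheory ProbabilityTheory
open scoped NNReal ENNReal

namespace Pool.MP4bb68cCl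

open Pool.MP4bb68c Pool.MP4bb68cOne

theorem measurable_istep :
    Measurable (fun p : Inc × (Site 1 → Bool) => istep p.2 p.1) := by
  rw [measurable_pi_iff]
  intro x
  have hb : ∀ y : ℤ, MeasurableSet {p : Inc × (Site 1 → Bool) | zb p.2 y = true} := by
    intro y
    have h : Measurable fun p : Inc × (Site 1 → Bool) => p.2 (pt y) :=
      (measurable_pi_apply _).comp measurable_snd
    exact h (measurableSet_singleton true)
  have he : ∀ y : ℤ, Measurable fun p : Inc × (Site 1 → Bool) => p.1 y := fun y =>
    (measurable_pi_apply _).comp measurable_fst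
  show Measurable fun p : Inc × (Site 1 → Bool) =>
    (if zb p.2 (x + 1) = true then max (p.1 x + 1) (max (p.1 x + p.1 (x + 1)) 0) else p.1 x) -
    (if zb p.2 x = true then max 1 (max (p.1 x) (-p.1 (x - 1))) else 0)
  refine Measurable.sub (Measurable.ite (hb _) ?_ (he _)) (Measurable.ite (hb _) ?_ measurable_const)
  · exact ((he x).add_const 1).max (((he x).add (he (x + 1))).max measurable_const)
  · exact measurable_const.max ((he x).max (he (x - 1)).neg)

theorem measurable_ifw (j : ℕ) :
    Measurable (fun p : Inc × (ℕ → Site 1 → Bool) => ifw p.2 p.1 j) := by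
  induction j with
  | zero => exact measurable_fst
  | succ j ih =>
    exact measurable_istep.comp (ih.prodMk ((measurable_pi_apply j).comp measurable_snd))

theorem measurable_pair (j : ℕ) :
    Measurable (fun p : (Inc × Inc) × (ℕ → Site 1 → Bool) =>
      (ifw p.2 p.1.1 j, ifw p.2 p.1.2 j)) :=
  ((measurable_ifw j).comp ((measurable_fst.comp measurable_fst).prodMk measurable_snd)).prodMk
    ((measurable_ifw j).comp ((measurable_snd.comp measurable_fst).prodMk measurable_snd))

private theorem measurable_mx {α : Type*} [MeasurableSpace α] {f g : α → Inc} (hf : Measurable f)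
    (hg : Measurable g) : Measurable fun p => mx (f p) (g p) := by
  rw [measurable_pi_iff]
  intro x
  exact ((measurable_pi_apply x).comp hf).max ((measurable_pi_apply x).comp hg)

private theorem measurable_ng {α : Type*} [MeasurableSpace α] {f : α → Inc}
    {b : α → Site 1 → Bool} (hf : Measurable f) (hb : Measurable b) (x : ℤ) :
    Measurable fun p => ng (zb (b p)) (f p) x :=
  (measurable_pi_apply x).comp (measurable_istep.comp (hf.prodMk hb))

theorem measurable_BL (k : ℕ) (x : ℤ) :
    Measurable (fun p : (Inc × Inc) × (ℕ → Site 1 → Bool) => BL k p.2 p.1.1 p.1.2 x) := by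
  unfold BL
  refine Finset.measurable_fun_sum _ fun j _ => ?_
  have h1 : Measurable fun p : (Inc × Inc) × (ℕ → Site 1 → Bool) => ifw p.2 p.1.1 j :=
    (measurable_ifw j).comp ((measurable_fst.comp measurable_fst).prodMk measurable_snd)
  have h2 : Measurable fun p : (Inc × Inc) × (ℕ → Site 1 → Bool) => ifw p.2 p.1.2 j :=
    (measurable_ifw j).comp ((measurable_snd.comp measurable_fst).prodMk measurable_snd)
  have h3 : Measurable fun p : (Inc × Inc) × (ℕ → Site 1 → Bool) => p.2 j :=
    (measurable_pi_apply j).comp measurable_snd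
  have a1 := measurable_ng (measurable_mx h1 h2) h3 x
  have a2 := measurable_ng h1 h3 x
  have a3 := measurable_ng h2 h3 x
  unfold loss
  exact (((a1.const_mul 2).sub a2).sub a3).sub ((a3.sub a2).abs)

theorem measurable_incr : Measurable incr := by
  rw [measurable_pi_iff]
  intro x
  have h : ∀ z : Site 1, Measurable fun g : Height 1 => g z := fun z => measurable_pi_apply z
  exact (h _).sub (h _)

theorem measurable_sh : Measurable sh := by
  rw [measurable_pi_iff]
  intro x
  exact measurable_pi_apply _

theorem measurable_pr (x : ℤ) : Measurable (fun η : Inc => pr η x) := by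
  have h : ∀ z : ℤ, Measurable fun η : Inc => η z := fun z => measurable_pi_apply z
  unfold pr
  split_ifs
  · exact Finset.measurable_fun_sum _ fun i _ => h _
  · exact (Finset.measurable_fun_sum _ fun i _ => h _).neg

instance instProbPI (π : Measure (Inc × Inc)) [IsProbabilityMeasure π] (δ : ℝ≥0) (j : ℕ) :
    IsProbabilityMeasure (PI π δ j) :=
  Measure.isProbabilityMeasure_map (measurable_pair j).aemeasurable

theorem ifw_cons (b : Site 1 → Bool) (ζ : ℕ → Site 1 → Bool) (η : Inc) (j : ℕ) :
    ifw (consArr (b, ζ)) η (j + 1) = ifw ζ (istep b η) j := by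
  induction j with
  | zero => rfl
  | succ j ih =>
    show istep (ζ j) (ifw (consArr (b, ζ)) η (j + 1)) = istep (ζ j) (ifw ζ (istep b η) j)
    rw [ih]

theorem PI_zero (π : Measure (Inc × Inc)) [IsProbabilityMeasure π] (δ : ℝ≥0) :
    PI π δ 0 = π := by
  show (π.prod (arrLaw 1 δ)).map Prod.fst = π
  rw [Measure.map_fst_prod, measure_univ, one_smul]

private theorem measurable_step :
    Measurable (fun p : (Inc × Inc) × (Site 1 → Bool) => (istep p.2 p.1.1, istep p.2 p.1.2)) :=
  (measurable_istep.comp ((measurable_fst.comp measurable_fst).prodMk measurable_snd)).prodMk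
    (measurable_istep.comp ((measurable_snd.comp measurable_fst).prodMk measurable_snd))

private theorem PI_key (π : Measure (Inc × Inc)) [IsProbabilityMeasure π] (δ : ℝ≥0) (j : ℕ) :
    PI π δ (j + 1) =
      PI ((π.prod (siteLaw 1 δ)).map (fun p => (istep p.2 p.1.1, istep p.2 p.1.2))) δ j := by
  have hA : (π.prod (arrLaw 1 δ)) =
      (π.prod ((siteLaw 1 δ).prod (arrLaw 1 δ))).map (Prod.map id consArr) := by
    rw [← Measure.map_prod_map _ _ measurable_id measurable_consArr, Measure.map_id, map_consArr]
  have hB : (π.prod ((siteLaw 1 δ).prod (arrLaw 1 δ))) =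
      ((π.prod (siteLaw 1 δ)).prod (arrLaw 1 δ)).map MeasurableEquiv.prodAssoc :=
    (Measure.prodAssoc_prod).symm
  have hC : ((π.prod (siteLaw 1 δ)).map
      (fun p => (istep p.2 p.1.1, istep p.2 p.1.2))).prod (arrLaw 1 δ) =
      ((π.prod (siteLaw 1 δ)).prod (arrLaw 1 δ)).map
        (Prod.map (fun p => (istep p.2 p.1.1, istep p.2 p.1.2)) id) := by
    rw [← Measure.map_prod_map _ _ measurable_step measurable_id, Measure.map_id]
  unfold PI
  rw [hC, hA, hB, Measure.map_map (measurable_id.prodMap measurable_consArr)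
    MeasurableEquiv.prodAssoc.measurable, Measure.map_map (measurable_pair (j + 1))
    ((measurable_id.prodMap measurable_consArr).comp MeasurableEquiv.prodAssoc.measurable),
    Measure.map_map (measurable_pair j) (measurable_step.prodMap measurable_id)]
  congr 1
  funext p
  obtain ⟨⟨p, b⟩, ζ⟩ := p
  show (ifw (consArr (b, ζ)) p.1 (j + 1), ifw (consArr (b, ζ)) p.2 (j + 1)) =
    (ifw ζ (istep b p.1) j, ifw ζ (istep b p.2) j)
  rw [ifw_cons, ifw_cons]

private theorem prob_step (π : Measure (Inc × Inc)) [IsProbabilityMeasure π] (δ : ℝ≥0) :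
    IsProbabilityMeasure
      ((π.prod (siteLaw 1 δ)).map (fun p => (istep p.2 p.1.1, istep p.2 p.1.2))) :=
  Measure.isProbabilityMeasure_map measurable_step.aemeasurable

theorem PI_one (π : Measure (Inc × Inc)) [IsProbabilityMeasure π] (δ : ℝ≥0) :
    PI π δ 1 = (π.prod (siteLaw 1 δ)).map (fun p => (istep p.2 p.1.1, istep p.2 p.1.2)) := by
  have := prob_step π δ
  rw [← PI_zero ((π.prod (siteLaw 1 δ)).map (fun p => (istep p.2 p.1.1, istep p.2 p.1.2))) δ]
  exact PI_key π δ 0

theorem PI_add (π : Measure (Inc × Inc)) [IsProbabilityMeasure π] (δ : ℝ≥0) (i j : ℕ) :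
    PI π δ (i + j) = PI (PI π δ i) δ j := by
  induction i generalizing π with
  | zero => rw [PI_zero, zero_add]
  | succ i ih =>
    have h1 : i + 1 + j = (i + j) + 1 := by omega
    rw [h1, PI_key π δ (i + j), PI_key π δ i]
    have := prob_step π δ
    exact ih _

end Pool.MP4bb68cCl
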