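import Pool.Agent.Work.MP_4bb68c_cl.Defs

/-!
# DetA: deterministic facts on one slot
-/

set_option autoImplicit false

namespace Pool.MP4bb68cCl

open Pool.MP4bb68c Pool.MP4bb68cOne

theorem pr_zero (η : Inc) : pr η 0 = 0 := by
  simp [pr]

theorem pr_succ (η : Inc) (x : ℤ) : pr η (x + 1) = pr η x + η x := by
  unfold pr
  rcases lt_trichotomy x (-1) with h | h | h
  · rw [if_neg (by omega), if_neg (by omega)]
    obtain ⟨n, hn⟩ : ∃ n : ℕ, x = -(n : ℤ) - 2 := ⟨(-x - 2).toNat, by omega⟩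
    subst hn
    have e1 : (-(-(n : ℤ) - 2 + 1)).toNat = n + 1 := by omega
    have e2 : (-(-(n : ℤ) - 2)).toNat = n + 2 := by omega
    rw [e1, e2, Finset.sum_range_succ _ (n + 1)]
    have e3 : -1 - ((n + 1 : ℕ) : ℤ) = -(n : ℤ) - 2 := by push_cast; ring
    rw [e3]
    ring
  · subst h
    simp
  · rw [if_pos (by omega), if_pos (by omega)]
    obtain ⟨n, rfl⟩ : ∃ n : ℕ, x = n := ⟨x.toNat, by omega⟩
    have e1 : ((n : ℤ) + 1).toNat = n + 1 := by omega
    rw [e1, Finset.sum_range_succ]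
    simp

theorem gr_pr (η : Inc) : gr (pr η) = η := by
  funext x
  unfold gr
  rw [pr_succ]
  ring

theorem gr_up (b : ℤ → Bool) (h : ℤ → ℤ) : gr (up b h) = ng b (gr h) := by
  funext x
  unfold gr up ng
  have e1 : x + 1 - 1 = x := by ring
  have e2 : x - 1 + 1 = x := by ring
  simp only [e1, e2]
  split_ifs <;> omega

theorem ng_mono (b : ℤ → Bool) {η ζ : Inc} (H : ∀ x, η x ≤ ζ x) (x : ℤ) :
    ng b η x ≤ ng b ζ x := by
  have h0 := H x
  have h1 := H (x + 1)
  have h2 := H (x - 1)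
  unfold ng
  split_ifs <;> omega

/-- If `k - h` is nondecreasing, then the new difference at `x` is between the old ones at
`x - 1` and `x + 1`. -/
theorem up_between (b : ℤ → Bool) {h k : ℤ → ℤ} (H : ∀ x, gr h x ≤ gr k x) (x : ℤ) :
    k (x - 1) - h (x - 1) ≤ up b k x - up b h x ∧
      up b k x - up b h x ≤ k (x + 1) - h (x + 1) := by
  have h0 := H x
  have h2 := H (x - 1)
  unfold gr at h0 h2
  rw [show x - 1 + 1 = x by ring] at h2
  unfold up
  split_ifs <;> omega

theorem loss_nonneg (b : ℤ → Bool) (η η' : Inc) (x : ℤ) : 0 ≤ loss b η η' x := by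
  have h1 := ng_mono b (η := η) (ζ := mx η η') (fun y => le_max_left _ _) x
  have h2 := ng_mono b (η := η') (ζ := mx η η') (fun y => le_max_right _ _) x
  unfold loss
  rcases abs_cases (ng b η' x - ng b η x) with h | h <;> omega

theorem gr_hfw (ξ : ℕ → Site 1 → Bool) (h : ℤ → ℤ) (j : ℕ) :
    gr (hfw ξ h j) = ifw ξ (gr h) j := by
  induction j with
  | zero => rfl
  | succ j ih =>
    show gr (up (zb (ξ j)) (hfw ξ h j)) = istep (ξ j) (ifw ξ (gr h) j)
    rw [gr_up, ih]
    rfl

theorem incr_slotStep (ξ : Site 1 → Bool) (g : Height 1) :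
    incr (slotStep ξ g) = istep ξ (incr g) := by
  have e1 : incr (slotStep ξ g) = gr (up (zb ξ) fun x => g (pt x)) := by
    funext x
    unfold incr gr up zb
    rw [slotStep_pt, slotStep_pt]
  rw [e1, gr_up]
  rfl

theorem sum_gr (h : ℤ → ℤ) (l : ℤ) (n : ℕ) :
    ∑ i ∈ Finset.range n, gr h (l + i) = h (l + n) - h l := by
  induction n with
  | zero => simp
  | succ n ih =>
    rw [Finset.sum_range_succ, ih]
    unfold gr
    push_cast
    rw [← add_assoc]
    ring

end Pool.MP4bb68cCl
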