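import Pool.Agent.Work.MP_4bb68c_cl.ConsA
import Pool.Agent.Work.MP_4bb68c_cl.Lam
import Pool.Agent.Work.MP_4bb68c_cl.Fm

/-!
# FamA (size S-M): uniqueness and regularity of the family

`mu_slp0`: `slpAS_slp`. `mu_eq`: `eq_of_slp` (ConsA).
`mu_cyl`: by `law_eq` (ConsA) `mu v = ((mu v).map incr).map (fun η z => pr η (z 0))`, so `(mu v).real (cyl B c) = ((mu v).map incr).real A` with
`A = {η | ∀ z ∈ B, pr η (z 0) = c z}`, measurable, and `DepOn M A` if `|z 0| ≤ M` for all `z ∈ B` (`pr η x` depends only on the `η y` between `0` and `x`); `lip`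
(ConsA) with `C = 2 M`.
`measurable_mu`: `Measurable.measure_of_isPiSystem_of_isProbabilityMeasure` with `cyls 1` (`generateFrom_cyls`, `isPiSystem_cyls`, pr/Stat); for a cylinder the function
`v ↦ (mu v).real (cyl B c)` is Lipschitz on the measurable set `JJ` and constant outside (`mu_of_notMem`), hence measurable (`Measurable.piecewise`-like,
`measurable_of_restrict_of_restrict_compl`, continuity on the subtype `JJ`).
-/

set_option autoImplicit false

open MeasureTheory ProbabilityTheory Filter Topology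
open scoped NNReal ENNReal

namespace Pool.MP4bb68cCl

open Pool.MP4bb68c Pool.MP4bb68cOne

theorem mu_slp0 {v : ℝ} (hv : v ∈ JJ) : Slp (mu v) v :=
  slpAS_slp (mu_spec hv).2

theorem mu_eq {μ : Measure (Height 1)} {v : ℝ} (h : InvLaw μ) (hs : SlpAS μ v) : μ = mu v := by
  have hv : v ∈ JJ := ⟨μ, h, hs⟩
  have := h.prob
  exact eq_of_slp h (mu_spec hv).1 (slpAS_slp hs) (mu_slp0 hv)

private theorem pr_cg (M : ℕ) {η η' : Inc} (h : ∀ x : ℤ, -M ≤ x → x < M → η x = η' x) (x : ℤ) :
    -M ≤ x → x ≤ M → pr η x = pr η' x := by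
  induction x using Int.induction_on with
  | zero => intro _ _; rw [pr_zero, pr_zero]
  | succ i ih =>
    intro h1 h2
    rw [pr_succ, pr_succ, ih (by omega) (by omega), h i (by omega) (by omega)]
  | pred i ih =>
    intro h1 h2
    have e : -(i : ℤ) - 1 + 1 = -(i : ℤ) := by ring
    have h3 := pr_succ η (-(i : ℤ) - 1)
    have h4 := pr_succ η' (-(i : ℤ) - 1)
    rw [e] at h3 h4
    have h5 := ih (by omega) (by omega)
    have h6 := h (-(i : ℤ) - 1) h1 (by omega)
    linarith

private def cA (B : Finset (Site 1)) (c : Site 1 → ℤ) : Set Inc :=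
  {η | ∀ z ∈ B, pr η (z 0) = c z}

private theorem cA_ms (B : Finset (Site 1)) (c : Site 1 → ℤ) : MeasurableSet (cA B c) := by
  have e : cA B c = ⋂ z ∈ B, (fun η : Inc => pr η (z 0)) ⁻¹' {c z} := by
    ext η
    simp [cA]
  rw [e]
  exact Finset.measurableSet_biInter B fun z _ => measurable_pr (z 0) (MeasurableSet.of_discrete)

private theorem mu_real_eq {v : ℝ} (hv : v ∈ JJ) (B : Finset (Site 1)) (c : Site 1 → ℤ) :
    (mu v).real (cyl B c) = ((mu v).map incr).real (cA B c) := by
  have hm : Measurable fun (η : Inc) (z : Site 1) => pr η (z 0) :=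
    measurable_pi_iff.2 fun z => measurable_pr (z 0)
  conv_lhs => rw [← law_eq (mu_spec hv).1]
  rw [Measure.real, Measure.map_apply hm (measurableSet_cyl B c)]
  rfl

theorem mu_cyl (B : Finset (Site 1)) (c : Site 1 → ℤ) : ∃ C : ℝ, ∀ v ∈ JJ, ∀ w ∈ JJ,
    |(mu v).real (cyl B c) - (mu w).real (cyl B c)| ≤ C * |v - w| := by
  refine ⟨2 * ((B.sup fun z => (z 0).natAbs : ℕ) : ℝ), fun v hv w hw => ?_⟩
  rw [mu_real_eq hv, mu_real_eq hw]
  refine lip (mu_spec hv).1 (mu_spec hw).1 (mu_slp0 hv) (mu_slp0 hw) _ (cA_ms B c) ?_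
  intro η η' h
  have key : ∀ z ∈ B, pr η (z 0) = pr η' (z 0) := fun z hz => by
    have hx : (z 0).natAbs ≤ B.sup fun z => (z 0).natAbs :=
      Finset.le_sup (f := fun z : Site 1 => (z 0).natAbs) hz
    exact pr_cg _ h (z 0) (by omega) (by omega)
  simp only [cA, Set.mem_ofPred_eq]
  constructor
  · intro hB z hz
    rw [← key z hz]
    exact hB z hz
  · intro hB z hz
    rw [key z hz]
    exact hB z hz

theorem measurable_mu (hJ : MeasurableSet JJ) : Measurable mu := by
  refine Measurable.measure_of_isPiSystem_of_isProbabilityMeasure generateFrom_cyls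
    isPiSystem_cyls ?_
  rintro _ ⟨B, c, rfl⟩
  obtain ⟨C, hC⟩ := mu_cyl B c
  have h1 : Measurable fun v => (mu v).real (cyl B c) := by
    refine measurable_of_restrict_of_restrict_compl hJ ?_ ?_
    · have h2 : LipschitzWith C.toNNReal (JJ.domRestrict fun v => (mu v).real (cyl B c)) := by
        refine LipschitzWith.of_dist_le_mul fun v w => ?_
        rw [Real.dist_eq, Subtype.dist_eq, Real.dist_eq]
        refine (hC v v.2 w w.2).trans ?_
        exact mul_le_mul_of_nonneg_right (Real.le_coe_toNNReal C) (abs_nonneg _)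
      exact h2.continuous.measurable
    · have h3 : (JJᶜ).domRestrict (fun v => (mu v).real (cyl B c)) =
          fun _ => (Measure.dirac (0 : Height 1)).real (cyl B c) := by
        funext v
        show (mu v).real (cyl B c) = _
        rw [mu_of_notMem v.2]
      rw [h3]
      exact measurable_const
  have h4 : (fun v => mu v (cyl B c)) = fun v => ENNReal.ofReal ((mu v).real (cyl B c)) := by
    funext v
    rw [Measure.real, ENNReal.ofReal_toReal (measure_ne_top _ _)]
  rw [h4]
  exact h1.ennreal_ofReal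

end Pool.MP4bb68cCl
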