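import Pool.Agent.Work.MP_4bb68c_cl.FamA
import Pool.Agent.Work.MP_4bb68c_cl.ConsC
import Pool.Agent.Work.MP_4bb68c_cl.KerB
import Pool.Agent.Work.MP_4bb68c_cl.Bdx

/-!
# FamB (size M): mixtures

`κ`-almost every `v` is in `JJ`; `mu` is measurable (`measurable_mu hJ`), so for measurable `F ≥ 0` on heights: `∫⁻ g, F g ∂(κ.bind mu) = ∫⁻ v, ∫⁻ g, F g ∂(mu v) ∂κ`
(`Measure.lintegral_bind`).
prob: `Measure.bind_apply` on `univ`. stat: `kerB`: for measurable `A` and `t > 0`
`(((κ.bind mu).bind (Ka 1 t)).map seen) A = ∫⁻ v, (((mu v).bind (Ka 1 t)).map seen) A ∂κ = ∫⁻ v, mu v A ∂κ = (κ.bind mu) A` (`(mu_spec hv).1.stat`).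
inv: in the same way with `recenter y`.
int: fix `v₀ ∈ JJ` (exists, as `κ JJᶜ = 0` and `κ` is a probability measure). For `v ∈ JJ`, `x : ℤ`:
`∫⁻ g, (g (pt x)).natAbs ∂(mu v) ≤ x.natAbs * ∫⁻ g, (g (pt 1)).natAbs ∂(mu v) ≤ x.natAbs * (∫⁻ g, (g (pt 1)).natAbs ∂(mu v₀) + ofReal |v₀ - v|)` (`bdx`, `int_le`), which is
`κ`-integrable. So `∫⁻ g, (g (pt x)).natAbs ∂(κ.bind mu) < ∞`, i.e. `g ↦ (g (pt x) : ℝ)` is integrable (`‖(z : ℝ)‖ₑ = z.natAbs`); `x = pt (x 0)` (`eq_pt`).
-/

set_option autoImplicit false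

open MeasureTheory ProbabilityTheory Filter Topology
open scoped NNReal ENNReal

namespace Pool.MP4bb68cCl

open Pool.MP4bb68c Pool.MP4bb68cOne

private theorem fb_enorm (n : ℤ) : ‖((n : ℤ) : ℝ)‖ₑ = ((n.natAbs : ℕ) : ℝ≥0∞) := by
  rw [← ofReal_norm, Real.norm_eq_abs]
  have h2 : |((n : ℤ) : ℝ)| = ((n.natAbs : ℕ) : ℝ) := by
    rw [← Int.cast_abs, Int.abs_eq_natAbs, Int.cast_natCast]
  rw [h2, ENNReal.ofReal_natCast]

private theorem fb_fin {μ : Measure (Height 1)} (h : InvLaw μ) (x : Site 1) :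
    ∫⁻ g, ((g x).natAbs : ℝ≥0∞) ∂μ ≠ ∞ := by
  have h1 := (h.int x).2
  rw [HasFiniteIntegral] at h1
  exact ne_of_lt (lt_of_le_of_lt (le_of_eq (lintegral_congr fun g => (fb_enorm _).symm)) h1)

theorem mixture (hJ : MeasurableSet JJ) {κ : Measure ℝ} [IsProbabilityMeasure κ]
    (hκ : κ JJᶜ = 0) (hint : Integrable (fun v : ℝ => v) κ) : InvLaw (κ.bind mu) := by
  have hm : Measurable mu := measurable_mu hJ
  have hae : ∀ᵐ v ∂κ, v ∈ JJ := hκ
  have hp : IsProbabilityMeasure (κ.bind mu) := by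
    constructor
    rw [Measure.bind_apply MeasurableSet.univ hm.aemeasurable]
    simp only [measure_univ, lintegral_const, mul_one]
  refine ⟨hp, ?_, ?_, ?_⟩
  · rw [kerB]
    intro t ht
    ext A hA
    have hA' : MeasurableSet (seen ⁻¹' A : Set (Height 1)) := measurable_seen hA
    have hk : Measurable fun f : Height 1 => Ka 1 t f (seen ⁻¹' A) := Kernel.measurable_coe _ hA'
    rw [Measure.map_apply measurable_seen hA,
      Measure.bind_apply hA' (Kernel.aemeasurable _),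
      Measure.lintegral_bind hm.aemeasurable hk.aemeasurable,
      Measure.bind_apply hA hm.aemeasurable]
    refine lintegral_congr_ae ?_
    filter_upwards [hae] with v hv
    have h1 := kerB.1 (mu_spec hv).1.stat t ht
    have h2 : ((mu v).bind (Ka 1 t)).map seen A = mu v A := by rw [h1]
    rw [Measure.map_apply measurable_seen hA,
      Measure.bind_apply hA' (Kernel.aemeasurable _)] at h2
    exact h2
  · intro y
    ext A hA
    have hr : Measurable (recenter y : Height 1 → Height 1) := (continuous_recenter y).measurable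
    rw [Measure.map_apply hr hA, Measure.bind_apply (hr hA) hm.aemeasurable,
      Measure.bind_apply hA hm.aemeasurable]
    refine lintegral_congr_ae ?_
    filter_upwards [hae] with v hv
    have h1 := (mu_spec hv).1.inv y
    have h2 : (mu v).map (recenter y) A = mu v A := by rw [h1]
    rw [Measure.map_apply hr hA] at h2
    exact h2
  · intro x
    obtain ⟨v₀, hv₀⟩ : ∃ v, v ∈ JJ := hae.exists
    have hx : Measurable fun g : Height 1 => ((g x : ℤ) : ℝ) :=
      (Measurable.of_discrete (f := fun m : ℤ => (m : ℝ))).comp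
        (measurable_pi_apply (X := fun _ : Site 1 => ℤ) x)
    refine ⟨hx.aestronglyMeasurable, ?_⟩
    rw [HasFiniteIntegral, Measure.lintegral_bind hm.aemeasurable hx.enorm.aemeasurable]
    have h1 : ∀ᵐ v ∂κ, ∫⁻ g : Height 1, ‖((g x : ℤ) : ℝ)‖ₑ ∂(mu v) ≤
        ((x 0).natAbs : ℝ≥0∞) * (∫⁻ g, ((g (pt 1)).natAbs : ℝ≥0∞) ∂(mu v₀) +
          ENNReal.ofReal |v₀ - v|) := by
      filter_upwards [hae] with v hv
      have h2 := bdx (mu_spec hv).1 (x 0)
      rw [← eq_pt x] at h2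
      have h3 := int_le (mu_spec hv₀).1 (mu_spec hv).1 (mu_slp0 hv₀) (mu_slp0 hv)
      refine (le_of_eq (lintegral_congr fun g => fb_enorm _)).trans (h2.trans ?_)
      exact mul_le_mul_right h3 _
    refine lt_of_le_of_lt (lintegral_mono_ae h1) ?_
    rw [lintegral_const_mul' _ _ (ENNReal.natCast_ne_top _)]
    refine ENNReal.mul_lt_top (ENNReal.natCast_lt_top _) ?_
    rw [lintegral_add_left measurable_const, lintegral_const, measure_univ, mul_one]
    refine ENNReal.add_lt_top.2 ⟨(fb_fin (mu_spec hv₀).1 _).lt_top, ?_⟩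
    have h4 : Integrable (fun v : ℝ => v₀ - v) κ := (integrable_const v₀).sub hint
    have h5 := h4.2
    rw [HasFiniteIntegral] at h5
    refine lt_of_le_of_lt (le_of_eq (lintegral_congr fun v => ?_)) h5
    rw [← ofReal_norm, Real.norm_eq_abs]

end Pool.MP4bb68cCl
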