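import Mathlib
import Pool.Agent.Work.MP_4bb68c_cl.Ker

/-!
# MODULE KerE (S-M): the heights do not decrease

PROOF. `{h | f ≤ h} = ⋂ x, {h | f x ≤ h x}` (countable), so by `ae_all_iff` it is enough that
`(Ka d t f).real {h | h x < f x} = 0` for every `x`. For `t ≤ 0` the kernel is `Kernel.id`
(`unfold Ka; rw [dif_neg ht]`, `Kernel.id_apply`, `ae_dirac_eq`). For `t > 0` the event depends
on `{x}`, so by `Ka_appr` for every `ε > 0` there is `n` with
`(Ka d t f).real A ≤ (La d t n f).real A + ε`, and `(La d t n f).real A = 0` as `f ≤ h` for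
`lawK d l f`-a.e. `h` (`ae_le_lawK`, file `Run.lean`).
-/

set_option autoImplicit false

open MeasureTheory ProbabilityTheory Filter Topology
open scoped NNReal ENNReal

namespace Pool.MP4bb68cCl

open Pool.MP4bb68c

variable {d : ℕ}

private theorem meas_lt (f : Height d) (x : Site d) : MeasurableSet {h : Height d | h x < f x} :=
  measurableSet_lt (measurable_pi_apply x) measurable_const

private theorem kerE_pos {t : ℝ} (ht : 0 < t) (f : Height d) (x : Site d) :
    (Ka d t f).real {h : Height d | h x < f x} = 0 := by
  have hd : DepB {x} {h : Height d | h x < f x} := by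
    intro g h hgh
    have : g x = h x := hgh x (Finset.mem_singleton_self x)
    show g x < f x ↔ h x < f x
    rw [this]
  refine le_antisymm (le_of_forall_pos_le_add fun ε hε => ?_) measureReal_nonneg
  obtain ⟨n, hn⟩ := Ka_appr (d := d) ht {x} hε
  have h1 := hn n le_rfl f _ (meas_lt f x) hd
  have h2 : (La d t n f).real {h : Height d | h x < f x} = 0 := by
    rw [measureReal_def]
    have h3 : (La d t n f) {h : Height d | h x < f x} = 0 := by
      have h4 := ae_le_lawK (d := d) (List.replicate ⌊t / (dl 1 n : ℝ)⌋₊ (dl 1 n)) f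
      have h5 : ∀ᵐ h ∂(La d t n f), ¬ h x < f x := by
        filter_upwards [h4] with h hh
        exact not_lt.2 (hh x)
      simpa [ae_iff] using h5
    rw [h3]
    rfl
  rw [h2, sub_zero] at h1
  rw [zero_add]
  exact (le_abs_self _).trans h1

theorem kerE (t : ℝ) (f : Height d) : ∀ᵐ h ∂(Ka d t f), ∀ x, f x ≤ h x := by
  by_cases ht : 0 < t
  · rw [ae_all_iff]
    intro x
    have h1 := kerE_pos ht f x
    have h2 : (Ka d t f) {h : Height d | h x < f x} = 0 := by
      rw [measureReal_def, ENNReal.toReal_eq_zero_iff] at h1
      exact h1.resolve_right (measure_ne_top _ _)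
    rw [ae_iff]
    simpa using h2
  · have hK : Ka d t = Kernel.id := by
      unfold Ka
      rw [dif_neg ht]
    rw [hK, Kernel.id_apply]
    have hm : MeasurableSet {h : Height d | ∀ x, f x ≤ h x} := by
      have : {h : Height d | ∀ x, f x ≤ h x} = ⋂ x, {h : Height d | f x ≤ h x} := by
        ext h
        simp
      rw [this]
      exact MeasurableSet.iInter fun x =>
        measurableSet_le measurable_const (measurable_pi_apply x)
    rw [ae_dirac_iff hm]
    exact fun x => le_rfl

end Pool.MP4bb68cCl
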