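import Mathlib
import Pool.Agent.Work.MP_4bb68c_cl.Ker
import Pool.Agent.Work.MP_4bb68c_cl.KerD

/-!
# MODULE KerF (M): the growth of the height of a site does not depend on the site

`FF t M f = Ka d t f {h | M < h 0 - f 0}`: the probability that the height of the origin grows by
more than `M`.
PROOF. (1) `kerF_meas`: `{(f, h) | M < h y - f y}` is measurable in the product, and
`Kernel.measurable_kernel_prodMk_left` gives measurability of
`f ↦ Ka d t f {h | M < h y - f y}`.
(2) `kerF`: `Ka d t f {h | M < h y - f y} = Ka d t (recenter y f) {h | M < h 0 - (recenter y f) 0}`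
as `recenter y f = fun x => f (x + y) + (- f y)`, `kerD_shift t y (- f y) f`, and
`(recenter y f) 0 = 0`: the preimage of `{h | M < h 0 - 0}` under `h ↦ (x ↦ h (x + y) - f y)` is
`{h | M < h y - f y}` (`Measure.map_apply`).
(3) `kerF_inv`: so if `μ.map (recenter y) = μ`, then
`∫⁻ f, Ka d t f {h | M < h y - f y} ∂μ = ∫⁻ f, FF (recenter y f) ∂μ = ∫⁻ f, FF f ∂μ`
(`lintegral_map`, `measurable_recenter`).
(4) `kerF_tail`: `∫⁻ f, Ka d t f {h | M < h 0 - f 0} ∂μ → 0` as `M → ∞` (`M : ℕ`): for each `f`
the sets decrease to the empty set (`tendsto_measure_iInter_atTop`), and the integrands are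
`≤ 1`, which is integrable as `μ` is a probability measure
(`tendsto_lintegral_of_dominated_convergence`).
-/

set_option autoImplicit false

open MeasureTheory ProbabilityTheory Filter Topology
open scoped NNReal ENNReal

namespace Pool.MP4bb68cCl

open Pool.MP4bb68c

variable {d : ℕ}

private theorem meas_diff (y : Site d) :
    Measurable fun p : Height d × Height d => ((p.2 y - p.1 y : ℤ) : ℝ) := by
  have h1 : Measurable fun p : Height d × Height d => (p.2 y, p.1 y) :=
    ((measurable_pi_apply y).comp measurable_snd).prodMk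
      ((measurable_pi_apply y).comp measurable_fst)
  have h2 : Measurable fun q : ℤ × ℤ => ((q.1 - q.2 : ℤ) : ℝ) := Measurable.of_discrete
  exact h2.comp h1

private theorem measSet (y : Site d) (M : ℝ) (c : ℤ) :
    MeasurableSet {h : Height d | M < ((h y - c : ℤ) : ℝ)} := by
  have h2 : Measurable fun q : ℤ => ((q - c : ℤ) : ℝ) := Measurable.of_discrete
  exact measurableSet_lt measurable_const (h2.comp (measurable_pi_apply y))

theorem kerF_meas (t : ℝ) (y : Site d) (M : ℝ) :
    Measurable fun f : Height d => Ka d t f {h | M < ((h y - f y : ℤ) : ℝ)} := by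
  have h1 : MeasurableSet {p : Height d × Height d | M < ((p.2 y - p.1 y : ℤ) : ℝ)} :=
    measurableSet_lt measurable_const (meas_diff y)
  exact Kernel.measurable_kernel_prodMk_left h1

theorem kerF (t : ℝ) (y : Site d) (M : ℝ) (f : Height d) :
    Ka d t f {h | M < ((h y - f y : ℤ) : ℝ)} =
      Ka d t (recenter y f) {h | M < ((h 0 - recenter y f 0 : ℤ) : ℝ)} := by
  have e0 : recenter y f 0 = 0 := by
    unfold recenter
    rw [zero_add, sub_self]
  have e1 : recenter y f = fun x => f (x + y) + -f y := by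
    funext x
    unfold recenter
    rw [sub_eq_add_neg]
  have hT : Measurable fun (h : Height d) (x : Site d) => h (x + y) + -f y := by
    rw [measurable_pi_iff]
    intro x
    exact (Measurable.of_discrete (f := fun n : ℤ => n + -f y)).comp
      (measurable_pi_apply (X := fun _ : Site d => ℤ) (x + y))
  rw [e0]
  rw [e1, ← kerD_shift, Measure.map_apply hT (measSet 0 M 0)]
  congr 1
  ext h
  simp only [Set.mem_ofPred_eq, Set.preimage_ofPred_eq]
  rw [zero_add, sub_zero, ← sub_eq_add_neg]

theorem kerF_inv {μ : Measure (Height d)} (hinv : ∀ y : Site d, μ.map (recenter y) = μ) (t : ℝ)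
    (y : Site d) (M : ℝ) :
    ∫⁻ f, Ka d t f {h | M < ((h y - f y : ℤ) : ℝ)} ∂μ =
      ∫⁻ f, Ka d t f {h | M < ((h 0 - f 0 : ℤ) : ℝ)} ∂μ := by
  simp_rw [kerF t y M]
  have h1 := lintegral_map (μ := μ) (kerF_meas t (0 : Site d) M) (measurable_recenter y)
  rw [hinv] at h1
  exact h1.symm

theorem kerF_tail {μ : Measure (Height d)} [IsProbabilityMeasure μ] (t : ℝ) :
    Tendsto (fun M : ℝ => ∫⁻ f, Ka d t f {h | M < ((h 0 - f 0 : ℤ) : ℝ)} ∂μ) atTop (𝓝 0) := by
  have h1 : ∀ f : Height d,
      Tendsto (fun M : ℝ => Ka d t f {h | M < ((h 0 - f 0 : ℤ) : ℝ)}) atTop (𝓝 0) := by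
    intro f
    have h2 := tendsto_measure_iInter_atTop (μ := Ka d t f)
      (s := fun M : ℝ => {h : Height d | M < ((h 0 - f 0 : ℤ) : ℝ)})
      (fun M => (measSet 0 M (f 0)).nullMeasurableSet)
      (fun M M' hM h hh => lt_of_le_of_lt hM hh) ⟨0, measure_ne_top _ _⟩
    have h3 : ⋂ M : ℝ, {h : Height d | M < ((h 0 - f 0 : ℤ) : ℝ)} = ∅ := by
      rw [Set.eq_empty_iff_forall_notMem]
      intro h hh
      rw [Set.mem_iInter] at hh
      have h5 : ((h 0 - f 0 : ℤ) : ℝ) < ((h 0 - f 0 : ℤ) : ℝ) := hh ((h 0 - f 0 : ℤ) : ℝ)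
      exact lt_irrefl _ h5
    rw [h3, measure_empty] at h2
    exact h2
  have h4 := tendsto_lintegral_filter_of_dominated_convergence (μ := μ) (l := atTop)
    (F := fun (M : ℝ) (f : Height d) => Ka d t f {h | M < ((h 0 - f 0 : ℤ) : ℝ)})
    (f := fun _ => 0) (fun _ => 1)
    (Filter.Eventually.of_forall fun M => kerF_meas t 0 M)
    (Filter.Eventually.of_forall fun M => Filter.Eventually.of_forall fun f => prob_le_one)
    (by simp) (Filter.Eventually.of_forall fun f => h1 f)
  simpa using h4

end Pool.MP4bb68cCl
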