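import Mathlib
import Pool.Agent.Work.MP_4bb68c_cl.Ker
import Pool.Agent.Work.MP_4bb68c_cl.KerE
import Pool.Agent.Work.MP_4bb68c_cl.KerF

/-!
# MODULE KerG (S-M): the kernel does not change the asymptotic slope

PROOF. Let `a h = h (pt n) - f (pt n)` and `b h = h (pt 0) - f (pt 0)` (`pt 0 = 0`). By `kerE`
both are `≥ 0` for `Ka 1 t f`-a.e. `h`, so
`|(h (pt n) - h (pt 0)) - (f (pt n) - f (pt 0))| = |a - b| ≤ max a b`, and the event is
contained, up to a null set, in `{ε n < a} ∪ {ε n < b}`. So the integral is at most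
`∫⁻ Ka 1 t f {ε n < a} + ∫⁻ Ka 1 t f {ε n < b} = 2 ∫⁻ Ka 1 t f {h | ε n < h 0 - f 0}` by
`kerF_inv` (`lintegral_add_left`, `kerF_meas`), which tends to `0` by `kerF_tail` composed with
`n ↦ ε n → ∞` (`Tendsto.const_mul_atTop`, `tendsto_natCast_atTop_atTop`). Squeeze.
-/

set_option autoImplicit false

open MeasureTheory ProbabilityTheory Filter Topology
open scoped NNReal ENNReal

namespace Pool.MP4bb68cCl

open Pool.MP4bb68c Pool.MP4bb68cOne

theorem kerG {μ : Measure (Height 1)} (hμ : InvLaw μ) (t : ℝ) {ε : ℝ} (hε : 0 < ε) :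
    Tendsto (fun n : ℕ => ∫⁻ f, Ka 1 t f {h | ε * n <
      |(((h (pt n) - h (pt 0)) - (f (pt n) - f (pt 0)) : ℤ) : ℝ)|} ∂μ) atTop (𝓝 0) := by
  have i1 := hμ.prob
  have hb : ∀ n : ℕ, ∫⁻ f, Ka 1 t f {h | ε * n <
      |(((h (pt n) - h (pt 0)) - (f (pt n) - f (pt 0)) : ℤ) : ℝ)|} ∂μ ≤
      2 * ∫⁻ f, Ka 1 t f {h | ε * n < ((h 0 - f 0 : ℤ) : ℝ)} ∂μ := by
    intro n
    have h1 : ∀ f : Height 1, Ka 1 t f {h | ε * n <
        |(((h (pt n) - h (pt 0)) - (f (pt n) - f (pt 0)) : ℤ) : ℝ)|} ≤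
        Ka 1 t f {h | ε * n < ((h (pt n) - f (pt n) : ℤ) : ℝ)} +
        Ka 1 t f {h | ε * n < ((h (pt 0) - f (pt 0) : ℤ) : ℝ)} := by
      intro f
      refine (measure_mono_ae (t := {h | ε * n < ((h (pt n) - f (pt n) : ℤ) : ℝ)} ∪
        {h | ε * n < ((h (pt 0) - f (pt 0) : ℤ) : ℝ)}) ?_).trans (measure_union_le _ _)
      filter_upwards [kerE t f] with h hh
      intro h2
      have h3 : ε * n < |(((h (pt n) - h (pt 0)) - (f (pt n) - f (pt 0)) : ℤ) : ℝ)| := h2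
      by_contra h4
      have h5 : ¬ ε * n < ((h (pt n) - f (pt n) : ℤ) : ℝ) := fun h6 => h4 (Or.inl h6)
      have h6 : ¬ ε * n < ((h (pt 0) - f (pt 0) : ℤ) : ℝ) := fun h6 => h4 (Or.inr h6)
      have h7 : (f (pt n) : ℝ) ≤ h (pt n) := by exact_mod_cast hh (pt n)
      have h8 : (f (pt 0) : ℝ) ≤ h (pt 0) := by exact_mod_cast hh (pt 0)
      push_cast at h3 h5 h6
      rw [not_lt] at h5 h6
      refine absurd h3 (not_lt.2 (abs_le.2 ⟨?_, ?_⟩)) <;> linarith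
    refine (lintegral_mono h1).trans (le_of_eq ?_)
    rw [lintegral_add_left (kerF_meas t (pt n) (ε * n)), kerF_inv hμ.inv t (pt n) (ε * n),
      kerF_inv hμ.inv t (pt 0) (ε * n), two_mul]
  have ht : Tendsto (fun n : ℕ => 2 * ∫⁻ f, Ka 1 t f {h | ε * n < ((h 0 - f 0 : ℤ) : ℝ)} ∂μ)
      atTop (𝓝 0) := by
    have h1 : Tendsto (fun n : ℕ => ε * (n : ℝ)) atTop atTop :=
      tendsto_natCast_atTop_atTop.const_mul_atTop hε
    have h2 := (kerF_tail (μ := μ) t).comp h1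
    have h3 := ENNReal.Tendsto.const_mul (a := 2) h2 (Or.inr (by norm_num))
    rw [mul_zero] at h3
    exact h3
  exact tendsto_of_tendsto_of_tendsto_of_le_of_le tendsto_const_nhds ht
    (fun n => zero_le) hb

end Pool.MP4bb68cCl
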