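import Pool.Agent.Work.MP_4bb68c_cl.Lam
import Pool.Agent.Work.MP_4bb68c_cl.KerB
import Pool.Agent.Work.MP_4bb68c_cl.KerG

/-!
# ConsL (size M): the slope is conserved

`restrict_inv`: for measurable `A`, `lam (recenter y g) = lam g` for almost every `g` (`lam_ae`, `tendsto_recenter`, `lam_of_tendsto`), so
`(μ.restrict (lam ⁻¹' B)).map (recenter y) A = μ (recenter y ⁻¹' A ∩ lam ⁻¹' B) = μ (recenter y ⁻¹' (A ∩ lam ⁻¹' B)) = μ (A ∩ lam ⁻¹' B)` (`h.inv`).

`lam_cons`: `∀ᵐ f ∂μ, ∀ᵐ h ∂(Ka 1 t f), lam (seen h) = lam f`. By `kerB` (stationarity; `h.stat`) `(μ.bind (Ka 1 t)).map seen = μ`, so by `lam_ae`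
for almost every `f`, for almost every `h`: `seen h (pt n) / n → lam (seen h)` (`Measure.ae_bind`-like: the complement `N` of the set of convergence has
`∫⁻ f, Ka 1 t f (seen ⁻¹' N) ∂μ = 0`; take a measurable set `N`, `measurableSet` of convergence or `toMeasurable`). Let `δ > 0` and
`D = {(f, h) | 3 δ < |lam (seen h) - lam f|}`. For every `n ≥ 1`:
`∫⁻ f, Ka 1 t f {h | (f, h) ∈ D} ∂μ ≤ ∫⁻ f, Ka 1 t f {h | δ < |lam (seen h) - seen h (pt n) / n|} ∂μ + ∫⁻ f, Ka 1 t f {h | δ n < |(h (pt n) - h (pt 0)) - (f (pt n) - f (pt 0))|} ∂μ + μ {f | δ < |(f (pt n) - f (pt 0)) / n - lam f|}`.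
The first term is `μ {g | δ < |lam g - g (pt n) / n|}`; the first and third tend to zero by almost sure convergence (`f (pt 0) = 0` almost surely, `ae_zero`), the
second one by `kerG`. So the left side is zero; let `δ → 0` (countably many `δ`). (`Measure.compProd` and `Measure.lintegral_compProd` may be convenient.)

`restrict_stat`: for measurable `A`: the left side is `∫⁻ f in lam ⁻¹' B, Ka 1 t f (seen ⁻¹' A) ∂μ = ∫⁻ f, Ka 1 t f {h | lam f ∈ B ∧ seen h ∈ A} ∂μ
= ∫⁻ f, Ka 1 t f (seen ⁻¹' (A ∩ lam ⁻¹' B)) ∂μ` (by `lam_cons`) `= μ (A ∩ lam ⁻¹' B)` (`kerB`).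
-/

set_option autoImplicit false

open MeasureTheory ProbabilityTheory Filter Topology
open scoped NNReal ENNReal

namespace Pool.MP4bb68cCl

open Pool.MP4bb68c Pool.MP4bb68cOne

theorem restrict_inv {μ : Measure (Height 1)} (h : InvLaw μ) (y : Site 1) {B : Set ℝ}
    (hB : MeasurableSet B) :
    (μ.restrict (lam ⁻¹' B)).map (recenter y) = μ.restrict (lam ⁻¹' B) := by
  have hS : MeasurableSet (lam ⁻¹' B) := measurable_lam hB
  have hr := measurable_recenter y
  ext A hA
  rw [Measure.map_apply hr hA, Measure.restrict_apply (hr hA), Measure.restrict_apply hA]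
  conv_rhs => rw [← h.inv y]
  rw [Measure.map_apply hr (hA.inter hS)]
  refine measure_congr ?_
  filter_upwards [(lam_ae h).1] with g hg
  have e : lam (recenter y g) = lam g := lam_of_tendsto (tendsto_recenter y hg)
  apply propext
  show (recenter y g ∈ A ∧ lam g ∈ B) ↔ (recenter y g ∈ A ∧ lam (recenter y g) ∈ B)
  rw [e]

private theorem cl_conv {μ : Measure (Height 1)} (h : InvLaw μ) {δ : ℝ} (hδ : 0 < δ) :
    Tendsto (fun n : ℕ => μ {g : Height 1 | δ < |lam g - ((g (pt n) : ℤ) : ℝ) / n|}) atTop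
      (𝓝 0) := by
  have i1 := h.prob
  have hm : ∀ n : ℕ, AEStronglyMeasurable (fun g : Height 1 => ((g (pt n) : ℤ) : ℝ) / n) μ :=
    fun n => ((measurable_height_real (pt n)).div_const _).aestronglyMeasurable
  have h1 := tendstoInMeasure_iff_dist.1 (tendstoInMeasure_of_tendsto_ae hm (lam_ae h).1) δ hδ
  refine tendsto_of_tendsto_of_tendsto_of_le_of_le tendsto_const_nhds h1 (fun n => zero_le)
    fun n => measure_mono fun g hg => ?_
  have h2 : δ < |lam g - ((g (pt n) : ℤ) : ℝ) / n| := hg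
  show δ ≤ dist (((g (pt n) : ℤ) : ℝ) / n) (lam g)
  rw [dist_comm, Real.dist_eq]
  exact h2.le

private theorem cl_set (n : ℕ) (δ : ℝ) :
    MeasurableSet {g : Height 1 | δ < |lam g - ((g (pt n) : ℤ) : ℝ) / n|} := by
  refine measurableSet_lt measurable_const ?_
  exact continuous_abs.measurable.comp
    (measurable_lam.sub ((measurable_height_real (pt n)).div_const _))

private theorem cl_bound {μ : Measure (Height 1)} (h : InvLaw μ) {t : ℝ} (ht : 0 < t) {δ : ℝ}
    (hδ : 0 < δ) {n : ℕ} (hn : 1 ≤ n) :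
    ∫⁻ f, Ka 1 t f {g | 3 * δ < |lam (seen g) - lam f|} ∂μ ≤
      μ {g : Height 1 | δ < |lam g - ((g (pt n) : ℤ) : ℝ) / n|} +
      (∫⁻ f, Ka 1 t f {g | δ * n <
        |(((g (pt n) - g (pt 0)) - (f (pt n) - f (pt 0)) : ℤ) : ℝ)|} ∂μ +
      μ {g : Height 1 | δ < |lam g - ((g (pt n) : ℤ) : ℝ) / n|}) := by
  classical
  have i1 := h.prob
  have hn0 : (0 : ℝ) < n := by exact_mod_cast hn
  obtain ⟨A, hA⟩ : ∃ A : Set (Height 1),
      A = {g : Height 1 | δ < |lam g - ((g (pt n) : ℤ) : ℝ) / n|} := ⟨_, rfl⟩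
  have hAm : MeasurableSet A := by rw [hA]; exact cl_set n δ
  rw [← hA]
  have hst : ∫⁻ f, Ka 1 t f (seen ⁻¹' A) ∂μ = μ A := by
    have h1 := kerB.1 h.stat t ht
    conv_rhs => rw [← h1]
    rw [Measure.map_apply measurable_seen hAm,
      Measure.bind_apply (measurable_seen hAm) (Kernel.aemeasurable _)]
  have hind : ∫⁻ f, A.indicator (1 : Height 1 → ℝ≥0∞) f ∂μ = μ A := lintegral_indicator_one hAm
  have hm1 : Measurable fun f => Ka 1 t f (seen ⁻¹' A) :=
    Kernel.measurable_coe _ (measurable_seen hAm)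
  have hm2 : Measurable (A.indicator (1 : Height 1 → ℝ≥0∞)) := measurable_one.indicator hAm
  have hsum : ∫⁻ f, (Ka 1 t f (seen ⁻¹' A) + (Ka 1 t f {g | δ * n <
        |(((g (pt n) - g (pt 0)) - (f (pt n) - f (pt 0)) : ℤ) : ℝ)|} +
        A.indicator (1 : Height 1 → ℝ≥0∞) f)) ∂μ = μ A + (∫⁻ f, Ka 1 t f {g | δ * n <
        |(((g (pt n) - g (pt 0)) - (f (pt n) - f (pt 0)) : ℤ) : ℝ)|} ∂μ + μ A) := by
    rw [lintegral_add_left hm1, lintegral_add_right _ hm2, hst, hind]
  rw [← hsum]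
  refine lintegral_mono_ae ?_
  filter_upwards [ae_zero h] with f hf
  by_cases hfA : f ∈ A
  · rw [Set.indicator_of_mem hfA]
    exact (prob_le_one.trans le_add_self).trans le_add_self
  · rw [Set.indicator_of_notMem hfA, add_zero]
    refine (measure_mono ?_).trans (measure_union_le _ _)
    intro g hg
    have hg' : 3 * δ < |lam (seen g) - lam f| := hg
    by_contra hcon
    have h2 : ¬ δ < |lam (seen g) - ((seen g (pt n) : ℤ) : ℝ) / n| := fun h3 => hcon (Or.inl (by
      rw [hA]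
      exact h3))
    have h3 : ¬ δ * n < |(((g (pt n) - g (pt 0)) - (f (pt n) - f (pt 0)) : ℤ) : ℝ)| :=
      fun h4 => hcon (Or.inr h4)
    have h4 : ¬ δ < |lam f - ((f (pt n) : ℤ) : ℝ) / n| := fun h5 => hfA (by rw [hA]; exact h5)
    rw [not_lt] at h2 h3 h4
    have h5 : seen g (pt n) = g (pt n) - g (pt 0) := by
      rw [← zero_eq_pt]
      rfl
    rw [h5] at h2
    rw [hf, sub_zero] at h3
    have h6 : |((((g (pt n) - g (pt 0) : ℤ)) : ℝ) / n) - ((f (pt n) : ℤ) : ℝ) / n| ≤ δ := by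
      rw [← sub_div, abs_div, abs_of_pos hn0, div_le_iff₀ hn0]
      rw [← Int.cast_sub]
      exact h3
    have h7 := abs_le.1 h2
    have h8 := abs_le.1 h4
    have h9 := abs_le.1 h6
    refine absurd hg' (not_lt.2 (abs_le.2 ⟨?_, ?_⟩)) <;> linarith

private theorem cl_zero {μ : Measure (Height 1)} (h : InvLaw μ) {t : ℝ} (ht : 0 < t) {δ : ℝ}
    (hδ : 0 < δ) : ∫⁻ f, Ka 1 t f {g | 3 * δ < |lam (seen g) - lam f|} ∂μ = 0 := by
  have h1 := cl_conv h hδ
  have h2 := kerG h t hδ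
  have h3 := h1.add (h2.add h1)
  rw [add_zero, add_zero] at h3
  refine le_antisymm (ge_of_tendsto h3 ?_) zero_le
  filter_upwards [eventually_ge_atTop 1] with n hn
  exact cl_bound h ht hδ hn

theorem lam_cons {μ : Measure (Height 1)} (h : InvLaw μ) {t : ℝ} (ht : 0 < t) :
    ∀ᵐ f ∂μ, ∀ᵐ g ∂(Ka 1 t f), lam (seen g) = lam f := by
  have h1 : ∀ k : ℕ, ∀ᵐ f ∂μ,
      Ka 1 t f {g | 3 * (1 / ((k : ℝ) + 1)) < |lam (seen g) - lam f|} = 0 := by
    intro k
    have h2 := cl_zero h ht (δ := 1 / ((k : ℝ) + 1)) (by positivity)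
    have hD : MeasurableSet {p : Height 1 × Height 1 |
        3 * (1 / ((k : ℝ) + 1)) < |lam (seen p.2) - lam p.1|} := by
      refine measurableSet_lt measurable_const ?_
      exact continuous_abs.measurable.comp
        ((measurable_lam.comp (measurable_seen.comp measurable_snd)).sub
          (measurable_lam.comp measurable_fst))
    have hm : Measurable fun f : Height 1 =>
        Ka 1 t f {g | 3 * (1 / ((k : ℝ) + 1)) < |lam (seen g) - lam f|} :=
      Kernel.measurable_kernel_prodMk_left (κ := Ka 1 t) hD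
    exact (lintegral_eq_zero_iff hm).1 h2
  rw [← ae_all_iff] at h1
  filter_upwards [h1] with f hf
  have h3 : ∀ᵐ g ∂(Ka 1 t f), ∀ k : ℕ, |lam (seen g) - lam f| ≤ 3 * (1 / ((k : ℝ) + 1)) := by
    rw [ae_all_iff]
    intro k
    rw [ae_iff]
    simp only [not_le]
    exact hf k
  filter_upwards [h3] with g hg
  have h4 : Tendsto (fun k : ℕ => 3 * (1 / ((k : ℝ) + 1))) atTop (𝓝 (3 * 0)) :=
    tendsto_one_div_add_atTop_nhds_zero_nat.const_mul 3
  rw [mul_zero] at h4
  have h5 : |lam (seen g) - lam f| ≤ 0 := ge_of_tendsto' h4 hg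
  have h6 := abs_nonpos_iff.1 h5
  linarith

theorem restrict_stat {μ : Measure (Height 1)} (h : InvLaw μ) {t : ℝ} (ht : 0 < t) {B : Set ℝ}
    (hB : MeasurableSet B) :
    ((μ.restrict (lam ⁻¹' B)).bind (Ka 1 t)).map seen = μ.restrict (lam ⁻¹' B) := by
  have i1 := h.prob
  have hS : MeasurableSet (lam ⁻¹' B) := measurable_lam hB
  ext A hA
  rw [Measure.map_apply measurable_seen hA,
    Measure.bind_apply (measurable_seen hA) (Kernel.aemeasurable _), Measure.restrict_apply hA,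
    ← lintegral_indicator hS]
  have h1 := kerB.1 h.stat t ht
  conv_rhs => rw [← h1]
  rw [Measure.map_apply measurable_seen (hA.inter hS),
    Measure.bind_apply (measurable_seen (hA.inter hS)) (Kernel.aemeasurable _)]
  refine lintegral_congr_ae ?_
  filter_upwards [lam_cons h ht] with f hf
  by_cases hfB : lam f ∈ B
  · have hfS : f ∈ lam ⁻¹' B := hfB
    rw [Set.indicator_of_mem hfS]
    refine measure_congr ?_
    filter_upwards [hf] with g hg
    apply propext
    show seen g ∈ A ↔ (seen g ∈ A ∧ lam (seen g) ∈ B)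
    rw [hg]
    exact ⟨fun h2 => ⟨h2, hfB⟩, fun h2 => h2.1⟩
  · have hfS : f ∉ lam ⁻¹' B := hfB
    rw [Set.indicator_of_notMem hfS, eq_comm]
    refine measure_mono_null (t := {g | ¬ lam (seen g) = lam f}) ?_ hf
    intro g hg h2
    have h3 : lam (seen g) ∈ B := hg.2
    rw [h2] at h3
    exact hfB h3

end Pool.MP4bb68cCl
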