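import Pool.Agent.Work.MP_4bb68c_cl.Defs
import Pool.Agent.Work.MP_4bb68c_pr.Clocks
import Pool.Agent.Work.MP_4bb68c_pr.Evol

/-!
# Conv (size M): a stationary law is almost stationary for the synchronous chain

`t = 0`: `List.replicate 0 _ = []`, `lawK 1 [] = Kernel.id`, both sides are equal, `n₀ = 0`.
`t > 0`: take `Ω, P, upd` from `exists_clocks 1` and for every `f` an evolution `H f ω` (for almost every `ω` it exists:
`ae_existsUnique_evolution`; choose by classical choice, something arbitrary otherwise). `B = (Finset.Icc (-M) M).image pt`.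
`approx` (pr/Approx) with `q = 1`, time `(t : ℝ)`, `B`, `ε` gives `n₀` such that for `n ≥ n₀` and all `f` there is a measurable `X` with
`P.map X = lawK 1 (List.replicate ⌊t / dl 1 n⌋₊ (dl 1 n)) f` and `P {ω | ∃ x ∈ B, H f ω t x ≠ X ω x} ≤ ofReal ε`. Here
`⌊t / dl 1 n⌋₊ = t * 2 ^ n`. If `A` is measurable and `DepOn M A`, then outside the bad event `incr (H f ω t) ∈ A ↔ incr (X ω) ∈ A`, so
`P {ω | incr (H f ω t) ∈ A} ≤ (lawK .. f) (incr ⁻¹' A) + ofReal ε` and
`(lawK .. f) (incr ⁻¹' A) ≤ P {ω | incr (H f ω t) ∈ A} + ofReal ε`. Integrate over `f` with `μ` (`lintegral_mono`,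
`lintegral_add_right` with a constant): `∫⁻ f, P {ω | seen (H f ω t) ∈ incr ⁻¹' A} ∂μ = μ (incr ⁻¹' A)` by stationarity
(`incr (seen h) = incr h`), and `(μ.bind ..) (incr ⁻¹' A) = ∫⁻ f, (lawK .. f) (incr ⁻¹' A) ∂μ`.
-/

set_option autoImplicit false

open MeasureTheory ProbabilityTheory
open scoped NNReal ENNReal

namespace Pool.MP4bb68cCl

open Pool.MP4bb68c Pool.MP4bb68cOne

private theorem measurable_incr_cv : Measurable incr := by
  rw [measurable_pi_iff]
  intro x
  exact (measurable_pi_apply (pt (x + 1))).sub (measurable_pi_apply (pt x))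

private theorem incr_seen_cv (h : Height 1) : incr (seen h) = incr h := by
  ext x
  unfold incr seen
  ring

private theorem floor_cv (t n : ℕ) : ⌊(t : ℝ) / (dl 1 n : ℝ)⌋₊ = t * 2 ^ n := by
  have h : (t : ℝ) / (dl 1 n : ℝ) = ((t * 2 ^ n : ℕ) : ℝ) := by
    unfold dl
    push_cast
    rw [one_mul, one_div, div_inv_eq_mul]
  rw [h, Nat.floor_natCast]

theorem conv {μ : Measure (Height 1)} [IsProbabilityMeasure μ] (hs : IsStationary μ) (t M : ℕ)
    {ε : ℝ} (hε : 0 < ε) : ∃ n₀ : ℕ, ∀ n ≥ n₀, ∀ A : Set Inc, MeasurableSet A → DepOn M A →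
      |((μ.bind (lawK 1 (List.replicate (t * 2 ^ n) (dl 1 n)))).map incr).real A -
        (μ.map incr).real A| ≤ ε := by
  rcases Nat.eq_zero_or_pos t with ht | ht
  · subst ht
    refine ⟨0, fun n _ A _ _ => ?_⟩
    have h1 : μ.bind (lawK 1 (List.replicate (0 * 2 ^ n) (dl 1 n))) = μ := by
      rw [Nat.zero_mul]
      exact Measure.id_comp
    rw [h1, sub_self, abs_zero]
    exact hε.le
  · obtain ⟨Ω, mΩ, P, upd, hP, hclk⟩ := exists_clocks 1
    classical
    obtain ⟨H, hH⟩ : ∃ H : Height 1 → Ω → ℝ → Height 1,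
        ∀ f, ∀ᵐ ω ∂P, IsEvolution (upd ω) f (H f ω) := by
      refine ⟨fun f ω => if h : ∃ h, IsEvolution (upd ω) f h then h.choose else 0, fun f => ?_⟩
      filter_upwards [ae_existsUnique_evolution hclk] with ω hω
      obtain ⟨h, hh, _⟩ := hω f
      have h1 : ∃ h, IsEvolution (upd ω) f h := ⟨h, hh⟩
      simp only [dif_pos h1]
      exact h1.choose_spec
    have ht' : (0 : ℝ) < (t : ℝ) := by exact_mod_cast ht
    obtain ⟨n₀, hn₀⟩ := approx hclk (q := 1) one_pos (t := (t : ℝ)) ht'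
      ((Finset.Icc (-(M : ℤ)) M).image pt) hε
    refine ⟨n₀, fun n hn A hA hM => ?_⟩
    obtain ⟨κ, hκ⟩ : ∃ κ : Kernel (Height 1) (Height 1),
        κ = lawK 1 (List.replicate (t * 2 ^ n) (dl 1 n)) := ⟨_, rfl⟩
    have hκm : IsMarkovKernel κ := by rw [hκ]; infer_instance
    rw [← hκ]
    have hA' : MeasurableSet (incr ⁻¹' A) := measurable_incr_cv hA
    have hst := hs Ω P upd hclk H hH t ht' (incr ⁻¹' A) hA'
    have key : ∀ f : Height 1, P {ω | seen (H f ω t) ∈ incr ⁻¹' A} ≤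
        κ f (incr ⁻¹' A) + ENNReal.ofReal ε ∧
        κ f (incr ⁻¹' A) ≤ P {ω | seen (H f ω t) ∈ incr ⁻¹' A} + ENNReal.ofReal ε := by
      intro f
      obtain ⟨X, hXm, hX, hE⟩ := hn₀ n hn f (H f) (hH f)
      rw [floor_cv, ← hκ] at hX
      have hgood : ∀ ω, ω ∉ {ω | ∃ x ∈ (Finset.Icc (-(M : ℤ)) M).image pt,
          H f ω t x ≠ X ω x} → (seen (H f ω t) ∈ incr ⁻¹' A ↔ X ω ∈ incr ⁻¹' A) := by
        intro ω hω
        have h1 : ∀ x : ℤ, -(M : ℤ) ≤ x → x ≤ M → H f ω t (pt x) = X ω (pt x) := by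
          intro x h2 h3
          by_contra h4
          exact hω ⟨pt x, Finset.mem_image_of_mem pt (Finset.mem_Icc.2 ⟨h2, h3⟩), h4⟩
        rw [Set.mem_preimage, Set.mem_preimage, incr_seen_cv]
        refine hM _ _ fun x h2 h3 => ?_
        unfold incr
        rw [h1 x h2 h3.le, h1 (x + 1) (by omega) (by omega)]
      have hκA : κ f (incr ⁻¹' A) = P (X ⁻¹' (incr ⁻¹' A)) := by
        rw [← hX, Measure.map_apply hXm hA']
      constructor
      · rw [hκA]
        refine (measure_mono (t := X ⁻¹' (incr ⁻¹' A) ∪ {ω | ∃ x ∈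
          (Finset.Icc (-(M : ℤ)) M).image pt, H f ω t x ≠ X ω x}) ?_).trans
          ((measure_union_le _ _).trans (add_le_add le_rfl hE))
        intro ω hω
        by_cases h : ω ∈ {ω | ∃ x ∈ (Finset.Icc (-(M : ℤ)) M).image pt, H f ω t x ≠ X ω x}
        · exact Or.inr h
        · exact Or.inl ((hgood ω h).1 hω)
      · rw [hκA]
        refine (measure_mono (t := {ω | seen (H f ω t) ∈ incr ⁻¹' A} ∪ {ω | ∃ x ∈
          (Finset.Icc (-(M : ℤ)) M).image pt, H f ω t x ≠ X ω x}) ?_).trans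
          ((measure_union_le _ _).trans (add_le_add le_rfl hE))
        intro ω hω
        by_cases h : ω ∈ {ω | ∃ x ∈ (Finset.Icc (-(M : ℤ)) M).image pt, H f ω t x ≠ X ω x}
        · exact Or.inr h
        · exact Or.inl ((hgood ω h).2 hω)
    have hb : (μ.bind κ) (incr ⁻¹' A) = ∫⁻ f, κ f (incr ⁻¹' A) ∂μ :=
      Measure.bind_apply hA' κ.measurable.aemeasurable
    have h1 : μ (incr ⁻¹' A) ≤ (μ.bind κ) (incr ⁻¹' A) + ENNReal.ofReal ε := by
      rw [← hst, hb]
      calc ∫⁻ f, P {ω | seen (H f ω t) ∈ incr ⁻¹' A} ∂μ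
          ≤ ∫⁻ f, (κ f (incr ⁻¹' A) + ENNReal.ofReal ε) ∂μ := lintegral_mono fun f => (key f).1
        _ = _ := by rw [lintegral_add_right _ measurable_const, lintegral_const, measure_univ,
              mul_one]
    have h2 : (μ.bind κ) (incr ⁻¹' A) ≤ μ (incr ⁻¹' A) + ENNReal.ofReal ε := by
      rw [← hst, hb]
      calc ∫⁻ f, κ f (incr ⁻¹' A) ∂μ
          ≤ ∫⁻ f, (P {ω | seen (H f ω t) ∈ incr ⁻¹' A} + ENNReal.ofReal ε) ∂μ :=
            lintegral_mono fun f => (key f).2
        _ = _ := by rw [lintegral_add_right _ measurable_const, lintegral_const, measure_univ,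
              mul_one]
    have hfin : IsProbabilityMeasure (μ.bind κ) := by infer_instance
    rw [map_measureReal_apply measurable_incr_cv hA, map_measureReal_apply measurable_incr_cv hA]
    have e1 := ENNReal.toReal_mono (by finiteness) h1
    have e2 := ENNReal.toReal_mono (by finiteness) h2
    rw [ENNReal.toReal_add (by finiteness) (by finiteness), ENNReal.toReal_ofReal hε.le] at e1 e2
    rw [measureReal_def, measureReal_def, abs_le]
    constructor <;> linarith

end Pool.MP4bb68cCl
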