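import Pool.Agent.Work.MP_4bb68c_cl.Defs

/-!
# SchP (size M): the probability of a word

`measurable_sched`: induction on `k`, generalizing `σ`; the second alternative is a countable union over `s : ℤ`, `σ'`
(or: for `σ = []` it is empty and for `σ = s :: σ'` it is one set).

`sched_prob`, with `q = exp (-δ)`, `p = 1 - q`, `w = W.card`, `m = σ.length`: induction on `k`, generalizing `σ`.
`k = 0`: `Nat.choose 0 m = 0` for `m > 0`; for `σ = []` both sides are `1`.
Step: by `map_consArr` (pr/Chain) the preimage under `consArr` of `{ξ | Sched W (k + 1) σ ξ}` contains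
`A₀ ×ˢ {ζ | Sched W k σ ζ}` and, if `σ = s :: σ'`, also `A_s ×ˢ {ζ | Sched W k σ' ζ}`, where `A₀ = {ξ | ∀ x ∈ W, ξ (pt x) = false}` and
`A_s = {ξ | ∀ x ∈ W, (ξ (pt x) = true ↔ x = s)}` are disjoint (`s ∈ W`). `(siteLaw 1 δ).real A₀ = q ^ w`,
`(siteLaw 1 δ).real A_s = p q ^ (w - 1) ≥ p q ^ w` (`siteLaw` is `Measure.infinitePi`: `Measure.infinitePi_pi` for the finite set
`W.image pt`; `slotLaw_real_true`, `slotLaw_real_false` in pr/Run). With Pascal's rule
`C(k, m + 1) + C(k, m) = C(k + 1, m + 1)` (`Nat.choose_succ_succ`):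
`q^w C(k,m+1) p^(m+1) q^(kw) + p q^w C(k,m) p^m q^(kw) = C(k+1,m+1) p^(m+1) q^((k+1)w)`.

`sched_prob_unif`: `δ = dl 1 n = 1 / 2 ^ n`, `k = 2 ^ n`, so `q ^ (k w) = exp (-w)`; for `k ≥ 2 m`, `C(k, m) ≥ (k / 2) ^ m / m !`
(`Nat.pow_sub_le_descFactorial`, `Nat.descFactorial_eq_factorial_mul_choose`; `(k - m + 1) ^ m ≤ k.descFactorial m`) and
`p ≥ δ / 2` (`Real.exp_bound`-like: `exp (-δ) ≤ 1 - δ + δ ^ 2 / 2 ≤ 1 - δ / 2`; `exp_neg_le` in d1, or
`Real.add_one_le_exp`: `exp (-δ) ≤ 1 / (1 + δ)` and `δ / (1 + δ) ≥ δ / 2`). So `c = exp (-w) * (1 / 4) ^ m / m !`.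
-/

set_option autoImplicit false

open MeasureTheory ProbabilityTheory
open scoped NNReal ENNReal

namespace Pool.MP4bb68cCl

open Pool.MP4bb68c Pool.MP4bb68cOne

private def Av (W : Finset ℤ) (g : ℤ → Bool) : Set (Site 1 → Bool) :=
  {ξ | ∀ x ∈ W, ξ (pt x) = g x}

private theorem meas_Av (W : Finset ℤ) (g : ℤ → Bool) : MeasurableSet (Av W g) := by
  have h : Av W g = ⋂ x ∈ W, {ξ : Site 1 → Bool | ξ (pt x) = g x} := by
    ext ξ
    simp [Av]
  rw [h]
  exact W.measurableSet_biInter fun x _ => measurableSet_eq_fun (by fun_prop) measurable_const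

private theorem prob_Av (W : Finset ℤ) (g : ℤ → Bool) (δ : ℝ≥0) :
    (siteLaw 1 δ).real (Av W g) = ∏ x ∈ W, (slotLaw δ).real {g x} := by
  have hset : Av W g = Set.pi ((W.image pt : Finset (Site 1)) : Set (Site 1))
      (fun z => {g (z 0)}) := by
    ext ξ
    simp [Av, Set.mem_pi]
  rw [hset, measureReal_def, siteLaw, Measure.infinitePi_pi _ (fun i _ => measurableSet_singleton _),
    Finset.prod_image (fun a _ b _ h => pt_inj.1 h), ENNReal.toReal_prod]
  rfl

private theorem sched_nil (W : Finset ℤ) (k : ℕ) (ξ : ℕ → Site 1 → Bool) :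
    Sched W (k + 1) [] ξ ↔ ξ 0 ∈ Av W (fun _ => false) ∧ Sched W k [] (fun j => ξ (j + 1)) := by
  constructor
  · rintro (⟨h1, h2⟩ | ⟨s, σ', h, _⟩)
    · exact ⟨h1, h2⟩
    · exact absurd h (by simp)
  · rintro ⟨h1, h2⟩
    exact Or.inl ⟨h1, h2⟩

private theorem sched_cons (W : Finset ℤ) (k : ℕ) (s : ℤ) (σ : List ℤ) (ξ : ℕ → Site 1 → Bool) :
    Sched W (k + 1) (s :: σ) ξ ↔
      (ξ 0 ∈ Av W (fun _ => false) ∧ Sched W k (s :: σ) (fun j => ξ (j + 1))) ∨
      (ξ 0 ∈ Av W (fun x => decide (x = s)) ∧ Sched W k σ (fun j => ξ (j + 1))) := by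
  constructor
  · rintro (⟨h1, h2⟩ | ⟨s', σ', h, h1, h2⟩)
    · exact Or.inl ⟨h1, h2⟩
    · obtain ⟨rfl, rfl⟩ := List.cons.inj h
      refine Or.inr ⟨fun x hx => ?_, h2⟩
      rw [Bool.eq_iff_iff, decide_eq_true_iff]
      exact h1 x hx
  · rintro (⟨h1, h2⟩ | ⟨h1, h2⟩)
    · exact Or.inl ⟨h1, h2⟩
    · refine Or.inr ⟨s, σ, rfl, fun x hx => ?_, h2⟩
      have := h1 x hx
      rw [this, decide_eq_true_iff]

theorem measurable_sched (W : Finset ℤ) (k : ℕ) (σ : List ℤ) :
    MeasurableSet {ξ : ℕ → Site 1 → Bool | Sched W k σ ξ} := by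
  induction k generalizing σ with
  | zero => exact MeasurableSet.const _
  | succ k ih =>
    have h1 : Measurable (fun ξ : ℕ → Site 1 → Bool => (fun j => ξ (j + 1))) := by fun_prop
    have h2 : Measurable (fun ξ : ℕ → Site 1 → Bool => ξ 0) := by fun_prop
    cases σ with
    | nil =>
      have : {ξ : ℕ → Site 1 → Bool | Sched W (k + 1) [] ξ} =
          ((fun ξ : ℕ → Site 1 → Bool => ξ 0) ⁻¹' Av W (fun _ => false)) ∩
            ((fun ξ : ℕ → Site 1 → Bool => (fun j => ξ (j + 1))) ⁻¹'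
              {ξ | Sched W k [] ξ}) := by
        ext ξ
        exact sched_nil W k ξ
      rw [this]
      exact (h2 (meas_Av W _)).inter (h1 (ih []))
    | cons s σ =>
      have : {ξ : ℕ → Site 1 → Bool | Sched W (k + 1) (s :: σ) ξ} =
          (((fun ξ : ℕ → Site 1 → Bool => ξ 0) ⁻¹' Av W (fun _ => false)) ∩
            ((fun ξ : ℕ → Site 1 → Bool => (fun j => ξ (j + 1))) ⁻¹'
              {ξ | Sched W k (s :: σ) ξ})) ∪
          (((fun ξ : ℕ → Site 1 → Bool => ξ 0) ⁻¹' Av W (fun x => decide (x = s))) ∩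
            ((fun ξ : ℕ → Site 1 → Bool => (fun j => ξ (j + 1))) ⁻¹'
              {ξ | Sched W k σ ξ})) := by
        ext ξ
        exact sched_cons W k s σ ξ
      rw [this]
      exact ((h2 (meas_Av W _)).inter (h1 (ih _))).union ((h2 (meas_Av W _)).inter (h1 (ih _)))

theorem sched_prob (W : Finset ℤ) {σ : List ℤ} (hσ : ∀ s ∈ σ, s ∈ W) (k : ℕ) (δ : ℝ≥0) :
    (k.choose σ.length : ℝ) * (1 - Real.exp (-δ)) ^ σ.length * Real.exp (-δ) ^ (k * W.card) ≤
      (arrLaw 1 δ).real {ξ | Sched W k σ ξ} := by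
  have hq0 : 0 < Real.exp (-(δ : ℝ)) := Real.exp_pos _
  have hq1 : Real.exp (-(δ : ℝ)) ≤ 1 := by
    rw [Real.exp_le_one_iff]
    have := δ.2
    linarith [NNReal.coe_nonneg δ]
  have hp0 : 0 ≤ 1 - Real.exp (-(δ : ℝ)) := by linarith
  have hA0 : (siteLaw 1 δ).real (Av W (fun _ => false)) = Real.exp (-(δ : ℝ)) ^ W.card := by
    rw [prob_Av, Finset.prod_congr rfl fun x _ => slotLaw_real_false δ, Finset.prod_const]
  have hAs : ∀ s ∈ W, (1 - Real.exp (-(δ : ℝ))) * Real.exp (-(δ : ℝ)) ^ W.card ≤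
      (siteLaw 1 δ).real (Av W (fun x => decide (x = s))) := by
    intro s hs
    rw [prob_Av, ← Finset.mul_prod_erase W _ hs]
    have h1 : (slotLaw δ).real {decide (s = s)} = 1 - Real.exp (-(δ : ℝ)) := by
      rw [← slotLaw_real_true δ]
      simp
    have h2 : ∏ x ∈ W.erase s, (slotLaw δ).real {decide (x = s)} =
        Real.exp (-(δ : ℝ)) ^ (W.erase s).card := by
      rw [← Finset.prod_const]
      refine Finset.prod_congr rfl fun x hx => ?_
      rw [← slotLaw_real_false δ, decide_eq_false (Finset.ne_of_mem_erase hx)]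
    rw [h1, h2]
    refine mul_le_mul_of_nonneg_left ?_ hp0
    exact pow_le_pow_of_le_one hq0.le hq1 (Finset.card_le_card (Finset.erase_subset _ _))
  have hmap : ∀ S : Set (ℕ → Site 1 → Bool), MeasurableSet S →
      (arrLaw 1 δ).real S = ((siteLaw 1 δ).prod (arrLaw 1 δ)).real (consArr ⁻¹' S) := by
    intro S hS
    conv_lhs => rw [← map_consArr]
    rw [map_measureReal_apply measurable_consArr hS]
  induction k generalizing σ with
  | zero =>
    cases σ with
    | nil =>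
      have : {ξ : ℕ → Site 1 → Bool | Sched W 0 [] ξ} = Set.univ := by
        ext ξ
        simp [Sched]
      rw [this, probReal_univ]
      simp
    | cons s σ =>
      simp
  | succ k ih =>
    cases σ with
    | nil =>
      have hpre : consArr ⁻¹' {ξ : ℕ → Site 1 → Bool | Sched W (k + 1) [] ξ} =
          Av W (fun _ => false) ×ˢ {ξ | Sched W k [] ξ} := by
        ext ⟨ξ, ζ⟩
        exact sched_nil W k _
      rw [hmap _ (measurable_sched W _ _), hpre, measureReal_prod_prod, hA0]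
      have h1 := ih (σ := []) hσ
      simp only [List.length_nil, Nat.choose_zero_right, Nat.cast_one, pow_zero, mul_one,
        one_mul] at h1 ⊢
      calc Real.exp (-(δ : ℝ)) ^ ((k + 1) * W.card) =
          Real.exp (-(δ : ℝ)) ^ W.card * Real.exp (-(δ : ℝ)) ^ (k * W.card) := by
            rw [← pow_add]
            congr 1
            ring
        _ ≤ _ := mul_le_mul_of_nonneg_left h1 (pow_nonneg hq0.le _)
    | cons s σ =>
      have hpre : consArr ⁻¹' {ξ : ℕ → Site 1 → Bool | Sched W (k + 1) (s :: σ) ξ} =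
          (Av W (fun _ => false) ×ˢ {ξ | Sched W k (s :: σ) ξ}) ∪
          (Av W (fun x => decide (x = s)) ×ˢ {ξ | Sched W k σ ξ}) := by
        ext ⟨ξ, ζ⟩
        exact sched_cons W k s σ _
      have hsW : s ∈ W := hσ s (by simp)
      have hdisj : Disjoint (Av W (fun _ => false) ×ˢ {ξ | Sched W k (s :: σ) ξ})
          (Av W (fun x => decide (x = s)) ×ˢ {ξ | Sched W k σ ξ}) := by
        rw [Set.disjoint_left]
        rintro ⟨ξ, ζ⟩ ⟨h1, _⟩ ⟨h2, _⟩
        have e1 := h1 s hsW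
        have e2 := h2 s hsW
        rw [e1] at e2
        simp at e2
      rw [hmap _ (measurable_sched W _ _), hpre,
        measureReal_union hdisj ((meas_Av W _).prod (measurable_sched W _ _)),
        measureReal_prod_prod, measureReal_prod_prod, hA0]
      have h1 := ih (σ := s :: σ) hσ
      have h2 := ih (σ := σ) (fun t ht => hσ t (List.mem_cons_of_mem _ ht))
      have h3 := hAs s hsW
      have h4 : (1 - Real.exp (-(δ : ℝ))) * Real.exp (-(δ : ℝ)) ^ W.card *
          ((k.choose σ.length : ℝ) * (1 - Real.exp (-δ)) ^ σ.length *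
            Real.exp (-δ) ^ (k * W.card)) ≤
          (siteLaw 1 δ).real (Av W (fun x => decide (x = s))) *
            (arrLaw 1 δ).real {ξ | Sched W k σ ξ} :=
        mul_le_mul h3 h2 (by positivity) measureReal_nonneg
      have h5 := mul_le_mul_of_nonneg_left h1 (pow_nonneg hq0.le W.card)
      refine le_trans (le_of_eq ?_) (add_le_add h5 h4)
      rw [List.length_cons, Nat.choose_succ_succ, show (k + 1) * W.card = k * W.card + W.card by ring,
        pow_add, pow_succ]
      push_cast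
      ring

theorem sched_prob_unif (W : Finset ℤ) {σ : List ℤ} (hσ : ∀ s ∈ σ, s ∈ W) :
    ∃ c : ℝ, 0 < c ∧ ∃ n₁ : ℕ, ∀ n ≥ n₁,
      c ≤ (arrLaw 1 (dl 1 n)).real {ξ | Sched W (2 ^ n) σ ξ} := by
  refine ⟨Real.exp (-(W.card : ℝ)) * ((1 / 4) ^ σ.length / (σ.length.factorial : ℝ)), by positivity,
    2 * σ.length, fun n hn => ?_⟩
  refine le_trans ?_ (sched_prob W hσ (2 ^ n) (dl 1 n))
  set m := σ.length with hm
  have hdl : ((dl 1 n : ℝ≥0) : ℝ) = 1 / 2 ^ n := by
    unfold dl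
    push_cast
    ring
  have h2n : (0 : ℝ) < 2 ^ n := by positivity
  have h1n : (1 : ℝ) ≤ 2 ^ n := one_le_pow₀ (by norm_num)
  rw [hdl]
  set δ : ℝ := 1 / 2 ^ n with hδ
  have hδ0 : 0 < δ := by positivity
  have hδ1 : δ ≤ 1 := by
    rw [hδ, div_le_one h2n]
    exact h1n
  have hk : 2 * m ≤ 2 ^ n := hn.trans (Nat.lt_two_pow_self).le
  -- the choose factor
  have hch : ((2 : ℝ) ^ n / 2) ^ m / (m.factorial : ℝ) ≤ ((2 ^ n).choose m : ℝ) := by
    rw [div_le_iff₀ (by positivity)]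
    have h := Nat.pow_sub_le_descFactorial (2 ^ n) m
    rw [Nat.descFactorial_eq_factorial_mul_choose] at h
    have h' : (((2 ^ n + 1 - m : ℕ) : ℝ)) ^ m ≤ (m.factorial : ℝ) * ((2 ^ n).choose m : ℝ) := by
      exact_mod_cast h
    rw [mul_comm]
    refine le_trans (pow_le_pow_left₀ (by positivity) ?_ m) h'
    have h3 : ((2 : ℝ) ^ n) ≤ 2 * ((2 ^ n + 1 - m : ℕ) : ℝ) := by
      have : 2 ^ n ≤ 2 * (2 ^ n + 1 - m) := by omega
      exact_mod_cast this
    linarith
  -- the probability of an update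
  have hp : δ / 2 ≤ 1 - Real.exp (-δ) := by
    have h1 : Real.exp (-δ) ≤ 1 / (1 + δ) := by
      rw [Real.exp_neg, ← one_div]
      apply one_div_le_one_div_of_le (by linarith)
      linarith [Real.add_one_le_exp δ]
    have h2 : δ / 2 ≤ 1 - 1 / (1 + δ) := by
      rw [le_sub_iff_add_le, ← sub_nonneg]
      have : 1 - (δ / 2 + 1 / (1 + δ)) = δ * (1 - δ) / (2 * (1 + δ)) := by
        field_simp
        ring
      rw [this]
      apply div_nonneg
      · exact mul_nonneg hδ0.le (by linarith)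
      · linarith
    linarith
  have hq : Real.exp (-δ) ^ (2 ^ n * W.card) = Real.exp (-(W.card : ℝ)) := by
    rw [← Real.exp_nat_mul]
    congr 1
    rw [hδ]
    push_cast
    field_simp
  rw [hq, mul_comm (Real.exp (-(W.card : ℝ)))]
  refine mul_le_mul_of_nonneg_right ?_ (Real.exp_pos _).le
  calc ((1 : ℝ) / 4) ^ m / (m.factorial : ℝ) =
      (((2 : ℝ) ^ n / 2) ^ m / (m.factorial : ℝ)) * (δ / 2) ^ m := by
        rw [div_mul_eq_mul_div, ← mul_pow]
        congr 2
        rw [hδ]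
        field_simp
        norm_num
    _ ≤ _ := mul_le_mul hch (pow_le_pow_left₀ (by positivity) hp m) (by positivity)
        (Nat.cast_nonneg _)

end Pool.MP4bb68cCl
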