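import Pool.Agent.Work.MP_4bb68c_cl.WordB

/-!
# WordC (size M): the word reduces the total variation

Let `h = pr η`, `h' = pr η'` (`pr_succ`), `a x = h' x - h x`, `q = wd (sig (2 K) N) h`, `q' = wd (sig (2 K) N) h'`. By `Bdh` the
oscillation of `h` and `h'` on `-2, ..., N` is at most `2 K`, so `wd_sig` applies to both. `NM` needs `N ≥ 2`
(in any case `N ≥ 1`).
After the word: `gr q' (-2) - gr q (-2) = c - a (-2)` with `c = Q' - Q` (`Q`, `Q'` the maxima of `wd_sig`), the differences of the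
increments at `-1, ..., N - 2` are zero, and at `N - 1` it is `a N - c`. So the sum on the left is
`|c - a (-2)| + |a N - c|` (split off the first and the last term of `Finset.range (N + 2)`).
Before: the terms `i = 0, 1` are `|a (-1) - a (-2)| + |a 0 - a (-1)| ≥ |c - a (-2)| + |a 0 - c|`: this is an inequality between integers
with maxima (`abs_cases` for the four absolute values and `omega`; it holds:
`|(max (b'+1) (max c' a') + K - (max (b+1) (max c a) + K)) - (a' - a)| + |(c' - c) - (..)| ≤ |(b'-b) - (a'-a)| + |(c'-c) - (b'-b)|`).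
The terms `i = 2, ..., N + 1` are `∑ x < N, |d x|` with `d x = η' x - η x`, `x = 0, ..., N - 1`; `∑ d x = a N - a 0`; since `d` takes a positive and a
negative value, `∑ |d x| ≥ |∑ d x| + 2` (`|∑ d| = ± ∑ d`; `|z| - z ≥ 0`, and `≥ 2` for one of the terms,
the same for `|z| + z`). Finally `|a N - c| ≤ |a N - a 0| + |a 0 - c|`.
-/

set_option autoImplicit false

namespace Pool.MP4bb68cCl

private theorem osc_pr {K N : ℕ} {η : Inc} (hB : Bdh N K η) :
    ∀ x y : ℤ, -2 ≤ x → x ≤ N → -2 ≤ y → y ≤ N → pr η x - pr η y ≤ ((2 * K : ℕ) : ℤ) := by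
  intro x y hx hx' hy hy'
  have h1 := abs_le.1 (hB x hx hx')
  have h2 := abs_le.1 (hB y hy hy')
  push_cast
  omega

private theorem sum_mid {N : ℕ} {η η' : Inc} (hNM : NM N η η') :
    |(pr η' N - pr η N) - (pr η' 0 - pr η 0)| + 2 ≤
      ∑ i ∈ Finset.range N, |η' (i : ℤ) - η (i : ℤ)| := by
  have htel : ∀ m : ℕ, ∑ i ∈ Finset.range m, (η' (i : ℤ) - η (i : ℤ)) =
      (pr η' m - pr η m) - (pr η' 0 - pr η 0) := by
    intro m
    induction m with
    | zero => simp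
    | succ m ih =>
      rw [Finset.sum_range_succ, ih]
      push_cast
      rw [pr_succ, pr_succ]
      ring
  rw [← htel N]
  obtain ⟨⟨x, hx0, hxN, hx⟩, ⟨y, hy0, hyN, hy⟩⟩ := hNM
  obtain ⟨m, rfl⟩ : ∃ m : ℕ, x = m := ⟨x.toNat, by omega⟩
  obtain ⟨n, rfl⟩ : ∃ n : ℕ, y = n := ⟨y.toNat, by omega⟩
  have h1 : (2 : ℤ) ≤ ∑ i ∈ Finset.range N,
      (|η' (i : ℤ) - η (i : ℤ)| + (η' (i : ℤ) - η (i : ℤ))) := by
    refine le_trans ?_ (Finset.single_le_sum (f := fun i : ℕ =>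
      (|η' (i : ℤ) - η (i : ℤ)| + (η' (i : ℤ) - η (i : ℤ)))) (fun i _ => ?_)
      (Finset.mem_range.2 (by omega : m < N)))
    · have : |η' (m : ℤ) - η (m : ℤ)| = η' (m : ℤ) - η (m : ℤ) := abs_of_pos (by omega)
      omega
    · have := neg_abs_le (η' (i : ℤ) - η (i : ℤ))
      omega
  have h2 : (2 : ℤ) ≤ ∑ i ∈ Finset.range N,
      (|η' (i : ℤ) - η (i : ℤ)| - (η' (i : ℤ) - η (i : ℤ))) := by
    refine le_trans ?_ (Finset.single_le_sum (f := fun i : ℕ =>
      (|η' (i : ℤ) - η (i : ℤ)| - (η' (i : ℤ) - η (i : ℤ)))) (fun i _ => ?_)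
      (Finset.mem_range.2 (by omega : n < N)))
    · have : |η' (n : ℤ) - η (n : ℤ)| = -(η' (n : ℤ) - η (n : ℤ)) := abs_of_neg (by omega)
      omega
    · have := le_abs_self (η' (i : ℤ) - η (i : ℤ))
      omega
  rw [Finset.sum_add_distrib] at h1
  rw [Finset.sum_sub_distrib] at h2
  rcases abs_cases (∑ i ∈ Finset.range N, (η' (i : ℤ) - η (i : ℤ))) with h | h <;> omega

private theorem ineq_max (a b c a' b' c' : ℤ) :
    |(max (b' + 1) (max c' a') - max (b + 1) (max c a)) - (a' - a)| +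
      |(c' - c) - (max (b' + 1) (max c' a') - max (b + 1) (max c a))| ≤
      |(b' - b) - (a' - a)| + |(c' - c) - (b' - b)| := by
  rcases abs_cases ((max (b' + 1) (max c' a') - max (b + 1) (max c a)) - (a' - a)) with h1 | h1 <;>
  rcases abs_cases ((c' - c) - (max (b' + 1) (max c' a') - max (b + 1) (max c a))) with h2 | h2 <;>
  rcases abs_cases ((b' - b) - (a' - a)) with h3 | h3 <;>
  rcases abs_cases ((c' - c) - (b' - b)) with h4 | h4 <;>
  omega

theorem tv_drop {K N : ℕ} {η η' : Inc} (hB : Bdh N K η) (hB' : Bdh N K η') (hNM : NM N η η') :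
    ∑ i ∈ Finset.range (N + 2),
        |gr (wd (sig (2 * K) N) (pr η')) (-2 + i) - gr (wd (sig (2 * K) N) (pr η)) (-2 + i)| + 1 ≤
      ∑ i ∈ Finset.range (N + 2), |η' (-2 + i) - η (-2 + i)| := by
  have hN : 1 ≤ N := by
    obtain ⟨⟨x, hx0, hxN, _⟩, _⟩ := hNM
    omega
  obtain ⟨hq1, hq2, hq3⟩ := wd_sig (osc_pr hB)
  obtain ⟨hq1', hq2', hq3'⟩ := wd_sig (osc_pr hB')
  have hmid := sum_mid hNM
  have hmax := ineq_max (pr η (-2)) (pr η (-1)) (pr η 0) (pr η' (-2)) (pr η' (-1)) (pr η' 0)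
  generalize wd (sig (2 * K) N) (pr η) = q at hq1 hq2 hq3 ⊢
  generalize wd (sig (2 * K) N) (pr η') = q' at hq1' hq2' hq3' ⊢
  generalize hQ : max (pr η (-1) + 1) (max (pr η 0) (pr η (-2))) = Q at hq2 hmax
  generalize hQ' : max (pr η' (-1) + 1) (max (pr η' 0) (pr η' (-2))) = Q' at hq2' hmax
  have e1 : ∀ ζ : Inc, ζ (-2) = pr ζ (-1) - pr ζ (-2) := by
    intro ζ
    have := pr_succ ζ (-2)
    norm_num at this
    omega
  have e2 : ∀ ζ : Inc, ζ (-1) = pr ζ 0 - pr ζ (-1) := by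
    intro ζ
    have := pr_succ ζ (-1)
    norm_num at this
    omega
  -- right hand side
  have hR : ∑ i ∈ Finset.range (N + 2), |η' (-2 + i) - η (-2 + i)| =
      ∑ i ∈ Finset.range N, |η' (i : ℤ) - η (i : ℤ)| +
        |(pr η' 0 - pr η 0) - (pr η' (-1) - pr η (-1))| +
        |(pr η' (-1) - pr η (-1)) - (pr η' (-2) - pr η (-2))| := by
    rw [Finset.sum_range_succ', Finset.sum_range_succ']
    congr 1
    · congr 1
      · refine Finset.sum_congr rfl fun i _ => ?_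
        have : (-2 : ℤ) + ((i + 1 + 1 : ℕ) : ℤ) = i := by push_cast; ring
        rw [this]
      · have : (-2 : ℤ) + ((0 + 1 : ℕ) : ℤ) = -1 := by norm_num
        rw [this, e2 η, e2 η']
        congr 1
        ring
    · have : (-2 : ℤ) + ((0 : ℕ) : ℤ) = -2 := by norm_num
      rw [this, e1 η, e1 η']
      congr 1
      ring
  -- left hand side
  obtain ⟨M, rfl⟩ : ∃ M : ℕ, N = M + 1 := ⟨N - 1, by omega⟩
  have hL : ∑ i ∈ Finset.range (M + 1 + 2), |gr q' (-2 + i) - gr q (-2 + i)| =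
      |(Q' - Q) - (pr η' (-2) - pr η (-2))| +
        |(pr η' ((M + 1 : ℕ) : ℤ) - pr η ((M + 1 : ℕ) : ℤ)) - (Q' - Q)| := by
    rw [Finset.sum_range_succ, Finset.sum_range_succ']
    have hz : ∑ i ∈ Finset.range (M + 1),
        |gr q' (-2 + ((i + 1 : ℕ) : ℤ)) - gr q (-2 + ((i + 1 : ℕ) : ℤ))| = 0 := by
      refine Finset.sum_eq_zero fun i hi => ?_
      have hi' := Finset.mem_range.1 hi
      unfold gr
      have e : (-2 : ℤ) + ((i + 1 : ℕ) : ℤ) + 1 = i := by push_cast; ring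
      have e' : (-2 : ℤ) + ((i + 1 : ℕ) : ℤ) = (i : ℤ) - 1 := by push_cast; ring
      rw [e, e', hq2 (i : ℤ) (by omega) (by push_cast; omega),
        hq2 ((i : ℤ) - 1) (by omega) (by push_cast; omega),
        hq2' (i : ℤ) (by omega) (by push_cast; omega),
        hq2' ((i : ℤ) - 1) (by omega) (by push_cast; omega)]
      simp
    rw [hz, zero_add]
    congr 1
    · unfold gr
      have e : (-2 : ℤ) + ((0 : ℕ) : ℤ) + 1 = -1 := by norm_num
      have e' : (-2 : ℤ) + ((0 : ℕ) : ℤ) = -2 := by norm_num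
      rw [e, e', hq1, hq1', hq2 (-1) (by omega) (by push_cast; omega),
        hq2' (-1) (by omega) (by push_cast; omega)]
      congr 1
      ring
    · unfold gr
      have e : (-2 : ℤ) + ((M + 1 + 1 : ℕ) : ℤ) + 1 = ((M + 1 : ℕ) : ℤ) := by push_cast; ring
      have e' : (-2 : ℤ) + ((M + 1 + 1 : ℕ) : ℤ) = (M : ℤ) := by push_cast; ring
      rw [e, e', hq3, hq3', hq2 (M : ℤ) (by omega) (by push_cast; omega),
        hq2' (M : ℤ) (by omega) (by push_cast; omega)]
      congr 1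
      ring
  rw [hL, hR]
  have htri := abs_add_le
    ((pr η' ((M + 1 : ℕ) : ℤ) - pr η ((M + 1 : ℕ) : ℤ)) - (pr η' 0 - pr η 0))
    ((pr η' 0 - pr η 0) - (Q' - Q))
  have e3 : ((pr η' ((M + 1 : ℕ) : ℤ) - pr η ((M + 1 : ℕ) : ℤ)) - (pr η' 0 - pr η 0)) +
    ((pr η' 0 - pr η 0) - (Q' - Q)) =
      (pr η' ((M + 1 : ℕ) : ℤ) - pr η ((M + 1 : ℕ) : ℤ)) - (Q' - Q) := by ring
  rw [e3] at htri
  linarith

end Pool.MP4bb68cCl
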