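import Pool.Agent.Work.MP_4bb68c_cl.WordA
import Pool.Agent.Work.MP_4bb68c_cl.WordC

/-!
# WordD (size S): the total loss in the window is at least one

`sched_loss` with `l = -2`, `n = N + 2` (`sig_mem`; `N ≥ 1` by `NM`), and `tv_drop`: by `sched_hfw` and `gr_hfw`, `gr_pr` we have
`ifw ξ η k = gr (hfw ξ (pr η) k)`, which on the bonds `-2, ..., N - 1` is `gr (wd (sig (2 K) N) (pr η))`.
-/

set_option autoImplicit false

namespace Pool.MP4bb68cCl

open Pool.MP4bb68c Pool.MP4bb68cOne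

theorem word_loss {K N k : ℕ} {η η' : Inc} (hG : (η, η') ∈ GG N K) {ξ : ℕ → Site 1 → Bool}
    (hs : Sched (Finset.Icc (-2) N) k (sig (2 * K) N) ξ) :
    1 ≤ ∑ i ∈ Finset.range (N + 2), BL k ξ η η' (-2 + i) := by
  obtain ⟨hNM, hB, hB'⟩ := hG
  have hN : 1 ≤ N := by
    obtain ⟨⟨x, h0, h1, -⟩, -⟩ := hNM
    omega
  have hσ : ∀ s ∈ sig (2 * K) N, (-2 : ℤ) < s ∧ s < -2 + ((N + 2 : ℕ) : ℤ) := by
    intro s h
    obtain ⟨h1, h2⟩ := sig_mem h
    refine ⟨h1, ?_⟩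
    push_cast
    rcases h2 with h2 | h2
    · omega
    · omega
  have e0 : (-2 : ℤ) + ((N + 2 : ℕ) : ℤ) = N := by push_cast; ring
  have hs' : Sched (Finset.Icc (-2) (-2 + ((N + 2 : ℕ) : ℤ))) k (sig (2 * K) N) ξ := by
    rw [e0]
    exact hs
  rw [sched_loss hσ hs' η η']
  have key : ∀ ζ : Inc, ∀ i ∈ Finset.range (N + 2), ifw ξ ζ k (-2 + i) =
      gr (wd (sig (2 * K) N) (pr ζ)) (-2 + i) := by
    intro ζ i hi
    rw [Finset.mem_range] at hi
    have h1 := gr_hfw ξ (pr ζ) k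
    rw [gr_pr] at h1
    rw [← h1]
    unfold gr
    rw [sched_hfw hσ hs' (pr ζ) _ (by omega) (by push_cast; omega),
      sched_hfw hσ hs' (pr ζ) _ (by omega) (by push_cast; omega)]
  have h2 : ∑ i ∈ Finset.range (N + 2), |ifw ξ η' k (-2 + i) - ifw ξ η k (-2 + i)| =
      ∑ i ∈ Finset.range (N + 2), |gr (wd (sig (2 * K) N) (pr η')) (-2 + i) -
        gr (wd (sig (2 * K) N) (pr η)) (-2 + i)| :=
    Finset.sum_congr rfl fun i hi => by rw [key η i hi, key η' i hi]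
  rw [h2]
  have h3 := tv_drop hB hB' hNM
  simp only at h3
  omega

end Pool.MP4bb68cCl
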