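import Pool.Agent.Work.MP_4bb68c_cl.DExp
import Pool.Agent.Work.MP_4bb68c_cl.SchP
import Pool.Agent.Work.MP_4bb68c_cl.WordD

/-!
# Gain (size S-M): the gain in one unit of time, and the choice of a time

`gain`: `W = Finset.Icc (-2) N`, `σ = sig (2 * K) N` (`sig_mem`; for `N = 0` the set `GG N K` is empty, take `c = 1`), `c₀`, `n₁` from
`sched_prob_unif`, `c = c₀ / (N + 2)`, `k = 2 ^ n`, `δ = dl 1 n`. On `E = {ξ | Sched W k σ ξ}` and `GG N K` the sum
`∑ i < N + 2, BL k ξ η η' (-2 + i)` is at least `1` (`word_loss`), so with `b = ∫⁻ (BL .. 0).toNat` (`lintegral_BL_sh`):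
`(N + 2) b = ∫⁻ ∑ i .. ≥ (π.prod (arrLaw 1 δ)) (GG N K ×ˢ E) = π (GG N K) * arrLaw E ≥ π (GG N K) * ofReal c₀`
(`Measure.prod_prod`, `measurable_GG`, `measurable_sched`, `lintegral_indicator`). With `DD_add_loss_le` the claim follows.
`sel`: if `DD π < ofReal (c * T) * PI π δ (t * k) (GG N K)` for all `t < T`, then by `gain` for `PI π δ (t * k)` (probability measure,
`PI_shInv`, `DD` finite because it does not increase) and `PI_add` (`(t + 1) k = t k + k`),
`DD (PI π δ (T k)) + ∑ t < T, ofReal c * PI π δ (t k) (GG N K) ≤ DD π` (induction), while every term of the sum is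
`> DD π / T` (take `t` with the smallest measure): contradiction if `DD π > 0` or if `DD π = 0` (then all terms are `0`, and the
inequality `ofReal (c T) * 0 ≤ 0` holds).
-/

set_option autoImplicit false

open MeasureTheory ProbabilityTheory
open scoped NNReal ENNReal

namespace Pool.MP4bb68cCl

open Pool.MP4bb68c Pool.MP4bb68cOne

theorem measurable_GG (N K : ℕ) : MeasurableSet (GG N K) := by
  have h1 : ∀ x : ℤ, Measurable fun p : Inc × Inc => p.1 x := fun x =>
    (measurable_pi_apply x).comp measurable_fst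
  have h2 : ∀ x : ℤ, Measurable fun p : Inc × Inc => p.2 x := fun x =>
    (measurable_pi_apply x).comp measurable_snd
  have h3 : Measurable fun p : Inc × Inc => NM N p.1 p.2 := by
    unfold NM
    refine Measurable.and ?_ ?_
    · refine Measurable.exists fun x => measurable_const.and (measurable_const.and ?_)
      exact measurableSet_setOf.1 (measurableSet_lt (h1 x) (h2 x))
    · refine Measurable.exists fun x => measurable_const.and (measurable_const.and ?_)
      exact measurableSet_setOf.1 (measurableSet_lt (h2 x) (h1 x))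
  have h4 : Measurable fun η : Inc => Bdh N K η := by
    unfold Bdh
    refine Measurable.forall fun x => Measurable.imp measurable_const
      (Measurable.imp measurable_const ?_)
    exact measurableSet_setOf.1 (measurableSet_le
      ((measurable_of_countable (fun z : ℤ => |z|)).comp (measurable_pr x)) measurable_const)
  unfold GG
  exact measurableSet_setOf.2 (h3.and ((h4.comp measurable_fst).and (h4.comp measurable_snd)))

theorem gain (N K : ℕ) : ∃ c : ℝ, 0 < c ∧ ∃ n₁ : ℕ, ∀ n ≥ n₁, ∀ (π : Measure (Inc × Inc))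
    [IsProbabilityMeasure π], ShInv π → DD π ≠ ∞ →
      DD (PI π (dl 1 n) (2 ^ n)) + ENNReal.ofReal c * π (GG N K) ≤ DD π := by
  have hσ : ∀ s ∈ sig (2 * K) N, s ∈ Finset.Icc (-2 : ℤ) N := by
    intro s hs
    have h := sig_mem hs
    rw [Finset.mem_Icc]
    omega
  obtain ⟨c₀, hc₀, n₁, hn₁⟩ := sched_prob_unif (Finset.Icc (-2 : ℤ) N) hσ
  have hN : (0 : ℝ) < (N : ℝ) + 2 := by positivity
  refine ⟨c₀ / (N + 2), div_pos hc₀ hN, n₁, fun n hn π hπ hsh hfin => ?_⟩
  refine le_trans (add_le_add le_rfl ?_) (DD_add_loss_le hsh hfin (dl 1 n) (2 ^ n))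
  set b := ∫⁻ p, ((BL (2 ^ n) p.2 p.1.1 p.1.2 0).toNat : ℝ≥0∞) ∂(π.prod (arrLaw 1 (dl 1 n)))
    with hb
  set E : Set (ℕ → Site 1 → Bool) :=
    {ξ | Sched (Finset.Icc (-2 : ℤ) N) (2 ^ n) (sig (2 * K) N) ξ} with hE
  have hEm : MeasurableSet E := measurable_sched _ _ _
  have hGm := measurable_GG N K
  have hEc : ENNReal.ofReal c₀ ≤ arrLaw 1 (dl 1 n) E := by
    have h := hn₁ n hn
    rw [ENNReal.ofReal_le_iff_le_toReal (measure_ne_top _ _)]
    exact h
  have h1 : ∑ i ∈ Finset.range (N + 2), ∫⁻ p, ((BL (2 ^ n) p.2 p.1.1 p.1.2 (-2 + i)).toNat : ℝ≥0∞)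
      ∂(π.prod (arrLaw 1 (dl 1 n))) = ((N + 2 : ℕ) : ℝ≥0∞) * b := by
    rw [Finset.sum_congr rfl fun (i : ℕ) _ => lintegral_BL_sh hsh (dl 1 n) (2 ^ n) (-2 + (i : ℤ)),
      Finset.sum_const, Finset.card_range, nsmul_eq_mul]
  have hmeas : ∀ x : ℤ, Measurable fun p : (Inc × Inc) × (ℕ → Site 1 → Bool) =>
      ((BL (2 ^ n) p.2 p.1.1 p.1.2 x).toNat : ℝ≥0∞) := fun x =>
    (measurable_of_countable (fun z : ℤ => ((z.toNat : ℕ) : ℝ≥0∞))).comp
      (measurable_BL (2 ^ n) x)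
  have h2 : π (GG N K) * arrLaw 1 (dl 1 n) E ≤ ((N + 2 : ℕ) : ℝ≥0∞) * b := by
    rw [← h1, ← lintegral_finsetSum _ fun i _ => hmeas _, ← Measure.prod_prod,
      ← lintegral_indicator_one (hGm.prod hEm)]
    refine lintegral_mono fun p => ?_
    by_cases hp : p ∈ GG N K ×ˢ E
    · rw [Set.indicator_of_mem hp]
      have h3 := word_loss (K := K) (N := N) (k := 2 ^ n) (η := p.1.1) (η' := p.1.2)
        (ξ := p.2) hp.1 hp.2
      have h4 : (1 : ℤ) ≤ ((∑ i ∈ Finset.range (N + 2),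
          (BL (2 ^ n) p.2 p.1.1 p.1.2 (-2 + (i : ℤ))).toNat : ℕ) : ℤ) := by
        rw [Nat.cast_sum]
        exact h3.trans (Finset.sum_le_sum fun i _ => Int.self_le_toNat _)
      have h5 : 1 ≤ ∑ i ∈ Finset.range (N + 2),
          (BL (2 ^ n) p.2 p.1.1 p.1.2 (-2 + (i : ℤ))).toNat := by exact_mod_cast h4
      show (1 : ℝ≥0∞) ≤ ∑ i ∈ Finset.range (N + 2),
        ((BL (2 ^ n) p.2 p.1.1 p.1.2 (-2 + (i : ℤ))).toNat : ℝ≥0∞)
      rw [← Nat.cast_sum]
      exact_mod_cast h5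
    · rw [Set.indicator_of_notMem hp]
      exact zero_le
  have h3 : ENNReal.ofReal (c₀ / (N + 2)) * ((N + 2 : ℕ) : ℝ≥0∞) = ENNReal.ofReal c₀ := by
    rw [← ENNReal.ofReal_natCast, ← ENNReal.ofReal_mul (div_pos hc₀ hN).le]
    congr 1
    push_cast
    field_simp
  have h4 : ((N + 2 : ℕ) : ℝ≥0∞) * (ENNReal.ofReal (c₀ / (N + 2)) * π (GG N K)) ≤
      ((N + 2 : ℕ) : ℝ≥0∞) * b := by
    refine le_trans ?_ h2
    rw [← mul_assoc, mul_comm ((N + 2 : ℕ) : ℝ≥0∞), h3, mul_comm]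
    gcongr
  exact (ENNReal.mul_le_mul_iff_right (by simp) (ENNReal.natCast_ne_top _)).1 h4

theorem sel (N K : ℕ) : ∃ c : ℝ, 0 < c ∧ ∃ n₁ : ℕ, ∀ n ≥ n₁, ∀ (π : Measure (Inc × Inc))
    [IsProbabilityMeasure π], ShInv π → DD π ≠ ∞ → ∀ T : ℕ, 0 < T → ∃ t < T,
      ENNReal.ofReal (c * T) * PI π (dl 1 n) (t * 2 ^ n) (GG N K) ≤ DD π := by
  obtain ⟨c, hc, n₁, hg⟩ := gain N K
  refine ⟨c, hc, n₁, fun n hn π hπ hsh hfin T hT => ?_⟩
  by_contra hcon
  push Not at hcon
  have hind : ∀ T' : ℕ, DD (PI π (dl 1 n) (T' * 2 ^ n)) +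
      ∑ t ∈ Finset.range T', ENNReal.ofReal c * PI π (dl 1 n) (t * 2 ^ n) (GG N K) ≤ DD π := by
    intro T'
    induction T' with
    | zero => rw [zero_mul, PI_zero, Finset.range_zero, Finset.sum_empty, add_zero]
    | succ T' ih =>
      have h1 : DD (PI π (dl 1 n) (T' * 2 ^ n)) ≠ ∞ :=
        ne_top_of_le_ne_top hfin ((self_le_add_right _ _).trans ih)
      have h2 := hg n hn (PI π (dl 1 n) (T' * 2 ^ n)) (PI_shInv hsh _ _) h1
      rw [← PI_add] at h2
      rw [Finset.sum_range_succ, add_mul, one_mul]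
      calc DD (PI π (dl 1 n) (T' * 2 ^ n + 2 ^ n)) +
            (∑ t ∈ Finset.range T', ENNReal.ofReal c * PI π (dl 1 n) (t * 2 ^ n) (GG N K) +
              ENNReal.ofReal c * PI π (dl 1 n) (T' * 2 ^ n) (GG N K))
          = (DD (PI π (dl 1 n) (T' * 2 ^ n + 2 ^ n)) +
              ENNReal.ofReal c * PI π (dl 1 n) (T' * 2 ^ n) (GG N K)) +
            ∑ t ∈ Finset.range T', ENNReal.ofReal c * PI π (dl 1 n) (t * 2 ^ n) (GG N K) := by
              ring
        _ ≤ DD (PI π (dl 1 n) (T' * 2 ^ n)) +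
            ∑ t ∈ Finset.range T', ENNReal.ofReal c * PI π (dl 1 n) (t * 2 ^ n) (GG N K) := by
              gcongr
        _ ≤ DD π := ih
  have h1 := ENNReal.sum_lt_sum_of_nonempty (s := Finset.range T)
    (f := fun _ => DD π)
    (g := fun t => ENNReal.ofReal (c * T) * PI π (dl 1 n) (t * 2 ^ n) (GG N K))
    (Finset.nonempty_range_iff.2 hT.ne') fun t ht => hcon t (Finset.mem_range.1 ht)
  rw [Finset.sum_const, Finset.card_range, nsmul_eq_mul] at h1
  have h2 : ∑ t ∈ Finset.range T, ENNReal.ofReal (c * T) *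
      PI π (dl 1 n) (t * 2 ^ n) (GG N K) ≤ (T : ℝ≥0∞) * DD π := by
    have h3 : ∀ t, ENNReal.ofReal (c * T) * PI π (dl 1 n) (t * 2 ^ n) (GG N K) =
        (T : ℝ≥0∞) * (ENNReal.ofReal c * PI π (dl 1 n) (t * 2 ^ n) (GG N K)) := by
      intro t
      rw [ENNReal.ofReal_mul hc.le, ENNReal.ofReal_natCast]
      ring
    rw [Finset.sum_congr rfl fun t _ => h3 t, ← Finset.mul_sum]
    gcongr
    exact (self_le_add_left _ _).trans (hind T)
  exact absurd (h1.trans_le h2) (lt_irrefl _)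

end Pool.MP4bb68cCl
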