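import Pool.Agent.Work.MP_4bb68c_cl.CouA
import Pool.Agent.Work.MP_4bb68c_cl.Init
import Pool.Agent.Work.MP_4bb68c_cl.Gain
import Pool.Agent.Work.MP_4bb68c_cl.Marg
import Pool.Agent.Work.MP_4bb68c_cl.Conv

/-!
# Cou (size M): the coupling theorem (assembly)

`e := ε / 20`. Choose `N ≥ 1` with `μ.real {g | e * N < |g (pt N) - v N|} ≤ e` and the same for `μ'`, `v'` (`hv`, `hv'`). Choose `K`
from `Bdh_tail` for `μ` and `μ'` with `e`. Let `π₀ := (μ.map incr).prod (μ'.map incr)` (Init), `c`, `n₁` from `sel N K`, and `T > 0` with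
`(DD π₀).toReal ≤ c T e`. Let `M' := max M (max N 2)`; let `n ≥ n₁` be at least all `n₀` of `conv` for `μ` and for `μ'`, all `t < T`, with
`M'` and `e`. `sel` gives `t < T` with `ofReal (c T) * π (GG N K) ≤ DD π₀`, so `π.real (GG N K) ≤ e`, for
`π := PI π₀ (dl 1 n) (t * 2 ^ n)`. By `PI_fst`, `PI_snd` (`π₀.map Prod.fst = μ.map incr`: `Measure.map_fst_prod`) and `conv` the marginals of
`π` are `e`-close to those of `μ`, `μ'` on all measurable `A` with `DepOn M' A` (`DepOn M A → DepOn M' A`). The first four claims follow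
(`PI_shInv`, `instProbPI`, `e ≤ ε`).
The bad set of `count` with `w = v' - v`, `2 e` for `ε`: `NM N p.1 p.2` implies `p ∈ GG N K` or `¬ Bdh N K p.1` or `¬ Bdh N K p.2`: probability
at most `e + 2 e + 2 e` (`depOn_Bdh`, `measurable_Bdh`); `2 e N < |(pr p.2 N - pr p.1 N) - (v' - v) N|` implies
`e N < |pr p.1 N - v N|` or `e N < |pr p.2 N - v' N|`: at most `2 e + 2 e` (`depOn_pr`, `slp_incr`). So `β = 9 e`, and `count` gives the last two
claims: `2 e + 9 e ≤ ε`, `w + 2 e + 9 e L ≤ v' - v + ε (1 + L)`.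
-/

set_option autoImplicit false

open MeasureTheory ProbabilityTheory Filter Topology
open scoped NNReal ENNReal

namespace Pool.MP4bb68cCl

open Pool.MP4bb68c Pool.MP4bb68cOne

private theorem cou_dep {M M' : ℕ} (hM : M ≤ M') {A : Set Inc} (h : DepOn M A) : DepOn M' A := by
  intro η η' he
  refine h η η' fun x h1 h2 => he x ?_ ?_ <;> omega

private theorem cou_meas (N : ℕ) (v e : ℝ) :
    MeasurableSet {η : Inc | e * N < |((pr η N : ℤ) : ℝ) - v * N|} := by
  have h1 : Measurable fun η : Inc => |((pr η N : ℤ) : ℝ) - v * N| :=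
    (measurable_of_countable (fun z : ℤ => |(z : ℝ) - v * N|)).comp (measurable_pr N)
  exact measurableSet_lt measurable_const h1

theorem coupling {μ μ' : Measure (Height 1)} {v v' : ℝ} (h : InvLaw μ) (h' : InvLaw μ')
    (hv : Slp μ v) (hv' : Slp μ' v') (hle : v ≤ v') (M : ℕ) {ε : ℝ} (hε : 0 < ε) :
    ∃ π : Measure (Inc × Inc), IsProbabilityMeasure π ∧ ShInv π ∧
      (∀ A : Set Inc, MeasurableSet A → DepOn M A →
        |(π.map Prod.fst).real A - (μ.map incr).real A| ≤ ε) ∧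
      (∀ A : Set Inc, MeasurableSet A → DepOn M A →
        |(π.map Prod.snd).real A - (μ'.map incr).real A| ≤ ε) ∧
      (∀ x : ℤ, π.real {p | p.2 x < p.1 x} ≤ ε) ∧
      ∀ (x : ℤ) (L : ℕ), ∫⁻ p, ((min (p.2 x - p.1 x).natAbs L : ℕ) : ℝ≥0∞) ∂π ≤
        ENNReal.ofReal (v' - v + ε * (1 + L)) := by
  have := h.prob
  have := h'.prob
  have hpi : IsProbabilityMeasure (μ.map incr) :=
    Measure.isProbabilityMeasure_map measurable_incr.aemeasurable
  have hpi' : IsProbabilityMeasure (μ'.map incr) :=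
    Measure.isProbabilityMeasure_map measurable_incr.aemeasurable
  obtain ⟨e, he⟩ : ∃ e : ℝ, e = ε / 20 := ⟨_, rfl⟩
  have he0 : 0 < e := by rw [he]; positivity
  -- the length
  obtain ⟨N, hN1, hNv, hNv'⟩ : ∃ N : ℕ, 1 ≤ N ∧
      μ.real {g : Height 1 | e * N < |(g (pt N) : ℝ) - v * N|} ≤ e ∧
      μ'.real {g : Height 1 | e * N < |(g (pt N) : ℝ) - v' * N|} ≤ e := by
    have h1 := (hv e he0).eventually (eventually_le_nhds he0)
    have h2 := (hv' e he0).eventually (eventually_le_nhds he0)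
    obtain ⟨N, hN⟩ := ((eventually_ge_atTop 1).and (h1.and h2)).exists
    exact ⟨N, hN.1, hN.2.1, hN.2.2⟩
  obtain ⟨K₀, hK₀⟩ := Bdh_tail h N he0
  obtain ⟨K₁, hK₁⟩ := Bdh_tail h' N he0
  obtain ⟨K, hKa, hKb⟩ : ∃ K : ℕ, K₀ ≤ K ∧ K₁ ≤ K := ⟨max K₀ K₁, le_max_left _ _, le_max_right _ _⟩
  have hB := hK₀ K hKa
  have hB' := hK₁ K hKb
  have hπ₀ := init_prob h h'
  have hsh₀ := init_shInv h h'
  have hD₀ := init_DD h h'
  have hf₀ : ((μ.map incr).prod (μ'.map incr)).map Prod.fst = μ.map incr := by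
    rw [Measure.map_fst_prod, measure_univ, one_smul]
  have hs₀ : ((μ.map incr).prod (μ'.map incr)).map Prod.snd = μ'.map incr := by
    rw [Measure.map_snd_prod, measure_univ, one_smul]
  obtain ⟨π₀, hπe⟩ : ∃ π₀, π₀ = (μ.map incr).prod (μ'.map incr) := ⟨_, rfl⟩
  rw [← hπe] at hπ₀ hsh₀ hD₀ hf₀ hs₀
  obtain ⟨c, hc, n₁, hsel⟩ := sel N K
  obtain ⟨T, hT0, hT⟩ : ∃ T : ℕ, 0 < T ∧ (DD π₀).toReal ≤ c * T * e := by
    obtain ⟨T, hT⟩ := exists_nat_ge ((DD π₀).toReal / (c * e))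
    refine ⟨T + 1, Nat.succ_pos T, ?_⟩
    rw [div_le_iff₀ (mul_pos hc he0)] at hT
    refine hT.trans ?_
    push_cast
    nlinarith [mul_pos hc he0]
  obtain ⟨M', hM'⟩ : ∃ M' : ℕ, M' = max M (max N 2) := ⟨_, rfl⟩
  have hMM : M ≤ M' := by rw [hM']; exact le_max_left _ _
  have hNM : max N 2 ≤ M' := by rw [hM']; exact le_max_right _ _
  choose a ha using fun t : ℕ => conv (μ := μ) h.stat t M' he0
  choose b hb using fun t : ℕ => conv (μ := μ') h'.stat t M' he0
  obtain ⟨n, hn₁, hna, hnb⟩ : ∃ n : ℕ, n₁ ≤ n ∧ (∀ t < T, a t ≤ n) ∧ (∀ t < T, b t ≤ n) := by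
    refine ⟨max n₁ (max ((Finset.range T).sup a) ((Finset.range T).sup b)), le_max_left _ _,
      fun t ht => ?_, fun t ht => ?_⟩
    · exact (Finset.le_sup (f := a) (Finset.mem_range.2 ht)).trans
        ((le_max_left _ _).trans (le_max_right _ _))
    · exact (Finset.le_sup (f := b) (Finset.mem_range.2 ht)).trans
        ((le_max_right _ _).trans (le_max_right _ _))
  obtain ⟨t, ht, hsel⟩ := hsel n hn₁ π₀ hsh₀ hD₀ T hT0
  obtain ⟨π, hπ⟩ : ∃ π, π = PI π₀ (dl 1 n) (t * 2 ^ n) := ⟨_, rfl⟩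
  have hprob : IsProbabilityMeasure π := by rw [hπ]; infer_instance
  have hsh : ShInv π := by rw [hπ]; exact PI_shInv hsh₀ _ _
  rw [← hπ] at hsel
  have hGG : π.real (GG N K) ≤ e := by
    have h1 := ENNReal.toReal_mono hD₀ hsel
    have hcT : 0 < c * T := mul_pos hc (by exact_mod_cast hT0)
    rw [ENNReal.toReal_mul, ENNReal.toReal_ofReal hcT.le] at h1
    rw [measureReal_def]
    have h2 := h1.trans hT
    exact le_of_mul_le_mul_left h2 hcT
  have hF : ∀ A : Set Inc, MeasurableSet A → DepOn M' A →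
      |(π.map Prod.fst).real A - (μ.map incr).real A| ≤ e := by
    intro A hA hd
    rw [hπ, PI_fst hf₀]
    exact ha t n (hna t ht) A hA hd
  have hS : ∀ A : Set Inc, MeasurableSet A → DepOn M' A →
      |(π.map Prod.snd).real A - (μ'.map incr).real A| ≤ e := by
    intro A hA hd
    rw [hπ, PI_snd hs₀]
    exact hb t n (hnb t ht) A hA hd
  have heε : e ≤ ε := by rw [he]; linarith
  -- the four small sets
  have c1 : π.real (Prod.fst ⁻¹' {η : Inc | ¬ Bdh N K η}) ≤ 2 * e := by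
    rw [← map_measureReal_apply measurable_fst (measurable_Bdh N K)]
    have h1 := hF _ (measurable_Bdh N K) (cou_dep hNM (depOn_Bdh N K))
    have h2 := abs_le.1 h1
    linarith [h2.2]
  have c2 : π.real (Prod.snd ⁻¹' {η : Inc | ¬ Bdh N K η}) ≤ 2 * e := by
    rw [← map_measureReal_apply measurable_snd (measurable_Bdh N K)]
    have h1 := hS _ (measurable_Bdh N K) (cou_dep hNM (depOn_Bdh N K))
    have h2 := abs_le.1 h1
    linarith [h2.2]
  have c3 : π.real (Prod.fst ⁻¹' {η : Inc | e * N < |((pr η N : ℤ) : ℝ) - v * N|}) ≤ 2 * e := by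
    rw [← map_measureReal_apply measurable_fst (cou_meas N v e)]
    have h1 := hF _ (cou_meas N v e)
      (cou_dep hNM (depOn_pr N (fun z : ℤ => e * N < |(z : ℝ) - v * N|)))
    have h2 := abs_le.1 h1
    have h3 := slp_incr h v e N
    linarith [h2.2]
  have c4 : π.real (Prod.snd ⁻¹' {η : Inc | e * N < |((pr η N : ℤ) : ℝ) - v' * N|}) ≤ 2 * e := by
    rw [← map_measureReal_apply measurable_snd (cou_meas N v' e)]
    have h1 := hS _ (cou_meas N v' e)
      (cou_dep hNM (depOn_pr N (fun z : ℤ => e * N < |(z : ℝ) - v' * N|)))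
    have h2 := abs_le.1 h1
    have h3 := slp_incr h' v' e N
    linarith [h2.2]
  have hbad : π.real {p | NM N p.1 p.2 ∨
      2 * e * N < |(((pr p.2 N - pr p.1 N : ℤ) : ℤ) : ℝ) - (v' - v) * N|} ≤ 9 * e := by
    have hsub : {p : Inc × Inc | NM N p.1 p.2 ∨
        2 * e * N < |(((pr p.2 N - pr p.1 N : ℤ) : ℤ) : ℝ) - (v' - v) * N|} ⊆
        (GG N K ∪ (Prod.fst ⁻¹' {η : Inc | ¬ Bdh N K η} ∪ Prod.snd ⁻¹' {η : Inc | ¬ Bdh N K η})) ∪
        (Prod.fst ⁻¹' {η : Inc | e * N < |((pr η N : ℤ) : ℝ) - v * N|} ∪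
          Prod.snd ⁻¹' {η : Inc | e * N < |((pr η N : ℤ) : ℝ) - v' * N|}) := by
      rintro p (hp | hp)
      · by_cases h1 : Bdh N K p.1
        · by_cases h2 : Bdh N K p.2
          · exact Or.inl (Or.inl ⟨hp, h1, h2⟩)
          · exact Or.inl (Or.inr (Or.inr h2))
        · exact Or.inl (Or.inr (Or.inl h1))
      · right
        by_contra hcon
        rw [Set.mem_union, not_or] at hcon
        obtain ⟨h1, h2⟩ := hcon
        simp only [Set.mem_preimage, Set.mem_ofPred_eq, not_lt] at h1 h2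
        have hp' : 2 * e * N < |(((pr p.2 N - pr p.1 N : ℤ) : ℤ) : ℝ) - (v' - v) * N| := hp
        rw [Int.cast_sub] at hp'
        have h3 : ((pr p.2 N : ℤ) : ℝ) - ((pr p.1 N : ℤ) : ℝ) - (v' - v) * N =
          (((pr p.2 N : ℤ) : ℝ) - v' * N) - (((pr p.1 N : ℤ) : ℝ) - v * N) := by ring
        rw [h3] at hp'
        have h4 := abs_sub (((pr p.2 N : ℤ) : ℝ) - v' * N) (((pr p.1 N : ℤ) : ℝ) - v * N)
        linarith
    refine (measureReal_mono hsub).trans ?_
    refine (measureReal_union_le _ _).trans ?_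
    have h1 := measureReal_union_le (μ := π) (GG N K)
      (Prod.fst ⁻¹' {η : Inc | ¬ Bdh N K η} ∪ Prod.snd ⁻¹' {η : Inc | ¬ Bdh N K η})
    have h2 := measureReal_union_le (μ := π) (Prod.fst ⁻¹' {η : Inc | ¬ Bdh N K η})
      (Prod.snd ⁻¹' {η : Inc | ¬ Bdh N K η})
    have h3 := measureReal_union_le (μ := π)
      (Prod.fst ⁻¹' {η : Inc | e * N < |((pr η N : ℤ) : ℝ) - v * N|})
      (Prod.snd ⁻¹' {η : Inc | e * N < |((pr η N : ℤ) : ℝ) - v' * N|})
    linarith
  obtain ⟨r1, r2⟩ := count hsh (N := N) (by omega) (w := v' - v) (ε := 2 * e) (β := 9 * e)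
    (by linarith) (by linarith) (by linarith) hbad
  refine ⟨π, hprob, hsh, fun A hA hd => (hF A hA (cou_dep hMM hd)).trans heε,
    fun A hA hd => (hS A hA (cou_dep hMM hd)).trans heε, fun x => (r1 x).trans ?_,
    fun x L => (r2 x L).trans (ENNReal.ofReal_le_ofReal ?_)⟩
  · rw [he]; linarith
  · have hL : (0 : ℝ) ≤ (L : ℝ) := Nat.cast_nonneg L
    rw [he]
    nlinarith [mul_nonneg hε.le hL]

end Pool.MP4bb68cCl
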