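import Pool.Agent.Work.MP_4bb68c_cl.Meas

/-!
# CouA (size M): counting

Let `d x = p.2 x - p.1 x` and `S = ∑ x < N, d x = pr p.2 N - pr p.1 N` (`pr_succ`). Let `p` be good: not `NM N p.1 p.2`, and
`|S - w N| ≤ ε N`. Then either `d x ≥ 0` for all `x = 0, ..., N - 1`, or `d x ≤ 0` for all of them. In the first case
`∑ |d x| = S ≤ (w + ε) N` and no `d x` is negative. In the second case `∑ |d x| = -S ≤ ε N - w N ≤ ε N ≤ (w + ε) N`, and the number of
`x < N` with `d x < 0` is at most `∑ |d x| ≤ ε N`. So for all `p`: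
`∑ x < N, 1[d x < 0] ≤ ε N + N 1_bad`, `∑ x < N, min |d x| L ≤ (w + ε) N + N L 1_bad`.
Integrate; by `ShInv` all the terms have the same integral (map by the shift `n` times; or `hπ` iterated:
`π.map (fun p => (fun y => p.1 (y + n), fun y => p.2 (y + n))) = π` for all `n : ℤ`), so dividing by `N` gives the claims at `x = 0`,
hence at all `x : ℤ`.
-/

set_option autoImplicit false

open MeasureTheory ProbabilityTheory
open scoped NNReal ENNReal

namespace Pool.MP4bb68cCl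

open Pool.MP4bb68c Pool.MP4bb68cOne

private theorem coua_sh {π : Measure (Inc × Inc)} (hπ : ShInv π) (G : ℤ → ℤ → ℕ) (x : ℤ) :
    ∫⁻ p, (G (p.1 x) (p.2 x) : ℝ≥0∞) ∂π = ∫⁻ p, (G (p.1 0) (p.2 0) : ℝ≥0∞) ∂π := by
  have hm : Measurable (fun p : Inc × Inc => (sh p.1, sh p.2)) :=
    (measurable_sh.comp measurable_fst).prodMk (measurable_sh.comp measurable_snd)
  have hF : ∀ y : ℤ, Measurable (fun p : Inc × Inc => (G (p.1 y) (p.2 y) : ℝ≥0∞)) := by
    intro y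
    have h1 : Measurable (fun q : ℤ × ℤ => (G q.1 q.2 : ℝ≥0∞)) := Measurable.of_discrete
    have h2 : Measurable (fun p : Inc × Inc => (p.1 y, p.2 y)) :=
      ((measurable_pi_apply y).comp measurable_fst).prodMk
        ((measurable_pi_apply y).comp measurable_snd)
    exact h1.comp h2
  have key : ∀ y : ℤ, ∫⁻ p, (G (p.1 (y + 1)) (p.2 (y + 1)) : ℝ≥0∞) ∂π =
      ∫⁻ p, (G (p.1 y) (p.2 y) : ℝ≥0∞) ∂π := by
    intro y
    have hπ' : π.map (fun p => (sh p.1, sh p.2)) = π := hπ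
    conv_rhs => rw [← hπ']
    rw [lintegral_map (hF y) hm]
    rfl
  induction x using Int.induction_on with
  | zero => rfl
  | succ i ih => rw [key, ih]
  | pred i ih =>
    rw [← ih, ← key (-(i : ℤ) - 1)]
    congr 1
    funext p
    rw [sub_add_cancel]

private theorem coua_gen {π : Measure (Inc × Inc)} [IsProbabilityMeasure π] (hπ : ShInv π)
    {N : ℕ} (hN : 0 < N) {C β : ℝ} (hC : 0 ≤ C) (hβ : 0 ≤ β) (B : Set (Inc × Inc))
    (hB : π.real B ≤ β) (G : ℤ → ℤ → ℕ) (M : ℕ) (hM : ∀ a b, G a b ≤ M)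
    (hG : ∀ p : Inc × Inc, p ∉ B →
      ((∑ i ∈ Finset.range N, G (p.1 (i : ℤ)) (p.2 (i : ℤ)) : ℕ) : ℝ) ≤ C * N) (x : ℤ) :
    ∫⁻ p, (G (p.1 x) (p.2 x) : ℝ≥0∞) ∂π ≤ ENNReal.ofReal (C + β * M) := by
  classical
  have hF : ∀ y : ℤ, Measurable (fun p : Inc × Inc => (G (p.1 y) (p.2 y) : ℝ≥0∞)) := by
    intro y
    have h1 : Measurable (fun q : ℤ × ℤ => (G q.1 q.2 : ℝ≥0∞)) := Measurable.of_discrete
    have h2 : Measurable (fun p : Inc × Inc => (p.1 y, p.2 y)) :=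
      ((measurable_pi_apply y).comp measurable_fst).prodMk
        ((measurable_pi_apply y).comp measurable_snd)
    exact h1.comp h2
  have hN0 : (N : ℝ≥0∞) ≠ 0 := by
    exact_mod_cast hN.ne'
  have hNt : (N : ℝ≥0∞) ≠ ⊤ := ENNReal.natCast_ne_top N
  have hBe : π B ≤ ENNReal.ofReal β := by
    rw [← ofReal_measureReal]
    exact ENNReal.ofReal_le_ofReal hB
  have h1 : (N : ℝ≥0∞) * ∫⁻ p, (G (p.1 x) (p.2 x) : ℝ≥0∞) ∂π =
      ∫⁻ p, ∑ i ∈ Finset.range N, (G (p.1 (i : ℤ)) (p.2 (i : ℤ)) : ℝ≥0∞) ∂π := by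
    rw [lintegral_finsetSum (Finset.range N) (f := fun (i : ℕ) (p : Inc × Inc) =>
      (G (p.1 (i : ℤ)) (p.2 (i : ℤ)) : ℝ≥0∞)) (fun i _ => hF i)]
    have h2 : ∀ i ∈ Finset.range N, ∫⁻ p, (G (p.1 (i : ℤ)) (p.2 (i : ℤ)) : ℝ≥0∞) ∂π =
        ∫⁻ p, (G (p.1 x) (p.2 x) : ℝ≥0∞) ∂π := fun i _ => by
      rw [coua_sh hπ G i, coua_sh hπ G x]
    rw [Finset.sum_congr rfl h2, Finset.sum_const, Finset.card_range, nsmul_eq_mul]
  have h3 : ∫⁻ p, ∑ i ∈ Finset.range N, (G (p.1 (i : ℤ)) (p.2 (i : ℤ)) : ℝ≥0∞) ∂π ≤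
      ∫⁻ p, (ENNReal.ofReal (C * N) + B.indicator (fun _ => (N : ℝ≥0∞) * M) p) ∂π := by
    refine lintegral_mono fun p => ?_
    by_cases hp : p ∈ B
    · rw [Set.indicator_of_mem hp]
      refine le_trans ?_ le_add_self
      refine le_trans (Finset.sum_le_card_nsmul _ _ (M : ℝ≥0∞) fun i _ => ?_) ?_
      · exact_mod_cast hM _ _
      · rw [Finset.card_range, nsmul_eq_mul]
    · rw [Set.indicator_of_notMem hp, add_zero, ← Nat.cast_sum, ← ENNReal.ofReal_natCast]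
      exact ENNReal.ofReal_le_ofReal (hG p hp)
  have h4 : ∫⁻ p, (ENNReal.ofReal (C * N) + B.indicator (fun _ => (N : ℝ≥0∞) * M) p) ∂π ≤
      (N : ℝ≥0∞) * ENNReal.ofReal (C + β * M) := by
    rw [lintegral_add_left measurable_const, lintegral_const, measure_univ, mul_one]
    refine le_trans (add_le_add_right (lintegral_indicator_const_le _ _) _) ?_
    refine le_trans (add_le_add_right (mul_le_mul_right hBe _) _) ?_
    rw [ENNReal.ofReal_add hC (mul_nonneg hβ (Nat.cast_nonneg M)), mul_add,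
      ENNReal.ofReal_mul hC, ENNReal.ofReal_mul hβ, ENNReal.ofReal_natCast,
      ENNReal.ofReal_natCast]
    refine le_of_eq ?_
    ring
  have h5 := (h1.le.trans h3).trans h4
  exact (ENNReal.mul_le_mul_iff_right hN0 hNt).mp h5

private theorem coua_sum (η η' : Inc) (N : ℕ) :
    ∑ i ∈ Finset.range N, (η' (i : ℤ) - η (i : ℤ)) = pr η' N - pr η N := by
  induction N with
  | zero =>
    simp [pr]
  | succ n ih =>
    rw [Finset.sum_range_succ, ih]
    have h1 := pr_succ η n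
    have h2 := pr_succ η' n
    push_cast
    rw [h1, h2]
    ring

private theorem coua_point {N : ℕ} {w ε : ℝ} (hw : 0 ≤ w) (hε : 0 ≤ ε) {p : Inc × Inc}
    (hp : p ∉ {p : Inc × Inc | NM N p.1 p.2 ∨
      ε * N < |(((pr p.2 N - pr p.1 N : ℤ) : ℤ) : ℝ) - w * N|}) :
    ((∑ i ∈ Finset.range N, (if p.2 (i : ℤ) < p.1 (i : ℤ) then 1 else 0) : ℕ) : ℝ) ≤ ε * N ∧
    ((∑ i ∈ Finset.range N, (p.2 (i : ℤ) - p.1 (i : ℤ)).natAbs : ℕ) : ℝ) ≤ (w + ε) * N := by
  have hN0 : (0 : ℝ) ≤ N := Nat.cast_nonneg N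
  have h1 : ¬ NM N p.1 p.2 := fun h => hp (Or.inl h)
  have h2 : |(((pr p.2 N - pr p.1 N : ℤ) : ℤ) : ℝ) - w * N| ≤ ε * N :=
    not_lt.mp fun h => hp (Or.inr h)
  rw [← coua_sum] at h2
  obtain ⟨h3, h4⟩ := abs_le.mp h2
  have hwN := mul_nonneg hw hN0
  have hεN := mul_nonneg hε hN0
  rcases not_and_or.mp h1 with h | h
  · -- all the differences are at most zero
    have hd : ∀ i ∈ Finset.range N, p.2 (i : ℤ) - p.1 (i : ℤ) ≤ 0 := by
      intro i hi
      by_contra hlt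
      exact h ⟨i, by omega, by exact_mod_cast Finset.mem_range.mp hi, by omega⟩
    have e1 : ((∑ i ∈ Finset.range N, (p.2 (i : ℤ) - p.1 (i : ℤ)).natAbs : ℕ) : ℤ) =
        -∑ i ∈ Finset.range N, (p.2 (i : ℤ) - p.1 (i : ℤ)) := by
      rw [Nat.cast_sum, ← Finset.sum_neg_distrib]
      refine Finset.sum_congr rfl fun i hi => ?_
      have := hd i hi
      omega
    have e2 : ((∑ i ∈ Finset.range N, (p.2 (i : ℤ) - p.1 (i : ℤ)).natAbs : ℕ) : ℝ) =
        -((∑ i ∈ Finset.range N, (p.2 (i : ℤ) - p.1 (i : ℤ)) : ℤ) : ℝ) := by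
      rw [← Int.cast_neg, ← e1, Int.cast_natCast]
    have e3 : (∑ i ∈ Finset.range N, (if p.2 (i : ℤ) < p.1 (i : ℤ) then 1 else 0) : ℕ) ≤
        ∑ i ∈ Finset.range N, (p.2 (i : ℤ) - p.1 (i : ℤ)).natAbs := by
      refine Finset.sum_le_sum fun i _ => ?_
      split_ifs with hlt
      · omega
      · exact Nat.zero_le _
    have e4 : ((∑ i ∈ Finset.range N, (if p.2 (i : ℤ) < p.1 (i : ℤ) then 1 else 0) : ℕ) : ℝ) ≤
        ((∑ i ∈ Finset.range N, (p.2 (i : ℤ) - p.1 (i : ℤ)).natAbs : ℕ) : ℝ) := by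
      exact_mod_cast e3
    constructor
    · rw [e2] at e4
      linarith
    · rw [e2]
      nlinarith
  · have hd : ∀ i ∈ Finset.range N, 0 ≤ p.2 (i : ℤ) - p.1 (i : ℤ) := by
      intro i hi
      by_contra hlt
      exact h ⟨i, by omega, by exact_mod_cast Finset.mem_range.mp hi, by omega⟩
    have e1 : ((∑ i ∈ Finset.range N, (p.2 (i : ℤ) - p.1 (i : ℤ)).natAbs : ℕ) : ℤ) =
        ∑ i ∈ Finset.range N, (p.2 (i : ℤ) - p.1 (i : ℤ)) := by
      rw [Nat.cast_sum]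
      refine Finset.sum_congr rfl fun i hi => ?_
      have := hd i hi
      omega
    have e2 : ((∑ i ∈ Finset.range N, (p.2 (i : ℤ) - p.1 (i : ℤ)).natAbs : ℕ) : ℝ) =
        ((∑ i ∈ Finset.range N, (p.2 (i : ℤ) - p.1 (i : ℤ)) : ℤ) : ℝ) := by
      rw [← e1, Int.cast_natCast]
    have e3 : (∑ i ∈ Finset.range N, (if p.2 (i : ℤ) < p.1 (i : ℤ) then 1 else 0) : ℕ) = 0 := by
      refine Finset.sum_eq_zero fun i hi => ?_
      have := hd i hi
      rw [if_neg (by omega)]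
    constructor
    · rw [e3]
      simpa using hεN
    · rw [e2]
      linarith

theorem count {π : Measure (Inc × Inc)} [IsProbabilityMeasure π] (hπ : ShInv π) {N : ℕ}
    (hN : 0 < N) {w ε β : ℝ} (hw : 0 ≤ w) (hε : 0 ≤ ε) (hβ : 0 ≤ β)
    (hbad : π.real {p | NM N p.1 p.2 ∨
      ε * N < |(((pr p.2 N - pr p.1 N : ℤ) : ℤ) : ℝ) - w * N|} ≤ β) :
    (∀ x : ℤ, π.real {p | p.2 x < p.1 x} ≤ ε + β) ∧
      ∀ (x : ℤ) (L : ℕ), ∫⁻ p, ((min (p.2 x - p.1 x).natAbs L : ℕ) : ℝ≥0∞) ∂π ≤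
        ENNReal.ofReal (w + ε + β * L) := by
  classical
  constructor
  · intro x
    have h1 := coua_gen hπ hN hε hβ _ hbad (fun a b => if b < a then 1 else 0) 1
      (fun a b => by split_ifs <;> simp) (fun p hp => (coua_point hw hε hp).1) x
    have hm : MeasurableSet {p : Inc × Inc | p.2 x < p.1 x} :=
      measurableSet_lt ((measurable_pi_apply x).comp measurable_snd)
        ((measurable_pi_apply x).comp measurable_fst)
    have h2 : ∫⁻ p : Inc × Inc, ((if p.2 x < p.1 x then 1 else 0 : ℕ) : ℝ≥0∞) ∂π =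
        π {p | p.2 x < p.1 x} := by
      rw [← lintegral_indicator_one hm]
      congr 1
      funext p
      by_cases hp : p.2 x < p.1 x
      · rw [Set.indicator_of_mem (show p ∈ {p : Inc × Inc | p.2 x < p.1 x} from hp), if_pos hp]
        simp
      · rw [Set.indicator_of_notMem (show p ∉ {p : Inc × Inc | p.2 x < p.1 x} from hp),
          if_neg hp]
        simp
    rw [h2] at h1
    have h3 := ENNReal.toReal_le_of_le_ofReal (by positivity) h1
    rw [Nat.cast_one, mul_one] at h3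
    exact h3
  · intro x L
    exact coua_gen hπ hN (add_nonneg hw hε) hβ _ hbad (fun a b => min (b - a).natAbs L) L
      (fun a b => min_le_right _ _) (fun p hp => le_trans (by
        have h1 : (∑ i ∈ Finset.range N, min (p.2 (i : ℤ) - p.1 (i : ℤ)).natAbs L : ℕ) ≤
            ∑ i ∈ Finset.range N, (p.2 (i : ℤ) - p.1 (i : ℤ)).natAbs :=
          Finset.sum_le_sum fun i _ => min_le_left _ _
        exact_mod_cast h1) (coua_point hw hε hp).2) x

end Pool.MP4bb68cCl
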