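import Pool.Agent.Work.MP_4bb68c_cl.ShiftI

/-!
# DExp (size S-M): the expected difference does not increase, and the loss is bounded by the decrease

Let `a := DD (PI π δ k)` and `b := ∫⁻ p, (BL k p.2 p.1.1 p.1.2 0).toNat`. For every `n ≥ 1`: integrate `block_le` (DetB) with `l = 0`,
written in `ℝ≥0∞` (all terms are `≥ 0`: `|z| = z.natAbs`, `BL_nonneg`, `Int.toNat`; casts `ℤ → ℕ → ℝ≥0∞`):
`∑ i < n, (∫⁻ |Δ_k (i)| + ∫⁻ BL (i)) ≤ ∑ i < n + 2 k, ∫⁻ |Δ_0 (i - k)|`, i.e. by `lintegral_sh` for `PI π δ k` and for `π`, and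
`lintegral_BL_sh`: `n * (a + b) ≤ (n + 2 k) * DD π` (`lintegral_map` for `PI`, `lintegral_finset_sum`, measurability from `Meas`). Since
`DD π ≠ ∞`, dividing by `n` and letting `n → ∞` gives `a + b ≤ DD π` (if `DD π < a + b`, i.e. `DD π + ε ≤ a + b` in reals,
then `n ε ≤ 2 k DD π` for all `n`).
-/

set_option autoImplicit false

open MeasureTheory ProbabilityTheory
open scoped NNReal ENNReal

namespace Pool.MP4bb68cCl

open Pool.MP4bb68c Pool.MP4bb68cOne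

private theorem nat_block (p : (Inc × Inc) × (ℕ → Site 1 → Bool)) (k n : ℕ) :
    ∑ i ∈ Finset.range n, ((ifw p.2 p.1.2 k (i : ℤ) - ifw p.2 p.1.1 k (i : ℤ)).natAbs +
        (BL k p.2 p.1.1 p.1.2 (i : ℤ)).toNat) ≤
      ∑ i ∈ Finset.range (n + 2 * k),
        (p.1.2 (0 - (k : ℤ) + (i : ℤ)) - p.1.1 (0 - (k : ℤ) + (i : ℤ))).natAbs := by
  have h := block_le p.2 p.1.1 p.1.2 k 0 n
  have e1 : (((∑ i ∈ Finset.range n,
      ((ifw p.2 p.1.2 k (i : ℤ) - ifw p.2 p.1.1 k (i : ℤ)).natAbs +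
        (BL k p.2 p.1.1 p.1.2 (i : ℤ)).toNat) : ℕ)) : ℤ) =
      ∑ i ∈ Finset.range n, (|ifw p.2 p.1.2 k (0 + (i : ℤ)) - ifw p.2 p.1.1 k (0 + (i : ℤ))| +
        BL k p.2 p.1.1 p.1.2 (0 + (i : ℤ))) := by
    rw [Nat.cast_sum]
    refine Finset.sum_congr rfl fun i _ => ?_
    rw [Nat.cast_add, Int.natCast_natAbs, Int.toNat_of_nonneg (BL_nonneg _ _ _ _ _), zero_add]
  have e2 : (((∑ i ∈ Finset.range (n + 2 * k),
        (p.1.2 (0 - (k : ℤ) + (i : ℤ)) - p.1.1 (0 - (k : ℤ) + (i : ℤ))).natAbs : ℕ)) : ℤ) =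
      ∑ i ∈ Finset.range (n + 2 * k),
        |p.1.2 (0 - (k : ℤ) + (i : ℤ)) - p.1.1 (0 - (k : ℤ) + (i : ℤ))| := by
    rw [Nat.cast_sum]
    exact Finset.sum_congr rfl fun i _ => Int.natCast_natAbs _
  have h2 : (((∑ i ∈ Finset.range n,
      ((ifw p.2 p.1.2 k (i : ℤ) - ifw p.2 p.1.1 k (i : ℤ)).natAbs +
        (BL k p.2 p.1.1 p.1.2 (i : ℤ)).toNat) : ℕ)) : ℤ) ≤
      (((∑ i ∈ Finset.range (n + 2 * k),
        (p.1.2 (0 - (k : ℤ) + (i : ℤ)) - p.1.1 (0 - (k : ℤ) + (i : ℤ))).natAbs : ℕ)) : ℤ) := by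
    rw [e1, e2]
    exact h
  exact_mod_cast h2

private theorem meas_abs (x : ℤ) :
    Measurable (fun p : Inc × Inc => ((p.2 x - p.1 x).natAbs : ℝ≥0∞)) := by
  have h1 : Measurable (fun p : Inc × Inc => (p.2 x, p.1 x)) :=
    ((measurable_pi_apply x).comp measurable_snd).prodMk
      ((measurable_pi_apply x).comp measurable_fst)
  have h2 : Measurable (fun q : ℤ × ℤ => ((q.1 - q.2).natAbs : ℝ≥0∞)) := Measurable.of_discrete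
  exact h2.comp h1

private theorem meas_ifw (k : ℕ) (x : ℤ) :
    Measurable (fun p : (Inc × Inc) × (ℕ → Site 1 → Bool) =>
      ((ifw p.2 p.1.2 k x - ifw p.2 p.1.1 k x).natAbs : ℝ≥0∞)) :=
  (meas_abs x).comp (measurable_pair k)

private theorem meas_BL (k : ℕ) (x : ℤ) :
    Measurable (fun p : (Inc × Inc) × (ℕ → Site 1 → Bool) =>
      ((BL k p.2 p.1.1 p.1.2 x).toNat : ℝ≥0∞)) := by
  have h2 : Measurable (fun q : ℤ => (q.toNat : ℝ≥0∞)) := Measurable.of_discrete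
  exact h2.comp (measurable_BL k x)

private theorem int_ifw {π : Measure (Inc × Inc)} [IsProbabilityMeasure π] (hπ : ShInv π)
    (δ : ℝ≥0) (k : ℕ) (x : ℤ) :
    ∫⁻ p, ((ifw p.2 p.1.2 k x - ifw p.2 p.1.1 k x).natAbs : ℝ≥0∞) ∂(π.prod (arrLaw 1 δ)) =
      DD (PI π δ k) := by
  have h1 := lintegral_sh (PI_shInv hπ δ k)
    (F := fun a b : ℤ => ((b - a).natAbs : ℝ≥0∞)) x
  unfold DD
  rw [← h1]
  unfold PI
  rw [lintegral_map (meas_abs x) (measurable_pair k)]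

private theorem int_zero {π : Measure (Inc × Inc)} [IsProbabilityMeasure π] (hπ : ShInv π)
    (δ : ℝ≥0) (x : ℤ) :
    ∫⁻ p : (Inc × Inc) × (ℕ → Site 1 → Bool), ((p.1.2 x - p.1.1 x).natAbs : ℝ≥0∞)
      ∂(π.prod (arrLaw 1 δ)) = DD π := by
  have h1 := lintegral_sh hπ (F := fun a b : ℤ => ((b - a).natAbs : ℝ≥0∞)) x
  unfold DD
  rw [← h1]
  have h2 : π = (π.prod (arrLaw 1 δ)).map Prod.fst := by
    rw [Measure.map_fst_prod, measure_univ, one_smul]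
  conv_rhs => rw [h2]
  rw [lintegral_map (meas_abs x) measurable_fst]

private theorem mul_ineq {π : Measure (Inc × Inc)} [IsProbabilityMeasure π] (hπ : ShInv π)
    (δ : ℝ≥0) (k n : ℕ) :
    (n : ℝ≥0∞) * (DD (PI π δ k) +
      ∫⁻ p, ((BL k p.2 p.1.1 p.1.2 0).toNat : ℝ≥0∞) ∂(π.prod (arrLaw 1 δ))) ≤
      ((n + 2 * k : ℕ) : ℝ≥0∞) * DD π := by
  have h1 : ∫⁻ p, ∑ i ∈ Finset.range n,
      (((ifw p.2 p.1.2 k (i : ℤ) - ifw p.2 p.1.1 k (i : ℤ)).natAbs : ℝ≥0∞) +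
        ((BL k p.2 p.1.1 p.1.2 (i : ℤ)).toNat : ℝ≥0∞)) ∂(π.prod (arrLaw 1 δ)) ≤
      ∫⁻ p, ∑ i ∈ Finset.range (n + 2 * k),
        ((p.1.2 (0 - (k : ℤ) + (i : ℤ)) - p.1.1 (0 - (k : ℤ) + (i : ℤ))).natAbs : ℝ≥0∞)
          ∂(π.prod (arrLaw 1 δ)) := by
    refine lintegral_mono fun p => ?_
    have h0 : ((∑ i ∈ Finset.range n,
        ((ifw p.2 p.1.2 k (i : ℤ) - ifw p.2 p.1.1 k (i : ℤ)).natAbs +
          (BL k p.2 p.1.1 p.1.2 (i : ℤ)).toNat) : ℕ) : ℝ≥0∞) ≤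
        ((∑ i ∈ Finset.range (n + 2 * k),
          (p.1.2 (0 - (k : ℤ) + (i : ℤ)) - p.1.1 (0 - (k : ℤ) + (i : ℤ))).natAbs : ℕ) : ℝ≥0∞) :=
      Nat.cast_le.2 (nat_block p k n)
    simpa only [Nat.cast_sum, Nat.cast_add] using h0
  rw [lintegral_finsetSum (f := fun i (p : (Inc × Inc) × (ℕ → Site 1 → Bool)) =>
      (((ifw p.2 p.1.2 k ((i : ℕ) : ℤ) - ifw p.2 p.1.1 k ((i : ℕ) : ℤ)).natAbs : ℝ≥0∞) +
        ((BL k p.2 p.1.1 p.1.2 ((i : ℕ) : ℤ)).toNat : ℝ≥0∞))) _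
      (fun i _ => (meas_ifw k (i : ℤ)).add (meas_BL k (i : ℤ))),
    lintegral_finsetSum (f := fun i (p : (Inc × Inc) × (ℕ → Site 1 → Bool)) =>
      ((p.1.2 (0 - (k : ℤ) + ((i : ℕ) : ℤ)) -
        p.1.1 (0 - (k : ℤ) + ((i : ℕ) : ℤ))).natAbs : ℝ≥0∞)) _
      (fun i _ => (meas_abs (0 - (k : ℤ) + (i : ℤ))).comp measurable_fst)] at h1
  have h2 : ∀ i ∈ Finset.range n, ∫⁻ p,
      (((ifw p.2 p.1.2 k (i : ℤ) - ifw p.2 p.1.1 k (i : ℤ)).natAbs : ℝ≥0∞) +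
        ((BL k p.2 p.1.1 p.1.2 (i : ℤ)).toNat : ℝ≥0∞)) ∂(π.prod (arrLaw 1 δ)) =
      DD (PI π δ k) +
        ∫⁻ p, ((BL k p.2 p.1.1 p.1.2 0).toNat : ℝ≥0∞) ∂(π.prod (arrLaw 1 δ)) := by
    intro i _
    rw [lintegral_add_left (meas_ifw k i), int_ifw hπ, lintegral_BL_sh hπ]
  have h3 : ∀ i ∈ Finset.range (n + 2 * k), ∫⁻ p : (Inc × Inc) × (ℕ → Site 1 → Bool),
      ((p.1.2 (0 - (k : ℤ) + (i : ℤ)) - p.1.1 (0 - (k : ℤ) + (i : ℤ))).natAbs : ℝ≥0∞)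
        ∂(π.prod (arrLaw 1 δ)) = DD π := fun i _ => int_zero hπ δ _
  rw [Finset.sum_congr rfl h2, Finset.sum_congr rfl h3, Finset.sum_const, Finset.sum_const,
    Finset.card_range, Finset.card_range, nsmul_eq_mul, nsmul_eq_mul] at h1
  exact h1

private theorem le_of_mul_ineq {a D : ℝ≥0∞} (hD : D ≠ ∞) (k : ℕ)
    (h : ∀ n : ℕ, (n : ℝ≥0∞) * a ≤ ((n + 2 * k : ℕ) : ℝ≥0∞) * D) : a ≤ D := by
  have ha : a ≠ ∞ := by
    have h1 := h 1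
    rw [Nat.cast_one, one_mul] at h1
    exact ne_top_of_le_ne_top (ENNReal.mul_ne_top (ENNReal.natCast_ne_top _) hD) h1
  rw [← ENNReal.toReal_le_toReal ha hD]
  by_contra hc
  rw [not_le] at hc
  obtain ⟨n, hn⟩ := exists_nat_gt (2 * (k : ℝ) * D.toReal / (a.toReal - D.toReal))
  rw [div_lt_iff₀ (by linarith)] at hn
  have h2 := (ENNReal.toReal_le_toReal (ENNReal.mul_ne_top (ENNReal.natCast_ne_top _) ha)
    (ENNReal.mul_ne_top (ENNReal.natCast_ne_top _) hD)).2 (h n)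
  rw [ENNReal.toReal_mul, ENNReal.toReal_mul, ENNReal.toReal_natCast, ENNReal.toReal_natCast] at h2
  push_cast at h2
  linarith

theorem DD_add_loss_le {π : Measure (Inc × Inc)} [IsProbabilityMeasure π] (hπ : ShInv π)
    (hD : DD π ≠ ∞) (δ : ℝ≥0) (k : ℕ) :
    DD (PI π δ k) +
      ∫⁻ p, ((BL k p.2 p.1.1 p.1.2 0).toNat : ℝ≥0∞) ∂(π.prod (arrLaw 1 δ)) ≤ DD π :=
  le_of_mul_ineq hD k fun n => mul_ineq hπ δ k n

end Pool.MP4bb68cCl
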