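import Pool.Agent.Work.MP_4bb68c_cl.DetA

/-!
# DetB: sums over windows

With `k := pr (mx η η')`, `h := pr η`, `h' := pr η'`, the function `u := 2 k - h - h'` has the increments
`|η' x - η x|`, and `F := 2 up b k - up b h - up b h'` has the increments `|ng b η' x - ng b η x| + loss b η η' x`.
-/

set_option autoImplicit false

namespace Pool.MP4bb68cCl

open Pool.MP4bb68c Pool.MP4bb68cOne

private def uu (η η' : Inc) : ℤ → ℤ := fun x => 2 * pr (mx η η') x - pr η x - pr η' x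

private def FF (b : ℤ → Bool) (η η' : Inc) : ℤ → ℤ := fun x =>
  2 * up b (pr (mx η η')) x - up b (pr η) x - up b (pr η') x

private theorem gr_uu (η η' : Inc) (x : ℤ) : gr (uu η η') x = |η' x - η x| := by
  unfold gr uu
  rw [pr_succ, pr_succ, pr_succ]
  unfold mx
  rcases abs_cases (η' x - η x) with h | h <;> omega

private theorem gr_FF (b : ℤ → Bool) (η η' : Inc) (x : ℤ) :
    gr (FF b η η') x = |ng b η' x - ng b η x| + loss b η η' x := by
  have h1 := congrFun (gr_up b (pr (mx η η'))) x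
  have h2 := congrFun (gr_up b (pr η)) x
  have h3 := congrFun (gr_up b (pr η')) x
  rw [gr_pr] at h1 h2 h3
  unfold gr at h1 h2 h3 ⊢
  unfold FF loss
  omega

theorem window_le (b : ℤ → Bool) (η η' : Inc) (l : ℤ) (n : ℕ) :
    ∑ i ∈ Finset.range n, (|ng b η' (l + i) - ng b η (l + i)| + loss b η η' (l + i)) ≤
      ∑ i ∈ Finset.range (n + 2), |η' (l - 1 + i) - η (l - 1 + i)| := by
  simp_rw [← gr_FF, ← gr_uu]
  rw [sum_gr, sum_gr]
  have H : ∀ x, gr (pr η) x ≤ gr (pr (mx η η')) x := fun x => by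
    rw [gr_pr, gr_pr]; exact le_max_left _ _
  have H' : ∀ x, gr (pr η') x ≤ gr (pr (mx η η')) x := fun x => by
    rw [gr_pr, gr_pr]; exact le_max_right _ _
  have a1 := (up_between b H (l + n)).2
  have a2 := (up_between b H' (l + n)).2
  have a3 := (up_between b H l).1
  have a4 := (up_between b H' l).1
  unfold FF uu
  have e : l - 1 + ((n + 2 : ℕ) : ℤ) = l + n + 1 := by push_cast; ring
  rw [e]
  omega

theorem window_eq (b : ℤ → Bool) (η η' : Inc) (l : ℤ) (n : ℕ) (h1 : b l = false)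
    (h2 : b (l + n) = false) :
    ∑ i ∈ Finset.range n, (|ng b η' (l + i) - ng b η (l + i)| + loss b η η' (l + i)) =
      ∑ i ∈ Finset.range n, |η' (l + i) - η (l + i)| := by
  simp_rw [← gr_FF, ← gr_uu]
  rw [sum_gr, sum_gr]
  unfold FF uu up
  simp [h1, h2]

theorem BL_nonneg (k : ℕ) (ξ : ℕ → Site 1 → Bool) (η η' : Inc) (x : ℤ) : 0 ≤ BL k ξ η η' x :=
  Finset.sum_nonneg fun _ _ => loss_nonneg _ _ _ _

theorem BL_succ (k : ℕ) (ξ : ℕ → Site 1 → Bool) (η η' : Inc) (x : ℤ) :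
    BL (k + 1) ξ η η' x = BL k ξ η η' x + loss (zb (ξ k)) (ifw ξ η k) (ifw ξ η' k) x :=
  Finset.sum_range_succ _ _

theorem block_le (ξ : ℕ → Site 1 → Bool) (η η' : Inc) (k : ℕ) (l : ℤ) (n : ℕ) :
    ∑ i ∈ Finset.range n, (|ifw ξ η' k (l + i) - ifw ξ η k (l + i)| + BL k ξ η η' (l + i)) ≤
      ∑ i ∈ Finset.range (n + 2 * k), |η' (l - k + i) - η (l - k + i)| := by
  induction k generalizing l n with
  | zero => simp [ifw, BL]
  | succ k ih =>
    have h1 := window_le (zb (ξ k)) (ifw ξ η k) (ifw ξ η' k) l n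
    have h2 : ∑ i ∈ Finset.range n, BL k ξ η η' (l + i) ≤
        ∑ i ∈ Finset.range (n + 2), BL k ξ η η' (l - 1 + i) := by
      have e : ∀ i : ℕ, BL k ξ η η' (l - 1 + ((i + 1 : ℕ) : ℤ)) = BL k ξ η η' (l + i) :=
        fun i => by congr 1; push_cast; ring
      have a0 : ∑ i ∈ Finset.range (n + 1), BL k ξ η η' (l - 1 + i) =
          ∑ i ∈ Finset.range n, BL k ξ η η' (l - 1 + ((i + 1 : ℕ) : ℤ)) +
            BL k ξ η η' (l - 1 + ((0 : ℕ) : ℤ)) :=
        Finset.sum_range_succ' (fun i : ℕ => BL k ξ η η' (l - 1 + i)) n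
      have a1 := BL_nonneg k ξ η η' (l - 1 + ((0 : ℕ) : ℤ))
      have a2 := BL_nonneg k ξ η η' (l - 1 + ((n + 1 : ℕ) : ℤ))
      rw [Finset.sum_range_succ _ (n + 1), a0, Finset.sum_congr rfl fun i _ => e i]
      omega
    have h3 := ih (l - 1) (n + 2)
    have e1 : n + 2 + 2 * k = n + 2 * (k + 1) := by ring
    have e2 : l - 1 - (k : ℤ) = l - ((k + 1 : ℕ) : ℤ) := by push_cast; ring
    rw [e1, e2] at h3
    rw [Finset.sum_add_distrib] at h1 h3 ⊢
    have h4 : ∑ i ∈ Finset.range n, BL (k + 1) ξ η η' (l + i) =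
        ∑ i ∈ Finset.range n, BL k ξ η η' (l + i) +
          ∑ i ∈ Finset.range n, loss (zb (ξ k)) (ifw ξ η k) (ifw ξ η' k) (l + i) := by
      rw [← Finset.sum_add_distrib]
      exact Finset.sum_congr rfl fun i _ => BL_succ _ _ _ _ _
    rw [h4]
    have h5 : ∑ i ∈ Finset.range n, |ifw ξ η' (k + 1) (l + i) - ifw ξ η (k + 1) (l + i)| =
        ∑ i ∈ Finset.range n, |ng (zb (ξ k)) (ifw ξ η' k) (l + i) -
          ng (zb (ξ k)) (ifw ξ η k) (l + i)| := rfl
    rw [h5]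
    omega

end Pool.MP4bb68cCl
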