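import Pool.Agent.Work.MP_4bb68c_cl.Meas

/-!
# ShiftI (size S-M): invariance under the shift

`sha ξ j z = ξ j (z + pt 1)` (shift of the sites). `zb (fun z => ξ (z + pt 1)) x = zb ξ (x + 1)` (`pt x + pt 1 = pt (x + 1)`), so
`istep (fun z => ξ (z + pt 1)) (sh η) = sh (istep ξ η)`, `ifw_sh` by induction on `j`, and `BL_sh` (`mx (sh η) (sh η') = sh (mx η η')`).
`arr_sh`: `arrLaw 1 δ = Measure.infinitePi (fun _ => siteLaw 1 δ)`; the map acts on every coordinate by
`fun ξ z => ξ (z + pt 1)`, which preserves `siteLaw 1 δ` (`siteLaw_map_equiv (Equiv.addRight (pt 1))`, pr/Run); use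
`Measure.infinitePi_map` / `Measure.infinitePi_map_pi` (image of a product measure under a product of maps), or
`Measure.eq_infinitePi` (check on `Set.pi`).
`joint_sh`: `Measure.map_prod_map` with `hπ` and `arr_sh`.
`PI_shInv`: map both sides of `joint_sh` by `(p, ξ) ↦ (ifw ξ p.1 j, ifw ξ p.2 j)` and use `ifw_sh`.
-/

set_option autoImplicit false

open MeasureTheory ProbabilityTheory
open scoped NNReal ENNReal

namespace Pool.MP4bb68cCl

open Pool.MP4bb68c Pool.MP4bb68cOne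

/-- The shift of the sites of the slot variables. -/
def sha (ξ : ℕ → Site 1 → Bool) : ℕ → Site 1 → Bool := fun j z => ξ j (z + pt 1)

private theorem measurable_sht :
    Measurable (fun (ξ : Site 1 → Bool) (z : Site 1) => ξ (z + pt 1)) := by
  fun_prop

theorem measurable_sha : Measurable sha := by
  rw [measurable_pi_iff]
  intro j
  exact measurable_sht.comp (measurable_pi_apply j)

private theorem zb_sh (ξ : Site 1 → Bool) (x : ℤ) :
    zb (fun z => ξ (z + pt 1)) x = zb ξ (x + 1) := rfl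

private theorem ng_sh (ξ : Site 1 → Bool) (η : Inc) :
    ng (zb (fun z => ξ (z + pt 1))) (sh η) = sh (ng (zb ξ) η) := by
  funext x
  have e1 : x - 1 + 1 = x + 1 - 1 := by ring
  unfold ng sh
  rw [zb_sh, zb_sh, e1]

private theorem istep_sh (ξ : Site 1 → Bool) (η : Inc) :
    istep (fun z => ξ (z + pt 1)) (sh η) = sh (istep ξ η) := ng_sh ξ η

theorem ifw_sh (ξ : ℕ → Site 1 → Bool) (η : Inc) (j : ℕ) :
    ifw (sha ξ) (sh η) j = sh (ifw ξ η j) := by
  induction j with
  | zero => rfl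
  | succ j ih =>
    show istep (fun z => ξ j (z + pt 1)) (ifw (sha ξ) (sh η) j) = sh (istep (ξ j) (ifw ξ η j))
    rw [ih, istep_sh]

theorem BL_sh (k : ℕ) (ξ : ℕ → Site 1 → Bool) (η η' : Inc) (x : ℤ) :
    BL k (sha ξ) (sh η) (sh η') x = BL k ξ η η' (x + 1) := by
  unfold BL
  refine Finset.sum_congr rfl fun j _ => ?_
  rw [ifw_sh, ifw_sh]
  show loss (zb (fun z => ξ j (z + pt 1))) (sh (ifw ξ η j)) (sh (ifw ξ η' j)) x =
    loss (zb (ξ j)) (ifw ξ η j) (ifw ξ η' j) (x + 1)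
  have h1 : mx (sh (ifw ξ η j)) (sh (ifw ξ η' j)) = sh (mx (ifw ξ η j) (ifw ξ η' j)) := rfl
  unfold loss
  rw [h1, ng_sh, ng_sh, ng_sh]
  rfl

theorem arr_sh (δ : ℝ≥0) : (arrLaw 1 δ).map sha = arrLaw 1 δ := by
  unfold arrLaw
  have h := Measure.infinitePi_map_pi (μ := fun _ : ℕ => siteLaw 1 δ)
    (f := fun (_ : ℕ) (ξ : Site 1 → Bool) (z : Site 1) => ξ (z + pt 1))
    (fun _ => measurable_sht)
  have h2 : (siteLaw 1 δ).map (fun (ξ : Site 1 → Bool) (z : Site 1) => ξ (z + pt 1)) =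
      siteLaw 1 δ := siteLaw_map_equiv (Equiv.addRight (pt 1)) δ
  simp only [h2] at h
  exact h

theorem joint_sh {π : Measure (Inc × Inc)} [IsProbabilityMeasure π] (hπ : ShInv π) (δ : ℝ≥0) :
    (π.prod (arrLaw 1 δ)).map (fun p => ((sh p.1.1, sh p.1.2), sha p.2)) =
      π.prod (arrLaw 1 δ) := by
  have hm : Measurable (fun p : Inc × Inc => (sh p.1, sh p.2)) :=
    (measurable_sh.comp measurable_fst).prodMk (measurable_sh.comp measurable_snd)
  have hπ' : π.map (fun p => (sh p.1, sh p.2)) = π := hπ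
  have h := Measure.map_prod_map π (arrLaw 1 δ) hm measurable_sha
  rw [arr_sh, hπ'] at h
  exact h.symm

private theorem measurable_joint :
    Measurable (fun p : (Inc × Inc) × (ℕ → Site 1 → Bool) =>
      ((sh p.1.1, sh p.1.2), sha p.2)) :=
  ((measurable_sh.comp (measurable_fst.comp measurable_fst)).prodMk
    (measurable_sh.comp (measurable_snd.comp measurable_fst))).prodMk
    (measurable_sha.comp measurable_snd)

theorem PI_shInv {π : Measure (Inc × Inc)} [IsProbabilityMeasure π] (hπ : ShInv π) (δ : ℝ≥0)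
    (j : ℕ) : ShInv (PI π δ j) := by
  have hm : Measurable (fun p : Inc × Inc => (sh p.1, sh p.2)) :=
    (measurable_sh.comp measurable_fst).prodMk (measurable_sh.comp measurable_snd)
  unfold ShInv PI
  rw [Measure.map_map hm (measurable_pair j)]
  conv_rhs => rw [← joint_sh hπ δ]
  rw [Measure.map_map (measurable_pair j) measurable_joint]
  congr 1
  funext p
  show (sh (ifw p.2 p.1.1 j), sh (ifw p.2 p.1.2 j)) =
    (ifw (sha p.2) (sh p.1.1) j, ifw (sha p.2) (sh p.1.2) j)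
  rw [ifw_sh, ifw_sh]

/-- Events and expectations at all sites are the same. -/
theorem lintegral_sh {π : Measure (Inc × Inc)} [IsProbabilityMeasure π] (hπ : ShInv π)
    {F : ℤ → ℤ → ℝ≥0∞} (x : ℤ) :
    ∫⁻ p, F (p.1 x) (p.2 x) ∂π = ∫⁻ p, F (p.1 0) (p.2 0) ∂π := by
  have hm : Measurable (fun p : Inc × Inc => (sh p.1, sh p.2)) :=
    (measurable_sh.comp measurable_fst).prodMk (measurable_sh.comp measurable_snd)
  have hF : ∀ y : ℤ, Measurable (fun p : Inc × Inc => F (p.1 y) (p.2 y)) := by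
    intro y
    have h1 : Measurable (fun q : ℤ × ℤ => F q.1 q.2) := Measurable.of_discrete
    have h2 : Measurable (fun p : Inc × Inc => (p.1 y, p.2 y)) :=
      ((measurable_pi_apply y).comp measurable_fst).prodMk
        ((measurable_pi_apply y).comp measurable_snd)
    exact h1.comp h2
  have key : ∀ y : ℤ, ∫⁻ p, F (p.1 (y + 1)) (p.2 (y + 1)) ∂π = ∫⁻ p, F (p.1 y) (p.2 y) ∂π := by
    intro y
    have hπ' : π.map (fun p => (sh p.1, sh p.2)) = π := hπ
    conv_rhs => rw [← hπ']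
    rw [lintegral_map (hF y) hm]
    rfl
  induction x using Int.induction_on with
  | zero => rfl
  | succ i ih => rw [key, ih]
  | pred i ih =>
    rw [← ih, ← key (-(i : ℤ) - 1)]
    congr 1
    funext p
    rw [sub_add_cancel]

theorem lintegral_BL_sh {π : Measure (Inc × Inc)} [IsProbabilityMeasure π] (hπ : ShInv π)
    (δ : ℝ≥0) (k : ℕ) (x : ℤ) :
    ∫⁻ p, ((BL k p.2 p.1.1 p.1.2 x).toNat : ℝ≥0∞) ∂(π.prod (arrLaw 1 δ)) =
      ∫⁻ p, ((BL k p.2 p.1.1 p.1.2 0).toNat : ℝ≥0∞) ∂(π.prod (arrLaw 1 δ)) := by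
  have hF : ∀ y : ℤ, Measurable (fun p : (Inc × Inc) × (ℕ → Site 1 → Bool) =>
      ((BL k p.2 p.1.1 p.1.2 y).toNat : ℝ≥0∞)) := by
    intro y
    have h1 : Measurable (fun q : ℤ => (q.toNat : ℝ≥0∞)) := Measurable.of_discrete
    exact h1.comp (measurable_BL k y)
  have key : ∀ y : ℤ,
      ∫⁻ p, ((BL k p.2 p.1.1 p.1.2 (y + 1)).toNat : ℝ≥0∞) ∂(π.prod (arrLaw 1 δ)) =
      ∫⁻ p, ((BL k p.2 p.1.1 p.1.2 y).toNat : ℝ≥0∞) ∂(π.prod (arrLaw 1 δ)) := by
    intro y
    conv_rhs => rw [← joint_sh hπ δ]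
    rw [lintegral_map (hF y) measurable_joint]
    congr 1
    funext p
    show _ = ((BL k (sha p.2) (sh p.1.1) (sh p.1.2) y).toNat : ℝ≥0∞)
    rw [BL_sh]
  induction x using Int.induction_on with
  | zero => rfl
  | succ i ih => rw [key, ih]
  | pred i ih =>
    rw [← ih, ← key (-(i : ℤ) - 1)]
    congr 1
    funext p
    rw [sub_add_cancel]

end Pool.MP4bb68cCl
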