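import Pool.Agent.Work.MP_4bb68c_cl.DetB

/-!
# WordA (size S-M): a window in which the updates are the letters of a word

`W = Finset.Icc l r`, all letters of `σ` are strictly between `l` and `r`.

`sched_ends`: induction on `k` (generalizing `σ`, `ξ`); in the second case of `Sched` the letter `s` is not `l` or `r`, and
`ξ 0 (pt l) = true ↔ l = s` is false; the tail of the word has letters in the same range.

`sched_hfw`: first prove a version for two functions `h`, `h₁` which agree on `[l, r]`: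
`hfw ξ h k x = wd σ h₁ x` on `[l, r]`, by induction on `k` (generalizing `ξ`, `σ`, `h`, `h₁`), with
`hfw ξ h (k + 1) = hfw (fun j => ξ (j + 1)) (up (zb (ξ 0)) h) k` (`hfw_succ'`, an induction on `k`). In the
first case no site of `[l, r]` is updated, so `up (zb (ξ 0)) h` agrees with `h` (hence `h₁`) on `[l, r]`. In the second case
exactly `s` is updated, `l < s < r`, so `up (zb (ξ 0)) h` agrees with `up1 s h₁` on `[l, r]` (the new value at `s` uses only
`s - 1, s, s + 1` in `[l, r]`).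

`sched_loss`: by `window_eq` for every slot `j < k` (its ends are not updated by `sched_ends`),
`∑ i < n, loss (zb (ξ j)) .. (l + i) = TV_j - TV_(j+1)` with `TV_j = ∑ i < n, |ifw ξ η' j (l + i) - ifw ξ η j (l + i)|`; sum over `j`
(`Finset.sum_comm`, `Finset.sum_range_sub'`).
-/

set_option autoImplicit false

namespace Pool.MP4bb68cCl

open Pool.MP4bb68c Pool.MP4bb68cOne

theorem hfw_succ' (ξ : ℕ → Site 1 → Bool) (h : ℤ → ℤ) (k : ℕ) :
    hfw ξ h (k + 1) = hfw (fun j => ξ (j + 1)) (up (zb (ξ 0)) h) k := by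
  induction k with
  | zero => rfl
  | succ k ih =>
    show up (zb (ξ (k + 1))) (hfw ξ h (k + 1)) =
      up (zb (ξ (k + 1))) (hfw (fun j => ξ (j + 1)) (up (zb (ξ 0)) h) k)
    rw [ih]

theorem sched_ends {l r : ℤ} (hlr : l ≤ r) {k : ℕ} {σ : List ℤ} (hσ : ∀ s ∈ σ, l < s ∧ s < r)
    {ξ : ℕ → Site 1 → Bool} (hs : Sched (Finset.Icc l r) k σ ξ) :
    ∀ j < k, zb (ξ j) l = false ∧ zb (ξ j) r = false := by
  have hl : l ∈ Finset.Icc l r := Finset.mem_Icc.2 ⟨le_rfl, hlr⟩
  have hr : r ∈ Finset.Icc l r := Finset.mem_Icc.2 ⟨hlr, le_rfl⟩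
  induction k generalizing σ ξ with
  | zero => intro j hj; omega
  | succ k ih =>
    intro j hj
    rcases hs with ⟨h0, hs⟩ | ⟨s, σ', rfl, h0, hs⟩
    · rcases j with _ | j
      · exact ⟨h0 l hl, h0 r hr⟩
      · exact ih hσ hs j (by omega)
    · rcases j with _ | j
      · have hsr := hσ s List.mem_cons_self
        constructor
        · show ξ 0 (pt l) = false
          rw [Bool.eq_false_iff]
          intro h
          have := (h0 l hl).1 h
          omega
        · show ξ 0 (pt r) = false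
          rw [Bool.eq_false_iff]
          intro h
          have := (h0 r hr).1 h
          omega
      · exact ih (fun s hs => hσ s (List.mem_cons_of_mem _ hs)) hs j (by omega)

private theorem sched_hfw_aux {l r : ℤ} {k : ℕ} {σ : List ℤ} (hσ : ∀ s ∈ σ, l < s ∧ s < r)
    {ξ : ℕ → Site 1 → Bool} (hs : Sched (Finset.Icc l r) k σ ξ) (h h₁ : ℤ → ℤ)
    (hh : ∀ x, l ≤ x → x ≤ r → h x = h₁ x) :
    ∀ x, l ≤ x → x ≤ r → hfw ξ h k x = wd σ h₁ x := by
  induction k generalizing σ ξ h h₁ with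
  | zero =>
    have hs' : σ = [] := hs
    subst hs'
    exact hh
  | succ k ih =>
    rw [hfw_succ']
    rcases hs with ⟨h0, hs⟩ | ⟨s, σ', rfl, h0, hs⟩
    · refine ih hσ hs _ _ fun x hx hx' => ?_
      have h1 : zb (ξ 0) x = false := h0 x (Finset.mem_Icc.2 ⟨hx, hx'⟩)
      rw [up, h1]
      exact hh x hx hx'
    · have hsr := hσ s List.mem_cons_self
      show ∀ x, l ≤ x → x ≤ r → hfw (fun j => ξ (j + 1)) (up (zb (ξ 0)) h) k x =
        wd σ' (up1 s h₁) x
      refine ih (fun s hs => hσ s (List.mem_cons_of_mem _ hs)) hs _ _ fun x hx hx' => ?_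
      have h1 : zb (ξ 0) x = true ↔ x = s := h0 x (Finset.mem_Icc.2 ⟨hx, hx'⟩)
      unfold up1 up
      by_cases hxs : x = s
      · rw [if_pos (h1.2 hxs), if_pos (by simpa using hxs), hh x hx hx', hh (x + 1) (by omega) (by omega),
          hh (x - 1) (by omega) (by omega)]
      · rw [if_neg (fun h => hxs (h1.1 h)), if_neg (by simpa using hxs)]
        exact hh x hx hx'

theorem sched_hfw {l r : ℤ} {k : ℕ} {σ : List ℤ} (hσ : ∀ s ∈ σ, l < s ∧ s < r)
    {ξ : ℕ → Site 1 → Bool} (hs : Sched (Finset.Icc l r) k σ ξ) (h : ℤ → ℤ) :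
    ∀ x, l ≤ x → x ≤ r → hfw ξ h k x = wd σ h x :=
  sched_hfw_aux hσ hs h h fun _ _ _ => rfl

theorem sched_loss {l : ℤ} {n : ℕ} {k : ℕ} {σ : List ℤ} (hσ : ∀ s ∈ σ, l < s ∧ s < l + n)
    {ξ : ℕ → Site 1 → Bool} (hs : Sched (Finset.Icc l (l + n)) k σ ξ) (η η' : Inc) :
    ∑ i ∈ Finset.range n, BL k ξ η η' (l + i) =
      ∑ i ∈ Finset.range n, |η' (l + i) - η (l + i)| -
        ∑ i ∈ Finset.range n, |ifw ξ η' k (l + i) - ifw ξ η k (l + i)| := by
  have hends := sched_ends (show l ≤ l + n by omega) hσ hs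
  have hslot : ∀ j ∈ Finset.range k,
      ∑ i ∈ Finset.range n, loss (zb (ξ j)) (ifw ξ η j) (ifw ξ η' j) (l + i) =
        ∑ i ∈ Finset.range n, |ifw ξ η' j (l + i) - ifw ξ η j (l + i)| -
          ∑ i ∈ Finset.range n, |ifw ξ η' (j + 1) (l + i) - ifw ξ η (j + 1) (l + i)| := by
    intro j hj
    have h1 := hends j (Finset.mem_range.1 hj)
    have h2 := window_eq (zb (ξ j)) (ifw ξ η j) (ifw ξ η' j) l n h1.1 h1.2
    rw [Finset.sum_add_distrib] at h2
    have h3 : ∑ i ∈ Finset.range n, |ifw ξ η' (j + 1) (l + i) - ifw ξ η (j + 1) (l + i)| =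
        ∑ i ∈ Finset.range n, |ng (zb (ξ j)) (ifw ξ η' j) (l + i) -
          ng (zb (ξ j)) (ifw ξ η j) (l + i)| := rfl
    rw [h3]
    omega
  unfold BL
  rw [Finset.sum_comm, Finset.sum_congr rfl hslot, Finset.sum_range_sub'
    (fun j => ∑ i ∈ Finset.range n, |ifw ξ η' j (l + i) - ifw ξ η j (l + i)|)]
  rfl

end Pool.MP4bb68cCl
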