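import Pool.Agent.Work.MP_4bb68c_cl.DetA

/-!
# WordB (size S-M): the effect of the word

Let `Q := max (h (-1) + 1) (max (h 0) (h (-2)))`. The first update of `-1` gives the value `Q` at `-1`; `Q` is at least
both neighbours, so every further update of `-1` adds one: after `m + 1` updates of `-1` the value is `Q + m`, nothing else has
changed (`wd (List.replicate (m + 1) (-1)) h`, induction on `m`; use `wd (σ ++ τ) h = wd τ (wd σ h)`). By `hosc`
`Q + K ≥ h (-1) + 1 + K ≥ h x + 1` for all `x` in the window. Then the letters `0, 1, ..., m - 1` (induction on `m ≤ N`): the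
values at `-1, ..., m - 1` are `Q + K`, the others are the old ones: the update of the site `m` takes the maximum of
`h m + 1 ≤ Q + K`, the left neighbour `Q + K` and the right neighbour `h (m + 1) ≤ Q + K`.
-/

set_option autoImplicit false

namespace Pool.MP4bb68cCl

theorem wd_append (σ τ : List ℤ) (h : ℤ → ℤ) : wd (σ ++ τ) h = wd τ (wd σ h) := by
  induction σ generalizing h with
  | nil => rfl
  | cons s σ ih =>
    show wd (σ ++ τ) (up1 s h) = wd τ (wd σ (up1 s h))
    exact ih _

private theorem wordb_self (s : ℤ) (h : ℤ → ℤ) :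
    up1 s h s = max (h s + 1) (max (h (s + 1)) (h (s - 1))) := by
  simp [up1, up]

private theorem wordb_ne {s x : ℤ} (hx : x ≠ s) (h : ℤ → ℤ) : up1 s h x = h x := by
  simp [up1, up, hx]

private theorem wordb_rep (h : ℤ → ℤ) (m : ℕ) :
    wd (List.replicate (m + 1) (-1)) h (-1) =
      max (h (-1) + 1) (max (h 0) (h (-2))) + m ∧
    ∀ x : ℤ, x ≠ -1 → wd (List.replicate (m + 1) (-1)) h x = h x := by
  induction m with
  | zero =>
    refine ⟨?_, fun x hx => ?_⟩
    · show up1 (-1) h (-1) = _
      rw [wordb_self]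
      norm_num
    · show up1 (-1) h x = _
      exact wordb_ne hx h
  | succ m ih =>
    obtain ⟨ih1, ih2⟩ := ih
    have e : wd (List.replicate (m + 1 + 1) (-1)) h =
        up1 (-1) (wd (List.replicate (m + 1) (-1)) h) := by
      rw [List.replicate_succ', wd_append]
      rfl
    rw [e]
    refine ⟨?_, fun x hx => ?_⟩
    · rw [wordb_self, ih1]
      have h1 : (-1 : ℤ) + 1 = 0 := by norm_num
      have h2 : (-1 : ℤ) - 1 = -2 := by norm_num
      rw [h1, h2, ih2 0 (by norm_num), ih2 (-2) (by norm_num)]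
      push_cast
      omega
    · rw [wordb_ne hx, ih2 x hx]

private theorem wordb_range {K N : ℕ} {h g : ℤ → ℤ}
    (hosc : ∀ x y : ℤ, -2 ≤ x → x ≤ N → -2 ≤ y → y ≤ N → h x - h y ≤ K)
    (hg : g (-1) = max (h (-1) + 1) (max (h 0) (h (-2))) + K)
    (hg2 : ∀ x : ℤ, x ≠ -1 → g x = h x) (m : ℕ) (hm : m ≤ N) :
    (∀ x : ℤ, -1 ≤ x → x < m → wd ((List.range m).map (fun i : ℕ => (i : ℤ))) g x =
      max (h (-1) + 1) (max (h 0) (h (-2))) + K) ∧
    (∀ x : ℤ, x < -1 ∨ (m : ℤ) ≤ x →
      wd ((List.range m).map (fun i : ℕ => (i : ℤ))) g x = h x) := by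
  induction m with
  | zero =>
    refine ⟨fun x hx hx2 => ?_, fun x hx => ?_⟩
    · show g x = _
      have : x = -1 := by push_cast at hx2; omega
      rw [this]
      exact hg
    · show g x = _
      exact hg2 x (by push_cast at hx; omega)
  | succ m ih =>
    obtain ⟨ih1, ih2⟩ := ih (by omega)
    have e : wd ((List.range (m + 1)).map (fun i : ℕ => (i : ℤ))) g =
        up1 (m : ℤ) (wd ((List.range m).map (fun i : ℕ => (i : ℤ))) g) := by
      rw [List.range_succ, List.map_append, wd_append]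
      rfl
    rw [e]
    refine ⟨fun x hx hx2 => ?_, fun x hx => ?_⟩
    · by_cases hxm : x = (m : ℤ)
      · rw [hxm, wordb_self, ih2 (m : ℤ) (Or.inr le_rfl), ih2 ((m : ℤ) + 1) (Or.inr (by omega)),
          ih1 ((m : ℤ) - 1) (by omega) (by omega)]
        have h1 := hosc (m : ℤ) (-1) (by omega) (by omega) (by omega) (by omega)
        have h2 := hosc ((m : ℤ) + 1) (-1) (by omega) (by omega) (by omega) (by omega)
        omega
      · rw [wordb_ne hxm]
        exact ih1 x hx (by push_cast at hx2; omega)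
    · rw [wordb_ne (by push_cast at hx; omega)]
      exact ih2 x (by push_cast at hx; omega)

theorem wd_sig {K N : ℕ} {h : ℤ → ℤ}
    (hosc : ∀ x y : ℤ, -2 ≤ x → x ≤ N → -2 ≤ y → y ≤ N → h x - h y ≤ K) :
    wd (sig K N) h (-2) = h (-2) ∧
      (∀ x : ℤ, -1 ≤ x → x < N →
        wd (sig K N) h x = max (h (-1) + 1) (max (h 0) (h (-2))) + K) ∧
      wd (sig K N) h N = h N := by
  have h0 := wordb_rep h K
  obtain ⟨h1, h2⟩ := wordb_range (N := N) hosc h0.1 h0.2 N le_rfl
  have e : wd (sig K N) h = wd ((List.range N).map (fun i : ℕ => (i : ℤ)))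
      (wd (List.replicate (K + 1) (-1)) h) := by
    rw [sig, wd_append]
  rw [e]
  exact ⟨h2 (-2) (Or.inl (by omega)), h1, h2 N (Or.inr le_rfl)⟩

theorem sig_mem {K N : ℕ} {s : ℤ} (hs : s ∈ sig K N) : -2 < s ∧ (s < N ∨ s = -1) := by
  rw [sig, List.mem_append] at hs
  rcases hs with h | h
  · have h1 := List.eq_of_mem_replicate h
    omega
  · rw [List.mem_map] at h
    obtain ⟨i, hi, rfl⟩ := h
    rw [List.mem_range] at hi
    exact ⟨by omega, Or.inl (by exact_mod_cast hi)⟩

end Pool.MP4bb68cCl
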